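import Mathlib

set_option autoImplicit false

namespace Pool.Agent.Graceful.Split

open Finset

/-- indicator of the class of `d` modulo `M` -/
def ei (M d z : ℤ) : ℤ := if z ≡ d [ZMOD M] then 1 else 0

/-- the even weight attached to the classes `a`, `-a`, `0` modulo `M` -/
def chi (M a z : ℤ) : ℤ := ei M a z + ei M (-a) z - 2 * ei M 0 z

theorem ei_neg (M d z : ℤ) : ei M d (-z) = ei M (-d) z := by
  unfold ei
  have : (-z ≡ d [ZMOD M]) ↔ (z ≡ -d [ZMOD M]) := by
    constructor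
    · intro h
      have := h.neg
      rwa [neg_neg] at this
    · intro h
      have := h.neg
      rwa [neg_neg] at this
  simp only [this]

theorem chi_neg (M a z : ℤ) : chi M a (-z) = chi M a z := by
  unfold chi
  rw [ei_neg, ei_neg, ei_neg, neg_neg, neg_zero]
  ring

theorem ei_congr {M d z w : ℤ} (h : z ≡ w [ZMOD M]) : ei M d z = ei M d w := by
  unfold ei
  have : (z ≡ d [ZMOD M]) ↔ (w ≡ d [ZMOD M]) := ⟨fun h' => h.symm.trans h', fun h' => h.trans h'⟩
  simp only [this]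

theorem chi_congr {M a z w : ℤ} (h : z ≡ w [ZMOD M]) : chi M a z = chi M a w := by
  unfold chi
  rw [ei_congr h, ei_congr h, ei_congr h]

theorem sum_ei (M : ℕ) (hM : 0 < M) (d a b : ℤ) (hab : a ≤ b) :
    ∑ n ∈ Ioc a b, ei M d n = (b - d) / M - (a - d) / M := by
  have hM' : (0 : ℤ) < M := by exact_mod_cast hM
  have h1 : ∑ n ∈ Ioc a b, ei M d n = ((#{x ∈ Ioc a b | x ≡ d [ZMOD (M : ℤ)]} : ℕ) : ℤ) := by
    unfold ei
    rw [Finset.sum_boole]
  rw [h1, Int.Ioc_filter_modEq_card a b hM' d]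
  have h2 : ⌊((b : ℚ) - d) / ((M : ℤ) : ℚ)⌋ = (b - d) / (M : ℤ) := by
    have := Rat.floor_intCast_div_natCast (b - d) M
    rw [← this]
    push_cast
    rfl
  have h3 : ⌊((a : ℚ) - d) / ((M : ℤ) : ℚ)⌋ = (a - d) / (M : ℤ) := by
    have := Rat.floor_intCast_div_natCast (a - d) M
    rw [← this]
    push_cast
    rfl
  rw [h2, h3]
  apply max_eq_left
  have : (a - d) / (M : ℤ) ≤ (b - d) / M := Int.ediv_le_ediv hM' (by linarith)
  linarith

/-- `#{1 ≤ L ≤ K : L ≡ ± a} - 2 #{1 ≤ L ≤ K : M ∣ L}` -/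
theorem sum_chi (M : ℕ) (hM : 0 < M) (a K : ℤ) (ha : 0 < a) (haM : a < M) (hK : 0 ≤ K) :
    ∑ n ∈ Ioc 0 K, chi M a n = (K - a) / M + 1 + (K + a) / M - 2 * (K / M) := by
  unfold chi
  have hM' : (0 : ℤ) < M := by exact_mod_cast hM
  rw [Finset.sum_sub_distrib, Finset.sum_add_distrib, ← Finset.mul_sum, sum_ei M hM a 0 K hK,
    sum_ei M hM (-a) 0 K hK, sum_ei M hM 0 0 K hK]
  have h1 : (0 - a) / (M : ℤ) = -1 := by
    rw [Int.ediv_eq_iff_of_pos hM']
    constructor <;> nlinarith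
  have h2 : (0 - -a) / (M : ℤ) = 0 := by
    rw [sub_neg_eq_add, zero_add]
    exact Int.ediv_eq_zero_of_lt ha.le haM
  have h3 : ((0 : ℤ) - 0) / (M : ℤ) = 0 := by simp
  rw [h1, h2, h3]
  have e1 : K - -a = K + a := by ring
  have e2 : K - 0 = K := by ring
  rw [e1, e2]
  linarith

section Main

variable (p g : ℕ) (X : Finset ℤ) (ρ : ℤ)

/-- For `n ≡ ρ` modulo `g` and `d` a multiple of `g`, exactly one element `x` of `X` has
`n - x ≡ d` modulo `p g`. -/
theorem sum_ei_X (hp : 0 < p) (hg : 0 < g) (hX : X.card = p) (hρ : ∀ x ∈ X, x ≡ ρ [ZMOD g])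
    (hinj : ∀ x ∈ X, ∀ y ∈ X, x ≡ y [ZMOD ((p : ℤ) * g)] → x = y) (d n : ℤ)
    (hd : (g : ℤ) ∣ d) :
    ∑ x ∈ X, ei ((p : ℤ) * g) d (n - x) = if n ≡ ρ [ZMOD g] then 1 else 0 := by
  have hgz : (g : ℤ) ≠ 0 := by exact_mod_cast hg.ne'
  haveI : NeZero p := ⟨hp.ne'⟩
  split_ifs with h
  · have hinj' : Set.InjOn (fun x : ℤ => ((((x - ρ) / g : ℤ)) : ZMod p)) X := by
      intro x hx y hy hxy
      simp only at hxy
      rw [ZMod.intCast_eq_intCast_iff] at hxy
      apply hinj x hx y hy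
      obtain ⟨a, ha⟩ := Int.modEq_iff_dvd.mp (hρ x hx).symm
      obtain ⟨b, hb⟩ := Int.modEq_iff_dvd.mp (hρ y hy).symm
      rw [ha, hb, Int.mul_ediv_cancel_left _ hgz, Int.mul_ediv_cancel_left _ hgz] at hxy
      have h7 := Int.ModEq.mul_left' (c := (g : ℤ)) hxy
      rw [mul_comm (g : ℤ) (p : ℤ)] at h7
      have h8 : x = ρ + g * a := by linarith
      have h9 : y = ρ + g * b := by linarith
      rw [h8, h9]
      exact Int.ModEq.add_left _ h7
    have himg : X.image (fun x : ℤ => ((((x - ρ) / g : ℤ)) : ZMod p)) = Finset.univ := by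
      apply Finset.eq_univ_of_card
      rw [Finset.card_image_of_injOn hinj', hX, ZMod.card]
    have hgd : (g : ℤ) ∣ n - d - ρ := by
      have h1 := Int.modEq_iff_dvd.mp h.symm
      have e : n - d - ρ = n - ρ - d := by ring
      rw [e]
      exact dvd_sub h1 hd
    obtain ⟨e, he⟩ := hgd
    have h10 : ((e : ℤ) : ZMod p) ∈ X.image (fun x : ℤ => ((((x - ρ) / g : ℤ)) : ZMod p)) := by
      rw [himg]
      exact Finset.mem_univ _
    obtain ⟨x, hx, hxe⟩ := Finset.mem_image.mp h10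
    rw [ZMod.intCast_eq_intCast_iff] at hxe
    obtain ⟨a, ha⟩ := Int.modEq_iff_dvd.mp (hρ x hx).symm
    rw [ha, Int.mul_ediv_cancel_left _ hgz] at hxe
    have h7 := Int.ModEq.mul_left' (c := (g : ℤ)) hxe
    rw [mul_comm (g : ℤ) (p : ℤ)] at h7
    have h8 : x = ρ + g * a := by linarith
    have h9 : n - d = ρ + g * e := by linarith
    have h11 : x ≡ n - d [ZMOD ((p : ℤ) * g)] := by
      rw [h8, h9]
      exact Int.ModEq.add_left _ h7
    rw [Finset.sum_eq_single x]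
    · unfold ei
      rw [if_pos]
      have := Int.ModEq.sub_left n h11
      have e2 : n - (n - d) = d := by ring
      rwa [e2] at this
    · intro y hy hyx
      unfold ei
      rw [if_neg]
      intro hyd
      apply hyx
      apply hinj y hy x hx
      have h12 : y ≡ n - d [ZMOD ((p : ℤ) * g)] := by
        have := Int.ModEq.sub_left n hyd
        have e2 : n - (n - y) = y := by ring
        rwa [e2] at this
      exact h12.trans h11.symm
    · intro hx'
      exact absurd hx hx'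
  · apply Finset.sum_eq_zero
    intro x hx
    unfold ei
    rw [if_neg]
    intro hyd
    apply h
    have h1 : n - x ≡ d [ZMOD g] := hyd.of_dvd (Dvd.intro_left _ rfl)
    have h2 : d ≡ 0 [ZMOD g] := by
      rw [Int.modEq_zero_iff_dvd]
      exact hd
    have h3 := (h1.trans h2).add (hρ x hx)
    rw [sub_add_cancel, zero_add] at h3
    exact h3

theorem sum_chi_X (hp : 0 < p) (hg : 0 < g) (hX : X.card = p) (hρ : ∀ x ∈ X, x ≡ ρ [ZMOD g])
    (hinj : ∀ x ∈ X, ∀ y ∈ X, x ≡ y [ZMOD ((p : ℤ) * g)] → x = y) (a n : ℤ)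
    (ha : (g : ℤ) ∣ a) :
    ∑ x ∈ X, chi ((p : ℤ) * g) a (n - x) = 0 := by
  unfold chi
  rw [Finset.sum_sub_distrib, Finset.sum_add_distrib, ← Finset.mul_sum,
    sum_ei_X p g X ρ hp hg hX hρ hinj a n ha, sum_ei_X p g X ρ hp hg hX hρ hinj (-a) n ha.neg_right,
    sum_ei_X p g X ρ hp hg hX hρ hinj 0 n (dvd_zero _)]
  ring

end Main

end Pool.Agent.Graceful.Split
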