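import Mathlib
import Pool.Agent.Lib.MP_7616b3_co.Ident

set_option autoImplicit false

namespace Pool.Agent.Graceful.Split

open Finset

open Classical in
/-- indicator function of a set of integers -/
noncomputable def ind (N : Set ℤ) (n : ℤ) : ℤ := if n ∈ N then 1 else 0

/-- the number of edges with label `L` in the join of the complete graph on `X` with the
independent set `N` (`L ≥ 1`) -/
noncomputable def cX (X : Finset ℤ) (N : Set ℤ) (L : ℤ) : ℤ :=
  ∑ x ∈ X, ((if x + L ∈ X then 1 else 0) + ind N (x + L) + ind N (x - L))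

theorem ind_of_mem {N : Set ℤ} {n : ℤ} (h : n ∈ N) : ind N n = 1 := by
  unfold ind; rw [if_pos h]

theorem ind_of_notMem {N : Set ℤ} {n : ℤ} (h : n ∉ N) : ind N n = 0 := by
  unfold ind; rw [if_neg h]

theorem sum_right (w : ℤ → ℤ) (N : Set ℤ) (x Λ : ℤ) :
    ∑ L ∈ Ioc 0 Λ, w L * ind N (x + L) = ∑ n ∈ Ioc x (x + Λ), w (n - x) * ind N n := by
  refine Finset.sum_nbij' (fun L => x + L) (fun n => n - x) ?_ ?_ ?_ ?_ ?_
  · intro L hL
    rw [Finset.mem_Ioc] at hL ⊢
    constructor <;> linarith [hL.1, hL.2]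
  · intro n hn
    rw [Finset.mem_Ioc] at hn ⊢
    constructor <;> linarith [hn.1, hn.2]
  · intro L _
    ring
  · intro n _
    ring
  · intro L _
    have e : x + L - x = L := by ring
    rw [e]

theorem sum_left (w : ℤ → ℤ) (hw : ∀ z, w (-z) = w z) (N : Set ℤ) (x Λ : ℤ) :
    ∑ L ∈ Ioc 0 Λ, w L * ind N (x - L) = ∑ n ∈ Ico (x - Λ) x, w (n - x) * ind N n := by
  refine Finset.sum_nbij' (fun L => x - L) (fun n => x - n) ?_ ?_ ?_ ?_ ?_
  · intro L hL
    rw [Finset.mem_Ioc] at hL
    rw [Finset.mem_Ico]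
    constructor <;> linarith [hL.1, hL.2]
  · intro n hn
    rw [Finset.mem_Ico] at hn
    rw [Finset.mem_Ioc]
    constructor <;> linarith [hn.1, hn.2]
  · intro L _
    ring
  · intro n _
    ring
  · intro L _
    have e : x - L - x = -L := by ring
    rw [e, hw]

theorem sum_both (w : ℤ → ℤ) (hw : ∀ z, w (-z) = w z) (N : Set ℤ) (hN0 : ∀ n ∈ N, 0 ≤ n)
    (x Λ : ℤ) (hx0 : 0 ≤ x) (hxN : x ∉ N) (hxΛ : x ≤ Λ) :
    ∑ L ∈ Ioc 0 Λ, w L * ind N (x + L) + ∑ L ∈ Ioc 0 Λ, w L * ind N (x - L)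
      = ∑ n ∈ Icc 0 Λ, w (n - x) * ind N n + ∑ n ∈ Ioc Λ (Λ + x), w (n - x) * ind N n := by
  rw [sum_right, sum_left w hw]
  have h1 : ∑ n ∈ Ico (x - Λ) x, w (n - x) * ind N n = ∑ n ∈ Ico 0 x, w (n - x) * ind N n := by
    symm
    apply Finset.sum_subset
    · intro n hn
      rw [Finset.mem_Ico] at hn ⊢
      constructor <;> linarith [hn.1, hn.2]
    · intro n _ hn'
      rw [ind_of_notMem, mul_zero]
      intro hnN
      apply hn'
      rw [Finset.mem_Ico]
      rename_i hn
      rw [Finset.mem_Ico] at hn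
      exact ⟨hN0 n hnN, hn.2⟩
  have h2 : ∑ n ∈ Icc 0 (x + Λ), w (n - x) * ind N n
      = ∑ n ∈ Ico 0 x, w (n - x) * ind N n + ∑ n ∈ Ioc x (x + Λ), w (n - x) * ind N n := by
    have hsplit : Icc 0 (x + Λ) = (Ico 0 x ∪ {x}) ∪ Ioc x (x + Λ) := by
      ext n
      simp only [Finset.mem_Icc, Finset.mem_union, Finset.mem_Ico, Finset.mem_singleton,
        Finset.mem_Ioc]
      constructor
      · rintro ⟨h, h'⟩
        rcases lt_trichotomy n x with h'' | h'' | h''
        · exact Or.inl (Or.inl ⟨h, h''⟩)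
        · exact Or.inl (Or.inr h'')
        · exact Or.inr ⟨h'', h'⟩
      · rintro ((⟨h, h'⟩ | h) | ⟨h, h'⟩)
        · constructor <;> linarith
        · constructor <;> linarith
        · constructor <;> linarith
    rw [hsplit, Finset.sum_union, Finset.sum_union, Finset.sum_singleton, ind_of_notMem hxN,
      mul_zero, add_zero]
    · rw [Finset.disjoint_singleton_right, Finset.mem_Ico]
      rintro ⟨_, h⟩
      exact lt_irrefl _ h
    · rw [Finset.disjoint_left]
      intro n hn hn'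
      rw [Finset.mem_union, Finset.mem_Ico, Finset.mem_singleton] at hn
      rw [Finset.mem_Ioc] at hn'
      rcases hn with ⟨_, h⟩ | h <;> linarith [hn'.1]
  have h3 : ∑ n ∈ Icc 0 (x + Λ), w (n - x) * ind N n
      = ∑ n ∈ Icc 0 Λ, w (n - x) * ind N n + ∑ n ∈ Ioc Λ (Λ + x), w (n - x) * ind N n := by
    have hsplit : Icc 0 (x + Λ) = Icc 0 Λ ∪ Ioc Λ (Λ + x) := by
      ext n
      simp only [Finset.mem_Icc, Finset.mem_union, Finset.mem_Ioc]
      constructor
      · rintro ⟨h, h'⟩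
        rcases le_or_gt n Λ with h'' | h''
        · exact Or.inl ⟨h, h''⟩
        · exact Or.inr ⟨h'', by linarith⟩
      · rintro (⟨h, h'⟩ | ⟨h, h'⟩)
        · constructor <;> linarith
        · constructor <;> linarith
    rw [hsplit, Finset.sum_union]
    rw [Finset.disjoint_left]
    intro n hn hn'
    rw [Finset.mem_Icc] at hn
    rw [Finset.mem_Ioc] at hn'
    linarith [hn.2, hn'.1]
  rw [h1, ← h3, h2]
  ring

/-- the inner pairs -/
theorem sum_inner (w : ℤ → ℤ) (hw : ∀ z, w (-z) = w z) (X : Finset ℤ)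
    (hX0 : ∀ x ∈ X, 0 ≤ x) (Λ : ℤ) (hXΛ : ∀ x ∈ X, x ≤ Λ)
    (hsum : ∀ n : ℤ, ∑ x ∈ X, w (n - x) = 0) :
    2 * ∑ x ∈ X, ∑ L ∈ Ioc 0 Λ, w L * (if x + L ∈ X then 1 else 0) = - X.card * w 0 := by
  have h1 : ∀ x ∈ X, ∑ L ∈ Ioc 0 Λ, w L * (if x + L ∈ X then 1 else 0)
      = ∑ y ∈ X, if x < y then w (y - x) else 0 := by
    intro x hx
    rw [← Finset.sum_filter]
    have h2 : ∑ L ∈ Ioc 0 Λ, w L * (if x + L ∈ X then (1 : ℤ) else 0)
        = ∑ L ∈ (Ioc 0 Λ).filter (fun L => x + L ∈ X), w L := by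
      rw [Finset.sum_filter]
      apply Finset.sum_congr rfl
      intro L _
      split_ifs <;> ring
    rw [h2]
    refine Finset.sum_nbij' (fun L => x + L) (fun n => n - x) ?_ ?_ ?_ ?_ ?_
    · intro L hL
      rw [Finset.mem_filter, Finset.mem_Ioc] at hL
      rw [Finset.mem_filter]
      exact ⟨hL.2, by linarith [hL.1.1]⟩
    · intro n hn
      rw [Finset.mem_filter] at hn
      rw [Finset.mem_filter, Finset.mem_Ioc]
      refine ⟨⟨by linarith [hn.2], ?_⟩, ?_⟩
      · have := hXΛ n hn.1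
        have := hX0 x hx
        linarith
      · have e : x + (n - x) = n := by ring
        rw [e]
        exact hn.1
    · intro L _
      ring
    · intro n _
      ring
    · intro L _
      have e : x + L - x = L := by ring
      rw [e]
  rw [Finset.sum_congr rfl h1]
  have h3 : ∑ x ∈ X, ∑ y ∈ X, (if x < y then w (y - x) else 0)
      = ∑ x ∈ X, ∑ y ∈ X, (if y < x then w (y - x) else 0) := by
    rw [Finset.sum_comm]
    apply Finset.sum_congr rfl
    intro y _
    apply Finset.sum_congr rfl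
    intro x _
    split_ifs
    · rw [← hw]
      congr 1
      ring
    · rfl
  have h4 : ∑ x ∈ X, ∑ y ∈ X, w (y - x) = 0 := by
    rw [Finset.sum_comm]
    apply Finset.sum_eq_zero
    intro y _
    exact hsum y
  have h5 : ∑ x ∈ X, ∑ y ∈ X, w (y - x)
      = ∑ x ∈ X, ∑ y ∈ X, (if x < y then w (y - x) else 0)
        + ∑ x ∈ X, ∑ y ∈ X, (if y < x then w (y - x) else 0)
        + ∑ x ∈ X, w 0 := by
    rw [← Finset.sum_add_distrib, ← Finset.sum_add_distrib]
    apply Finset.sum_congr rfl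
    intro x hx
    have h6 : w 0 = ∑ y ∈ X, if y = x then w 0 else 0 := by
      rw [Finset.sum_ite_eq' X x, if_pos hx]
    rw [h6, ← Finset.sum_add_distrib, ← Finset.sum_add_distrib]
    apply Finset.sum_congr rfl
    intro y _
    rcases lt_trichotomy x y with h | h | h
    · rw [if_pos h, if_neg (by linarith), if_neg (by intro h'; linarith)]
      ring
    · subst h
      simp
    · rw [if_neg (by linarith), if_pos h, if_neg (by intro h'; linarith)]
      ring
  rw [Finset.sum_const, nsmul_eq_mul] at h5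
  linarith

end Pool.Agent.Graceful.Split
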