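import Mathlib
import Pool.Agent.Lib.MP_7616b3_co.Ident2

set_option autoImplicit false

namespace Pool.Agent.Graceful.Split

open Finset

/-- beyond `B` only the class of `Λ` modulo `p g` contributes -/
theorem tail_sum (p g : ℕ) (hp : 0 < p) (hg : 0 < g) (ρ : ℤ) (N : Set ℤ) (s B : ℤ)
    (hs : s ≡ ρ [ZMOD g])
    (hNs : ∀ n : ℤ, B ≤ n → n ≡ ρ [ZMOD g] → (n ∈ N ↔ n ≡ s [ZMOD ((p : ℤ) * g)]))
    (a : ℤ) (ha : (g : ℤ) ∣ a) (Λ : ℤ) (hΛB : B ≤ Λ) (hΛs : Λ ≡ s [ZMOD ((p : ℤ) * g)])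
    (x : ℤ) (hx0 : 0 ≤ x) (hxρ : x ≡ ρ [ZMOD g]) :
    ∑ n ∈ Ioc Λ (Λ + x), chi ((p : ℤ) * g) a (n - x) * ind N n
      = chi ((p : ℤ) * g) a (Λ - x) * (x / ((p : ℤ) * g)) := by
  have hgM : ∀ u v : ℤ, u ≡ v [ZMOD ((p : ℤ) * g)] → u ≡ v [ZMOD g] := fun u v h =>
    h.of_dvd (Dvd.intro_left _ rfl)
  have h1 : ∀ n ∈ Ioc Λ (Λ + x), chi ((p : ℤ) * g) a (n - x) * ind N n
      = chi ((p : ℤ) * g) a (Λ - x) * ei ((p : ℤ) * g) Λ n := by
    intro n hn
    rw [Finset.mem_Ioc] at hn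
    by_cases h : n ≡ Λ [ZMOD ((p : ℤ) * g)]
    · have h2 : n ∈ N := by
        rw [hNs n (by linarith [hn.1])]
        · exact h.trans hΛs
        · exact (hgM _ _ (h.trans hΛs)).trans hs
      rw [ind_of_mem h2, chi_congr (h.sub_right x)]
      unfold ei
      rw [if_pos h]
    · have h3 : ei ((p : ℤ) * g) Λ n = 0 := by
        unfold ei
        rw [if_neg h]
      rw [h3, mul_zero]
      by_cases h4 : n ≡ ρ [ZMOD g]
      · rw [ind_of_notMem, mul_zero]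
        rw [hNs n (by linarith [hn.1]) h4]
        intro h5
        exact h (h5.trans hΛs.symm)
      · have h6 : ∀ d : ℤ, (g : ℤ) ∣ d → ei ((p : ℤ) * g) d (n - x) = 0 := by
          intro d hd
          unfold ei
          rw [if_neg]
          intro h7
          apply h4
          have h8 := hgM _ _ h7
          have h9 : d ≡ 0 [ZMOD g] := by
            rw [Int.modEq_zero_iff_dvd]
            exact hd
          have h10 := (h8.trans h9).add hxρ
          rw [sub_add_cancel, zero_add] at h10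
          exact h10
        unfold chi
        rw [h6 a ha, h6 (-a) ha.neg_right, h6 0 (dvd_zero _)]
        ring
  rw [Finset.sum_congr rfl h1, ← Finset.mul_sum]
  congr 1
  have h2 := sum_ei (p * g) (Nat.mul_pos hp hg) Λ Λ (Λ + x) (by linarith)
  push_cast at h2
  rw [h2]
  have e1 : Λ + x - Λ = x := by ring
  rw [e1, sub_self, Int.zero_ediv, sub_zero]

theorem ediv_sub_of_modEq {M u v : ℤ} (hM : 0 < M) (h : u ≡ v [ZMOD M]) :
    M * (u / M - v / M) = u - v := by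
  obtain ⟨t, ht⟩ := Int.modEq_iff_dvd.mp h
  have h1 : v = u + M * t := by linarith
  rw [h1, Int.add_mul_ediv_left _ _ hM.ne']
  ring

/-- The identity relating three hub labels. -/
theorem main_identity (p g : ℕ) (hp : 0 < p) (hg : 0 < g) (X : Finset ℤ) (hX : X.card = p)
    (hX0 : ∀ x ∈ X, 0 ≤ x) (ρ : ℤ) (hρ : ∀ x ∈ X, x ≡ ρ [ZMOD g])
    (hinj : ∀ x ∈ X, ∀ y ∈ X, x ≡ y [ZMOD ((p : ℤ) * g)] → x = y)
    (N : Set ℤ) (hN0 : ∀ n ∈ N, 0 ≤ n) (hXN : ∀ x ∈ X, x ∉ N) (s B : ℤ)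
    (hs : s ≡ ρ [ZMOD g])
    (hNs : ∀ n : ℤ, B ≤ n → n ≡ ρ [ZMOD g] → (n ∈ N ↔ n ≡ s [ZMOD ((p : ℤ) * g)]))
    (δ : ℤ → ℤ) (k : ℤ) (hk : 1 ≤ k)
    (hc : ∀ L : ℤ, 1 ≤ L → cX X N L = (if k ≤ L then 1 else 0) + δ L)
    (a : ℤ) (ha : (g : ℤ) ∣ a) (ha0 : 0 < a) (haM : a < (p : ℤ) * g)
    (Λ : ℤ) (hΛB : B ≤ Λ) (hΛs : Λ ≡ s [ZMOD ((p : ℤ) * g)]) (hΛ0 : 0 ≤ Λ) (hΛk : k ≤ Λ)
    (hXΛ : ∀ x ∈ X, x ≤ Λ) (x1 x2 x0 : ℤ) (h1 : x1 ∈ X) (h2 : x2 ∈ X) (h0 : x0 ∈ X)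
    (h1a : x1 ≡ Λ - a [ZMOD ((p : ℤ) * g)]) (h2a : x2 ≡ Λ + a [ZMOD ((p : ℤ) * g)])
    (h0a : x0 ≡ Λ [ZMOD ((p : ℤ) * g)]) :
    2 * x0 - x1 - x2 = ((p : ℤ) * g) * (p - 1 + ∑ L ∈ Ioc 0 (k - 1), chi ((p : ℤ) * g) a L
      - ∑ L ∈ Ioc 0 Λ, chi ((p : ℤ) * g) a L * δ L) := by
  set M : ℤ := (p : ℤ) * g with hMdef
  have hM : 0 < M := by
    rw [hMdef]
    positivity
  have hpz : (p : ℤ) ≠ 0 := by exact_mod_cast hp.ne'
  -- the value of `chi` at zero
  have hchi0 : chi M a 0 = -2 := by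
    unfold chi ei
    rw [if_neg, if_neg, if_pos]
    · ring
    · exact Int.ModEq.refl _
    · intro h
      have := Int.modEq_iff_dvd.mp h
      rw [sub_zero] at this
      have := Int.le_of_dvd ha0 ((dvd_neg).mp this)
      linarith
    · intro h
      have := Int.modEq_iff_dvd.mp h
      rw [sub_zero] at this
      have := Int.le_of_dvd ha0 this
      linarith
  have hsum0 : ∀ n : ℤ, ∑ x ∈ X, chi M a (n - x) = 0 := fun n =>
    sum_chi_X p g X ρ hp hg hX hρ hinj a n ha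
  -- first evaluation
  have hS1 : ∑ L ∈ Ioc 0 Λ, chi M a L * cX X N L
      = ∑ L ∈ Ioc 0 Λ, chi M a L - ∑ L ∈ Ioc 0 (k - 1), chi M a L
        + ∑ L ∈ Ioc 0 Λ, chi M a L * δ L := by
    have e1 : ∀ L ∈ Ioc 0 Λ, chi M a L * cX X N L
        = chi M a L - (if k ≤ L then 0 else chi M a L) + chi M a L * δ L := by
      intro L hL
      rw [Finset.mem_Ioc] at hL
      rw [hc L (by linarith [hL.1])]
      split_ifs <;> ring
    rw [Finset.sum_congr rfl e1, Finset.sum_add_distrib, Finset.sum_sub_distrib]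
    congr 2
    have e2 : Ioc 0 (k - 1) = (Ioc 0 Λ).filter (fun L => ¬ k ≤ L) := by
      ext L
      rw [Finset.mem_filter, Finset.mem_Ioc, Finset.mem_Ioc]
      constructor
      · rintro ⟨h, h'⟩
        exact ⟨⟨h, by linarith⟩, by linarith⟩
      · rintro ⟨⟨h, _⟩, h'⟩
        exact ⟨h, by push Not at h'; linarith⟩
    rw [e2, Finset.sum_filter]
    apply Finset.sum_congr rfl
    intro L _
    by_cases h : k ≤ L
    · rw [if_pos h, if_neg (not_not.mpr h)]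
    · rw [if_neg h, if_pos h]
  -- second evaluation
  have hS2 : ∑ L ∈ Ioc 0 Λ, chi M a L * cX X N L
      = ∑ x ∈ X, ∑ L ∈ Ioc 0 Λ, chi M a L * (if x + L ∈ X then 1 else 0)
        + ∑ x ∈ X, (∑ L ∈ Ioc 0 Λ, chi M a L * ind N (x + L)
          + ∑ L ∈ Ioc 0 Λ, chi M a L * ind N (x - L)) := by
    unfold cX
    rw [← Finset.sum_add_distrib]
    have e1 : ∀ L ∈ Ioc 0 Λ, chi M a L * ∑ x ∈ X, ((if x + L ∈ X then 1 else 0) + ind N (x + L)
        + ind N (x - L)) = ∑ x ∈ X, (chi M a L * (if x + L ∈ X then 1 else 0)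
          + (chi M a L * ind N (x + L) + chi M a L * ind N (x - L))) := by
      intro L _
      rw [Finset.mul_sum]
      apply Finset.sum_congr rfl
      intro x _
      ring
    rw [Finset.sum_congr rfl e1, Finset.sum_comm]
    apply Finset.sum_congr rfl
    intro x _
    rw [Finset.sum_add_distrib, Finset.sum_add_distrib]
  have hinner : ∑ x ∈ X, ∑ L ∈ Ioc 0 Λ, chi M a L * (if x + L ∈ X then 1 else 0) = p := by
    have := sum_inner (chi M a) (chi_neg M a) X hX0 Λ hXΛ hsum0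
    rw [hchi0, hX] at this
    linarith
  have houter : ∑ x ∈ X, (∑ L ∈ Ioc 0 Λ, chi M a L * ind N (x + L)
          + ∑ L ∈ Ioc 0 Λ, chi M a L * ind N (x - L))
        = ∑ x ∈ X, chi M a (Λ - x) * (x / M) := by
    have e1 : ∀ x ∈ X, (∑ L ∈ Ioc 0 Λ, chi M a L * ind N (x + L)
          + ∑ L ∈ Ioc 0 Λ, chi M a L * ind N (x - L))
        = ∑ n ∈ Icc 0 Λ, chi M a (n - x) * ind N n + chi M a (Λ - x) * (x / M) := by
      intro x hx
      rw [sum_both (chi M a) (chi_neg M a) N hN0 x Λ (hX0 x hx) (hXN x hx) (hXΛ x hx),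
        tail_sum p g hp hg ρ N s B hs hNs a ha Λ hΛB hΛs x (hX0 x hx) (hρ x hx)]
    rw [Finset.sum_congr rfl e1, Finset.sum_add_distrib, Finset.sum_comm]
    have e2 : ∀ n ∈ Icc 0 Λ, ∑ x ∈ X, chi M a (n - x) * ind N n = 0 := by
      intro n _
      rw [← Finset.sum_mul, hsum0 n, zero_mul]
    rw [Finset.sum_congr rfl e2, Finset.sum_const_zero, zero_add]
  -- evaluation of the boundary sum
  have hbd : ∑ x ∈ X, chi M a (Λ - x) * (x / M) = x1 / M + x2 / M - 2 * (x0 / M) := by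
    unfold chi
    have e1 : ∀ x ∈ X, (ei M a (Λ - x) + ei M (-a) (Λ - x) - 2 * ei M 0 (Λ - x)) * (x / M)
        = ei M a (Λ - x) * (x / M) + ei M (-a) (Λ - x) * (x / M)
          - 2 * (ei M 0 (Λ - x) * (x / M)) := by
      intro x _
      ring
    rw [Finset.sum_congr rfl e1, Finset.sum_sub_distrib, Finset.sum_add_distrib, ← Finset.mul_sum]
    have e2 : ∀ d y : ℤ, y ∈ X → y ≡ Λ - d [ZMOD M] →
        ∑ x ∈ X, ei M d (Λ - x) * (x / M) = y / M := by
      intro d y hy hyd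
      rw [Finset.sum_eq_single y]
      · unfold ei
        rw [if_pos, one_mul]
        have := Int.ModEq.sub_left Λ hyd
        have e3 : Λ - (Λ - d) = d := by ring
        rwa [e3] at this
      · intro x hx hxy
        unfold ei
        rw [if_neg, zero_mul]
        intro h
        apply hxy
        apply hinj x hx y hy
        have h' := Int.ModEq.sub_left Λ h
        have e3 : Λ - (Λ - x) = x := by ring
        rw [e3] at h'
        exact h'.trans hyd.symm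
      · intro h
        exact absurd hy h
    rw [e2 a x1 h1 h1a, e2 (-a) x2 h2 (by rw [sub_neg_eq_add]; exact h2a),
      e2 0 x0 h0 (by rw [sub_zero]; exact h0a)]
  have hPsi : ∑ L ∈ Ioc 0 Λ, chi M a L = (Λ - a) / M + 1 + (Λ + a) / M - 2 * (Λ / M) := by
    have := sum_chi (p * g) (Nat.mul_pos hp hg) a Λ ha0 (by push_cast; exact haM) hΛ0
    push_cast at this
    exact this
  have k1 := ediv_sub_of_modEq hM h1a
  have k2 := ediv_sub_of_modEq hM h2a
  have k0 := ediv_sub_of_modEq hM h0a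
  rw [hS2, hinner, houter, hbd, hPsi] at hS1
  set P := ∑ L ∈ Ioc 0 (k - 1), chi M a L
  set W := ∑ L ∈ Ioc 0 Λ, chi M a L * δ L
  have k3 : (p : ℤ) + (x1 / M + x2 / M - 2 * (x0 / M))
      = (Λ - a) / M + 1 + (Λ + a) / M - 2 * (Λ / M) - P + W := hS1
  have k4 : M * ((p : ℤ) + (x1 / M + x2 / M - 2 * (x0 / M)))
      = M * ((Λ - a) / M + 1 + (Λ + a) / M - 2 * (Λ / M) - P + W) := by rw [k3]
  linarith [k4, k1, k2, k0, mul_comm M P]

end Pool.Agent.Graceful.Split
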