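import Mathlib

set_option autoImplicit false

namespace Pool.Agent.Graceful.Split

open Finset Polynomial

/-- the shift operator on integer sequences with values in `ZMod p` -/
noncomputable def shiftOp (p : ℕ) : Module.End (ZMod p) (ℤ → ZMod p) where
  toFun f := fun n => f (n + 1)
  map_add' f g := rfl
  map_smul' c f := rfl

theorem shiftOp_pow (p : ℕ) (j : ℕ) (f : ℤ → ZMod p) (n : ℤ) :
    ((shiftOp p) ^ j) f n = f (n + j) := by
  induction j generalizing n with
  | zero => simp
  | succ j ih =>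
    rw [pow_succ', Module.End.mul_apply]
    change ((shiftOp p) ^ j) f (n + 1) = _
    rw [ih]
    congr 1
    push_cast
    ring

theorem aeval_sum (p : ℕ) (X : Finset ℕ) (q : ℕ) (f : ℤ → ZMod p) (n : ℤ) :
    (aeval (shiftOp p) (∑ x ∈ X, (Polynomial.X : (ZMod p)[X]) ^ (q * x))) f n
      = ∑ x ∈ X, f (n + q * x) := by
  rw [map_sum, LinearMap.sum_apply, Finset.sum_apply]
  apply Finset.sum_congr rfl
  intro x _
  rw [map_pow, aeval_X, shiftOp_pow]
  push_cast
  rfl

/-- If every large integer `L` is hit exactly once by `N - X` and `|X| = p` is prime, then for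
every large `L` the points `L + p x` are all in `N` or all outside `N`. -/
theorem all_or_none {p : ℕ} (hp : p.Prime) (X : Finset ℕ) (hX : X.card = p) (N : Set ℤ)
    (B : ℤ) (hN : ∀ L : ℤ, B ≤ L → ∃ x ∈ X, L + x ∈ N ∧ ∀ y ∈ X, L + y ∈ N → y = x) :
    ∀ L : ℤ, B ≤ L → (∀ x ∈ X, L + (p : ℤ) * x ∈ N) ∨ (∀ x ∈ X, L + (p : ℤ) * x ∉ N) := by
  classical
  haveI : Fact p.Prime := ⟨hp⟩
  set f : ℤ → ZMod p := fun n => if n ∈ N then 1 else 0 with hf
  set Q : (ZMod p)[X] := ∑ x ∈ X, (Polynomial.X : (ZMod p)[X]) ^ (1 * x) with hQ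
  -- one application
  have h1 : ∀ n : ℤ, B ≤ n → (aeval (shiftOp p) Q) f n = 1 := by
    intro n hn
    rw [hQ, aeval_sum]
    obtain ⟨x, hx, hxN, hu⟩ := hN n hn
    rw [Finset.sum_eq_single x]
    · simp only [hf, Nat.cast_one, one_mul]
      rw [if_pos hxN]
    · intro y hy hyx
      simp only [hf, Nat.cast_one, one_mul]
      rw [if_neg (fun h => hyx (hu y hy h))]
    · intro h
      exact absurd hx h
  have h2 : ∀ j : ℕ, ∀ n : ℤ, B ≤ n → (aeval (shiftOp p) (Q ^ (j + 2))) f n = 0 := by
    intro j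
    induction j with
    | zero =>
      intro n hn
      rw [zero_add, pow_two, map_mul, Module.End.mul_apply]
      conv_lhs => rw [hQ]
      rw [aeval_sum]
      have : ∀ x ∈ X, (aeval (shiftOp p) Q) f (n + (1 : ℕ) * x) = 1 := by
        intro x _
        apply h1
        push_cast
        have : (0 : ℤ) ≤ x := Int.natCast_nonneg x
        linarith
      rw [Finset.sum_congr rfl this, Finset.sum_const, hX]
      simp
    | succ j ih =>
      intro n hn
      rw [pow_succ', map_mul, Module.End.mul_apply]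
      conv_lhs => rw [hQ]
      rw [aeval_sum]
      apply Finset.sum_eq_zero
      intro x _
      have hx : B ≤ n + (1 : ℕ) * x := by
        push_cast
        have : (0 : ℤ) ≤ x := Int.natCast_nonneg x
        linarith
      have := ih (n + (1 : ℕ) * x) hx
      rw [← hQ]
      exact this
  have h3 : Q ^ p = ∑ x ∈ X, (Polynomial.X : (ZMod p)[X]) ^ (p * x) := by
    rw [hQ, sum_pow_char]
    apply Finset.sum_congr rfl
    intro x _
    rw [← pow_mul, one_mul, mul_comm]
  intro L hL
  have h4 : ∑ x ∈ X, f (L + (p : ℤ) * x) = 0 := by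
    have h5 := h2 (p - 2) L hL
    rw [Nat.sub_add_cancel hp.two_le, h3, aeval_sum] at h5
    exact h5
  have h6 : ((X.filter (fun x : ℕ => L + (p : ℤ) * x ∈ N)).card : ZMod p) = 0 := by
    rw [← h4]
    simp only [hf]
    rw [Finset.sum_boole]
  rw [ZMod.natCast_eq_zero_iff] at h6
  have h7 : (X.filter (fun x : ℕ => L + (p : ℤ) * x ∈ N)).card ≤ p := by
    rw [← hX]
    exact Finset.card_filter_le _ _
  rcases Nat.eq_zero_or_pos (X.filter (fun x : ℕ => L + (p : ℤ) * x ∈ N)).card with h8 | h8
  · right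
    intro x hx hxN
    rw [Finset.card_eq_zero] at h8
    have : x ∈ X.filter (fun x : ℕ => L + (p : ℤ) * x ∈ N) := Finset.mem_filter.mpr ⟨hx, hxN⟩
    rw [h8] at this
    exact absurd this (Finset.notMem_empty x)
  · left
    have h9 := Nat.le_of_dvd h8 h6
    have h10 : (X.filter (fun x : ℕ => L + (p : ℤ) * x ∈ N)).card = X.card := by
      rw [hX]
      exact le_antisymm h7 h9
    intro x hx
    have := Finset.filter_card_eq h10 x hx
    exact this

end Pool.Agent.Graceful.Split
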