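import Mathlib
import Pool.Agent.Lib.MP_7616b3_co.Frob

set_option autoImplicit false

namespace Pool.Agent.Graceful.Split

open Finset

/-- the eventual periods of a set of integers -/
def Per (N : Set ℤ) : AddSubgroup ℤ where
  carrier := {d | ∃ B : ℤ, ∀ n : ℤ, B ≤ n → (n ∈ N ↔ n + d ∈ N)}
  zero_mem' := ⟨0, fun n _ => by simp⟩
  add_mem' := by
    rintro a b ⟨B, hB⟩ ⟨C, hC⟩
    refine ⟨max B (C - a), fun n hn => ?_⟩
    rw [hB n (le_trans (le_max_left _ _) hn), hC (n + a) (by
      have := le_trans (le_max_right _ _) hn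
      linarith), add_assoc]
  neg_mem' := by
    rintro a ⟨B, hB⟩
    refine ⟨B + a, fun n hn => ?_⟩
    have := hB (n + -a) (by linarith)
    rw [this]
    have h : n + -a + a = n := by ring
    rw [h]

theorem mem_Per {N : Set ℤ} {d : ℤ} :
    d ∈ Per N ↔ ∃ B : ℤ, ∀ n : ℤ, B ≤ n → (n ∈ N ↔ n + d ∈ N) := Iff.rfl

theorem gcd_mem (H : AddSubgroup ℤ) (c : ℤ) (s : Finset ℕ) (F : ℕ → ℤ)
    (h : ∀ x ∈ s, c * F x ∈ H) : c * s.gcd F ∈ H := by
  classical
  induction s using Finset.induction_on with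
  | empty => simp [H.zero_mem]
  | insert a s has ih =>
    rw [Finset.gcd_insert]
    obtain ⟨u, v, huv⟩ := exists_gcd_eq_mul_add_mul (F a) (s.gcd F)
    rw [huv]
    have h1 : c * F a ∈ H := h a (Finset.mem_insert_self _ _)
    have h2 : c * s.gcd F ∈ H := ih (fun x hx => h x (Finset.mem_insert_of_mem hx))
    have h3 := H.add_mem (H.zsmul_mem h1 u) (H.zsmul_mem h2 v)
    have h4 : u • (c * F a) + v • (c * s.gcd F) = c * (F a * u + s.gcd F * v) := by
      simp only [smul_eq_mul]
      ring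
    rw [h4] at h3
    exact h3

theorem modEq_of_per {N : Set ℤ} {d : ℤ} {B : ℤ}
    (h : ∀ n : ℤ, B ≤ n → (n ∈ N ↔ n + d ∈ N)) (hd : 0 < d) :
    ∀ a b : ℤ, B ≤ a → B ≤ b → a ≡ b [ZMOD d] → (a ∈ N ↔ b ∈ N) := by
  have key : ∀ j : ℕ, ∀ n : ℤ, B ≤ n → (n ∈ N ↔ n + d * j ∈ N) := by
    intro j
    induction j with
    | zero => intro n _; simp
    | succ j ih =>
      intro n hn
      rw [ih n hn, h (n + d * j) (by
        have : 0 ≤ d * (j : ℤ) := mul_nonneg hd.le (Int.natCast_nonneg j)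
        linarith)]
      have : n + d * (j : ℤ) + d = n + d * ((j + 1 : ℕ) : ℤ) := by push_cast; ring
      rw [this]
  have key2 : ∀ a b : ℤ, B ≤ a → a ≤ b → a ≡ b [ZMOD d] → (a ∈ N ↔ b ∈ N) := by
    intro a b ha hab hm
    obtain ⟨c, hc⟩ := (Int.modEq_iff_dvd.mp hm)
    have hc0 : 0 ≤ c := by
      by_contra hneg
      push Not at hneg
      have : d * c < 0 := mul_neg_of_pos_of_neg hd hneg
      linarith
    obtain ⟨j, rfl⟩ := Int.eq_ofNat_of_zero_le hc0
    rw [key j a ha]
    have : a + d * (j : ℤ) = b := by linarith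
    rw [this]
  intro a b ha hb hm
  rcases le_total a b with h' | h'
  · exact key2 a b ha h' hm
  · exact (key2 b a hb h' hm.symm).symm

/-- The structure theorem: if `N - X` eventually hits every integer exactly once and `|X| = p` is
prime, then `X` lies in one class modulo some `g`, its elements are distinct modulo `p g`, and in
that class modulo `g` the set `N` is eventually one class modulo `p g`. -/
theorem structure_thm {p : ℕ} (hp : p.Prime) (X : Finset ℕ) (hX : X.card = p) (xm : ℕ)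
    (hxm : xm ∈ X) (N : Set ℤ) (B : ℤ)
    (hN : ∀ L : ℤ, B ≤ L → ∃ x ∈ X, L + x ∈ N ∧ ∀ y ∈ X, L + y ∈ N → y = x) :
    ∃ g : ℕ, 0 < g ∧ (∀ x ∈ X, (g : ℤ) ∣ (x : ℤ) - xm) ∧
      (∀ x ∈ X, ∀ y ∈ X, (x : ℤ) ≡ y [ZMOD ((p : ℤ) * g)] → x = y) ∧
      ∃ s : ℤ, s ≡ xm [ZMOD g] ∧ ∃ B' : ℤ, ∀ n : ℤ, B' ≤ n → n ≡ xm [ZMOD g] →
        (n ∈ N ↔ n ≡ s [ZMOD ((p : ℤ) * g)]) := by
  classical
  have hall := all_or_none hp X hX N B hN
  set F : ℕ → ℤ := fun x => (x : ℤ) - xm with hF
  have h1 : ∀ x ∈ X, (p : ℤ) * F x ∈ Per N := by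
    intro x hx
    rw [mem_Per]
    refine ⟨B + (p : ℤ) * xm, fun n hn => ?_⟩
    have e1 : n = (n - (p : ℤ) * xm) + (p : ℤ) * xm := by ring
    have e2 : n + (p : ℤ) * F x = (n - (p : ℤ) * xm) + (p : ℤ) * x := by
      simp only [hF]
      ring
    rcases hall (n - (p : ℤ) * xm) (by linarith) with h | h
    · constructor
      · intro _
        rw [e2]
        exact h x hx
      · intro _
        rw [e1]
        exact h xm hxm
    · constructor
      · intro h'
        rw [e1] at h'
        exact absurd h' (h xm hxm)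
      · intro h'
        rw [e2] at h'
        exact absurd h' (h x hx)
  have h2 : (p : ℤ) * X.gcd F ∈ Per N := gcd_mem (Per N) p X F h1
  have hgn : 0 ≤ X.gcd F := by
    rw [← Finset.normalize_gcd, ← Int.abs_eq_normalize]
    exact abs_nonneg _
  obtain ⟨g, hg⟩ := Int.eq_ofNat_of_zero_le hgn
  have hdvd : ∀ x ∈ X, (g : ℤ) ∣ (x : ℤ) - xm := by
    intro x hx
    rw [← hg]
    exact Finset.gcd_dvd hx
  have hg0 : 0 < g := by
    rcases Nat.eq_zero_or_pos g with h | h
    · exfalso
      have : X ⊆ {xm} := by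
        intro x hx
        have := hdvd x hx
        rw [h] at this
        simp only [Nat.cast_zero, zero_dvd_iff] at this
        rw [Finset.mem_singleton]
        omega
      have := Finset.card_le_card this
      rw [hX, Finset.card_singleton] at this
      exact absurd hp.two_le (by omega)
    · exact h
  have hM : 0 < (p : ℤ) * g := by
    have := hp.pos
    positivity
  rw [hg, mem_Per] at h2
  obtain ⟨C, hC⟩ := h2
  have hper := modEq_of_per hC hM
  -- bound for the elements of `X`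
  obtain ⟨c, hc⟩ : ∃ c : ℕ, ∀ x ∈ X, x ≤ c := ⟨X.sup id, fun x hx => Finset.le_sup (f := id) hx⟩
  -- a large element of `N` in the right class, at least `D`
  have hlarge : ∀ D : ℤ, ∃ n ∈ N, D ≤ n ∧ n ≡ xm [ZMOD g] := by
    intro D
    set L : ℤ := (g : ℤ) * (max (max B D) 0) with hL
    have hg1 : (1 : ℤ) ≤ g := by exact_mod_cast hg0
    have hL1 : max (max B D) 0 ≤ L := by
      have h0 : 0 ≤ max (max B D) 0 := le_max_right _ _
      nlinarith
    have hLB : B ≤ L := le_trans (le_trans (le_max_left _ _) (le_max_left _ _)) hL1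
    have hLD : D ≤ L := le_trans (le_trans (le_max_right _ _) (le_max_left _ _)) hL1
    obtain ⟨x, hx, hxN, _⟩ := hN L hLB
    refine ⟨L + x, hxN, ?_, ?_⟩
    · have : (0 : ℤ) ≤ x := Int.natCast_nonneg x
      linarith
    · have h3 := hdvd x hx
      rw [Int.modEq_iff_dvd]
      have h4 : (g : ℤ) ∣ L := Dvd.intro _ hL.symm
      have e : (xm : ℤ) - (L + x) = -(((x : ℤ) - xm) + L) := by ring
      rw [e]
      exact (dvd_add h3 h4).neg_right
  have hinj : ∀ x ∈ X, ∀ y ∈ X, (x : ℤ) ≡ y [ZMOD ((p : ℤ) * g)] → x = y := by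
    intro x hx y hy hxy
    obtain ⟨n, hnN, hnD, _⟩ := hlarge (max B C + c)
    have hxc : (x : ℤ) ≤ c := by exact_mod_cast hc x hx
    have hx0 : (0 : ℤ) ≤ x := Int.natCast_nonneg x
    have hy0 : (0 : ℤ) ≤ y := Int.natCast_nonneg y
    have hc0 : (0 : ℤ) ≤ c := Int.natCast_nonneg c
    have hB1 : B ≤ max B C := le_max_left _ _
    have hC1 : C ≤ max B C := le_max_right _ _
    obtain ⟨z, hz, _, hu⟩ := hN (n - x) (by linarith)
    have h5 : x = z := hu x hx (by
      have : n - x + x = n := by ring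
      rw [this]; exact hnN)
    have h6 : y = z := hu y hy (by
      rw [← hper n (n - x + y) (by linarith) (by linarith) ?_]
      · exact hnN
      · have : n = n - x + x := by ring
        conv_lhs => rw [this]
        exact Int.ModEq.add_left _ hxy)
    rw [h5, h6]
  refine ⟨g, hg0, hdvd, hinj, ?_⟩
  obtain ⟨n0, hn0N, hn0D, hn0g⟩ := hlarge C
  refine ⟨n0, hn0g, max B C + c + 1, fun n hn hng => ?_⟩
  have hc0 : (0 : ℤ) ≤ c := Int.natCast_nonneg c
  have hB1 : B ≤ max B C := le_max_left _ _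
  have hC1 : C ≤ max B C := le_max_right _ _
  constructor
  · intro hnN
    -- the elements of `X` cover all classes
    haveI : NeZero p := ⟨hp.ne_zero⟩
    have hsurj : ∀ d : ℤ, (g : ℤ) ∣ d → ∃ x ∈ X, (x : ℤ) ≡ xm + d [ZMOD ((p : ℤ) * g)] := by
      intro d hd
      have hinj' : Set.InjOn (fun x : ℕ => (((((x : ℤ) - xm) / g : ℤ)) : ZMod p)) X := by
        intro x hx y hy hxy
        simp only at hxy
        rw [ZMod.intCast_eq_intCast_iff] at hxy
        apply hinj x hx y hy
        obtain ⟨a, ha⟩ := hdvd x hx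
        obtain ⟨b, hb⟩ := hdvd y hy
        have hgz : (g : ℤ) ≠ 0 := by exact_mod_cast hg0.ne'
        rw [ha, hb, Int.mul_ediv_cancel_left _ hgz, Int.mul_ediv_cancel_left _ hgz] at hxy
        have h7 := Int.ModEq.mul_left' (c := (g : ℤ)) hxy
        rw [mul_comm (g : ℤ) (p : ℤ)] at h7
        have h8 : (x : ℤ) = xm + g * a := by linarith
        have h9 : (y : ℤ) = xm + g * b := by linarith
        rw [h8, h9]
        exact Int.ModEq.add_left _ h7
      have himg : X.image (fun x : ℕ => (((((x : ℤ) - xm) / g : ℤ)) : ZMod p)) = Finset.univ := by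
        apply Finset.eq_univ_of_card
        rw [Finset.card_image_of_injOn hinj', hX, ZMod.card]
      obtain ⟨e, he⟩ := hd
      have h10 : ((e : ℤ) : ZMod p) ∈
          X.image (fun x : ℕ => (((((x : ℤ) - xm) / g : ℤ)) : ZMod p)) := by
        rw [himg]
        exact Finset.mem_univ _
      obtain ⟨x, hx, hxe⟩ := Finset.mem_image.mp h10
      refine ⟨x, hx, ?_⟩
      rw [ZMod.intCast_eq_intCast_iff] at hxe
      obtain ⟨a, ha⟩ := hdvd x hx
      have hgz : (g : ℤ) ≠ 0 := by exact_mod_cast hg0.ne'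
      rw [ha, Int.mul_ediv_cancel_left _ hgz] at hxe
      have h7 := Int.ModEq.mul_left' (c := (g : ℤ)) hxe
      rw [mul_comm (g : ℤ) (p : ℤ)] at h7
      have h8 : (x : ℤ) = xm + g * a := by linarith
      rw [h8, he]
      exact Int.ModEq.add_left _ h7
    have hdd : (g : ℤ) ∣ n - n0 := by
      have := (hng.trans hn0g.symm).symm
      rw [Int.modEq_iff_dvd] at this
      exact this
    obtain ⟨x, hx, hxd⟩ := hsurj (n - n0) hdd
    have hxc : (x : ℤ) ≤ c := by exact_mod_cast hc x hx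
    have hx0 : (0 : ℤ) ≤ x := Int.natCast_nonneg x
    have hxm0 : (0 : ℤ) ≤ xm := Int.natCast_nonneg xm
    have hxmc : (xm : ℤ) ≤ c := by exact_mod_cast hc xm hxm
    obtain ⟨z, hz, _, hu⟩ := hN (n - x) (by linarith)
    have h5 : x = z := hu x hx (by
      have : n - x + x = n := by ring
      rw [this]; exact hnN)
    have h6 : xm = z := hu xm hxm (by
      rw [hper (n - x + xm) n0 (by linarith) (by linarith) ?_]
      · exact hn0N
      · have h11 := Int.ModEq.sub_left (n + xm) hxd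
        have e1 : n + (xm : ℤ) - x = n - x + xm := by ring
        have e2 : n + (xm : ℤ) - (xm + (n - n0)) = n0 := by ring
        rw [e1, e2] at h11
        exact h11)
    have hxx : x = xm := by rw [h5, h6]
    rw [hxx] at hxd
    have h12 : (0 : ℤ) ≡ n - n0 [ZMOD ((p : ℤ) * g)] := by
      have h13 : (xm : ℤ) + 0 ≡ xm + (n - n0) [ZMOD ((p : ℤ) * g)] := by
        rw [add_zero]
        exact hxd
      exact Int.ModEq.add_left_cancel' _ h13
    rw [Int.modEq_iff_dvd] at h12 ⊢
    have e3 : n0 - n = -(n - n0 - 0) := by ring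
    rw [e3]
    exact h12.neg_right
  · intro h
    rw [hper n n0 (by linarith) hn0D h]
    exact hn0N

end Pool.Agent.Graceful.Split
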