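import Mathlib
import Pool.Agent.Lib.MP_7616b3_co.Period
import Pool.Agent.Lib.MP_7616b3_co.Ident3

set_option autoImplicit false

namespace Pool.Agent.Graceful.Split

open Finset

/-- the integer copy of a finite set of natural numbers -/
def toZ (X : Finset ℕ) : Finset ℤ := X.image (fun x : ℕ => (x : ℤ))

theorem mem_toZ {X : Finset ℕ} {z : ℤ} : z ∈ toZ X ↔ ∃ x ∈ X, (x : ℤ) = z := by
  unfold toZ
  rw [Finset.mem_image]

theorem card_toZ (X : Finset ℕ) : (toZ X).card = X.card := by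
  unfold toZ
  apply Finset.card_image_of_injective
  intro a b h
  exact Int.ofNat.inj h

theorem toZ_nonneg {X : Finset ℕ} : ∀ x ∈ toZ X, 0 ≤ x := by
  intro x hx
  obtain ⟨y, _, rfl⟩ := mem_toZ.mp hx
  exact Int.natCast_nonneg y

/-- For large labels exactly one hub is used. -/
theorem exact_cover (X : Finset ℕ) (N : Set ℤ) (hN0 : ∀ n ∈ N, 0 ≤ n) (c : ℤ)
    (hXc : ∀ x ∈ X, (x : ℤ) ≤ c) (L : ℤ) (hL0 : 0 < L) (hLc : c < L)
    (h1 : cX (toZ X) N L = 1) :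
    ∃ x ∈ X, L + x ∈ N ∧ ∀ y ∈ X, L + y ∈ N → y = x := by
  classical
  have h2 : cX (toZ X) N L = ∑ x ∈ X, ind N ((x : ℤ) + L) := by
    unfold cX toZ
    rw [Finset.sum_image (by intro a _ b _ h; exact Int.ofNat.inj h)]
    apply Finset.sum_congr rfl
    intro x hx
    have hx0 : (0 : ℤ) ≤ x := Int.natCast_nonneg x
    have e1 : ind N ((x : ℤ) - L) = 0 := by
      apply ind_of_notMem
      intro h
      have := hN0 _ h
      have := hXc x hx
      linarith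
    rw [e1, if_neg]
    · ring
    · intro h
      obtain ⟨y, hy, hyx⟩ := Finset.mem_image.mp h
      have := hXc y hy
      linarith
  rw [h2] at h1
  have h3 : ∃ x ∈ X, L + (x : ℤ) ∈ N := by
    by_contra hcon
    push Not at hcon
    rw [Finset.sum_eq_zero] at h1
    · exact absurd h1 (by norm_num)
    · intro x hx
      apply ind_of_notMem
      rw [add_comm]
      exact hcon x hx
  obtain ⟨x, hx, hxN⟩ := h3
  refine ⟨x, hx, hxN, fun y hy hyN => ?_⟩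
  by_contra hyx
  have h4 : ({x, y} : Finset ℕ) ⊆ X := by
    intro z hz
    rw [Finset.mem_insert, Finset.mem_singleton] at hz
    rcases hz with rfl | rfl <;> assumption
  have h5 : ∑ z ∈ ({x, y} : Finset ℕ), ind N ((z : ℤ) + L) ≤ ∑ x ∈ X, ind N ((x : ℤ) + L) := by
    apply Finset.sum_le_sum_of_subset_of_nonneg h4
    intro i _ _
    unfold ind
    split_ifs <;> norm_num
  rw [Finset.sum_pair (fun h => hyx h.symm), h1, ind_of_mem (by rw [add_comm]; exact hxN),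
    ind_of_mem (by rw [add_comm]; exact hyN)] at h5
  norm_num at h5

/-- the counting function of the classes `± a` against the multiples of `M` below `k` -/
noncomputable def Psi (M a k : ℤ) : ℤ := ∑ L ∈ Ioc 0 (k - 1), chi M a L

theorem arith (p : ℕ) (hp : p.Prime) (X : Finset ℕ) (hX : X.card = p) (N : Set ℤ)
    (hN0 : ∀ n ∈ N, 0 ≤ n) (hXN : ∀ x ∈ X, (x : ℤ) ∉ N) (k : ℕ) (hk : 1 ≤ k) (S : Finset ℤ)
    (hc : ∀ L : ℤ, 1 ≤ L → L ∉ S → cX (toZ X) N L = if (k : ℤ) ≤ L then 1 else 0) :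
    ∃ (g : ℕ) (Λ : ℤ), 0 < g ∧ (∀ x ∈ X, Λ ≡ x [ZMOD g]) ∧
      (∀ x ∈ X, ∀ y ∈ X, (x : ℤ) ≡ y [ZMOD ((p : ℤ) * g)] → x = y) ∧
      (∀ z : ℤ, (g : ℤ) ∣ z → ∃ x ∈ X, (x : ℤ) ≡ Λ - z [ZMOD ((p : ℤ) * g)]) ∧
      (∃ B : ℤ, ∀ n : ℤ, B ≤ n → n ≡ Λ [ZMOD g] → (n ∈ N ↔ n ≡ Λ [ZMOD ((p : ℤ) * g)])) ∧
      (∀ a : ℤ, (g : ℤ) ∣ a → 0 < a → a < (p : ℤ) * g → ∀ x1 ∈ X, ∀ x2 ∈ X, ∀ x0 ∈ X,
        (x1 : ℤ) ≡ Λ - a [ZMOD ((p : ℤ) * g)] → (x2 : ℤ) ≡ Λ + a [ZMOD ((p : ℤ) * g)] →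
        (x0 : ℤ) ≡ Λ [ZMOD ((p : ℤ) * g)] →
        2 * (x0 : ℤ) - x1 - x2 = ((p : ℤ) * g) * (p - 1 + Psi ((p : ℤ) * g) a k
          - ∑ L ∈ Ioc 0 Λ, chi ((p : ℤ) * g) a L * (cX (toZ X) N L
            - if (k : ℤ) ≤ L then 1 else 0))) := by
  classical
  have hne : X.Nonempty := by
    rw [← Finset.card_pos, hX]
    exact hp.pos
  obtain ⟨xm, hxm⟩ := hne
  obtain ⟨c, hcX⟩ : ∃ c : ℕ, ∀ x ∈ X, x ≤ c := ⟨X.sup id, fun x hx => Finset.le_sup (f := id) hx⟩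
  obtain ⟨b, hb⟩ : ∃ b : ℤ, ∀ L ∈ S, L ≤ b := by
    obtain ⟨b, hb⟩ := S.bddAbove
    exact ⟨b, fun L hL => hb hL⟩
  set B0 : ℤ := max (max ((c : ℤ) + 1) (b + 1)) (k : ℤ) + 1 with hB0
  have hBc : (c : ℤ) + 1 ≤ max (max ((c : ℤ) + 1) (b + 1)) (k : ℤ) :=
    le_trans (le_max_left _ _) (le_max_left _ _)
  have hBb : b + 1 ≤ max (max ((c : ℤ) + 1) (b + 1)) (k : ℤ) :=
    le_trans (le_max_right _ _) (le_max_left _ _)
  have hBk : (k : ℤ) ≤ max (max ((c : ℤ) + 1) (b + 1)) (k : ℤ) := le_max_right _ _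
  have hc0 : (0 : ℤ) ≤ c := Int.natCast_nonneg c
  have hcover : ∀ L : ℤ, B0 ≤ L → ∃ x ∈ X, L + x ∈ N ∧ ∀ y ∈ X, L + y ∈ N → y = x := by
    intro L hL
    apply exact_cover X N hN0 c (fun x hx => by exact_mod_cast hcX x hx) L (by linarith)
      (by linarith)
    rw [hc L (by linarith) (fun h => by have := hb L h; linarith), if_pos (by linarith)]
  obtain ⟨g, hg0, hdvd, hinj, s, hs, B', hNs⟩ := structure_thm hp X hX xm hxm N B0 hcover
  have hgM : ∀ u v : ℤ, u ≡ v [ZMOD ((p : ℤ) * g)] → u ≡ v [ZMOD g] := fun u v h =>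
    h.of_dvd (Dvd.intro_left _ rfl)
  have hM : 0 < (p : ℤ) * g := by
    have := hp.pos
    positivity
  -- choose a large cutoff in the class of `s`
  obtain ⟨Λ, hΛs, hΛB⟩ : ∃ Λ : ℤ, Λ ≡ s [ZMOD ((p : ℤ) * g)] ∧ max B' B0 ≤ Λ := by
    refine ⟨s + ((p : ℤ) * g) * (|max B' B0 - s|), ?_, ?_⟩
    · rw [Int.modEq_iff_dvd]
      exact ⟨-(|max B' B0 - s|), by ring⟩
    · have h1 : |max B' B0 - s| ≤ ((p : ℤ) * g) * (|max B' B0 - s|) := by
        have : 0 ≤ |max B' B0 - s| := abs_nonneg _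
        nlinarith
      have h2 := le_abs_self (max B' B0 - s)
      linarith
  have hΛB' : B' ≤ Λ := le_trans (le_max_left _ _) hΛB
  have hΛB0 : B0 ≤ Λ := le_trans (le_max_right _ _) hΛB
  have hXρ : ∀ x ∈ toZ X, x ≡ xm [ZMOD g] := by
    intro x hx
    obtain ⟨y, hy, rfl⟩ := mem_toZ.mp hx
    exact (Int.modEq_iff_dvd.mpr (hdvd y hy)).symm
  have hXinj : ∀ x ∈ toZ X, ∀ y ∈ toZ X, x ≡ y [ZMOD ((p : ℤ) * g)] → x = y := by
    intro x hx y hy hxy
    obtain ⟨x', hx', rfl⟩ := mem_toZ.mp hx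
    obtain ⟨y', hy', rfl⟩ := mem_toZ.mp hy
    rw [hinj x' hx' y' hy' hxy]
  have hXN' : ∀ x ∈ toZ X, x ∉ N := by
    intro x hx
    obtain ⟨y, hy, rfl⟩ := mem_toZ.mp hx
    exact hXN y hy
  have hXΛ : ∀ x ∈ toZ X, x ≤ Λ := by
    intro x hx
    obtain ⟨y, hy, rfl⟩ := mem_toZ.mp hx
    have : (y : ℤ) ≤ c := by exact_mod_cast hcX y hy
    linarith
  have hΛρ : Λ ≡ xm [ZMOD g] := (hgM _ _ hΛs).trans hs
  refine ⟨g, Λ, hg0, ?_, hinj, ?_, ⟨B', ?_⟩, ?_⟩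
  · intro x hx
    exact hΛρ.trans (Int.modEq_iff_dvd.mpr (hdvd x hx))
  · intro z hz
    have h1 := sum_ei_X p g (toZ X) xm hp.pos hg0 (by rw [card_toZ, hX]) hXρ hXinj 0 (Λ - z)
      (dvd_zero _)
    rw [if_pos] at h1
    · by_contra hcon
      push Not at hcon
      rw [Finset.sum_eq_zero] at h1
      · exact absurd h1 (by norm_num)
      · intro x hx
        obtain ⟨y, hy, rfl⟩ := mem_toZ.mp hx
        unfold ei
        rw [if_neg]
        intro h2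
        apply hcon y hy
        have h3 := Int.ModEq.add_right (y : ℤ) h2
        rw [sub_add_cancel, zero_add] at h3
        exact h3.symm
    · have h4 : z ≡ 0 [ZMOD g] := by
        rw [Int.modEq_zero_iff_dvd]
        exact hz
      have h5 := hΛρ.sub h4
      rwa [sub_zero] at h5
  · intro n hn hnΛ
    rw [hNs n hn (hnΛ.trans hΛρ)]
    exact ⟨fun h => h.trans hΛs.symm, fun h => h.trans hΛs⟩
  · intro a hga ha0 haM x1 hx1 x2 hx2 x0 hx0 h1 h2 h0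
    exact main_identity p g hp.pos hg0 (toZ X) (by rw [card_toZ, hX]) toZ_nonneg xm hXρ hXinj N hN0
      hXN' s B' hs hNs (fun L => cX (toZ X) N L - if (k : ℤ) ≤ L then 1 else 0) k
      (by exact_mod_cast hk) (fun L _ => by ring) a hga ha0 haM Λ hΛB' hΛs (by linarith)
      (by linarith) hXΛ x1 x2 x0 (mem_toZ.mpr ⟨x1, hx1, rfl⟩) (mem_toZ.mpr ⟨x2, hx2, rfl⟩)
      (mem_toZ.mpr ⟨x0, hx0, rfl⟩) h1 h2 h0

/-- `Psi` counts at most two. -/
theorem Psi_eq (M : ℕ) (hM : 0 < M) (a : ℤ) (ha : 0 < a) (haM : a < M) (k : ℕ) (hk : 1 ≤ k) :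
    Psi M a k = (if a ≤ ((k : ℤ) - 1) % M then 1 else 0)
      + (if (M : ℤ) ≤ ((k : ℤ) - 1) % M + a then 1 else 0) := by
  unfold Psi
  have hk0 : (0 : ℤ) ≤ (k : ℤ) - 1 := by
    have : (1 : ℤ) ≤ k := by exact_mod_cast hk
    linarith
  rw [sum_chi M hM a _ ha haM hk0]
  have hM' : (0 : ℤ) < M := by exact_mod_cast hM
  set K : ℤ := (k : ℤ) - 1
  have hR0 : 0 ≤ K % M := Int.emod_nonneg _ hM'.ne'
  have hR1 : K % M < M := Int.emod_lt_of_pos _ hM'
  have hK : K = K % M + M * (K / M) := (Int.emod_add_mul_ediv K M).symm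
  have h1 : (K - a) / M = (K / M) + (if a ≤ K % M then 0 else -1) := by
    have e : K - a = (K % M - a) + M * (K / M) := by linarith
    rw [e, Int.add_mul_ediv_left _ _ hM'.ne', add_comm]
    congr 1
    split_ifs with h
    · exact Int.ediv_eq_zero_of_lt (by linarith) (by linarith)
    · rw [Int.ediv_eq_iff_of_pos hM']
      push Not at h
      constructor <;> nlinarith
  have h2 : (K + a) / M = (K / M) + (if (M : ℤ) ≤ K % M + a then 1 else 0) := by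
    have e : K + a = (K % M + a) + M * (K / M) := by linarith
    rw [e, Int.add_mul_ediv_left _ _ hM'.ne', add_comm]
    congr 1
    split_ifs with h
    · rw [Int.ediv_eq_iff_of_pos hM']
      constructor <;> nlinarith
    · push Not at h
      exact Int.ediv_eq_zero_of_lt (by linarith) (by linarith)
  rw [h1, h2]
  split_ifs <;> ring

end Pool.Agent.Graceful.Split
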