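import Mathlib

set_option autoImplicit false

/-! Bijective numberings when `β₁` is finite: finite stage.  A state consists of a finite set `X` of
placed core vertices with numbers `y`, the finite set `Z` of numbers given to leaves of the second
hub (which sits at `t`), the debts `D`, the pending numbers `Q` and the head `h`. -/

namespace Pool.Agent.Graceful.BF

open Finset

variable {V : Type*} [DecidableEq V]

/-- `n` is the label of an edge inside `X` or of a leaf of the hub at `t`. -/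
def Rl (G : SimpleGraph V) (t : ℤ) (X : Finset V) (y : V → ℤ) (Z : Finset ℤ) (n : ℤ) : Prop :=
  (∃ x ∈ X, ∃ x' ∈ X, G.Adj x x' ∧ y x' < y x ∧ y x - y x' = n) ∨ n + t ∈ Z

/-- `n` is the number of a non-neighbour of the first hub (placed or planned). -/
def Nm (B X : Finset V) (y : V → ℤ) (Z D : Finset ℤ) (n : ℤ) : Prop :=
  n ∈ Z ∨ n ∈ D ∨ ∃ x ∈ X, x ∈ B ∧ y x = n

structure FS (G : SimpleGraph V) (t k s : ℤ) (B X : Finset V) (y : V → ℤ) (Z D Q : Finset ℤ)
    (h : ℤ) : Prop where
  uniq : ∀ x ∈ X, ∀ x' ∈ X, ∀ u ∈ X, ∀ u' ∈ X, G.Adj x x' → G.Adj u u' → y x' < y x →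
    y x - y x' = y u - y u' → x = u ∧ x' = u'
  sep : ∀ x ∈ X, ∀ x' ∈ X, G.Adj x x' → y x' < y x → y x - y x' + t ∉ Z
  inj : ∀ x ∈ X, ∀ x' ∈ X, y x = y x' → x = x'
  dec : ∀ n, (Rl G t X y Z n ∨ n = h ∨ n ∈ Q) ↔ Nm B X y Z D n
  hR : ¬ Rl G t X y Z h
  hQ : h ∉ Q
  RQ : ∀ n ∈ Q, ¬ Rl G t X y Z n
  ZD : ∀ n ∈ Z, n ∉ D
  yZ : ∀ x ∈ X, y x ∉ Z
  yD : ∀ x ∈ X, y x ∉ D
  bd : ∀ n, Nm B X y Z D n → n < h + t
  ybd : ∀ x ∈ X, y x < h + t
  ge : ∀ n, Nm B X y Z D n → k ≤ n
  low : ∀ x ∈ X, -s ≤ y x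
  nz : ∀ x ∈ X, y x ≠ 0

variable {G : SimpleGraph V} {t k s : ℤ} {B X : Finset V} {y : V → ℤ} {Z D Q : Finset ℤ} {h : ℤ}

lemma FS.hN (S : FS G t k s B X y Z D Q h) : Nm B X y Z D h := (S.dec h).mp (Or.inr (Or.inl rfl))

/-- one more leaf of the second hub -/
lemma FS.leaf (S : FS G t k s B X y Z D Q h) (ht : 0 < t) :
    FS G t k s B X y (insert (h + t) Z) D Q (h + t) ∧
      (∀ n, Nm B X y (insert (h + t) Z) D n → n ≤ h + t) ∧ (∀ x ∈ X, y x < h + t) := by
  have hNn : ¬ Nm B X y Z D (h + t) := fun hh => lt_irrefl _ (S.bd _ hh)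
  have hNm : ∀ n, Nm B X y (insert (h + t) Z) D n ↔ (n = h + t ∨ Nm B X y Z D n) := by
    intro n
    unfold Nm
    rw [Finset.mem_insert]
    tauto
  have hRl : ∀ n, Rl G t X y (insert (h + t) Z) n ↔ (n = h ∨ Rl G t X y Z n) := by
    intro n
    unfold Rl
    rw [Finset.mem_insert]
    constructor
    · rintro (h1 | h1 | h1)
      · exact Or.inr (Or.inl h1)
      · left; linarith
      · exact Or.inr (Or.inr h1)
    · rintro (h1 | h1 | h1)
      · right; left; rw [h1]
      · exact Or.inl h1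
      · exact Or.inr (Or.inr h1)
  have hnR : ∀ n, n = h + t → ¬ Rl G t X y Z n := by
    rintro n rfl hh
    exact hNn ((S.dec _).mp (Or.inl hh))
  refine ⟨⟨S.uniq, ?_, S.inj, ?_, ?_, ?_, ?_, ?_, ?_, S.yD, ?_, ?_, ?_, S.low, S.nz⟩, ?_, ?_⟩
  · intro x hx x' hx' ha hlt hm
    rw [Finset.mem_insert] at hm
    rcases hm with hm | hm
    · apply S.hR
      left
      exact ⟨x, hx, x', hx', ha, hlt, by linarith⟩
    · exact S.sep x hx x' hx' ha hlt hm
  · intro n
    rw [hRl, hNm, ← S.dec n]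
    tauto
  · rw [hRl]
    rintro (h1 | h1)
    · linarith
    · exact hnR _ rfl h1
  · intro h1
    exact hNn ((S.dec _).mp (Or.inr (Or.inr h1)))
  · intro n hn
    rw [hRl]
    rintro (h1 | h1)
    · rw [h1] at hn; exact S.hQ hn
    · exact S.RQ n hn h1
  · intro n hn
    rw [Finset.mem_insert] at hn
    rcases hn with rfl | hn
    · intro hd
      exact hNn (Or.inr (Or.inl hd))
    · exact S.ZD n hn
  · intro x hx hm
    rw [Finset.mem_insert] at hm
    rcases hm with hm | hm
    · have := S.ybd x hx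
      linarith
    · exact S.yZ x hx hm
  · intro n hn
    rw [hNm] at hn
    rcases hn with rfl | hn
    · linarith
    · have := S.bd n hn
      linarith
  · intro x hx
    have := S.ybd x hx
    linarith
  · intro n hn
    rw [hNm] at hn
    rcases hn with rfl | hn
    · have := S.ge h S.hN
      linarith
    · exact S.ge n hn
  · intro n hn
    rw [hNm] at hn
    rcases hn with rfl | hn
    · exact le_refl _
    · exact (S.bd n hn).le
  · intro x hx
    exact S.ybd x hx

/-- the realised labels after placing a new vertex -/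
lemma Rl_insert {u : V} (hu : u ∉ X) {Y : ℤ} (hlt : ∀ p ∈ X, G.Adj u p → y p < Y) (n : ℤ) :
    Rl G t (insert u X) (Function.update y u Y) Z n ↔
      (Rl G t X y Z n ∨ ∃ p ∈ X, G.Adj u p ∧ Y - y p = n) := by
  have hne : ∀ x ∈ X, x ≠ u := fun x hx h => hu (h ▸ hx)
  have hy : ∀ x ∈ X, Function.update y u Y x = y x := fun x hx =>
    Function.update_of_ne (hne x hx) _ _
  have hyu : Function.update y u Y u = Y := Function.update_self _ _ _
  unfold Rl
  constructor
  · rintro (⟨x, hx, x', hx', ha, hl, hn⟩ | h1)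
    · rw [Finset.mem_insert] at hx hx'
      rcases hx with hx | hx
      · rcases hx' with hx' | hx'
        · rw [hx, hx'] at ha; exact absurd ha (G.irrefl)
        · right
          rw [hx, hyu, hy x' hx'] at hn
          rw [hx] at ha
          exact ⟨x', hx', ha, hn⟩
      · rcases hx' with hx' | hx'
        · exfalso
          rw [hx', hyu, hy x hx] at hl
          rw [hx'] at ha
          have := hlt x hx ha.symm
          linarith
        · left; left
          rw [hy x hx, hy x' hx'] at hl hn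
          exact ⟨x, hx, x', hx', ha, hl, hn⟩
    · exact Or.inl (Or.inr h1)
  · rintro ((⟨x, hx, x', hx', ha, hl, hn⟩ | h1) | ⟨p, hp, ha, hn⟩)
    · left
      refine ⟨x, Finset.mem_insert_of_mem hx, x', Finset.mem_insert_of_mem hx', ha, ?_, ?_⟩
      · rw [hy x hx, hy x' hx']; exact hl
      · rw [hy x hx, hy x' hx']; exact hn
    · exact Or.inr h1
    · left
      refine ⟨u, Finset.mem_insert_self _ _, p, Finset.mem_insert_of_mem hp, ha, ?_, ?_⟩
      · rw [hyu, hy p hp]; exact hlt p hp ha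
      · rw [hyu, hy p hp]; exact hn

/-- General step: a new vertex `u ∈ B` is placed at `Y`; the labels `Y - y p` are new. -/
lemma FS.add (S : FS G t k s B X y Z D Q h) {u : V} (hu : u ∉ X) (huB : u ∈ B) (Y h' : ℤ)
    (D' Q' : Finset ℤ)
    (hlt : ∀ p ∈ X, G.Adj u p → y p < Y)
    (hnew : ∀ p ∈ X, G.Adj u p → ¬ Rl G t X y Z (Y - y p))
    (hYZ : Y ∉ Z) (hYX : ∀ x ∈ X, y x ≠ Y) (hYD : Y ∉ D') (hY0 : Y ≠ 0) (hYs : -s ≤ Y)
    (hyD' : ∀ x ∈ X, y x ∉ D') (hZD' : ∀ n ∈ Z, n ∉ D')
    (hdec : ∀ n, ((Rl G t X y Z n ∨ ∃ p ∈ X, G.Adj u p ∧ Y - y p = n) ∨ n = h' ∨ n ∈ Q') ↔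
      (n ∈ Z ∨ n ∈ D' ∨ (∃ x ∈ X, x ∈ B ∧ y x = n) ∨ n = Y))
    (hhR : ¬ (Rl G t X y Z h' ∨ ∃ p ∈ X, G.Adj u p ∧ Y - y p = h')) (hhQ : h' ∉ Q')
    (hRQ : ∀ n ∈ Q', ¬ (Rl G t X y Z n ∨ ∃ p ∈ X, G.Adj u p ∧ Y - y p = n))
    (hbd : ∀ n, (n ∈ Z ∨ n ∈ D' ∨ (∃ x ∈ X, x ∈ B ∧ y x = n) ∨ n = Y) → n < h' + t)
    (hybd : ∀ x ∈ X, y x < h' + t)
    (hge : ∀ n, (n ∈ Z ∨ n ∈ D' ∨ (∃ x ∈ X, x ∈ B ∧ y x = n) ∨ n = Y) → k ≤ n) :
    FS G t k s B (insert u X) (Function.update y u Y) Z D' Q' h' := by
  have hne : ∀ x ∈ X, x ≠ u := fun x hx h => hu (h ▸ hx)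
  have hy : ∀ x ∈ X, Function.update y u Y x = y x := fun x hx =>
    Function.update_of_ne (hne x hx) _ _
  have hyu : Function.update y u Y u = Y := Function.update_self _ _ _
  have hNm : ∀ n, Nm B (insert u X) (Function.update y u Y) Z D' n ↔
      (n ∈ Z ∨ n ∈ D' ∨ (∃ x ∈ X, x ∈ B ∧ y x = n) ∨ n = Y) := by
    intro n
    unfold Nm
    constructor
    · rintro (h1 | h1 | ⟨x, hx, hxB, hxn⟩)
      · exact Or.inl h1
      · exact Or.inr (Or.inl h1)
      · rw [Finset.mem_insert] at hx
        rcases hx with hx | hx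
        · rw [hx, hyu] at hxn
          exact Or.inr (Or.inr (Or.inr hxn.symm))
        · rw [hy x hx] at hxn
          exact Or.inr (Or.inr (Or.inl ⟨x, hx, hxB, hxn⟩))
    · rintro (h1 | h1 | ⟨x, hx, hxB, hxn⟩ | h1)
      · exact Or.inl h1
      · exact Or.inr (Or.inl h1)
      · exact Or.inr (Or.inr ⟨x, Finset.mem_insert_of_mem hx, hxB, by rw [hy x hx]; exact hxn⟩)
      · exact Or.inr (Or.inr ⟨u, Finset.mem_insert_self _ _, huB, by rw [hyu, h1]⟩)
  have hRl := Rl_insert (t := t) (Z := Z) hu hlt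
  refine ⟨?_, ?_, ?_, ?_, ?_, hhQ, ?_, hZD', ?_, ?_, ?_, ?_, ?_, ?_, ?_⟩
  · -- uniq
    intro x hx x' hx' v hv v' hv' ha hb hl he
    rw [Finset.mem_insert] at hx hx' hv hv'
    rcases hx with hx | hx
    · -- x = u
      subst hx
      have hx'X : x' ∈ X := hx'.resolve_left (fun h => by rw [h] at ha; exact G.irrefl ha)
      rw [hyu, hy x' hx'X] at he
      rcases hv with hv | hv
      · subst hv
        have hv'X : v' ∈ X := hv'.resolve_left (fun h => by rw [h] at hb; exact G.irrefl hb)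
        rw [hyu, hy v' hv'X] at he
        exact ⟨rfl, S.inj _ hx'X _ hv'X (by linarith)⟩
      · rw [hy v hv] at he
        rcases hv' with hv' | hv'
        · exfalso
          subst hv'
          rw [hyu] at he
          have h1 := hlt v hv hb.symm
          have h2 := hlt x' hx'X ha
          linarith
        · exfalso
          rw [hy v' hv'] at he
          apply hnew x' hx'X ha
          left
          have h2 := hlt x' hx'X ha
          exact ⟨v, hv, v', hv', hb, by linarith, he.symm⟩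
    · rw [hy x hx] at he hl
      rcases hx' with hx' | hx'
      · exfalso
        subst hx'
        rw [hyu] at hl
        have := hlt x hx ha.symm
        linarith
      · rw [hy x' hx'] at he hl
        rcases hv with hv | hv
        · exfalso
          subst hv
          have hv'X : v' ∈ X := hv'.resolve_left (fun h => by rw [h] at hb; exact G.irrefl hb)
          rw [hyu, hy v' hv'X] at he
          apply hnew v' hv'X hb
          left
          exact ⟨x, hx, x', hx', ha, hl, he⟩
        · rw [hy v hv] at he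
          rcases hv' with hv' | hv'
          · exfalso
            subst hv'
            rw [hyu] at he
            have := hlt v hv hb.symm
            linarith
          · rw [hy v' hv'] at he
            exact S.uniq x hx x' hx' v hv v' hv' ha hb hl he
  · -- sep
    intro x hx x' hx' ha hl hm
    rw [Finset.mem_insert] at hx hx'
    rcases hx with hx | hx
    · subst hx
      have hx'X : x' ∈ X := hx'.resolve_left (fun h => by rw [h] at ha; exact G.irrefl ha)
      rw [hyu, hy x' hx'X] at hm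
      exact hnew x' hx'X ha (Or.inr hm)
    · rcases hx' with hx' | hx'
      · subst hx'
        rw [hyu, hy x hx] at hl
        have := hlt x hx ha.symm
        linarith
      · rw [hy x hx, hy x' hx'] at hm hl
        exact S.sep x hx x' hx' ha hl hm
  · -- inj
    intro x hx x' hx' he
    rw [Finset.mem_insert] at hx hx'
    rcases hx with hx | hx <;> rcases hx' with hx' | hx'
    · rw [hx, hx']
    · rw [hx, hyu, hy x' hx'] at he
      exact absurd he.symm (hYX x' hx')
    · rw [hx', hyu, hy x hx] at he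
      exact absurd he (hYX x hx)
    · rw [hy x hx, hy x' hx'] at he
      exact S.inj x hx x' hx' he
  · intro n
    rw [hRl, hNm]
    exact hdec n
  · rw [hRl]; exact hhR
  · intro n hn
    rw [hRl]; exact hRQ n hn
  · intro x hx
    rw [Finset.mem_insert] at hx
    rcases hx with hx | hx
    · rw [hx, hyu]; exact hYZ
    · rw [hy x hx]; exact S.yZ x hx
  · intro x hx
    rw [Finset.mem_insert] at hx
    rcases hx with hx | hx
    · rw [hx, hyu]; exact hYD
    · rw [hy x hx]; exact hyD' x hx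
  · intro n hn
    rw [hNm] at hn
    exact hbd n hn
  · intro x hx
    rw [Finset.mem_insert] at hx
    rcases hx with hx | hx
    · rw [hx, hyu]; exact hbd Y (Or.inr (Or.inr (Or.inr rfl)))
    · rw [hy x hx]; exact hybd x hx
  · intro n hn
    rw [hNm] at hn
    exact hge n hn
  · intro x hx
    rw [Finset.mem_insert] at hx
    rcases hx with hx | hx
    · rw [hx, hyu]; exact hYs
    · rw [hy x hx]; exact S.low x hx
  · intro x hx
    rw [Finset.mem_insert] at hx
    rcases hx with hx | hx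
    · rw [hx, hyu]; exact hY0
    · rw [hy x hx]; exact S.nz x hx

end Pool.Agent.Graceful.BF
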