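import Mathlib
import Pool.Agent.Lib.MP_7616b3_co.BFState

set_option autoImplicit false

namespace Pool.Agent.Graceful.BF

open Finset Classical

variable {V : Type*}

/-- the number of ordered adjacent pairs inside `X` -/
noncomputable def e2 (G : SimpleGraph V) (X : Finset V) : ℕ :=
  ((X ×ˢ X).filter (fun p => G.Adj p.1 p.2)).card

lemma e2_eq (G : SimpleGraph V) (X : Finset V) (y : V → ℤ)
    (hinj : ∀ x ∈ X, ∀ x' ∈ X, y x = y x' → x = x') :
    e2 G X = 2 * ((X ×ˢ X).filter (fun p => G.Adj p.1 p.2 ∧ y p.2 < y p.1)).card := by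
  set P := (X ×ˢ X).filter (fun p => G.Adj p.1 p.2 ∧ y p.2 < y p.1) with hP
  set P' := (X ×ˢ X).filter (fun p => G.Adj p.1 p.2 ∧ y p.1 < y p.2) with hP'
  have h1 : P.card = P'.card := by
    apply Finset.card_bij (fun p _ => (p.2, p.1))
    · rintro ⟨a, b⟩ hab
      simp only [hP, hP', Finset.mem_filter, Finset.mem_product] at hab ⊢
      exact ⟨⟨hab.1.2, hab.1.1⟩, hab.2.1.symm, hab.2.2⟩
    · rintro ⟨a, b⟩ _ ⟨c, d⟩ _ h
      simp only [Prod.mk.injEq] at h
      rw [h.1, h.2]
    · rintro ⟨a, b⟩ hab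
      simp only [hP, hP', Finset.mem_filter, Finset.mem_product] at hab ⊢
      exact ⟨(b, a), ⟨⟨hab.1.2, hab.1.1⟩, hab.2.1.symm, hab.2.2⟩, rfl⟩
  have h2 : (X ×ˢ X).filter (fun p => G.Adj p.1 p.2) = P ∪ P' := by
    ext ⟨a, b⟩
    simp only [hP, hP', Finset.mem_filter, Finset.mem_product, Finset.mem_union]
    constructor
    · rintro ⟨⟨ha, hb⟩, hab⟩
      have hne : y a ≠ y b := fun h => hab.ne (hinj a ha b hb h)
      rcases lt_or_gt_of_ne hne with h | h
      · exact Or.inr ⟨⟨ha, hb⟩, hab, h⟩
      · exact Or.inl ⟨⟨ha, hb⟩, hab, h⟩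
    · rintro (h | h)
      · exact ⟨h.1, h.2.1⟩
      · exact ⟨h.1, h.2.1⟩
  have h3 : Disjoint P P' := by
    rw [Finset.disjoint_left]
    rintro ⟨a, b⟩ hp hp'
    simp only [hP, hP', Finset.mem_filter] at hp hp'
    have := hp.2.2
    have := hp'.2.2
    omega
  unfold e2
  rw [h2, Finset.card_union_of_disjoint h3, ← h1]
  ring

lemma e2_union (G : SimpleGraph V) {X Y : Finset V} (hd : Disjoint X Y)
    (hno : ∀ x ∈ X, ∀ z ∈ Y, ¬ G.Adj x z) : e2 G (X ∪ Y) = e2 G X + e2 G Y := by
  unfold e2
  rw [← Finset.card_union_of_disjoint]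
  · congr 1
    ext ⟨a, b⟩
    simp only [Finset.mem_filter, Finset.mem_product, Finset.mem_union]
    constructor
    · rintro ⟨⟨ha | ha, hb | hb⟩, hab⟩
      · exact Or.inl ⟨⟨ha, hb⟩, hab⟩
      · exact absurd hab (hno a ha b hb)
      · exact absurd hab.symm (hno b hb a ha)
      · exact Or.inr ⟨⟨ha, hb⟩, hab⟩
    · rintro (⟨⟨ha, hb⟩, hab⟩ | ⟨⟨ha, hb⟩, hab⟩)
      · exact ⟨⟨Or.inl ha, Or.inl hb⟩, hab⟩
      · exact ⟨⟨Or.inr ha, Or.inr hb⟩, hab⟩
  · rw [Finset.disjoint_left]
    rintro ⟨a, b⟩ h1 h2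
    simp only [Finset.mem_filter, Finset.mem_product] at h1 h2
    exact Finset.disjoint_left.mp hd h1.1.1 h2.1.1

lemma e2_insert (G : SimpleGraph V) {X : Finset V} {u : V} (hu : u ∉ X) :
    e2 G (insert u X) = e2 G X + 2 * (X.filter (fun p => G.Adj u p)).card := by
  unfold e2
  have h1 : ((insert u X) ×ˢ (insert u X)).filter (fun p => G.Adj p.1 p.2) =
      (X ×ˢ X).filter (fun p => G.Adj p.1 p.2) ∪
        ((X.filter (fun p => G.Adj u p)).image (fun p => (u, p)) ∪
          (X.filter (fun p => G.Adj u p)).image (fun p => (p, u))) := by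
    ext ⟨a, b⟩
    simp only [Finset.mem_filter, Finset.mem_product, Finset.mem_union, Finset.mem_insert,
      Finset.mem_image, Prod.mk.injEq]
    constructor
    · rintro ⟨⟨ha | ha, hb | hb⟩, hab⟩
      · rw [ha, hb] at hab; exact absurd hab G.irrefl
      · right; left
        rw [ha] at hab
        exact ⟨b, ⟨hb, hab⟩, ha.symm, rfl⟩
      · right; right
        rw [hb] at hab
        exact ⟨a, ⟨ha, hab.symm⟩, rfl, hb.symm⟩
      · exact Or.inl ⟨⟨ha, hb⟩, hab⟩
    · rintro (⟨⟨ha, hb⟩, hab⟩ | ⟨p, ⟨hp, hup⟩, rfl, rfl⟩ | ⟨p, ⟨hp, hup⟩, rfl, rfl⟩)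
      · exact ⟨⟨Or.inr ha, Or.inr hb⟩, hab⟩
      · exact ⟨⟨Or.inl rfl, Or.inr hp⟩, hup⟩
      · exact ⟨⟨Or.inr hp, Or.inl rfl⟩, hup.symm⟩
  rw [h1, Finset.card_union_of_disjoint, Finset.card_union_of_disjoint,
    Finset.card_image_of_injective, Finset.card_image_of_injective]
  · ring
  · intro a b h
    simpa using h
  · intro a b h
    simpa using h
  · rw [Finset.disjoint_left]
    rintro ⟨a, b⟩ h2 h3
    simp only [Finset.mem_image, Finset.mem_filter, Prod.mk.injEq] at h2 h3
    obtain ⟨p, ⟨hp, _⟩, rfl, rfl⟩ := h2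
    obtain ⟨q, ⟨hq, _⟩, hq1, hq2⟩ := h3
    exact hu (hq1 ▸ hq)
  · rw [Finset.disjoint_left]
    rintro ⟨a, b⟩ h2 h3
    simp only [Finset.mem_union, Finset.mem_image, Finset.mem_filter, Prod.mk.injEq,
      Finset.mem_product] at h2 h3
    rcases h3 with ⟨p, _, rfl, rfl⟩ | ⟨p, _, rfl, rfl⟩
    · exact hu h2.1.1
    · exact hu h2.1.2

/-- the number of debts -/
lemma FS.count {G : SimpleGraph V} {t k s : ℤ} {B X : Finset V} {y : V → ℤ} {Z D : Finset ℤ}
    {h : ℤ} (S : FS G t k s B X y Z D ∅ h) :
    2 * D.card + 2 * (X.filter (fun x => x ∈ B)).card = e2 G X + 2 := by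
  rw [e2_eq G X y S.inj]
  set P := (X ×ˢ X).filter (fun p => G.Adj p.1 p.2 ∧ y p.2 < y p.1) with hP
  have hPm : ∀ p : V × V, p ∈ P ↔ p.1 ∈ X ∧ p.2 ∈ X ∧ G.Adj p.1 p.2 ∧ y p.2 < y p.1 := by
    intro p
    simp only [hP, Finset.mem_filter, Finset.mem_product]
    tauto
  have hcardL : (insert h (P.image (fun p => y p.1 - y p.2) ∪ Z.image (fun n => n - t))).card
      = P.card + Z.card + 1 := by
    rw [Finset.card_insert_of_notMem, Finset.card_union_of_disjoint, Finset.card_image_of_injOn,
      Finset.card_image_of_injective]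
    · intro a b hab
      simpa using hab
    · rintro ⟨a, b⟩ hab ⟨c, d⟩ hcd he
      rw [Finset.mem_coe, hPm] at hab hcd
      simp only at hab hcd he
      obtain ⟨h1, h2⟩ := S.uniq a hab.1 b hab.2.1 c hcd.1 d hcd.2.1 hab.2.2.1 hcd.2.2.1
        hab.2.2.2 he
      rw [h1, h2]
    · rw [Finset.disjoint_left]
      intro n hn hn'
      obtain ⟨⟨a, b⟩, hab, he⟩ := Finset.mem_image.mp hn
      obtain ⟨z, hz, he'⟩ := Finset.mem_image.mp hn'
      rw [hPm] at hab
      simp only at hab he he'
      apply S.sep a hab.1 b hab.2.1 hab.2.2.1 hab.2.2.2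
      have : y a - y b + t = z := by linarith
      rw [this]
      exact hz
    · intro hh
      rw [Finset.mem_union] at hh
      apply S.hR
      rcases hh with hh | hh
      · obtain ⟨⟨a, b⟩, hab, he⟩ := Finset.mem_image.mp hh
        rw [hPm] at hab
        exact Or.inl ⟨a, hab.1, b, hab.2.1, hab.2.2.1, hab.2.2.2, he⟩
      · obtain ⟨z, hz, he'⟩ := Finset.mem_image.mp hh
        right
        have : h + t = z := by linarith
        rw [this]
        exact hz
  have hcardR : (Z ∪ (D ∪ (X.filter (fun x => x ∈ B)).image y)).card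
      = Z.card + (D.card + (X.filter (fun x => x ∈ B)).card) := by
    rw [Finset.card_union_of_disjoint, Finset.card_union_of_disjoint, Finset.card_image_of_injOn]
    · intro a ha b hb hab
      rw [Finset.mem_coe, Finset.mem_filter] at ha hb
      exact S.inj a ha.1 b hb.1 hab
    · rw [Finset.disjoint_left]
      intro n hn hn'
      obtain ⟨x, hx, he⟩ := Finset.mem_image.mp hn'
      rw [Finset.mem_filter] at hx
      exact S.yD x hx.1 (he ▸ hn)
    · rw [Finset.disjoint_left]
      intro n hn hn'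
      rw [Finset.mem_union] at hn'
      rcases hn' with hn' | hn'
      · exact S.ZD n hn hn'
      · obtain ⟨x, hx, he⟩ := Finset.mem_image.mp hn'
        rw [Finset.mem_filter] at hx
        exact S.yZ x hx.1 (he ▸ hn)
  have heq : insert h (P.image (fun p => y p.1 - y p.2) ∪ Z.image (fun n => n - t))
      = Z ∪ (D ∪ (X.filter (fun x => x ∈ B)).image y) := by
    ext n
    have h1 := S.dec n
    have h2 : n ∈ insert h (P.image (fun p => y p.1 - y p.2) ∪ Z.image (fun n => n - t)) ↔
        (Rl G t X y Z n ∨ n = h ∨ n ∈ (∅ : Finset ℤ)) := by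
      unfold Rl
      rw [Finset.mem_insert, Finset.mem_union, Finset.mem_image, Finset.mem_image]
      constructor
      · rintro (h3 | ⟨⟨a, b⟩, hab, he⟩ | ⟨z, hz, he⟩)
        · exact Or.inr (Or.inl h3)
        · rw [hPm] at hab
          exact Or.inl (Or.inl ⟨a, hab.1, b, hab.2.1, hab.2.2.1, hab.2.2.2, he⟩)
        · left; right
          have : n + t = z := by linarith
          rw [this]; exact hz
      · rintro ((⟨a, ha, b, hb, hab, hl, he⟩ | hz) | h3 | h3)
        · exact Or.inr (Or.inl ⟨(a, b), (hPm _).mpr ⟨ha, hb, hab, hl⟩, he⟩)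
        · exact Or.inr (Or.inr ⟨n + t, hz, by ring⟩)
        · exact Or.inl h3
        · exact absurd h3 (Finset.notMem_empty n)
    have h3 : n ∈ Z ∪ (D ∪ (X.filter (fun x => x ∈ B)).image y) ↔ Nm B X y Z D n := by
      unfold Nm
      rw [Finset.mem_union, Finset.mem_union, Finset.mem_image]
      constructor
      · rintro (h4 | h4 | ⟨x, hx, he⟩)
        · exact Or.inl h4
        · exact Or.inr (Or.inl h4)
        · rw [Finset.mem_filter] at hx
          exact Or.inr (Or.inr ⟨x, hx.1, hx.2, he⟩)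
      · rintro (h4 | h4 | ⟨x, hx, hxB, he⟩)
        · exact Or.inl h4
        · exact Or.inr (Or.inl h4)
        · exact Or.inr (Or.inr ⟨x, Finset.mem_filter.mpr ⟨hx, hxB⟩, he⟩)
    rw [h2, h3]
    exact h1
  rw [heq] at hcardL
  rw [hcardL] at hcardR
  omega

/-- many edges give a part in which all degrees are at least two -/
lemma exists_core (G : SimpleGraph V) : ∀ (n : ℕ) (Y : Finset V), Y.card = n → Y.Nonempty →
    2 * Y.card ≤ e2 G Y → ∃ U : Finset V, U ⊆ Y ∧ U.Nonempty ∧
      ∀ u ∈ U, 2 ≤ (U.filter (fun p => G.Adj u p)).card := by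
  intro n
  induction n with
  | zero =>
    intro Y hc hne _
    rw [Finset.card_eq_zero] at hc
    rw [hc] at hne
    exact absurd hne (by simp)
  | succ n ih =>
    intro Y hc hne he
    by_cases hall : ∀ u ∈ Y, 2 ≤ (Y.filter (fun p => G.Adj u p)).card
    · exact ⟨Y, subset_refl _, hne, hall⟩
    · push Not at hall
      obtain ⟨u, hu, hlt⟩ := hall
      have h1 : insert u (Y.erase u) = Y := Finset.insert_erase hu
      have h2 : e2 G Y = e2 G (Y.erase u) + 2 * ((Y.erase u).filter (fun p => G.Adj u p)).card := by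
        conv_lhs => rw [← h1]
        exact e2_insert G (Finset.notMem_erase u Y)
      have h3 : (Y.erase u).filter (fun p => G.Adj u p) ⊆ Y.filter (fun p => G.Adj u p) :=
        Finset.filter_subset_filter _ (Finset.erase_subset _ _)
      have h4 := Finset.card_le_card h3
      have h5 : (Y.erase u).card = n := by rw [Finset.card_erase_of_mem hu, hc]; rfl
      have hne' : (Y.erase u).Nonempty := by
        rw [← Finset.card_pos]
        by_contra hcon
        have h6 : n = 0 := by omega
        have h7 : Y.erase u = ∅ := by rw [← Finset.card_eq_zero, h5, h6]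
        rw [h7] at h2
        have h8 : e2 G (∅ : Finset V) = 0 := by
          unfold e2
          simp
        rw [h8, Finset.filter_empty, Finset.card_empty] at h2
        omega
      obtain ⟨U, hU, hUne, hUd⟩ := ih (Y.erase u) h5 hne' (by omega)
      exact ⟨U, hU.trans (Finset.erase_subset _ _), hUne, hUd⟩

/-- a chordless cycle `c 0, …, c m` in a finite nonempty set in which all degrees are at least
two -/
lemma exists_cycle (G : SimpleGraph V) (U : Finset V) (hne : U.Nonempty)
    (hd : ∀ u ∈ U, 2 ≤ (U.filter (fun p => G.Adj u p)).card) :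
    ∃ (m : ℕ) (c : ℕ → V), 2 ≤ m ∧ (∀ i ≤ m, c i ∈ U) ∧
      (∀ i ≤ m, ∀ j ≤ m, c i = c j → i = j) ∧ (∀ i < m, G.Adj (c i) (c (i + 1))) ∧
      G.Adj (c 0) (c m) ∧
      (∀ i j, i < j → j ≤ m → G.Adj (c i) (c j) → j = i + 1 ∨ (i = 0 ∧ j = m)) := by
  -- induced paths with `n + 1` vertices
  let IP : ℕ → (ℕ → V) → Prop := fun n v => (∀ i ≤ n, v i ∈ U) ∧
    (∀ i ≤ n, ∀ j ≤ n, v i = v j → i = j) ∧ (∀ i < n, G.Adj (v i) (v (i + 1))) ∧
    (∀ i j, i < j → j ≤ n → G.Adj (v i) (v j) → j = i + 1)
  have hbound : ∀ n v, IP n v → n < U.card := by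
    rintro n v ⟨h1, h2, _⟩
    have h3 : ((range (n + 1)).image v).card = n + 1 := by
      rw [Finset.card_image_of_injOn, Finset.card_range]
      intro i hi j hj hij
      rw [Finset.mem_coe, Finset.mem_range] at hi hj
      exact h2 i (by omega) j (by omega) hij
    have h4 : (range (n + 1)).image v ⊆ U := by
      intro x hx
      obtain ⟨i, hi, rfl⟩ := Finset.mem_image.mp hx
      rw [Finset.mem_range] at hi
      exact h1 i (by omega)
    have := Finset.card_le_card h4
    omega
  obtain ⟨u0, hu0⟩ := hne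
  have h0 : ∃ v, IP 0 v := by
    refine ⟨fun _ => u0, fun _ _ => hu0, ?_, ?_, ?_⟩
    · intro i hi j hj _
      omega
    · intro i hi; omega
    · intro i j hij hj; omega
  -- a longest one
  obtain ⟨n, ⟨v, hv⟩, hmax⟩ : ∃ n, (∃ v, IP n v) ∧ ∀ n', (∃ v, IP n' v) → n' ≤ n := by
    have hS : {n | ∃ v, IP n v}.Nonempty := ⟨0, h0⟩
    have hB : BddAbove {n | ∃ v, IP n v} := by
      refine ⟨U.card, ?_⟩
      rintro n ⟨v, hv⟩
      exact (hbound n v hv).le
    refine ⟨sSup {n | ∃ v, IP n v}, Nat.sSup_mem hS hB, ?_⟩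
    intro n' hn'
    exact le_csSup hB hn'
  obtain ⟨hvU, hvinj, hvadj, hvch⟩ := hv
  -- another neighbour of the first vertex
  obtain ⟨x, hxU, hvx, hx1⟩ : ∃ x ∈ U, G.Adj (v 0) x ∧ (1 ≤ n → x ≠ v 1) := by
    have h1 := hd (v 0) (hvU 0 (by omega))
    by_contra hcon
    push Not at hcon
    have h2 : U.filter (fun p => G.Adj (v 0) p) ⊆ {v 1} := by
      intro x hx
      rw [Finset.mem_filter] at hx
      rw [Finset.mem_singleton]
      exact (hcon x hx.1 hx.2).2
    have := Finset.card_le_card h2
    rw [Finset.card_singleton] at this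
    omega
  have hxv : ∀ i ≤ n, x ≠ v i := by
    intro i hi he
    have hi0 : i ≠ 0 := by
      rintro rfl
      rw [he] at hvx
      exact G.irrefl hvx
    rw [he] at hvx
    have := hvch 0 i (by omega) hi hvx
    have hi1 : i = 1 := by omega
    rw [hi1] at he
    exact hx1 (by omega) he
  -- `x` has a further neighbour on the path
  have hex : ∃ j, 1 ≤ j ∧ j ≤ n ∧ G.Adj x (v j) := by
    by_contra hcon
    push Not at hcon
    have hIP : IP (n + 1) (fun i => if i = 0 then x else v (i - 1)) := by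
      refine ⟨?_, ?_, ?_, ?_⟩
      · intro i hi
        by_cases e : i = 0
        · simp only [if_pos e]; exact hxU
        · simp only [if_neg e]; exact hvU (i - 1) (by omega)
      · intro i hi j hj hij
        by_cases e : i = 0 <;> by_cases e' : j = 0
        · rw [e, e']
        · simp only [if_pos e, if_neg e'] at hij
          exact absurd hij (hxv (j - 1) (by omega))
        · simp only [if_neg e, if_pos e'] at hij
          exact absurd hij.symm (hxv (i - 1) (by omega))
        · simp only [if_neg e, if_neg e'] at hij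
          have := hvinj (i - 1) (by omega) (j - 1) (by omega) hij
          omega
      · intro i hi
        by_cases e : i = 0
        · subst e
          simp only [if_pos rfl, if_neg (show ¬ (0 + 1 = 0) by omega)]
          exact hvx.symm
        · simp only [if_neg e, if_neg (show ¬ (i + 1 = 0) by omega)]
          have := hvadj (i - 1) (by omega)
          have e2 : i - 1 + 1 = i := by omega
          rw [e2] at this
          exact this
      · intro i j hij hj ha
        by_cases e : i = 0
        · simp only [if_pos e, if_neg (show ¬ (j = 0) by omega)] at ha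
          by_contra hne
          exact hcon (j - 1) (by omega) (by omega) ha
        · simp only [if_neg e, if_neg (show ¬ (j = 0) by omega)] at ha
          have := hvch (i - 1) (j - 1) (by omega) (by omega) ha
          omega
    have := hmax (n + 1) ⟨_, hIP⟩
    omega
  -- the nearest one
  let j := Nat.find hex
  obtain ⟨hj1, hjn, hjx⟩ : 1 ≤ j ∧ j ≤ n ∧ G.Adj x (v j) := Nat.find_spec hex
  have hjmin : ∀ i, 1 ≤ i → i < j → ¬ G.Adj x (v i) := by
    intro i hi hij ha
    exact Nat.find_min hex hij ⟨hi, by omega, ha⟩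
  refine ⟨j + 1, fun i => if i ≤ j then v i else x, by omega, ?_, ?_, ?_, ?_, ?_⟩
  · intro i hi
    by_cases e : i ≤ j
    · simp only [if_pos e]; exact hvU i (by omega)
    · simp only [if_neg e]; exact hxU
  · intro i hi i' hi' he
    by_cases e : i ≤ j <;> by_cases e' : i' ≤ j
    · simp only [if_pos e, if_pos e'] at he
      exact hvinj i (by omega) i' (by omega) he
    · simp only [if_pos e, if_neg e'] at he
      exact absurd he.symm (hxv i (by omega))
    · simp only [if_neg e, if_pos e'] at he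
      exact absurd he (hxv i' (by omega))
    · omega
  · intro i hi
    by_cases e : i + 1 ≤ j
    · simp only [if_pos (show i ≤ j by omega), if_pos e]
      exact hvadj i (by omega)
    · simp only [if_pos (show i ≤ j by omega), if_neg e]
      have : i = j := by omega
      rw [this]
      exact hjx.symm
  · simp only [if_pos (Nat.zero_le j), if_neg (show ¬ (j + 1 ≤ j) by omega)]
    exact hvx
  · intro i i' hii hi' ha
    by_cases e : i' ≤ j
    · simp only [if_pos (show i ≤ j by omega), if_pos e] at ha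
      left
      exact hvch i i' hii (by omega) ha
    · simp only [if_pos (show i ≤ j by omega), if_neg e] at ha
      have hi'' : i' = j + 1 := by omega
      by_cases e0 : i = 0
      · right; exact ⟨e0, hi''⟩
      · left
        by_contra hne
        exact hjmin i (by omega) (by omega) ha.symm

end Pool.Agent.Graceful.BF
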