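import Mathlib
import Pool.Agent.Lib.MP_7616b3_co.BFCount

set_option autoImplicit false

namespace Pool.Agent.Graceful.BF

open Finset Classical

variable {V : Type*}

lemma three_pow_le {j a : ℕ} (h : j < a) : 3 * (3 : ℤ) ^ j ≤ 3 ^ a := by
  have h1 : (3 : ℤ) ^ (j + 1) ≤ 3 ^ a := pow_le_pow_right₀ (by norm_num) h
  rw [pow_succ] at h1
  linarith

lemma three_pow_pos (j : ℕ) : 0 < (3 : ℤ) ^ j := by positivity

lemma three_sub_uniq {a b c d : ℕ} (hab : b < a) (hcd : d < c)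
    (h : (3 : ℤ) ^ a - 3 ^ b = 3 ^ c - 3 ^ d) : a = c ∧ b = d := by
  have h1 := three_pow_le hab
  have h2 := three_pow_le hcd
  have hb := three_pow_pos b
  have hd := three_pow_pos d
  have hac : a = c := by
    by_contra hne
    rcases Nat.lt_or_gt_of_ne hne with hl | hl
    · have := three_pow_le hl
      have := three_pow_pos a
      linarith
    · have := three_pow_le hl
      have := three_pow_pos c
      linarith
  refine ⟨hac, ?_⟩
  subst hac
  have h3 : (3 : ℤ) ^ b = 3 ^ d := by linarith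
  exact Int.pow_right_injective (by norm_num) h3

lemma three_sub_ne {a b j : ℕ} (hab : b < a) : (3 : ℤ) ^ a - 3 ^ b ≠ 3 ^ j := by
  intro h
  have h1 := three_pow_le hab
  have hb := three_pow_pos b
  rcases Nat.lt_or_ge j a with hl | hl
  · have := three_pow_le hl
    linarith
  · have : (3 : ℤ) ^ a ≤ 3 ^ j := pow_le_pow_right₀ (by norm_num) hl
    linarith

lemma three_lt_iff {a b : ℕ} : (3 : ℤ) ^ a < 3 ^ b ↔ a < b :=
  pow_lt_pow_iff_right₀ (by norm_num)

/-- an independent part of `B` -/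
lemma exists_indep [Countable V] (G : SimpleGraph V) (C Bf : Finset V) (w2 : V) (hBC : Bf ⊆ C) :
    ∃ T : Finset V, T ⊆ Bf.erase w2 ∧ 2 * T.card ≤ e2 G C ∧
      ∀ u ∈ Bf, u ≠ w2 → u ∉ T → ∀ x ∈ C, G.Adj u x → x ∈ T := by
  obtain ⟨ν0, hν0⟩ := exists_injective_nat V
  let ν : V → ℤ := fun v => (ν0 v : ℤ)
  have hν : ∀ x x', ν x = ν x' → x = x' := fun x x' h => hν0 (Int.ofNat.inj h)
  set P := (C ×ˢ C).filter (fun p => G.Adj p.1 p.2 ∧ ν p.2 < ν p.1) with hP
  set E := Bf.erase w2 with hE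
  let pick : V × V → V := fun p => if p.1 ∈ E then p.1 else p.2
  refine ⟨(P.filter (fun p => p.1 ∈ E ∨ p.2 ∈ E)).image pick, ?_, ?_, ?_⟩
  · intro x hx
    obtain ⟨p, hp, rfl⟩ := Finset.mem_image.mp hx
    rw [Finset.mem_filter] at hp
    by_cases e : p.1 ∈ E
    · simp only [pick, if_pos e]; exact e
    · simp only [pick, if_neg e]; exact hp.2.resolve_left e
  · have h3 : e2 G C = 2 * P.card := e2_eq G C ν (fun x _ x' _ => hν x x')
    have h1 := Finset.card_image_le (s := P.filter (fun p => p.1 ∈ E ∨ p.2 ∈ E)) (f := pick)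
    have h2 := Finset.card_filter_le P (fun p => p.1 ∈ E ∨ p.2 ∈ E)
    omega
  · intro u hu hu2 huT x hx ha
    have huE : u ∈ E := Finset.mem_erase.mpr ⟨hu2, hu⟩
    have hne : ν u ≠ ν x := fun h => ha.ne (hν _ _ h)
    rcases lt_or_gt_of_ne hne with h | h
    · -- pair (x, u)
      have hp : ((x, u) : V × V) ∈ P.filter (fun p => p.1 ∈ E ∨ p.2 ∈ E) := by
        rw [Finset.mem_filter, hP, Finset.mem_filter, Finset.mem_product]
        exact ⟨⟨⟨hx, hBC hu⟩, ha.symm, h⟩, Or.inr huE⟩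
      by_cases e : x ∈ E
      · refine Finset.mem_image.mpr ⟨(x, u), hp, ?_⟩
        simp only [pick, if_pos e]
      · exfalso
        apply huT
        refine Finset.mem_image.mpr ⟨(x, u), hp, ?_⟩
        simp only [pick, if_neg e]
    · exfalso
      apply huT
      have hp : ((u, x) : V × V) ∈ P.filter (fun p => p.1 ∈ E ∨ p.2 ∈ E) := by
        rw [Finset.mem_filter, hP, Finset.mem_filter, Finset.mem_product]
        exact ⟨⟨⟨hBC hu, hx⟩, ha, h⟩, Or.inl huE⟩
      refine Finset.mem_image.mpr ⟨(u, x), hp, ?_⟩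
      simp only [pick, if_pos huE]

/-- the numbers of the first vertices -/
lemma exists_init_numbers (Pi M : Finset V) (v0 w2 : V) (k s : ℕ) (hk : 1 ≤ k)
    (hPi : Pi.card = k - 1 + s) (hw : w2 ∈ M) (hPM : ∀ x ∈ Pi, x ∉ M)
    (hv0 : v0 = w2 ∨ (v0 ∉ M ∧ v0 ∉ Pi)) :
    ∃ (y : V → ℤ) (ι : V → ℕ) (K t h : ℤ), (k : ℤ) + 2 * s + 5 ≤ K ∧ t = K * 3 ^ (ι w2) ∧
      y w2 = t ∧ (∀ x ∈ M, y x = K * 3 ^ (ι x)) ∧ (∀ x ∈ M, ∀ x' ∈ M, ι x = ι x' → x = x') ∧
      (∀ x ∈ M, ι x ≤ ι w2) ∧ y v0 = h ∧ ((v0 = w2 ∧ h = t) ∨ (v0 ≠ w2 ∧ h = t + 1)) ∧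
      (∀ x ∈ Pi, -(s : ℤ) ≤ y x ∧ y x < k ∧ y x ≠ 0) ∧
      (∀ x ∈ Pi, ∀ x' ∈ Pi, y x = y x' → x = x') ∧
      (∀ n : ℤ, -(s : ℤ) ≤ n → n < k → n ≠ 0 → ∃ x ∈ Pi, y x = n) := by
  set M' := M.erase w2 with hM'
  let E := M'.equivFin
  let ι : V → ℕ := fun x => if h : x ∈ M' then (E ⟨x, h⟩ : ℕ) else M'.card
  have hι2 : ι w2 = M'.card := dif_neg (Finset.notMem_erase w2 M)
  have hιlt : ∀ x ∈ M', ι x < M'.card := by
    intro x hx
    simp only [ι, dif_pos hx]
    exact (E ⟨x, hx⟩).2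
  have hιinj : ∀ x ∈ M, ∀ x' ∈ M, ι x = ι x' → x = x' := by
    intro x hx x' hx' h
    by_cases e : x = w2 <;> by_cases e' : x' = w2
    · rw [e, e']
    · have := hιlt x' (Finset.mem_erase.mpr ⟨e', hx'⟩)
      rw [e, hι2] at h
      omega
    · have := hιlt x (Finset.mem_erase.mpr ⟨e, hx⟩)
      rw [e', hι2] at h
      omega
    · have g := Finset.mem_erase.mpr ⟨e, hx⟩
      have g' := Finset.mem_erase.mpr ⟨e', hx'⟩
      simp only [ι] at h
      rw [dif_pos g, dif_pos g'] at h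
      have := E.injective (Fin.ext h)
      exact congrArg Subtype.val this
  have hιle : ∀ x ∈ M, ι x ≤ ι w2 := by
    intro x hx
    by_cases e : x = w2
    · rw [e]
    · rw [hι2]
      exact (hιlt x (Finset.mem_erase.mpr ⟨e, hx⟩)).le
  set Sl : Finset ℤ := (Finset.Ico (-(s : ℤ)) (k : ℤ)).erase 0 with hSl
  have hSlc : Sl.card = k - 1 + s := by
    rw [hSl, Finset.card_erase_of_mem, Int.card_Ico]
    · omega
    · rw [Finset.mem_Ico]
      omega
  have hSlm : ∀ n, n ∈ Sl ↔ (-(s : ℤ) ≤ n ∧ n < k ∧ n ≠ 0) := by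
    intro n
    rw [hSl, Finset.mem_erase, Finset.mem_Ico]
    tauto
  let F : Pi ≃ Sl := Finset.equivOfCardEq (by rw [hPi, hSlc])
  let σ : V → ℤ := fun x => if h : x ∈ Pi then (F ⟨x, h⟩ : ℤ) else 0
  have hσ : ∀ x (h : x ∈ Pi), σ x = (F ⟨x, h⟩ : ℤ) := fun x h => dif_pos h
  set K : ℤ := (k : ℤ) + 2 * s + 5 with hK
  set t : ℤ := K * 3 ^ (ι w2) with ht
  let y : V → ℤ := fun x => if x ∈ M then K * 3 ^ (ι x) else if x ∈ Pi then σ x else t + 1
  have hyM : ∀ x ∈ M, y x = K * 3 ^ (ι x) := fun x hx => if_pos hx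
  have hyP : ∀ x ∈ Pi, y x = σ x := by
    intro x hx
    simp only [y]
    rw [if_neg (hPM x hx), if_pos hx]
  have hyv : v0 ≠ w2 → y v0 = t + 1 := by
    intro hne
    rcases hv0 with h | h
    · exact absurd h hne
    · simp only [y]
      rw [if_neg h.1, if_neg h.2]
  refine ⟨y, ι, K, t, y v0, le_refl _, rfl, hyM w2 hw, hyM, hιinj, hιle, rfl, ?_, ?_, ?_, ?_⟩
  · by_cases e : v0 = w2
    · left
      refine ⟨e, ?_⟩
      rw [e, hyM w2 hw]
    · exact Or.inr ⟨e, hyv e⟩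
  · intro x hx
    rw [hyP x hx, hσ x hx]
    exact (hSlm _).mp (F ⟨x, hx⟩).2
  · intro x hx x' hx' h
    rw [hyP x hx, hyP x' hx', hσ x hx, hσ x' hx'] at h
    have := F.injective (Subtype.ext h)
    exact congrArg Subtype.val this
  · intro n h1 h2 h3
    have hn : n ∈ Sl := (hSlm n).mpr ⟨h1, h2, h3⟩
    refine ⟨(F.symm ⟨n, hn⟩ : V), (F.symm ⟨n, hn⟩).2, ?_⟩
    rw [hyP _ (F.symm ⟨n, hn⟩).2, hσ _ (F.symm ⟨n, hn⟩).2]
    simp

/-- the initial state -/
lemma exists_init [Countable V] (G : SimpleGraph V) (C : Finset V) (w1 w2 : V) (k s : ℕ)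
    (hk : 1 ≤ k) (hw2 : w2 ∈ C)
    (hcard : 2 * (C.filter (fun x => ¬ G.Adj w1 x)).card = e2 G C + 2 * k + 2 * s) :
    ∃ (B X : Finset V) (y : V → ℤ) (D : Finset ℤ) (t h : ℤ),
      FS G t k s B X y ∅ D ∅ h ∧ X ⊆ C ∧ C \ X ⊆ B ∧ B ⊆ C ∧
      2 * (C.filter (fun x => x ∈ B)).card = e2 G C + 2 ∧
      2 * (s : ℤ) + 5 ≤ t ∧ w2 ∈ X ∧ y w2 = t ∧ (∀ x ∈ B, ¬ G.Adj w1 x) ∧
      (∀ x ∈ C, x ∉ B → x ∈ X) ∧
      (∀ x ∈ C, x ∉ B → G.Adj w1 x → (k : ℤ) ≤ y x) ∧
      (∀ x ∈ C, x ∉ B → ¬ G.Adj w1 x → y x < k) ∧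
      (∀ n : ℤ, -(s : ℤ) ≤ n → n < k → n ≠ 0 → ∃ x ∈ C, x ∉ B ∧ ¬ G.Adj w1 x ∧ y x = n) := by
  set Bf := C.filter (fun x => ¬ G.Adj w1 x) with hBf
  set A := C.filter (fun x => G.Adj w1 x) with hA
  have hBC : Bf ⊆ C := Finset.filter_subset _ _
  have hAC : A ⊆ C := Finset.filter_subset _ _
  obtain ⟨T, hTE, hTc, hT⟩ := exists_indep G C Bf w2 hBC
  have hTB : T ⊆ Bf := hTE.trans (Finset.erase_subset _ _)
  have hS : (Bf \ T).card + T.card = Bf.card := by
    have := Finset.card_sdiff_add_card_eq_card hTB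
    exact this
  -- the low part `Pi` and the head vertex `v0`
  obtain ⟨Pi, v0, hPiS, hPic, hPiw, hv0S, hv0Pi, hv0⟩ : ∃ (Pi : Finset V) (v0 : V),
      Pi ⊆ Bf \ T ∧ Pi.card = k - 1 + s ∧ w2 ∉ Pi ∧ v0 ∈ Bf \ T ∧ v0 ∉ Pi ∧
      (v0 = w2 ∨ (w2 ∈ A ∧ v0 ≠ w2)) := by
    by_cases e : w2 ∈ Bf
    · have h1 : w2 ∈ Bf \ T := Finset.mem_sdiff.mpr ⟨e, fun h => Finset.notMem_erase w2 Bf (hTE h)⟩
      have h2 : k - 1 + s ≤ ((Bf \ T).erase w2).card := by
        rw [Finset.card_erase_of_mem h1]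
        omega
      obtain ⟨Pi, hPi, hPic⟩ := Finset.exists_subset_card_eq h2
      refine ⟨Pi, w2, hPi.trans (Finset.erase_subset _ _), hPic, ?_, h1, ?_, Or.inl rfl⟩
      · intro h; exact Finset.notMem_erase w2 _ (hPi h)
      · intro h; exact Finset.notMem_erase w2 _ (hPi h)
    · have hwA : w2 ∈ A := by
        rw [hA, Finset.mem_filter]
        refine ⟨hw2, ?_⟩
        by_contra hcon
        exact e (Finset.mem_filter.mpr ⟨hw2, hcon⟩)
      have h2 : k - 1 + s ≤ (Bf \ T).card := by omega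
      obtain ⟨Pi, hPi, hPic⟩ := Finset.exists_subset_card_eq h2
      have h3 : ((Bf \ T) \ Pi).Nonempty := by
        rw [← Finset.card_pos, Finset.card_sdiff_of_subset hPi]
        omega
      obtain ⟨v0, hv0⟩ := h3
      rw [Finset.mem_sdiff] at hv0
      refine ⟨Pi, v0, hPi, hPic, ?_, hv0.1, hv0.2, Or.inr ⟨hwA, ?_⟩⟩
      · intro h; exact e ((Finset.mem_sdiff.mp (hPi h)).1)
      · rintro rfl
        exact e (Finset.mem_sdiff.mp hv0.1).1
  have hPiB : Pi ⊆ Bf := hPiS.trans Finset.sdiff_subset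
  have hABf : ∀ x ∈ A, x ∉ Bf := by
    intro x hx hx'
    exact (Finset.mem_filter.mp hx').2 (Finset.mem_filter.mp hx).2
  have hCAB : ∀ x ∈ C, x ∉ Bf → x ∈ A := by
    intro x hx hx'
    rw [hA, Finset.mem_filter]
    refine ⟨hx, ?_⟩
    by_contra hcon
    exact hx' (Finset.mem_filter.mpr ⟨hx, hcon⟩)
  set M := insert w2 A with hM
  have hMC : M ⊆ C := Finset.insert_subset hw2 hAC
  have hPM : ∀ x ∈ Pi, x ∉ M := by
    intro x hx hxM
    rw [hM, Finset.mem_insert] at hxM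
    rcases hxM with rfl | h
    · exact hPiw hx
    · exact hABf x h (hPiB hx)
  have hv0B : v0 ∈ Bf := (Finset.mem_sdiff.mp hv0S).1
  have hv0M : v0 = w2 ∨ (v0 ∉ M ∧ v0 ∉ Pi) := by
    rcases hv0 with h | ⟨_, h⟩
    · exact Or.inl h
    · right
      refine ⟨?_, hv0Pi⟩
      rw [hM, Finset.mem_insert]
      rintro (h1 | h1)
      · exact h h1
      · exact hABf _ h1 hv0B
  obtain ⟨y, ι, K, t, h, hK, ht, hyw, hyM, hιinj, hιle, hyv, hvh, hyP, hyPinj, hyPsurj⟩ :=
    exists_init_numbers Pi M v0 w2 k s hk hPic (Finset.mem_insert_self _ _) hPM hv0M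
  have hs0 : (0 : ℤ) ≤ s := by positivity
  have hk0 : (1 : ℤ) ≤ k := by exact_mod_cast hk
  have hK0 : 0 < K := by linarith
  have htK : K ≤ t := by
    have := three_pow_pos (ι w2)
    rw [ht]
    nlinarith
  have hyMK : ∀ x ∈ M, K ≤ y x ∧ y x ≤ t := by
    intro x hx
    rw [hyM x hx, ht]
    have h1 := three_pow_pos (ι x)
    have h2 : (3 : ℤ) ^ (ι x) ≤ 3 ^ (ι w2) := pow_le_pow_right₀ (by norm_num) (hιle x hx)
    constructor
    · nlinarith
    · exact mul_le_mul_of_nonneg_left h2 hK0.le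
  have hht : t ≤ h ∧ h ≤ t + 1 := by
    rcases hvh with ⟨_, h1⟩ | ⟨_, h1⟩ <;> rw [h1] <;> constructor <;> linarith
  -- the placed set
  set X := Pi ∪ insert v0 M with hX
  have hXC : X ⊆ C := by
    apply Finset.union_subset (hPiB.trans hBC)
    exact Finset.insert_subset (hBC hv0B) hMC
  have hTX : ∀ x ∈ X, x ∉ T := by
    intro x hx hxT
    rw [hX, Finset.mem_union, Finset.mem_insert, hM, Finset.mem_insert] at hx
    rcases hx with hx | rfl | rfl | hx
    · exact (Finset.mem_sdiff.mp (hPiS hx)).2 hxT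
    · exact (Finset.mem_sdiff.mp hv0S).2 hxT
    · exact Finset.notMem_erase _ _ (hTE hxT)
    · exact hABf x hx (hTB hxT)
  -- no adjacency outside `M`
  have hnadj : ∀ x ∈ X, x ∉ M → ∀ x' ∈ X, ¬ G.Adj x x' := by
    intro x hx hxM x' hx' ha
    have hxB : x ∈ Bf := by
      rw [hX, Finset.mem_union, Finset.mem_insert] at hx
      rcases hx with hx | rfl | hx
      · exact hPiB hx
      · exact hv0B
      · exact absurd hx hxM
    have hxw : x ≠ w2 := by
      rintro rfl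
      exact hxM (Finset.mem_insert_self _ _)
    exact hTX x' hx' (hT x hxB hxw (hTX x hx) x' (hXC hx') ha)
  have hadjM : ∀ x ∈ X, ∀ x' ∈ X, G.Adj x x' → x ∈ M ∧ x' ∈ M := by
    intro x hx x' hx' ha
    constructor
    · by_contra hcon; exact hnadj x hx hcon x' hx' ha
    · by_contra hcon; exact hnadj x' hx' hcon x hx ha.symm
  have hMX : M ⊆ X := fun x hx => Finset.mem_union_right _ (Finset.mem_insert_of_mem hx)
  have hlt : ∀ x ∈ M, ∀ x' ∈ M, y x' < y x → ι x' < ι x := by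
    intro x hx x' hx' hl
    rw [hyM x hx, hyM x' hx'] at hl
    exact three_lt_iff.mp (lt_of_mul_lt_mul_left hl hK0.le)
  set D := ((M ×ˢ M).filter (fun p => G.Adj p.1 p.2 ∧ y p.2 < y p.1)).image
    (fun p => y p.1 - y p.2) with hD
  have hDm : ∀ n, n ∈ D ↔ ∃ x ∈ M, ∃ x' ∈ M, G.Adj x x' ∧ y x' < y x ∧ y x - y x' = n := by
    intro n
    rw [hD, Finset.mem_image]
    constructor
    · rintro ⟨⟨x, x'⟩, hp, he⟩
      rw [Finset.mem_filter, Finset.mem_product] at hp
      exact ⟨x, hp.1.1, x', hp.1.2, hp.2.1, hp.2.2, he⟩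
    · rintro ⟨x, hx, x', hx', ha, hl, he⟩
      refine ⟨(x, x'), ?_, he⟩
      rw [Finset.mem_filter, Finset.mem_product]
      exact ⟨⟨hx, hx'⟩, ha, hl⟩
  have hDval : ∀ n ∈ D, ∃ a b : ℕ, b < a ∧ a ≤ ι w2 ∧ n = K * (3 ^ a - 3 ^ b) := by
    intro n hn
    obtain ⟨x, hx, x', hx', ha, hl, he⟩ := (hDm n).mp hn
    refine ⟨ι x, ι x', hlt x hx x' hx' hl, hιle x hx, ?_⟩
    rw [← he, hyM x hx, hyM x' hx']
    ring
  have hDK : ∀ n ∈ D, K ≤ n ∧ n < t := by
    intro n hn
    obtain ⟨a, b, hab, haw, rfl⟩ := hDval n hn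
    have h1 := three_pow_le hab
    have h2 := three_pow_pos b
    have h3 : (3 : ℤ) ^ a ≤ 3 ^ (ι w2) := pow_le_pow_right₀ (by norm_num) haw
    constructor
    · nlinarith
    · rw [ht]
      exact mul_lt_mul_of_pos_left (by linarith) hK0
  have hRl : ∀ n, Rl G t X y ∅ n ↔ n ∈ D := by
    intro n
    rw [hDm]
    unfold Rl
    constructor
    · rintro (⟨x, hx, x', hx', ha, hl, he⟩ | h1)
      · obtain ⟨h1, h2⟩ := hadjM x hx x' hx' ha
        exact ⟨x, h1, x', h2, ha, hl, he⟩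
      · exact absurd h1 (Finset.notMem_empty _)
    · rintro ⟨x, hx, x', hx', ha, hl, he⟩
      exact Or.inl ⟨x, hMX hx, x', hMX hx', ha, hl, he⟩
  have hyvM : v0 ≠ w2 → v0 ∉ M ∧ v0 ∉ Pi := fun hne => hv0M.resolve_left hne
  have hhD : h ∉ D := by
    intro hh
    have := (hDK h hh).2
    linarith [hht.1]
  -- `X ∩ (Bf \ Pi) = {v0}`
  have hXB : ∀ x ∈ X, x ∈ Bf \ Pi → x = v0 := by
    intro x hx hxB
    rw [Finset.mem_sdiff] at hxB
    rw [hX, Finset.mem_union, Finset.mem_insert, hM, Finset.mem_insert] at hx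
    rcases hx with hx | hx | hx | hx
    · exact absurd hx hxB.2
    · exact hx
    · rcases hv0 with h1 | ⟨h1, _⟩
      · rw [hx, h1]
      · exact absurd hxB.1 (hABf x (hx ▸ h1))
    · exact absurd hxB.1 (hABf x hx)
  have hv0X : v0 ∈ X := Finset.mem_union_right _ (Finset.mem_insert_self _ _)
  have hNm : ∀ n, Nm (Bf \ Pi) X y ∅ D n ↔ (n ∈ D ∨ n = h) := by
    intro n
    unfold Nm
    constructor
    · rintro (h1 | h1 | ⟨x, hx, hxB, he⟩)
      · exact absurd h1 (Finset.notMem_empty _)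
      · exact Or.inl h1
      · right
        rw [← he, hXB x hx hxB, hyv]
    · rintro (h1 | h1)
      · exact Or.inr (Or.inl h1)
      · exact Or.inr (Or.inr ⟨v0, hv0X, Finset.mem_sdiff.mpr ⟨hv0B, hv0Pi⟩, by rw [hyv, h1]⟩)
  have hcases : ∀ x ∈ X, x ∈ Pi ∨ x ∈ M ∨ (x = v0 ∧ v0 ≠ w2 ∧ y x = t + 1) := by
    intro x hx
    rw [hX, Finset.mem_union, Finset.mem_insert] at hx
    rcases hx with hx | hx | hx
    · exact Or.inl hx
    · rcases hvh with ⟨h1, _⟩ | ⟨h1, h2⟩
      · right; left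
        rw [hx, h1]
        exact Finset.mem_insert_self _ _
      · right; right
        refine ⟨hx, h1, ?_⟩
        rw [hx, hyv, h2]
    · exact Or.inr (Or.inl hx)
  have hKdvd : ∀ x ∈ M, K ∣ y x := fun x hx => by rw [hyM x hx]; exact Dvd.intro _ rfl
  have hKt : K ∣ t := by rw [ht]; exact Dvd.intro _ rfl
  have hKt1 : ¬ K ∣ t + 1 := by
    intro hd
    have h1 : K ∣ 1 := by
      have := dvd_sub hd hKt
      have e : t + 1 - t = 1 := by ring
      rwa [e] at this
    have := Int.le_of_dvd (by norm_num) h1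
    linarith
  refine ⟨Bf \ Pi, X, y, D, t, h, ?_, hXC, ?_, Finset.sdiff_subset.trans hBC, ?_, by linarith,
    hMX (Finset.mem_insert_self _ _), hyw, ?_, ?_, ?_, ?_, ?_⟩
  · refine ⟨?_, ?_, ?_, ?_, ?_, ?_, ?_, ?_, ?_, ?_, ?_, ?_, ?_, ?_, ?_⟩
    · intro x hx x' hx' u hu u' hu' ha hb hl he
      obtain ⟨h1, h2⟩ := hadjM x hx x' hx' ha
      obtain ⟨h3, h4⟩ := hadjM u hu u' hu' hb
      have h5 := hlt x h1 x' h2 hl
      have h6 := hlt u h3 u' h4 (by linarith)
      rw [hyM x h1, hyM x' h2, hyM u h3, hyM u' h4] at he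
      have h7 : (3 : ℤ) ^ ι x - 3 ^ ι x' = 3 ^ ι u - 3 ^ ι u' := by
        have h8 : K * ((3 : ℤ) ^ ι x - 3 ^ ι x') = K * (3 ^ ι u - 3 ^ ι u') := by
          rw [mul_sub, mul_sub]; exact he
        exact mul_left_cancel₀ hK0.ne' h8
      obtain ⟨h9, h10⟩ := three_sub_uniq h5 h6 h7
      exact ⟨hιinj x h1 u h3 h9, hιinj x' h2 u' h4 h10⟩
    · intro x _ x' _ _ _
      exact Finset.notMem_empty _
    · intro x hx x' hx' he
      rcases hcases x hx with h1 | h1 | ⟨h1, h1', h1''⟩ <;>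
        rcases hcases x' hx' with h2 | h2 | ⟨h2, h2', h2''⟩
      · exact hyPinj x h1 x' h2 he
      · have := hyP x h1
        have := hyMK x' h2
        linarith
      · have := hyP x h1
        linarith
      · have := hyP x' h2
        have := hyMK x h1
        linarith
      · rw [hyM x h1, hyM x' h2] at he
        have h3 : (3 : ℤ) ^ ι x = 3 ^ ι x' := mul_left_cancel₀ hK0.ne' he
        exact hιinj x h1 x' h2 (Int.pow_right_injective (by norm_num) h3)
      · have := (hyMK x h1).2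
        linarith
      · have := hyP x' h2
        linarith
      · have := (hyMK x' h2).2
        linarith
      · rw [h1, h2]
    · intro n
      rw [hRl, hNm]
      constructor
      · rintro (h1 | h1 | h1)
        · exact Or.inl h1
        · exact Or.inr h1
        · exact absurd h1 (Finset.notMem_empty _)
      · rintro (h1 | h1)
        · exact Or.inl h1
        · exact Or.inr (Or.inl h1)
    · rw [hRl]; exact hhD
    · exact Finset.notMem_empty _
    · intro n hn; exact absurd hn (Finset.notMem_empty _)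
    · intro n hn; exact absurd hn (Finset.notMem_empty _)
    · intro x _; exact Finset.notMem_empty _
    · intro x hx hxD
      rcases hcases x hx with h1 | h1 | ⟨h1, h1', h1''⟩
      · have := hyP x h1
        have := (hDK _ hxD).1
        linarith
      · obtain ⟨a, b, hab, _, he⟩ := hDval _ hxD
        rw [hyM x h1] at he
        exact three_sub_ne hab (mul_left_cancel₀ hK0.ne' he).symm
      · have := (hDK _ hxD).2
        linarith
    · intro n hn
      rw [hNm] at hn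
      rcases hn with h1 | h1
      · have := (hDK n h1).2
        linarith [hht.1]
      · linarith
    · intro x hx
      rcases hcases x hx with h1 | h1 | ⟨h1, h1', h1''⟩
      · have := hyP x h1
        linarith [hht.1]
      · have := (hyMK x h1).2
        linarith [hht.1]
      · linarith [hht.1]
    · intro n hn
      rw [hNm] at hn
      rcases hn with h1 | h1
      · have := (hDK n h1).1
        linarith
      · linarith [hht.1]
    · intro x hx
      rcases hcases x hx with h1 | h1 | ⟨h1, h1', h1''⟩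
      · exact (hyP x h1).1
      · have := (hyMK x h1).1
        linarith
      · linarith
    · intro x hx he
      rcases hcases x hx with h1 | h1 | ⟨h1, h1', h1''⟩
      · exact (hyP x h1).2.2 he
      · have := (hyMK x h1).1
        linarith
      · linarith
  · -- C \ X ⊆ Bf \ Pi
    intro x hx
    rw [Finset.mem_sdiff] at hx
    rw [Finset.mem_sdiff]
    constructor
    · by_contra hcon
      apply hx.2
      exact hMX (Finset.mem_insert_of_mem (hCAB x hx.1 hcon))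
    · intro hP
      exact hx.2 (Finset.mem_union_left _ hP)
  · -- the count
    have h1 : C.filter (fun x => x ∈ Bf \ Pi) = Bf \ Pi := by
      ext x
      rw [Finset.mem_filter]
      exact ⟨fun h => h.2, fun h => ⟨hBC (Finset.sdiff_subset h), h⟩⟩
    rw [h1]
    have h2 := Finset.card_sdiff_add_card_eq_card hPiB
    omega
  · intro x hx
    exact (Finset.mem_filter.mp (Finset.sdiff_subset hx)).2
  · intro x hx hxB
    by_cases e : x ∈ Bf
    · have : x ∈ Pi := by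
        by_contra hcon
        exact hxB (Finset.mem_sdiff.mpr ⟨e, hcon⟩)
      exact Finset.mem_union_left _ this
    · exact hMX (Finset.mem_insert_of_mem (hCAB x hx e))
  · intro x hx _ ha
    have : x ∈ A := by rw [hA, Finset.mem_filter]; exact ⟨hx, ha⟩
    have := (hyMK x (Finset.mem_insert_of_mem this)).1
    linarith
  · intro x hx hxB ha
    have e : x ∈ Bf := by rw [hBf, Finset.mem_filter]; exact ⟨hx, ha⟩
    have : x ∈ Pi := by
      by_contra hcon
      exact hxB (Finset.mem_sdiff.mpr ⟨e, hcon⟩)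
    exact (hyP x this).2.1
  · intro n h1 h2 h3
    obtain ⟨x, hx, he⟩ := hyPsurj n h1 h2 h3
    refine ⟨x, hBC (hPiB hx), ?_, ?_, he⟩
    · intro hcon
      exact (Finset.mem_sdiff.mp hcon).2 hx
    · exact (Finset.mem_filter.mp (hPiB hx)).2

end Pool.Agent.Graceful.BF
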