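import Mathlib
import Pool.Agent.Lib.MP_7616b3_co.BFState

set_option autoImplicit false

namespace Pool.Agent.Graceful.BF

open Finset

variable {V : Type*} [DecidableEq V]
variable {G : SimpleGraph V} {t k s : ℤ} {B X : Finset V} {y : V → ℤ} {Z D Q : Finset ℤ} {h : ℤ}

private lemma propA {Zp Dp E Xp Yp : Prop} :
    (Zp ∨ (Dp ∨ E) ∨ Xp ∨ Yp) ↔ ((Zp ∨ Dp ∨ Xp) ∨ E ∨ Yp) := by tauto

private lemma propB {R H E Yp Qp : Prop} :
    ((R ∨ H ∨ E) ∨ Yp ∨ Qp) ↔ ((R ∨ H ∨ Qp) ∨ E ∨ Yp) := by tauto

private lemma prop_pending {R E H Q0 N0 P1 P2 P3 : Prop} (h1 : ¬ E) (h3 : ¬ Q0)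
    (h2 : (R ∨ H ∨ Q0) ↔ (P1 ∨ P2 ∨ P3)) : ((R ∨ E) ∨ H ∨ N0) ↔ (P1 ∨ P2 ∨ P3 ∨ N0) := by
  constructor
  · rintro ((h4 | h4) | h4 | h4)
    · rcases h2.mp (Or.inl h4) with h | h | h
      · exact Or.inl h
      · exact Or.inr (Or.inl h)
      · exact Or.inr (Or.inr (Or.inl h))
    · exact absurd h4 h1
    · rcases h2.mp (Or.inr (Or.inl h4)) with h | h | h
      · exact Or.inl h
      · exact Or.inr (Or.inl h)
      · exact Or.inr (Or.inr (Or.inl h))
    · exact Or.inr (Or.inr (Or.inr h4))
  · rintro (h4 | h4 | h4 | h4)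
    · rcases h2.mpr (Or.inl h4) with h | h | h
      · exact Or.inl (Or.inl h)
      · exact Or.inr (Or.inl h)
      · exact absurd h h3
    · rcases h2.mpr (Or.inr (Or.inl h4)) with h | h | h
      · exact Or.inl (Or.inl h)
      · exact Or.inr (Or.inl h)
      · exact absurd h h3
    · rcases h2.mpr (Or.inr (Or.inr h4)) with h | h | h
      · exact Or.inl (Or.inl h)
      · exact Or.inr (Or.inl h)
      · exact absurd h h3
    · exact Or.inr (Or.inr h4)

private lemma prop_close {R H Q0 N0 P1 P2 P3 E : Prop} (h3 : ¬ E)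
    (h2 : (R ∨ H ∨ Q0) ↔ (P1 ∨ P2 ∨ P3)) :
    ((R ∨ H ∨ Q0) ∨ N0 ∨ E) ↔ (P1 ∨ P2 ∨ P3 ∨ N0) := by
  constructor
  · rintro (h4 | h4 | h4)
    · rcases h2.mp h4 with h | h | h
      · exact Or.inl h
      · exact Or.inr (Or.inl h)
      · exact Or.inr (Or.inr (Or.inl h))
    · exact Or.inr (Or.inr (Or.inr h4))
    · exact absurd h4 h3
  · rintro (h4 | h4 | h4 | h4)
    · exact Or.inl (h2.mpr (Or.inl h4))
    · exact Or.inl (h2.mpr (Or.inr (Or.inl h4)))
    · exact Or.inl (h2.mpr (Or.inr (Or.inr h4)))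
    · exact Or.inr (Or.inl h4)

/-- a vertex without placed neighbours pays a debt -/
lemma FS.pay (S : FS G t k s B X y Z D Q h) (hk : 0 < k) (hs : 0 ≤ s) {u : V} (hu : u ∉ X)
    (huB : u ∈ B) (hno : ∀ p ∈ X, ¬ G.Adj u p) {d : ℤ} (hd : d ∈ D) :
    FS G t k s B (insert u X) (Function.update y u d) Z (D.erase d) Q h := by
  have hdN : Nm B X y Z D d := Or.inr (Or.inl hd)
  have hdk := S.ge d hdN
  have hex : ∀ n, ¬ ∃ p ∈ X, G.Adj u p ∧ d - y p = n := by
    rintro n ⟨p, hp, ha, _⟩
    exact hno p hp ha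
  have hNe : ∀ n, (n ∈ Z ∨ n ∈ D.erase d ∨ (∃ x ∈ X, x ∈ B ∧ y x = n) ∨ n = d) ↔
      Nm B X y Z D n := by
    intro n
    unfold Nm
    rw [Finset.mem_erase]
    constructor
    · rintro (h1 | h1 | h1 | h1)
      · exact Or.inl h1
      · exact Or.inr (Or.inl h1.2)
      · exact Or.inr (Or.inr h1)
      · exact Or.inr (Or.inl (h1 ▸ hd))
    · rintro (h1 | h1 | h1)
      · exact Or.inl h1
      · by_cases e : n = d
        · exact Or.inr (Or.inr (Or.inr e))
        · exact Or.inr (Or.inl ⟨e, h1⟩)
      · exact Or.inr (Or.inr (Or.inl h1))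
  apply S.add hu huB
  · intro p hp ha; exact absurd ha (hno p hp)
  · intro p hp ha; exact absurd ha (hno p hp)
  · intro hZ; exact S.ZD d hZ hd
  · intro x hx he; exact S.yD x hx (he ▸ hd)
  · simp
  · linarith
  · linarith
  · intro x hx hm; exact S.yD x hx (Finset.mem_of_mem_erase hm)
  · intro n hn hm; exact S.ZD n hn (Finset.mem_of_mem_erase hm)
  · intro n
    rw [hNe, ← S.dec n]
    have := hex n
    tauto
  · rintro (h1 | h1)
    · exact S.hR h1
    · exact hex _ h1
  · exact S.hQ
  · intro n hn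
    rintro (h1 | h1)
    · exact S.RQ n hn h1
    · exact hex _ h1
  · intro n hn
    rw [hNe] at hn
    exact S.bd n hn
  · exact S.ybd
  · intro n hn
    rw [hNe] at hn
    exact S.ge n hn

/-- a vertex with placed neighbours realises the head -/
lemma FS.addHead [DecidableRel G.Adj] (S : FS G t k s B X y Z D Q h) (hst : s < t) (hs : 0 ≤ s) (hk : 0 < k)
    (hN : ∀ n, Nm B X y Z D n → n ≤ h) (hX : ∀ x ∈ X, y x ≤ h)
    {u : V} (hu : u ∉ X) (huB : u ∈ B) {p : V} (hp : p ∈ X) (hup : G.Adj u p)
    (hmax : ∀ q ∈ X, G.Adj u q → y q ≤ y p)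
    (hYN : ¬ Nm B X y Z D (y p + h)) (hYX : ∀ x ∈ X, y x ≠ y p + h) (hYk : k ≤ y p + h) :
    FS G t k s B (insert u X) (Function.update y u (y p + h)) Z
      (D ∪ ((X.filter (fun q => G.Adj u q ∧ q ≠ p)).image (fun q => y p + h - y q))) Q
      (y p + h) := by
  have hhk := S.ge h S.hN
  have hyp := S.low p hp
  have himg : ∀ n, n ∈ ((X.filter (fun q => G.Adj u q ∧ q ≠ p)).image (fun q => y p + h - y q)) ↔
      ∃ q ∈ X, G.Adj u q ∧ q ≠ p ∧ y p + h - y q = n := by
    intro n
    simp only [Finset.mem_image, Finset.mem_filter]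
    constructor
    · rintro ⟨q, ⟨hq, ha, hne⟩, he⟩
      exact ⟨q, hq, ha, hne, he⟩
    · rintro ⟨q, hq, ha, hne, he⟩
      exact ⟨q, ⟨hq, ha, hne⟩, he⟩
  have hgt : ∀ q ∈ X, G.Adj u q → q ≠ p → h < y p + h - y q := by
    intro q hq ha hne
    have h1 := hmax q hq ha
    have h2 : y q ≠ y p := fun he => hne (S.inj q hq p hp he)
    omega
  have hex : ∀ n, (∃ q ∈ X, G.Adj u q ∧ y p + h - y q = n) ↔
      (n = h ∨ ∃ q ∈ X, G.Adj u q ∧ q ≠ p ∧ y p + h - y q = n) := by
    intro n
    constructor
    · rintro ⟨q, hq, ha, he⟩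
      by_cases e : q = p
      · left; rw [e] at he; linarith
      · exact Or.inr ⟨q, hq, ha, e, he⟩
    · rintro (h1 | ⟨q, hq, ha, _, he⟩)
      · exact ⟨p, hp, hup, by linarith⟩
      · exact ⟨q, hq, ha, he⟩
  have hlow : ∀ q ∈ X, y p + h - y q ≤ y p + h + s := by
    intro q hq
    have := S.low q hq
    linarith
  have hnmD : ∀ n, (n ∈ Z ∨ n ∈ D ∪ ((X.filter (fun q => G.Adj u q ∧ q ≠ p)).image
      (fun q => y p + h - y q)) ∨ (∃ x ∈ X, x ∈ B ∧ y x = n) ∨ n = y p + h) ↔
      (Nm B X y Z D n ∨ (∃ q ∈ X, G.Adj u q ∧ q ≠ p ∧ y p + h - y q = n) ∨ n = y p + h) := by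
    intro n
    rw [Finset.mem_union, himg]
    exact propA
  apply S.add hu huB
  · intro q hq ha
    have := hmax q hq ha
    linarith
  · intro q hq ha hR
    by_cases e : q = p
    · rw [e] at hR
      apply S.hR
      have e2 : y p + h - y p = h := by ring
      rwa [e2] at hR
    · have h1 := hN _ ((S.dec _).mp (Or.inl hR))
      have h2 := hgt q hq ha e
      linarith
  · intro hZ; exact hYN (Or.inl hZ)
  · exact hYX
  · rw [Finset.mem_union, himg]
    rintro (h1 | ⟨q, hq, ha, hne, he⟩)
    · exact hYN (Or.inr (Or.inl h1))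
    · apply S.nz q hq; linarith
  · linarith
  · linarith
  · intro x hx
    rw [Finset.mem_union, himg]
    rintro (h1 | ⟨q, hq, ha, hne, he⟩)
    · exact S.yD x hx h1
    · have h1 := hgt q hq ha hne
      have h2 := hX x hx
      linarith
  · intro n hn
    rw [Finset.mem_union, himg]
    rintro (h1 | ⟨q, hq, ha, hne, he⟩)
    · exact S.ZD n hn h1
    · have h1 := hgt q hq ha hne
      have h2 := hN n (Or.inl hn)
      linarith
  · intro n
    rw [hnmD, hex, ← S.dec n]
    exact propB
  · rw [hex]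
    rintro (h1 | h1 | ⟨q, hq, ha, hne, he⟩)
    · exact hYN ((S.dec _).mp (Or.inl h1))
    · apply hYN
      rw [h1]
      exact S.hN
    · apply S.nz q hq; linarith
  · intro hQ'
    exact hYN ((S.dec _).mp (Or.inr (Or.inr hQ')))
  · intro n hn
    rw [hex]
    rintro (h1 | h1 | ⟨q, hq, ha, hne, he⟩)
    · exact S.RQ n hn h1
    · exact S.hQ (h1 ▸ hn)
    · have h1 := hgt q hq ha hne
      have h2 := hN n ((S.dec _).mp (Or.inr (Or.inr hn)))
      linarith
  · intro n hn
    rw [hnmD] at hn
    rcases hn with h1 | ⟨q, hq, ha, hne, he⟩ | h1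
    · have := hN n h1
      linarith
    · have := hlow q hq
      linarith
    · linarith
  · intro x hx
    have := hX x hx
    linarith
  · intro n hn
    rw [hnmD] at hn
    rcases hn with h1 | ⟨q, hq, ha, hne, he⟩ | h1
    · exact S.ge n h1
    · have := hgt q hq ha hne
      linarith
    · linarith

/-- two leaves and then a vertex with placed neighbours -/
lemma FS.addB (S : FS G t k s B X y Z D Q h) (hst : s < t) (hs : 0 ≤ s) (hk : 0 < k)
    {u : V} (hu : u ∉ X) (huB : u ∈ B) (hex : ∃ p ∈ X, G.Adj u p) :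
    ∃ (y' : V → ℤ) (Z' D' : Finset ℤ) (h' : ℤ), (∀ x ∈ X, y' x = y x) ∧
      FS G t k s B (insert u X) y' Z' D' Q h' := by
  classical
  obtain ⟨S1, hN1, hX1⟩ := S.leaf (by linarith)
  obtain ⟨S2, hN2, hX2⟩ := S1.leaf (by linarith)
  have hne : (X.filter (fun q => G.Adj u q)).Nonempty := by
    obtain ⟨p, hp, ha⟩ := hex
    exact ⟨p, Finset.mem_filter.mpr ⟨hp, ha⟩⟩
  obtain ⟨p, hp, hmax⟩ := Finset.exists_max_image _ y hne
  rw [Finset.mem_filter] at hp
  have hyp := S.low p hp.1
  have hhk := S.ge h S.hN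
  refine ⟨_, _, _, _, ?_, S2.addHead hst hs hk hN2 (fun x hx => (hX2 x hx).le) hu huB hp.1 hp.2
    (fun q hq ha => hmax q (Finset.mem_filter.mpr ⟨hq, ha⟩)) ?_ ?_ ?_⟩
  · intro x hx
    apply Function.update_of_ne
    rintro rfl
    exact hu hx
  · intro hNm
    have h0 : y p ≠ 0 := S.nz p hp.1
    have h3 : Nm B X y (insert (h + t) Z) D (y p + (h + t + t)) := by
      rcases hNm with h1 | h1
      · rw [Finset.mem_insert] at h1
        rcases h1 with h1 | h1
        · exfalso; apply h0; linarith
        · exact Or.inl h1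
      · exact Or.inr h1
    have := hN1 _ h3
    linarith
  · intro x hx he
    have := hX1 x hx
    linarith
  · linarith

/-- a vertex with exactly one placed neighbour, at a positive number -/
lemma FS.addOne [DecidableRel G.Adj] (S : FS G t k s B X y Z D Q h) (hst : s < t) (hs : 0 ≤ s) (hk : 0 < k)
    (hN : ∀ n, Nm B X y Z D n → n ≤ h) (hX : ∀ x ∈ X, y x ≤ h)
    {u : V} (hu : u ∉ X) (huB : u ∈ B) {p : V} (hp : p ∈ X) (hup : G.Adj u p)
    (hone : ∀ q ∈ X, G.Adj u q → q = p) (hpos : 0 < y p) :
    FS G t k s B (insert u X) (Function.update y u (y p + h)) Z D Q (y p + h) ∧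
      (∀ n, Nm B (insert u X) (Function.update y u (y p + h)) Z D n → n ≤ y p + h) ∧
      (∀ x ∈ insert u X, Function.update y u (y p + h) x ≤ y p + h) := by
  have hhk := S.ge h S.hN
  have hemp : (X.filter (fun q => G.Adj u q ∧ q ≠ p)) = ∅ := by
    rw [Finset.filter_eq_empty_iff]
    rintro q hq ⟨ha, hne⟩
    exact hne (hone q hq ha)
  have hne : ∀ x ∈ X, x ≠ u := fun x hx h => hu (h ▸ hx)
  have hS := S.addHead hst hs hk hN hX hu huB hp hup
    (fun q hq ha => by rw [hone q hq ha])
    (fun hNm => by have := hN _ hNm; linarith)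
    (fun x hx he => by have := hX x hx; linarith) (by linarith)
  rw [hemp, Finset.image_empty, Finset.union_empty] at hS
  refine ⟨hS, ?_, ?_⟩
  · rintro n (h1 | h1 | ⟨x, hx, hxB, he⟩)
    · have := hN n (Or.inl h1); linarith
    · have := hN n (Or.inr (Or.inl h1)); linarith
    · rw [Finset.mem_insert] at hx
      rcases hx with hx | hx
      · rw [hx, Function.update_self] at he
        linarith
      · rw [Function.update_of_ne (hne x hx)] at he
        have := hX x hx; linarith
  · intro x hx
    rw [Finset.mem_insert] at hx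
    rcases hx with hx | hx
    · rw [hx, Function.update_self]
    · rw [Function.update_of_ne (hne x hx)]
      have := hX x hx; linarith

/-- the first vertex of a cycle: its number stays pending -/
lemma FS.addPending (S : FS G t k s B X y Z D ∅ h) (hs : 0 ≤ s) (hk : 0 < k) (ht : 2 ≤ t)
    (hN : ∀ n, Nm B X y Z D n → n ≤ h) (hX : ∀ x ∈ X, y x ≤ h)
    {u : V} (hu : u ∉ X) (huB : u ∈ B) (hno : ∀ p ∈ X, ¬ G.Adj u p) :
    FS G t k s B (insert u X) (Function.update y u (h + 1)) Z D {h + 1} h := by
  have hhk := S.ge h S.hN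
  have hYN : ¬ Nm B X y Z D (h + 1) := fun hh => by have := hN _ hh; linarith
  have hex : ∀ n, ¬ ∃ p ∈ X, G.Adj u p ∧ h + 1 - y p = n := by
    rintro n ⟨p, hp, ha, _⟩
    exact hno p hp ha
  apply S.add hu huB
  · intro p hp ha; exact absurd ha (hno p hp)
  · intro p hp ha; exact absurd ha (hno p hp)
  · intro hZ; exact hYN (Or.inl hZ)
  · intro x hx he; have := hX x hx; linarith
  · intro hD; exact hYN (Or.inr (Or.inl hD))
  · linarith
  · linarith
  · exact S.yD
  · exact S.ZD
  · intro n
    have h2 := S.dec n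
    unfold Nm at h2
    rw [Finset.mem_singleton]
    exact prop_pending (hex n) (Finset.notMem_empty n) h2
  · rintro (h1 | h1)
    · exact S.hR h1
    · exact hex _ h1
  · rw [Finset.mem_singleton]; intro hh; linarith
  · intro n hn
    rw [Finset.mem_singleton] at hn
    rintro (h1 | h1)
    · rw [hn] at h1
      exact hYN ((S.dec _).mp (Or.inl h1))
    · exact hex _ h1
  · intro n hn
    by_cases e : n = h + 1
    · linarith
    · have : Nm B X y Z D n := by unfold Nm; tauto
      have := hN n this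
      linarith
  · intro x hx
    have := hX x hx
    linarith
  · intro n hn
    by_cases e : n = h + 1
    · linarith
    · have : Nm B X y Z D n := by unfold Nm; tauto
      exact S.ge n this

/-- closing a cycle -/
lemma FS.close {q : ℤ} (S : FS G t k s B X y Z D {q} h) (hst : s < t) (hs : 0 ≤ s) (hk : 0 < k)
    (hN : ∀ n, Nm B X y Z D n → n ≤ h) (hX : ∀ x ∈ X, y x ≤ h)
    {u : V} (hu : u ∉ X) (huB : u ∈ B) {a b : V} (ha : a ∈ X) (hb : b ∈ X) (hua : G.Adj u a)
    (hub : G.Adj u b) (hya : y a = q) (hyb : y b = h)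
    (honly : ∀ p ∈ X, G.Adj u p → p = a ∨ p = b) :
    FS G t k s B (insert u X) (Function.update y u (q + h)) Z D ∅ (q + h) := by
  have hhk := S.ge h S.hN
  have hqN : Nm B X y Z D q := (S.dec q).mp (Or.inr (Or.inr (Finset.mem_singleton_self q)))
  have hqk := S.ge q hqN
  have hqR := S.RQ q (Finset.mem_singleton_self q)
  have hYN : ¬ Nm B X y Z D (q + h) := fun hh => by have := hN _ hh; linarith
  have hex : ∀ n, (∃ p ∈ X, G.Adj u p ∧ q + h - y p = n) ↔ (n = h ∨ n = q) := by
    intro n
    constructor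
    · rintro ⟨p, hp, hap, he⟩
      rcases honly p hp hap with rfl | rfl
      · left; rw [hya] at he; linarith
      · right; rw [hyb] at he; linarith
    · rintro (h1 | h1)
      · exact ⟨a, ha, hua, by rw [hya, h1]; ring⟩
      · exact ⟨b, hb, hub, by rw [hyb, h1]; ring⟩
  apply S.add hu huB
  · intro p hp hap
    have := hX p hp
    linarith
  · intro p hp hap hR
    rcases honly p hp hap with rfl | rfl
    · rw [hya] at hR
      have e2 : q + h - q = h := by ring
      rw [e2] at hR
      exact S.hR hR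
    · rw [hyb] at hR
      have e2 : q + h - h = q := by ring
      rw [e2] at hR
      exact hqR hR
  · intro hZ; exact hYN (Or.inl hZ)
  · intro x hx he; have := hX x hx; linarith
  · intro hD; exact hYN (Or.inr (Or.inl hD))
  · linarith
  · linarith
  · exact S.yD
  · exact S.ZD
  · intro n
    rw [hex]
    have h2 := S.dec n
    unfold Nm at h2
    rw [Finset.mem_singleton] at h2
    exact prop_close (Finset.notMem_empty n) h2
  · rw [hex]
    rintro (h1 | h1 | h1)
    · exact hYN ((S.dec _).mp (Or.inl h1))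
    · linarith
    · linarith
  · exact Finset.notMem_empty _
  · intro n hn
    exact absurd hn (Finset.notMem_empty n)
  · intro n hn
    by_cases e : n = q + h
    · linarith
    · have : Nm B X y Z D n := by unfold Nm; tauto
      have := hN n this
      linarith
  · intro x hx
    have := hX x hx
    linarith
  · intro n hn
    by_cases e : n = q + h
    · linarith
    · have : Nm B X y Z D n := by unfold Nm; tauto
      exact S.ge n this

/-- a whole chordless cycle without edges to the placed part -/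
lemma FS.cycle (S : FS G t k s B X y Z D ∅ h) (hst : s < t) (hs : 0 ≤ s) (hk : 0 < k)
    (ht : 2 ≤ t) (m : ℕ) (hm : 2 ≤ m) (c : ℕ → V) (hcX : ∀ i ≤ m, c i ∉ X)
    (hcB : ∀ i ≤ m, c i ∈ B) (hinj : ∀ i ≤ m, ∀ j ≤ m, c i = c j → i = j)
    (hadj : ∀ i < m, G.Adj (c i) (c (i + 1))) (hadj0 : G.Adj (c 0) (c m))
    (hch : ∀ i j, i < j → j ≤ m → G.Adj (c i) (c j) → j = i + 1 ∨ (i = 0 ∧ j = m))
    (hno : ∀ i ≤ m, ∀ x ∈ X, ¬ G.Adj (c i) x) :
    ∃ (X' : Finset V) (y' : V → ℤ) (Z' : Finset ℤ) (h' : ℤ), X' = X ∪ (range (m + 1)).image c ∧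
      (∀ x ∈ X, y' x = y x) ∧ FS G t k s B X' y' Z' D ∅ h' := by
  classical
  obtain ⟨S1, hN1, hX1⟩ := S.leaf (by linarith)
  have S2 := S1.addPending hs hk ht hN1 (fun x hx => (hX1 x hx).le) (hcX 0 (by omega))
    (hcB 0 (by omega)) (hno 0 (by omega))
  obtain ⟨S3, hN3, hX3⟩ := S2.leaf (by linarith)
  set y2 := Function.update y (c 0) (h + t + 1) with hy2
  have hy2c : y2 (c 0) = h + t + 1 := Function.update_self _ _ _
  have hc1 : c 1 ∉ insert (c 0) X := by
    rw [Finset.mem_insert]
    rintro (h1 | h1)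
    · have := hinj 1 (by omega) 0 (by omega) h1
      omega
    · exact hcX 1 (by omega) h1
  have hhk := S.ge h S.hN
  obtain ⟨S4, hN4, hX4⟩ := S3.addOne hst hs hk hN3 (fun x hx => (hX3 x hx).le) hc1
    (hcB 1 (by omega)) (p := c 0) (Finset.mem_insert_self _ _) (hadj 0 (by omega)).symm
    (by
      intro q hq ha
      rw [Finset.mem_insert] at hq
      rcases hq with hq | hq
      · exact hq
      · exact absurd ha (hno 1 (by omega) q hq))
    (by rw [hy2c]; linarith)
  -- induction along the path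
  have key : ∀ j, 1 ≤ j → j < m → ∃ (y' : V → ℤ) (h' : ℤ),
      (∀ x ∈ X, y' x = y x) ∧ y' (c 0) = h + t + 1 ∧ y' (c j) = h' ∧
      FS G t k s B (X ∪ (range (j + 1)).image c) y' (insert (h + t + t) (insert (h + t) Z)) D
        {h + t + 1} h' ∧
      (∀ n, Nm B (X ∪ (range (j + 1)).image c) y' (insert (h + t + t) (insert (h + t) Z)) D n →
        n ≤ h') ∧
      (∀ x ∈ X ∪ (range (j + 1)).image c, y' x ≤ h') := by
    intro j hj1
    induction j, hj1 using Nat.le_induction with
    | base =>
      intro _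
      have e : insert (c 1) (insert (c 0) X) = X ∪ (range (1 + 1)).image c := by
        ext x
        simp only [Finset.mem_insert, Finset.mem_union, Finset.mem_image, Finset.mem_range]
        constructor
        · rintro (rfl | rfl | hx)
          · exact Or.inr ⟨1, by omega, rfl⟩
          · exact Or.inr ⟨0, by omega, rfl⟩
          · exact Or.inl hx
        · rintro (hx | ⟨i, hi, rfl⟩)
          · exact Or.inr (Or.inr hx)
          · have : i = 0 ∨ i = 1 := by omega
            rcases this with rfl | rfl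
            · exact Or.inr (Or.inl rfl)
            · exact Or.inl rfl
      rw [e] at S4 hN4 hX4
      refine ⟨_, _, ?_, ?_, ?_, S4, hN4, hX4⟩
      · intro x hx
        rw [Function.update_of_ne, hy2, Function.update_of_ne]
        · rintro rfl
          exact hcX 0 (by omega) hx
        · rintro rfl
          exact hcX 1 (by omega) hx
      · rw [Function.update_of_ne, hy2c]
        intro h1
        have := hinj 0 (by omega) 1 (by omega) h1
        omega
      · rw [Function.update_self]
    | succ j hj1 ih =>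
      intro hjm
      obtain ⟨y', h', hyX, hy0, hyj, S5, hN5, hX5⟩ := ih (by omega)
      have hnot : c (j + 1) ∉ X ∪ (range (j + 1)).image c := by
        rw [Finset.mem_union, Finset.mem_image]
        rintro (h1 | ⟨i, hi, h1⟩)
        · exact hcX (j + 1) (by omega) h1
        · rw [Finset.mem_range] at hi
          have := hinj i (by omega) (j + 1) (by omega) h1
          omega
      have hjmem : c j ∈ X ∪ (range (j + 1)).image c :=
        Finset.mem_union_right _ (Finset.mem_image.mpr ⟨j, Finset.mem_range.mpr (by omega), rfl⟩)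
      have hh' : 0 < h' := by
        have := S5.ge h' S5.hN
        linarith
      obtain ⟨S6, hN6, hX6⟩ := S5.addOne hst hs hk hN5 hX5 hnot (hcB (j + 1) (by omega)) hjmem
        (hadj j (by omega)).symm
        (by
          intro q hq ha
          rw [Finset.mem_union, Finset.mem_image] at hq
          rcases hq with hq | ⟨i, hi, rfl⟩
          · exact absurd ha (hno (j + 1) (by omega) q hq)
          · rw [Finset.mem_range] at hi
            rcases hch i (j + 1) (by omega) (by omega) ha.symm with h1 | h1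
            · have : i = j := by omega
              rw [this]
            · omega)
        (by rw [hyj]; exact hh')
      have e : insert (c (j + 1)) (X ∪ (range (j + 1)).image c)
          = X ∪ (range (j + 1 + 1)).image c := by
        rw [Finset.range_add_one (n := j + 1), Finset.image_insert, Finset.union_insert]
      rw [e] at S6 hN6 hX6
      refine ⟨_, _, ?_, ?_, ?_, S6, hN6, hX6⟩
      · intro x hx
        rw [Function.update_of_ne, hyX x hx]
        rintro rfl
        exact hcX (j + 1) (by omega) hx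
      · rw [Function.update_of_ne, hy0]
        intro h1
        have := hinj 0 (by omega) (j + 1) (by omega) h1
        omega
      · rw [Function.update_self]
  obtain ⟨y', h', hyX, hy0, hyj, S5, hN5, hX5⟩ := key (m - 1) (by omega) (by omega)
  have e1 : m - 1 + 1 = m := by omega
  rw [e1] at S5 hN5 hX5
  have hnot : c m ∉ X ∪ (range m).image c := by
    rw [Finset.mem_union, Finset.mem_image]
    rintro (h1 | ⟨i, hi, h1⟩)
    · exact hcX m (le_refl _) h1
    · rw [Finset.mem_range] at hi
      have := hinj i (by omega) m (le_refl _) h1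
      omega
  have hS := S5.close hst hs hk hN5 hX5 hnot (hcB m (le_refl _)) (a := c 0) (b := c (m - 1))
    (Finset.mem_union_right _ (Finset.mem_image.mpr ⟨0, Finset.mem_range.mpr (by omega), rfl⟩))
    (Finset.mem_union_right _ (Finset.mem_image.mpr ⟨m - 1, Finset.mem_range.mpr (by omega), rfl⟩))
    hadj0.symm
    (by
      have := hadj (m - 1) (by omega)
      rw [e1] at this
      exact this.symm)
    hy0 hyj
    (by
      intro p hp ha
      rw [Finset.mem_union, Finset.mem_image] at hp
      rcases hp with hp | ⟨i, hi, rfl⟩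
      · exact absurd ha (hno m (le_refl _) p hp)
      · rw [Finset.mem_range] at hi
        rcases hch i m hi (le_refl _) ha.symm with h1 | h1
        · right
          have : i = m - 1 := by omega
          rw [this]
        · left; rw [h1.1])
  have e : insert (c m) (X ∪ (range m).image c) = X ∪ (range (m + 1)).image c := by
    rw [Finset.range_add_one (n := m), Finset.image_insert, Finset.union_insert]
  rw [e] at hS
  refine ⟨_, _, _, _, rfl, ?_, hS⟩
  intro x hx
  rw [Function.update_of_ne, hyX x hx]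
  rintro rfl
  exact hcX m (le_refl _) hx

end Pool.Agent.Graceful.BF
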