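import Mathlib
import Pool.Agent.Lib.MP_7616b3_co.BFOps
import Pool.Agent.Lib.MP_7616b3_co.BFCount

set_option autoImplicit false

namespace Pool.Agent.Graceful.BF

open Finset Classical

variable {V : Type*} {G : SimpleGraph V} {t k s : ℤ} {B : Finset V}

lemma FS.step {X C : Finset V} {y : V → ℤ} {Z D : Finset ℤ} {h : ℤ}
    (S : FS G t k s B X y Z D ∅ h) (hst : s < t) (hs : 0 ≤ s) (hk : 0 < k) (ht : 2 ≤ t)
    (hXC : X ⊆ C) (hCB : C \ X ⊆ B) (hcount : 2 * (C.filter (fun x => x ∈ B)).card = e2 G C + 2)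
    (hne : X ≠ C) :
    ∃ (X' : Finset V) (y' : V → ℤ) (Z' D' : Finset ℤ) (h' : ℤ), X ⊆ X' ∧ X.card < X'.card ∧
      X' ⊆ C ∧ (∀ x ∈ X, y' x = y x) ∧ FS G t k s B X' y' Z' D' ∅ h' := by
  have hdiff : (C \ X).Nonempty := by
    rw [Finset.sdiff_nonempty]
    intro hcon
    exact hne (subset_antisymm hXC hcon)
  have hmemY : ∀ u ∈ C \ X, u ∉ X ∧ u ∈ B ∧ u ∈ C := by
    intro u hu
    have h1 := Finset.mem_sdiff.mp hu
    exact ⟨h1.2, hCB hu, h1.1⟩
  by_cases h1 : ∃ u ∈ C \ X, ∃ p ∈ X, G.Adj u p
  · obtain ⟨u, hu, hex⟩ := h1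
    obtain ⟨huX, huB, huC⟩ := hmemY u hu
    obtain ⟨y', Z', D', h', hy', S'⟩ := S.addB hst hs hk huX huB hex
    refine ⟨insert u X, y', Z', D', h', Finset.subset_insert _ _, ?_, ?_, hy', S'⟩
    · rw [Finset.card_insert_of_notMem huX]; omega
    · intro x hx
      rw [Finset.mem_insert] at hx
      rcases hx with rfl | hx
      · exact huC
      · exact hXC hx
  · push Not at h1
    by_cases h2 : D.Nonempty
    · obtain ⟨d, hd⟩ := h2
      obtain ⟨u, hu⟩ := hdiff
      obtain ⟨huX, huB, huC⟩ := hmemY u hu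
      have S' := S.pay hk hs huX huB (fun p hp => h1 u hu p hp) hd
      refine ⟨insert u X, _, _, _, _, Finset.subset_insert _ _, ?_, ?_, ?_, S'⟩
      · rw [Finset.card_insert_of_notMem huX]; omega
      · intro x hx
        rw [Finset.mem_insert] at hx
        rcases hx with rfl | hx
        · exact huC
        · exact hXC hx
      · intro x hx
        apply Function.update_of_ne
        rintro rfl
        exact huX hx
    · rw [Finset.not_nonempty_iff_eq_empty] at h2
      subst h2
      have hc := S.count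
      rw [Finset.card_empty] at hc
      have hdisj : Disjoint X (C \ X) := Finset.disjoint_sdiff
      have hun : X ∪ (C \ X) = C := Finset.union_sdiff_of_subset hXC
      have he : e2 G C = e2 G X + e2 G (C \ X) := by
        conv_lhs => rw [← hun]
        apply e2_union G hdisj
        intro x hx z hz ha
        exact h1 z hz x hx ha.symm
      have hcard : (C.filter (fun x => x ∈ B)).card
          = (X.filter (fun x => x ∈ B)).card + (C \ X).card := by
        rw [← Finset.card_union_of_disjoint]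
        · congr 1
          ext x
          simp only [Finset.mem_filter, Finset.mem_union, Finset.mem_sdiff]
          constructor
          · rintro ⟨hxC, hxB⟩
            by_cases e : x ∈ X
            · exact Or.inl ⟨e, hxB⟩
            · exact Or.inr ⟨hxC, e⟩
          · rintro (⟨hxX, hxB⟩ | ⟨hxC, hxX⟩)
            · exact ⟨hXC hxX, hxB⟩
            · exact ⟨hxC, hCB (Finset.mem_sdiff.mpr ⟨hxC, hxX⟩)⟩
        · rw [Finset.disjoint_left]
          intro x hx hx'
          rw [Finset.mem_filter] at hx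
          exact (Finset.mem_sdiff.mp hx').2 hx.1
      obtain ⟨U, hUsub, hUne, hUd⟩ := exists_core G _ (C \ X) rfl hdiff (by omega)
      obtain ⟨m, c, hm, hcU, hcinj, hcadj, hc0, hcch⟩ := exists_cycle G U hUne hUd
      have hcY : ∀ i ≤ m, c i ∈ C \ X := fun i hi => hUsub (hcU i hi)
      obtain ⟨X', y', Z', h', hX', hy', S'⟩ := S.cycle hst hs hk ht m hm c
        (fun i hi => (hmemY _ (hcY i hi)).1) (fun i hi => (hmemY _ (hcY i hi)).2.1) hcinj hcadj
        hc0 hcch (fun i hi x hx => h1 _ (hcY i hi) x hx)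
      refine ⟨X', y', Z', ∅, h', ?_, ?_, ?_, hy', S'⟩
      · rw [hX']; exact Finset.subset_union_left
      · apply Finset.card_lt_card
        rw [hX', Finset.ssubset_iff_of_subset Finset.subset_union_left]
        refine ⟨c 0, ?_, (hmemY _ (hcY 0 (by omega))).1⟩
        apply Finset.mem_union_right
        exact Finset.mem_image.mpr ⟨0, Finset.mem_range.mpr (by omega), rfl⟩
      · rw [hX']
        apply Finset.union_subset hXC
        intro x hx
        obtain ⟨i, hi, rfl⟩ := Finset.mem_image.mp hx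
        rw [Finset.mem_range] at hi
        exact (hmemY _ (hcY i (by omega))).2.2

/-- all core vertices can be placed without debts -/
lemma FS.complete {C : Finset V} (hst : s < t) (hs : 0 ≤ s) (hk : 0 < k) (ht : 2 ≤ t)
    (hcount : 2 * (C.filter (fun x => x ∈ B)).card = e2 G C + 2) :
    ∀ (n : ℕ) (X : Finset V) (y : V → ℤ) (Z D : Finset ℤ) (h : ℤ), C.card - X.card = n →
      X ⊆ C → C \ X ⊆ B → FS G t k s B X y Z D ∅ h →
      ∃ (y' : V → ℤ) (Z' : Finset ℤ) (h' : ℤ), (∀ x ∈ X, y' x = y x) ∧
        FS G t k s B C y' Z' ∅ ∅ h' ∧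
        (∀ n, Nm B C y' Z' ∅ n → n ≤ h') ∧ (∀ x ∈ C, y' x < h') := by
  intro n
  induction n using Nat.strong_induction_on with
  | _ n ih =>
    intro X y Z D h hn hXC hCB S
    by_cases hne : X = C
    · subst hne
      have hc := S.count
      have hD : D.card = 0 := by omega
      rw [Finset.card_eq_zero] at hD
      subst hD
      obtain ⟨S1, hN1, hX1⟩ := S.leaf (by linarith)
      exact ⟨y, _, _, fun _ _ => rfl, S1, hN1, hX1⟩
    · obtain ⟨X', y', Z', D', h', hXX', hcard, hX'C, hy', S'⟩ :=
        S.step hst hs hk ht hXC hCB hcount hne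
      have hle := Finset.card_le_card hX'C
      obtain ⟨y'', Z'', h'', hy'', S'', hN, hX⟩ := ih (C.card - X'.card) (by omega) X' y' Z' D' h'
        rfl hX'C ((Finset.sdiff_subset_sdiff (subset_refl C) hXX').trans hCB) S'
      exact ⟨y'', Z'', h'', fun x hx => by rw [hy'' x (hXX' hx), hy' x hx], S'', hN, hX⟩

end Pool.Agent.Graceful.BF
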