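import Mathlib

set_option autoImplicit false

namespace Pool.Agent.Graceful

universe u

variable {V : Type u}

/-- The label `|f u - f v|` induced by the numbering `f` on the unordered pair `{u, v}`. -/
def edgeLabel (f : V → ℕ) : Sym2 V → ℕ :=
  Sym2.lift ⟨fun u v => ((f u : ℤ) - (f v : ℤ)).natAbs, fun u v => by
    simp only; omega⟩

/-- `f` is a `k`-graceful numbering of `G`: it is injective and the induced labels give a bijection
from the edge set of `G` onto `{k, k + 1, k + 2, ...}`. -/
def IsKGracefulNumbering (G : SimpleGraph V) (k : ℕ) (f : V → ℕ) : Prop :=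
  Function.Injective f ∧ Set.BijOn (edgeLabel f) G.edgeSet (Set.Ici k)

/-- `G` is `k`-graceful. -/
def KGraceful (G : SimpleGraph V) (k : ℕ) : Prop :=
  ∃ f : V → ℕ, IsKGracefulNumbering G k f

/-- `G` is bijectively-`k`-graceful: it has a `k`-graceful numbering that is a bijection of the
vertex set onto `{0, 1, 2, ...}`. -/
def BijKGraceful (G : SimpleGraph V) (k : ℕ) : Prop :=
  ∃ f : V → ℕ, IsKGracefulNumbering G k f ∧ Function.Bijective f

/-- `G` has infinitely many pairwise disjoint edges (`β₁(G) = ∞`). -/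
def HasInfiniteMatching (G : SimpleGraph V) : Prop :=
  ∃ M : Set (Sym2 V), M.Infinite ∧ M ⊆ G.edgeSet ∧
    ∀ e ∈ M, ∀ e' ∈ M, e ≠ e' → ∀ v : V, v ∈ e → v ∉ e'

/-- `w` dominates late edges: for some finite set `F` of vertices, `w` is adjacent to both ends of
every edge that avoids `F`. -/
def LateDominating (G : SimpleGraph V) (w : V) : Prop :=
  ∃ F : Finset V, ∀ u v : V, G.Adj u v → u ∉ F → v ∉ F → G.Adj w u ∧ G.Adj w v

end Pool.Agent.Graceful
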