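import Mathlib
import Pool.Agent.Lib.MP_7616b3_co.Defs

set_option autoImplicit false

namespace Pool.Agent.Graceful

universe u

variable {V : Type u}

/-- A finite partial labelling. -/
structure PL (G : SimpleGraph V) (k : ℕ) where
  dom : Finset V
  f : V → ℕ
  forb : Finset ℕ
  inj : ∀ u ∈ dom, ∀ v ∈ dom, f u = f v → u = v
  avoid : ∀ u ∈ dom, f u ∉ forb
  lab_ge : ∀ u ∈ dom, ∀ v ∈ dom, ∀ l, G.Adj u v → f v = f u + l → k ≤ l
  lab_inj : ∀ u ∈ dom, ∀ v ∈ dom, ∀ u' ∈ dom, ∀ v' ∈ dom, ∀ l, G.Adj u v → G.Adj u' v' →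
    f v = f u + l → f v' = f u' + l → u = u'

namespace PL

variable {G : SimpleGraph V} {k : ℕ}

instance : Preorder (PL G k) where
  le p q := p.dom ⊆ q.dom ∧ (∀ v ∈ p.dom, q.f v = p.f v) ∧ p.forb ⊆ q.forb
  le_refl p := ⟨fun _ h => h, fun _ _ => rfl, fun _ h => h⟩
  le_trans p q r h1 h2 := ⟨fun _ h => h2.1 (h1.1 h), fun v hv => by
    rw [h2.2.1 v (h1.1 hv), h1.2.1 v hv], fun _ h => h2.2.2 (h1.2.2 h)⟩

lemma le_def {p q : PL G k} : p ≤ q ↔
    p.dom ⊆ q.dom ∧ (∀ v ∈ p.dom, q.f v = p.f v) ∧ p.forb ⊆ q.forb := Iff.rfl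

/-- label `l` is realised by an edge inside the domain -/
def Real (p : PL G k) (l : ℕ) : Prop :=
  ∃ u ∈ p.dom, ∃ v ∈ p.dom, G.Adj u v ∧ p.f v = p.f u + l

lemma Real.mono {p q : PL G k} (h : p ≤ q) {l : ℕ} (hr : p.Real l) : q.Real l := by
  obtain ⟨u, hu, v, hv, ha, he⟩ := hr
  exact ⟨u, h.1 hu, v, h.1 hv, ha, by rw [h.2.1 u hu, h.2.1 v hv, he]⟩

/-- The empty partial labelling. -/
def empty : PL G k where
  dom := ∅
  f := fun _ => 0
  forb := ∅
  inj := by simp
  avoid := by simp
  lab_ge := by simp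
  lab_inj := by simp

end PL

variable {G : SimpleGraph V} {k : ℕ}

lemma exists_chain {P : Type*} [Preorder P] (S : Set P) (p0 : P) (hp0 : p0 ∈ S)
    {ι : Type*} [Countable ι] (Req : ι → P → Prop)
    (h : ∀ p ∈ S, ∀ i, ∃ q ∈ S, p ≤ q ∧ Req i q) :
    ∃ s : ℕ → P, Monotone s ∧ ∀ i, ∃ n, Req i (s n) := by
  classical
  have : Encodable ι := Encodable.ofCountable ι
  let D : ι → Order.Cofinal S := fun i =>
    { carrier := {q : S | Req i q.1}
      isCofinal := fun p => by
        obtain ⟨q, hq, hpq, hr⟩ := h p.1 p.2 i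
        exact ⟨⟨q, hq⟩, hr, hpq⟩ }
  refine ⟨fun n => (Order.sequenceOfCofinals (⟨p0, hp0⟩ : S) D n).1, ?_, ?_⟩
  · intro a b hab
    exact Order.sequenceOfCofinals.monotone (⟨p0, hp0⟩ : S) D hab
  · intro i
    exact ⟨_, Order.sequenceOfCofinals.encode_mem (⟨p0, hp0⟩ : S) D i⟩

lemma edgeLabel_eq_iff {f : V → ℕ} {u v : V} {l : ℕ} :
    edgeLabel f s(u, v) = l ↔ f v = f u + l ∨ f u = f v + l := by
  simp only [edgeLabel, Sym2.lift_mk]
  omega

/-- Glue a chain of partial labellings. -/
lemma glue (s : ℕ → PL G k) (hs : Monotone s)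
    (hdom : ∀ v : V, ∃ n, v ∈ (s n).dom)
    (hreal : ∀ l, k ≤ l → ∃ n, (s n).Real l) :
    ∃ F : V → ℕ, IsKGracefulNumbering G k F ∧
      (∀ n, ∀ v ∈ (s n).dom, F v = (s n).f v) ∧ ∀ n, ∀ m ∈ (s n).forb, ∀ v, F v ≠ m := by
  classical
  choose N hN using hdom
  set F : V → ℕ := fun v => (s (N v)).f v with hF
  have hFs : ∀ n, ∀ v ∈ (s n).dom, F v = (s n).f v := by
    intro n v hv
    simp only [hF]
    rcases le_total n (N v) with h | h
    · exact (hs h).2.1 v hv
    · exact ((hs h).2.1 v (hN v)).symm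
  have hmem : ∀ v n, N v ≤ n → v ∈ (s n).dom := fun v n h => (hs h).1 (hN v)
  refine ⟨F, ⟨?_, ?_, ?_, ?_⟩, hFs, ?_⟩
  · -- injective
    intro u v huv
    set n := max (N u) (N v) with hn
    have hu := hmem u n (le_max_left _ _)
    have hv := hmem v n (le_max_right _ _)
    rw [hFs n u hu, hFs n v hv] at huv
    exact (s n).inj u hu v hv huv
  · -- maps to
    intro e he
    induction e with
    | _ u v =>
      rw [SimpleGraph.mem_edgeSet] at he
      set n := max (N u) (N v) with hn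
      have hu := hmem u n (le_max_left _ _)
      have hv := hmem v n (le_max_right _ _)
      have h1 := (edgeLabel_eq_iff (f := F) (u := u) (v := v)).mp rfl
      simp only [Set.mem_Ici]
      rcases h1 with h1 | h1
      · rw [hFs n u hu, hFs n v hv] at h1
        exact (s n).lab_ge u hu v hv _ he h1
      · rw [hFs n u hu, hFs n v hv] at h1
        exact (s n).lab_ge v hv u hu _ he.symm h1
  · -- injective on edges
    have key : ∀ u v u' v' l, G.Adj u v → G.Adj u' v' → F v = F u + l → F v' = F u' + l →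
        u = u' ∧ v = v' := by
      intro u v u' v' l h h' e e'
      set n := max (max (N u) (N v)) (max (N u') (N v')) with hn
      have hu := hmem u n (le_trans (le_max_left _ _) (le_max_left _ _))
      have hv := hmem v n (le_trans (le_max_right _ _) (le_max_left _ _))
      have hu' := hmem u' n (le_trans (le_max_left _ _) (le_max_right _ _))
      have hv' := hmem v' n (le_trans (le_max_right _ _) (le_max_right _ _))
      rw [hFs n u hu, hFs n v hv] at e
      rw [hFs n u' hu', hFs n v' hv'] at e'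
      have h1 := (s n).lab_inj u hu v hv u' hu' v' hv' l h h' e e'
      refine ⟨h1, ?_⟩
      apply (s n).inj v hv v' hv'
      rw [e, e', h1]
    intro e he e' he' heq
    induction e with
    | _ u v =>
      induction e' with
      | _ u' v' =>
        rw [SimpleGraph.mem_edgeSet] at he he'
        have h1 := (edgeLabel_eq_iff (f := F) (u := u) (v := v)).mp rfl
        have h2 := (edgeLabel_eq_iff (f := F) (u := u') (v := v')).mp heq.symm
        rcases h1 with h1 | h1 <;> rcases h2 with h2 | h2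
        · obtain ⟨rfl, rfl⟩ := key u v u' v' _ he he' h1 h2
          rfl
        · obtain ⟨rfl, rfl⟩ := key u v v' u' _ he he'.symm h1 h2
          exact Sym2.eq_swap
        · obtain ⟨rfl, rfl⟩ := key v u u' v' _ he.symm he' h1 h2
          exact Sym2.eq_swap
        · obtain ⟨rfl, rfl⟩ := key v u v' u' _ he.symm he'.symm h1 h2
          rfl
  · -- surjective
    intro l hl
    obtain ⟨n, u, hu, v, hv, ha, he⟩ := hreal l hl
    refine ⟨s(u, v), (SimpleGraph.mem_edgeSet G).mpr ha, ?_⟩
    rw [edgeLabel_eq_iff]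
    left
    rw [hFs n u hu, hFs n v hv, he]
  · intro n m hm v
    set n' := max n (N v) with hn'
    have hv := hmem v n' (le_max_right _ _)
    have hm' : m ∈ (s n').forb := (hs (le_max_left n (N v))).2.2 hm
    rw [hFs n' v hv]
    intro h
    exact (s n').avoid v hv (h ▸ hm')

end Pool.Agent.Graceful
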