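import Mathlib
import Pool.Agent.Lib.MP_7616b3_co.Defs
import Pool.Agent.Lib.MP_7616b3_co.Limit
import Pool.Agent.Lib.MP_7616b3_co.BFPhase
import Pool.Agent.Lib.MP_7616b3_co.BFInit

set_option autoImplicit false

namespace Pool.Agent.Graceful.BF

open Finset Classical

variable {V : Type*}

/-- A numbering by the integers `≥ -s` gives a bijective numbering. -/
lemma bij_of_int {G : SimpleGraph V} {k : ℕ} (hk : 1 ≤ k) (Y : V → ℤ) (s : ℕ)
    (hinj : Function.Injective Y) (hlow : ∀ v, -(s : ℤ) ≤ Y v)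
    (hsurj : ∀ n : ℤ, -(s : ℤ) ≤ n → ∃ v, Y v = n)
    (hlab : ∀ n : ℤ, (k : ℤ) ≤ n → ∃ u v, G.Adj u v ∧ Y u - Y v = n)
    (huniq : ∀ u v u' v', G.Adj u v → G.Adj u' v' → Y v < Y u → Y u - Y v = Y u' - Y v' →
      u = u' ∧ v = v')
    (hge : ∀ u v, G.Adj u v → Y v < Y u → (k : ℤ) ≤ Y u - Y v) : BijKGraceful G k := by
  let f : V → ℕ := fun v => (Y v + s).toNat
  have hf : ∀ v, (f v : ℤ) = Y v + s := by
    intro v
    have := hlow v
    simp only [f]
    rw [Int.toNat_of_nonneg (by linarith)]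
  have hfi : Function.Injective f := by
    intro u v h
    apply hinj
    have h1 := hf u
    have h2 := hf v
    rw [h] at h1
    linarith
  have hfs : Function.Surjective f := by
    intro n
    obtain ⟨v, hv⟩ := hsurj ((n : ℤ) - s) (by linarith [Int.natCast_nonneg n])
    refine ⟨v, ?_⟩
    have := hf v
    rw [hv] at this
    have h2 : (f v : ℤ) = n := by linarith
    exact_mod_cast h2
  refine ⟨f, ⟨hfi, ?_, ?_, ?_⟩, hfi, hfs⟩
  · intro e he
    induction e with
    | _ u v =>
      rw [SimpleGraph.mem_edgeSet] at he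
      rw [Set.mem_Ici]
      have h1 := hf u
      have h2 := hf v
      have hne : Y u ≠ Y v := fun h => he.ne (hinj h)
      simp only [edgeLabel, Sym2.lift_mk]
      rcases lt_or_gt_of_ne hne with h | h
      · have := hge v u he.symm h
        omega
      · have := hge u v he h
        omega
  · intro e he e' he' hee
    induction e with
    | _ u v =>
      induction e' with
      | _ u' v' =>
        rw [SimpleGraph.mem_edgeSet] at he he'
        simp only [edgeLabel, Sym2.lift_mk] at hee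
        have h1 := hf u
        have h2 := hf v
        have h3 := hf u'
        have h4 := hf v'
        have hne : Y u ≠ Y v := fun h => he.ne (hinj h)
        have hne' : Y u' ≠ Y v' := fun h => he'.ne (hinj h)
        rcases lt_or_gt_of_ne hne with h | h <;> rcases lt_or_gt_of_ne hne' with h' | h'
        · obtain ⟨g1, g2⟩ := huniq v u v' u' he.symm he'.symm h (by omega)
          rw [g1, g2]
        · obtain ⟨g1, g2⟩ := huniq v u u' v' he.symm he' h (by omega)
          rw [g1, g2]
          exact Sym2.eq_swap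
        · obtain ⟨g1, g2⟩ := huniq u v v' u' he he'.symm h (by omega)
          rw [g1, g2]
          exact Sym2.eq_swap
        · obtain ⟨g1, g2⟩ := huniq u v u' v' he he' h (by omega)
          rw [g1, g2]
  · intro l hl
    rw [Set.mem_Ici] at hl
    obtain ⟨u, v, ha, hd⟩ := hlab l (by exact_mod_cast hl)
    refine ⟨s(u, v), ha, ?_⟩
    rw [edgeLabel_eq_iff]
    right
    have h1 := hf u
    have h2 := hf v
    omega

lemma exists_bijOn_int [Countable V] (L : Set V) (hL : L.Infinite) (T : Set ℤ) (hT : T.Infinite) :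
    ∃ lam : V → ℤ, Set.BijOn lam L T := by
  have : Infinite L := Set.infinite_coe_iff.mpr hL
  have : Infinite T := Set.infinite_coe_iff.mpr hT
  obtain ⟨E⟩ := nonempty_equiv_of_countable (α := L) (β := T)
  refine ⟨fun v => if h : v ∈ L then (E ⟨v, h⟩ : ℤ) else 0, ?_, ?_, ?_⟩
  · intro v hv
    simp only [dif_pos hv]
    exact (E ⟨v, hv⟩).2
  · intro v hv w hw h
    simp only [dif_pos hv, dif_pos hw] at h
    exact congrArg Subtype.val (E.injective (Subtype.ext h))
  · intro l hl
    refine ⟨(E.symm ⟨l, hl⟩ : L), (E.symm ⟨l, hl⟩).2, ?_⟩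
    simp

lemma exists_cycling (I : Type*) [Countable I] [Nonempty I] :
    ∃ σ : ℕ → I, ∀ i, {n | σ n = i}.Infinite := by
  obtain ⟨g, hg⟩ := exists_surjective_nat (ℕ × I)
  refine ⟨fun n => (g n).2, fun i => ?_⟩
  choose F hF using fun j : ℕ => hg (j, i)
  apply Set.infinite_of_injective_forall_mem (f := F)
  · intro a b hab
    have h1 := hF a
    have h2 := hF b
    rw [hab, h2] at h1
    simpa using h1.symm
  · intro j
    change (g (F j)).2 = i
    rw [hF j]

section chain

variable (t h : ℤ) (c : ℕ → ℤ)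

/-- the even places of the chain -/
def Ev : ℕ → ℤ
  | 0 => h
  | (j + 1) => Ev j + t + c j

variable {t h c} {s : ℤ}

lemma Ev_succ (j : ℕ) : Ev t h c (j + 1) = Ev t h c j + t + c j := rfl

lemma Ev_lt_succ (hs : 0 ≤ s) (hst : 2 * s + 5 ≤ t) (hc : ∀ j, -s ≤ c j) (j : ℕ) :
    Ev t h c j + s + 5 ≤ Ev t h c (j + 1) := by
  rw [Ev_succ]
  have := hc j
  linarith

lemma Ev_mono (hs : 0 ≤ s) (hst : 2 * s + 5 ≤ t) (hc : ∀ j, -s ≤ c j) : StrictMono (Ev t h c) := by
  apply strictMono_nat_of_lt_succ
  intro j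
  have := Ev_lt_succ (t := t) (h := h) (c := c) hs hst hc j
  linarith

lemma Ev_inj (hs : 0 ≤ s) (hst : 2 * s + 5 ≤ t) (hc : ∀ j, -s ≤ c j) {i j : ℕ}
    (he : Ev t h c i = Ev t h c j) : i = j := (Ev_mono hs hst hc).injective he

lemma le_Ev (hs : 0 ≤ s) (hst : 2 * s + 5 ≤ t) (hc : ∀ j, -s ≤ c j) (j : ℕ) : h ≤ Ev t h c j :=
  (Ev_mono hs hst hc).monotone (Nat.zero_le j)

lemma Ev_add_ne (hs : 0 ≤ s) (hst : 2 * s + 5 ≤ t) (hc : ∀ j, -s ≤ c j) (hc0 : ∀ j, c j ≠ 0)
    (i j : ℕ) : Ev t h c i + t ≠ Ev t h c j := by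
  have hm := (Ev_mono (t := t) (h := h) (c := c) hs hst hc).monotone
  intro he
  rcases Nat.lt_or_ge i j with hij | hij
  · rcases Nat.eq_or_lt_of_le hij with h1 | h1
    · rw [← h1] at he
      change _ = Ev t h c (i + 1) at he
      rw [Ev_succ] at he
      apply hc0 i
      linarith
    · have h2 : Ev t h c (i + 2) ≤ Ev t h c j := hm h1
      have h3 : Ev t h c (i + 2) = Ev t h c i + t + c i + t + c (i + 1) := by
        rw [Ev_succ, Ev_succ]
      have := hc i
      have := hc (i + 1)
      linarith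
  · have := hm hij
    linarith

/-- some number between consecutive even places is free -/
lemma exists_free (hs : 0 ≤ s) (hst : 2 * s + 5 ≤ t) (hc : ∀ j, -s ≤ c j) (hc0 : ∀ j, c j ≠ 0)
    (j : ℕ) : ∃ n, Ev t h c j < n ∧ n < Ev t h c (j + 1) ∧ (∀ i, n ≠ Ev t h c i) ∧
      (∀ i, n ≠ Ev t h c i + t) := by
  have hm := Ev_mono (t := t) (h := h) (c := c) hs hst hc
  have hgap := Ev_lt_succ (t := t) (h := h) (c := c) hs hst hc j
  have h1 : ∀ n, Ev t h c j < n → n < Ev t h c (j + 1) → ∀ i, n ≠ Ev t h c i := by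
    intro n h1 h2 i he
    rcases Nat.lt_or_ge j i with hij | hij
    · have := hm.monotone (show j + 1 ≤ i from hij)
      linarith
    · have := hm.monotone hij
      linarith
  -- an odd place equal to `Ev j + 1` or `Ev j + 2` is the previous one
  have h2 : ∀ n, Ev t h c j < n → n ≤ Ev t h c j + 2 → ∀ i, n = Ev t h c i + t → i + 1 = j := by
    intro n h1 h2 i he
    by_contra hne
    rcases Nat.lt_or_ge (i + 1) j with hij | hij
    · have h3 : Ev t h c (i + 2) ≤ Ev t h c j := hm.monotone hij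
      have h4 : Ev t h c (i + 2) = Ev t h c i + t + c i + t + c (i + 1) := by
        rw [Ev_succ, Ev_succ]
      have := hc i
      have := hc (i + 1)
      linarith
    · have : Ev t h c j ≤ Ev t h c i := hm.monotone (by omega)
      linarith
  by_cases h3 : ∃ i, Ev t h c j + 1 = Ev t h c i + t
  · obtain ⟨i, hi⟩ := h3
    refine ⟨Ev t h c j + 2, by linarith, by linarith, h1 _ (by linarith) (by linarith), ?_⟩
    intro i' hi'
    have h4 := h2 _ (by linarith) (by linarith) i hi
    have h5 := h2 _ (by linarith) (by linarith) i' hi'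
    have : i = i' := by omega
    rw [this] at hi
    linarith
  · push Not at h3
    exact ⟨Ev t h c j + 1, by linarith, by linarith, h1 _ (by linarith) (by linarith), h3⟩

lemma Ev_unbounded (hs : 0 ≤ s) (hst : 2 * s + 5 ≤ t) (hc : ∀ j, -s ≤ c j) (j : ℕ) :
    h + j ≤ Ev t h c j := by
  induction j with
  | zero => simp [Ev]
  | succ j ih =>
    have := Ev_lt_succ (t := t) (h := h) (c := c) hs hst hc j
    push_cast
    linarith

end chain

end Pool.Agent.Graceful.BF
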