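import Mathlib
import Pool.Agent.Lib.MP_7616b3_co.BFChain

set_option autoImplicit false

namespace Pool.Agent.Graceful.BF

open Finset Classical

variable {V : Type*}

/-- the description of the edge with label `n`: `m` is the larger number, `v` the other end -/
def Desc (G : SimpleGraph V) (C : Finset V) (w1 w2 : V) (y : V → ℤ) (Z : Finset ℤ)
    (NN : ℤ → Prop) (t h : ℤ) (σ : ℕ → V) (n m : ℤ) (v : V) : Prop :=
  (v = w1 ∧ m = n ∧ ¬ NN n) ∨
  (v ∈ C ∧ ∃ u ∈ C, G.Adj u v ∧ y v < y u ∧ y u = m ∧ y u - y v = n) ∨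
  (v = w2 ∧ m = n + t ∧ n + t ∈ Z) ∨
  (v = w2 ∧ m = n + t ∧ ∃ j, n = Ev t h (fun i => y (σ i)) j) ∨
  (m = n + y v ∧ ∃ j, v = σ j ∧ n = Ev t h (fun i => y (σ i)) j + t)

theorem bij_core [Countable V] (G : SimpleGraph V) (C : Finset V) (w1 w2 : V) (k s : ℕ)
    (hk : 1 ≤ k) (hw1 : w1 ∉ C) (hw2 : w2 ∈ C)
    (hout : ∀ v, v ∉ C → v ≠ w1 → ∃ w, (w = w1 ∨ w ∈ C) ∧ {u | G.Adj w u}.Infinite ∧
      ∀ u, G.Adj v u ↔ u = w)
    (h1inf : {u | G.Adj w1 u}.Infinite) (h2inf : {u | G.Adj w2 u}.Infinite)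
    (hcard : 2 * (C.filter (fun x => ¬ G.Adj w1 x)).card = e2 G C + 2 * k + 2 * s) :
    BijKGraceful G k := by
  obtain ⟨B, X, y0, D, t, h0, S0, hXC, hCXB, hBC, hcount, hst, hw2X, hy0w, hB1, hPX, hPa, hPn,
    hPsurj⟩ := exists_init G C w1 w2 k s hk hw2 hcard
  have hs0 : (0 : ℤ) ≤ s := by positivity
  have hk0 : (1 : ℤ) ≤ k := by exact_mod_cast hk
  obtain ⟨y, Z, h, hyX, S, hN, hX⟩ := FS.complete (by linarith) hs0 (by linarith) (by linarith)
    hcount _ X y0 ∅ D h0 rfl hXC hCXB S0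
  have hyw : y w2 = t := by rw [hyX w2 hw2X, hy0w]
  -- facts about the core numbers
  have hya : ∀ x ∈ C, G.Adj w1 x → (k : ℤ) ≤ y x := by
    intro x hx ha
    have hxB : x ∉ B := fun hb => hB1 x hb ha
    rw [hyX x (hPX x hx hxB)]
    exact hPa x hx hxB ha
  have hyB : ∀ x ∈ B, Nm B C y Z ∅ (y x) := fun x hx => Or.inr (Or.inr ⟨x, hBC hx, hx, rfl⟩)
  have hylow : ∀ x ∈ C, x ∉ B → ¬ G.Adj w1 x → y x < k := by
    intro x hx hxB ha
    rw [hyX x (hPX x hx hxB)]
    exact hPn x hx hxB ha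
  have hysurj : ∀ n : ℤ, -(s : ℤ) ≤ n → n < k → n ≠ 0 → ∃ x ∈ C, y x = n := by
    intro n h1 h2 h3
    obtain ⟨x, hx, hxB, _, he⟩ := hPsurj n h1 h2 h3
    exact ⟨x, hx, by rw [hyX x (hPX x hx hxB)]; exact he⟩
  -- adjacent to `w1` or not, in terms of numbers `≥ k`
  have hAN : ∀ x ∈ C, G.Adj w1 x → ¬ Nm B C y Z ∅ (y x) := by
    rintro x hx ha (h1 | h1 | ⟨x', hx', hxB', he⟩)
    · exact S.yZ x hx h1
    · exact absurd h1 (Finset.notMem_empty _)
    · have := S.inj x' hx' x hx he
      rw [this] at hxB'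
      exact hB1 x hxB' ha
  have hhN : Nm B C y Z ∅ h := S.hN
  have hhk : (k : ℤ) ≤ h := S.ge h hhN
  have hRlh : ∀ n, Rl G t C y Z n → n < h := by
    intro n hn
    have h1 : n ≤ h := hN n ((S.dec n).mp (Or.inl hn))
    have h2 : n ≠ h := by
      rintro rfl
      exact S.hR hn
    omega
  have hNmR : ∀ n, Nm B C y Z ∅ n → Rl G t C y Z n ∨ n = h := by
    intro n hn
    rcases (S.dec n).mpr hn with h1 | h1 | h1
    · exact Or.inl h1
    · exact Or.inr h1
    · exact absurd h1 (Finset.notMem_empty _)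
  -- the hubs different from `w1`
  let I := {w : V // w ∈ C ∧ {u | G.Adj w u}.Infinite}
  have : Nonempty I := ⟨⟨w2, hw2, h2inf⟩⟩
  obtain ⟨σ0, hσ0⟩ := exists_cycling I
  let σ : ℕ → V := fun j => (σ0 j).1
  have hσC : ∀ j, σ j ∈ C := fun j => (σ0 j).2.1
  have hσinf : ∀ w ∈ C, {u | G.Adj w u}.Infinite → {j | σ j = w}.Infinite := by
    intro w hw hwi
    apply (hσ0 ⟨w, hw, hwi⟩).mono
    intro j hj
    have hj' : σ0 j = ⟨w, hw, hwi⟩ := hj
    change (σ0 j).1 = w
    rw [hj']
  set c : ℕ → ℤ := fun i => y (σ i) with hc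
  set E : ℕ → ℤ := Ev t h c with hE
  have hcs : ∀ j, -(s : ℤ) ≤ c j := fun j => S.low _ (hσC j)
  have hc0 : ∀ j, c j ≠ 0 := fun j => S.nz _ (hσC j)
  have hEs : ∀ j, E (j + 1) = E j + t + y (σ j) := fun j => Ev_succ j
  have hEh : ∀ j, h ≤ E j := fun j => le_Ev hs0 hst hcs j
  have hEinj : ∀ i j, E i = E j → i = j := fun i j => Ev_inj hs0 hst hcs
  have hEO : ∀ i j, E i + t ≠ E j := fun i j => Ev_add_ne hs0 hst hcs hc0 i j
  have hEmono : StrictMono E := Ev_mono hs0 hst hcs
  have hE0 : E 0 = h := rfl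
  have hEpos : ∀ j, h < E (j + 1) := fun j => by
    have := hEmono (Nat.succ_pos j)
    rw [hE0] at this
    exact this
  let NN : ℤ → Prop := fun n => Nm B C y Z ∅ n ∨ (∃ j, n = E j) ∨ (∃ j, n = E j + t)
  have hNNk : ∀ n, NN n → (k : ℤ) ≤ n := by
    rintro n (h1 | ⟨j, rfl⟩ | ⟨j, rfl⟩)
    · exact S.ge n h1
    · exact hhk.trans (hEh j)
    · have := hEh j
      linarith
  -- number sets
  let T : V → Set ℤ := fun w => if w = w1 then
      {n | (k : ℤ) ≤ n ∧ ¬ NN n ∧ ∀ x ∈ C, y x ≠ n}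
    else {n | (∃ j, σ j = w ∧ n = E (j + 1)) ∨ (w = w2 ∧ (n ∈ Z ∨ ∃ j, n = E j + t))}
  have hT1 : ∀ n, n ∈ T w1 ↔ ((k : ℤ) ≤ n ∧ ¬ NN n ∧ ∀ x ∈ C, y x ≠ n) := by
    intro n
    simp only [T, if_pos rfl, Set.mem_ofPred_eq]
  have hTw : ∀ w, w ≠ w1 → ∀ n, n ∈ T w ↔
      ((∃ j, σ j = w ∧ n = E (j + 1)) ∨ (w = w2 ∧ (n ∈ Z ∨ ∃ j, n = E j + t))) := by
    intro w hw n
    simp only [T, if_neg hw, Set.mem_ofPred_eq]
  have hCw : ∀ w ∈ C, w ≠ w1 := fun w hw he => hw1 (he ▸ hw)
  have hTinf : ∀ w, (w = w1 ∨ w ∈ C) → {u | G.Adj w u}.Infinite → (T w).Infinite := by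
    intro w hw hwi
    by_cases e : w = w1
    · rw [e]
      -- a free number in every gap, beyond all core numbers
      have hfree : ∀ j : ℕ, ∃ n, E j < n ∧ n < E (j + 1) ∧ (∀ i, n ≠ E i) ∧ (∀ i, n ≠ E i + t) :=
        fun j => exists_free hs0 hst hcs hc0 j
      choose F hF1 hF2 hF3 hF4 using hfree
      apply Set.infinite_of_injective_forall_mem (f := F)
      · intro a b hab
        by_contra hne
        rcases Nat.lt_or_gt_of_ne hne with hl | hl
        · have := hEmono.monotone (show a + 1 ≤ b from hl)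
          have := hF1 b
          have := hF2 a
          linarith
        · have := hEmono.monotone (show b + 1 ≤ a from hl)
          have := hF1 a
          have := hF2 b
          linarith
      · intro j
        rw [hT1]
        have h1 := hF1 j
        have h2 := hEh j
        refine ⟨by linarith, ?_, ?_⟩
        · rintro (h3 | ⟨i, h3⟩ | ⟨i, h3⟩)
          · have := hN _ h3
            linarith
          · exact hF3 j i h3
          · exact hF4 j i h3
        · intro x hx he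
          have := hX x hx
          linarith
    · have hwC : w ∈ C := hw.resolve_left e
      have h1 := hσinf w hwC hwi
      have h2 : ((fun j => E (j + 1)) '' {j | σ j = w}).Infinite := by
        apply h1.image
        intro a _ b _ hab
        have := hEinj _ _ hab
        omega
      apply h2.mono
      rintro n ⟨j, hj, rfl⟩
      rw [hTw w e]
      exact Or.inl ⟨j, hj, rfl⟩
  let L : V → Set V := fun w => {v | v ∉ C ∧ v ≠ w1 ∧ G.Adj v w}
  have hLinf : ∀ w, {u | G.Adj w u}.Infinite → (L w).Infinite := by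
    intro w hw
    have h1 := hw.sdiff (insert w1 C).finite_toSet
    apply h1.mono
    rintro v ⟨hv, hv'⟩
    rw [Finset.mem_coe, Finset.mem_insert, not_or] at hv'
    have hv2 : G.Adj w v := hv
    exact ⟨hv'.2, hv'.1, hv2.symm⟩
  have hg : ∀ w, ∃ g : V → ℤ, (w = w1 ∨ w ∈ C) → {u | G.Adj w u}.Infinite →
      Set.BijOn g (L w) (T w) := by
    intro w
    by_cases e : (w = w1 ∨ w ∈ C) ∧ {u | G.Adj w u}.Infinite
    · obtain ⟨g, hg⟩ := exists_bijOn_int (L w) (hLinf w e.2) (T w) (hTinf w e.1 e.2)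
      exact ⟨g, fun _ _ => hg⟩
    · exact ⟨fun _ => 0, fun h1 h2 => absurd ⟨h1, h2⟩ e⟩
  choose g hg using hg
  -- the neighbour of an outer vertex
  have hnb : ∀ v, ∃ w, v ∉ C → v ≠ w1 → ((w = w1 ∨ w ∈ C) ∧ {u | G.Adj w u}.Infinite ∧
      ∀ u, G.Adj v u ↔ u = w) := by
    intro v
    by_cases e : v ∉ C ∧ v ≠ w1
    · obtain ⟨w, hw⟩ := hout v e.1 e.2
      exact ⟨w, fun _ _ => hw⟩
    · exact ⟨v, fun h1 h2 => absurd ⟨h1, h2⟩ e⟩
  choose nb hnb using hnb
  let Y : V → ℤ := fun v => if v = w1 then 0 else if v ∈ C then y v else g (nb v) v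
  have hY1 : Y w1 = 0 := if_pos rfl
  have hYC : ∀ v ∈ C, Y v = y v := by
    intro v hv
    simp only [Y]
    rw [if_neg (hCw v hv), if_pos hv]
  have hYo : ∀ v, v ∉ C → v ≠ w1 → Y v = g (nb v) v := by
    intro v h1 h2
    simp only [Y]
    rw [if_neg h2, if_neg h1]
  have hbij : ∀ v, v ∉ C → v ≠ w1 → Set.BijOn (g (nb v)) (L (nb v)) (T (nb v)) := by
    intro v h1 h2
    exact hg (nb v) (hnb v h1 h2).1 (hnb v h1 h2).2.1
  have hvL : ∀ v, v ∉ C → v ≠ w1 → v ∈ L (nb v) := by
    intro v h1 h2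
    exact ⟨h1, h2, ((hnb v h1 h2).2.2 (nb v)).mpr rfl⟩
  have hYT : ∀ v, v ∉ C → v ≠ w1 → Y v ∈ T (nb v) := by
    intro v h1 h2
    rw [hYo v h1 h2]
    exact (hbij v h1 h2).mapsTo (hvL v h1 h2)
  -- elements of `T w`, `w ≠ w1`
  have hTNN : ∀ w, (w ∈ C) → ∀ n ∈ T w, NN n ∧ (∀ x ∈ C, y x ≠ n) ∧ y w < n ∧
      ((n - y w + t ∈ Z ∧ w = w2) ∨ (w = w2 ∧ ∃ j, n - y w = E j) ∨
        (∃ j, w = σ j ∧ n - y w = E j + t)) := by
    intro w hw n hn
    rw [hTw w (hCw w hw)] at hn
    rcases hn with ⟨j, hj, rfl⟩ | ⟨rfl, hn | ⟨j, rfl⟩⟩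
    · have h1 := hEs j
      rw [hj] at h1
      have h2 := hEh j
      refine ⟨Or.inr (Or.inl ⟨j + 1, rfl⟩), ?_, by linarith, Or.inr (Or.inr ⟨j, hj.symm, by
        linarith⟩)⟩
      intro x hx he
      have := hX x hx
      have := hEpos j
      linarith
    · refine ⟨Or.inl (Or.inl hn), ?_, ?_, Or.inl ⟨?_, rfl⟩⟩
      · rintro x hx rfl
        exact S.yZ x hx hn
      · -- `n - t` is a realised label
        have h1 : Rl G t C y Z (n - t) := Or.inr (by
          have e : n - t + t = n := by ring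
          rw [e]; exact hn)
        have h2 := S.ge _ ((S.dec _).mp (Or.inl h1))
        rw [hyw]
        linarith
      · rw [hyw]
        have e : n - t + t = n := by ring
        rw [e]; exact hn
    · have h2 := hEh j
      refine ⟨Or.inr (Or.inr ⟨j, rfl⟩), ?_, by rw [hyw]; linarith, Or.inr (Or.inl ⟨rfl, j, by
        rw [hyw]; ring⟩)⟩
      intro x hx he
      have := hX x hx
      linarith
  have hTlow : ∀ w, (w = w1 ∨ w ∈ C) → ∀ n ∈ T w, (k : ℤ) ≤ n ∧ ∀ x ∈ C, y x ≠ n := by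
    intro w hw n hn
    rcases hw with rfl | hw
    · rw [hT1] at hn
      exact ⟨hn.1, hn.2.2⟩
    · obtain ⟨h1, h2, _⟩ := hTNN w hw n hn
      exact ⟨hNNk n h1, h2⟩
  have hTdisj : ∀ w w', (w = w1 ∨ w ∈ C) → (w' = w1 ∨ w' ∈ C) → ∀ n, n ∈ T w → n ∈ T w' →
      w = w' := by
    intro w w' hw hw' n hn hn'
    rcases hw with rfl | hw <;> rcases hw' with rfl | hw'
    · rfl
    · exact absurd (hTNN w' hw' n hn').1 ((hT1 n).mp hn).2.1
    · exact absurd (hTNN w hw n hn).1 ((hT1 n).mp hn').2.1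
    · rw [hTw w (hCw w hw)] at hn
      rw [hTw w' (hCw w' hw')] at hn'
      have hZE : ∀ j, n ∈ Z → n ≠ E (j + 1) := by
        intro j hz he
        have h1 := hN n (Or.inl hz)
        have h2 := hEpos j
        linarith
      rcases hn with ⟨j, hj, hjn⟩ | ⟨hww, hn⟩
      · rcases hn' with ⟨j', hj', hjn'⟩ | ⟨hww', hn'⟩
        · have := hEinj _ _ (hjn.symm.trans hjn')
          have : j = j' := by omega
          rw [← hj, ← hj', this]
        · exfalso
          rcases hn' with hn' | ⟨j', hn'⟩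
          · exact hZE j hn' hjn
          · exact hEO j' (j + 1) (hn'.symm.trans hjn)
      · rcases hn' with ⟨j', hj', hjn'⟩ | ⟨hww', hn'⟩
        · exfalso
          rcases hn with hn | ⟨j, hn⟩
          · exact hZE j' hn hjn'
          · exact hEO j (j' + 1) (hn.symm.trans hjn')
        · rw [hww, hww']
  -- injectivity
  have hYne0 : ∀ v, v ≠ w1 → Y v ≠ 0 := by
    intro v hv
    by_cases e : v ∈ C
    · rw [hYC v e]; exact S.nz v e
    · have := (hTlow _ (hnb v e hv).1 _ (hYT v e hv)).1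
      intro h; linarith
  have hYinj : Function.Injective Y := by
    intro u v huv
    by_cases eu : u = w1
    · by_contra hne
      rw [eu, hY1] at huv
      exact hYne0 v (fun h => hne (by rw [eu, h])) huv.symm
    · by_cases ev : v = w1
      · rw [ev, hY1] at huv
        exact absurd huv (hYne0 u eu)
      · by_cases hu : u ∈ C <;> by_cases hv : v ∈ C
        · rw [hYC u hu, hYC v hv] at huv
          exact S.inj u hu v hv huv
        · rw [hYC u hu] at huv
          exact absurd huv ((hTlow _ (hnb v hv ev).1 _ (hYT v hv ev)).2 u hu)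
        · rw [hYC v hv] at huv
          exact absurd huv.symm ((hTlow _ (hnb u hu eu).1 _ (hYT u hu eu)).2 v hv)
        · have h1 := hYT u hu eu
          have h2 := hYT v hv ev
          rw [← huv] at h2
          have h3 := hTdisj _ _ (hnb u hu eu).1 (hnb v hv ev).1 _ h1 h2
          rw [hYo u hu eu, hYo v hv ev, ← h3] at huv
          have h4 := hvL v hv ev
          rw [← h3] at h4
          exact (hbij u hu eu).injOn (hvL u hu eu) h4 huv
  have hYlow : ∀ v, -(s : ℤ) ≤ Y v := by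
    intro v
    by_cases e : v = w1
    · rw [e, hY1]; linarith
    · by_cases hv : v ∈ C
      · rw [hYC v hv]; exact S.low v hv
      · have := (hTlow _ (hnb v hv e).1 _ (hYT v hv e)).1
        linarith
  -- a number of `T w` is the number of a leaf of `w`
  have hTsurj : ∀ w, (w = w1 ∨ w ∈ C) → {u | G.Adj w u}.Infinite → ∀ n ∈ T w,
      ∃ v, v ∉ C ∧ v ≠ w1 ∧ G.Adj v w ∧ Y v = n := by
    intro w hw hwi n hn
    obtain ⟨v, ⟨hvC, hv1, hvw⟩, he⟩ := (hg w hw hwi).surjOn hn
    have h1 : w = nb v := ((hnb v hvC hv1).2.2 w).mp hvw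
    refine ⟨v, hvC, hv1, hvw, ?_⟩
    rw [hYo v hvC hv1, ← h1]
    exact he
  have hZT : ∀ n ∈ Z, n ∈ T w2 := by
    intro n hn
    rw [hTw w2 (hCw w2 hw2)]
    exact Or.inr ⟨rfl, Or.inl hn⟩
  have hOT : ∀ j, E j + t ∈ T w2 := by
    intro j
    rw [hTw w2 (hCw w2 hw2)]
    exact Or.inr ⟨rfl, Or.inr ⟨j, rfl⟩⟩
  have hET : ∀ j, E (j + 1) ∈ T (σ j) := by
    intro j
    rw [hTw _ (hCw _ (hσC j))]
    exact Or.inl ⟨j, rfl, rfl⟩
  have hσI : ∀ j, {u | G.Adj (σ j) u}.Infinite := fun j => (σ0 j).2.2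
  have hYsurj : ∀ n : ℤ, -(s : ℤ) ≤ n → ∃ v, Y v = n := by
    intro n hn
    by_cases h1 : n < k
    · by_cases h2 : n = 0
      · exact ⟨w1, by rw [hY1, h2]⟩
      · obtain ⟨x, hx, he⟩ := hysurj n hn h1 h2
        exact ⟨x, by rw [hYC x hx, he]⟩
    · push Not at h1
      by_cases h2 : ∃ x ∈ C, y x = n
      · obtain ⟨x, hx, he⟩ := h2
        exact ⟨x, by rw [hYC x hx, he]⟩
      · push Not at h2
        by_cases h3 : NN n
        · have hfromT : ∀ w, (w = w1 ∨ w ∈ C) → {u | G.Adj w u}.Infinite → n ∈ T w →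
              ∃ v, Y v = n := by
            intro w hw hwi hnT
            obtain ⟨v, _, _, _, hv⟩ := hTsurj w hw hwi n hnT
            exact ⟨v, hv⟩
          have hNmT : Nm B C y Z ∅ n → ∃ v, Y v = n := by
            rintro (h4 | h4 | ⟨x, hx, _, he⟩)
            · exact hfromT w2 (Or.inr hw2) h2inf (hZT n h4)
            · exact absurd h4 (Finset.notMem_empty _)
            · exact absurd he (h2 x hx)
          rcases h3 with h4 | ⟨j, h4⟩ | ⟨j, h4⟩
          · exact hNmT h4
          · rcases j with _ | j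
            · apply hNmT
              rw [h4, hE0]
              exact hhN
            · apply hfromT (σ j) (Or.inr (hσC j)) (hσI j)
              rw [h4]
              exact hET j
          · apply hfromT w2 (Or.inr hw2) h2inf
            rw [h4]
            exact hOT j
        · obtain ⟨v, _, _, _, hv⟩ := hTsurj w1 (Or.inl rfl) h1inf n ((hT1 n).mpr ⟨h1, h3, h2⟩)
          exact ⟨v, hv⟩
  -- descriptions
  have hdesc : ∀ u v, G.Adj u v → Y v < Y u → (k : ℤ) ≤ Y u - Y v ∧
      Desc G C w1 w2 y Z NN t h σ (Y u - Y v) (Y u) v := by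
    intro u v ha hl
    by_cases ev : v = w1
    · -- lower end `w1`
      subst ev
      rw [hY1] at hl ⊢
      have hu1 : u ≠ v := ha.ne
      by_cases hu : u ∈ C
      · rw [hYC u hu] at hl ⊢
        have h1 := hya u hu ha.symm
        refine ⟨by linarith, Or.inl ⟨rfl, by ring, ?_⟩⟩
        rw [sub_zero]
        rintro (h2 | ⟨j, h2⟩ | ⟨j, h2⟩)
        · exact hAN u hu ha.symm h2
        · have := hX u hu
          have := hEh j
          linarith
        · have := hX u hu
          have := hEh j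
          linarith
      · have h1 := hYT u hu hu1
        have h2 : v = nb u := ((hnb u hu hu1).2.2 v).mp ha
        rw [← h2, hT1] at h1
        refine ⟨by linarith [h1.1], Or.inl ⟨rfl, by ring, ?_⟩⟩
        rw [sub_zero]
        exact h1.2.1
    · by_cases hv : v ∈ C
      · by_cases hu : u ∈ C
        · -- inside the core
          rw [hYC u hu, hYC v hv] at hl ⊢
          have h1 : Rl G t C y Z (y u - y v) := Or.inl ⟨u, hu, v, hv, ha, hl, rfl⟩
          refine ⟨S.ge _ ((S.dec _).mp (Or.inl h1)), Or.inr (Or.inl ⟨hv, u, hu, ha, hl, rfl,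
            rfl⟩)⟩
        · -- `u` outside or `w1`
          by_cases eu : u = w1
          · exfalso
            subst eu
            rw [hY1, hYC v hv] at hl
            have := hya v hv ha
            linarith
          · have h1 := hYT u hu eu
            have h2 : v = nb u := ((hnb u hu eu).2.2 v).mp ha
            rw [← h2] at h1
            obtain ⟨h3, h4, h5, h6⟩ := hTNN v hv _ h1
            rw [hYC v hv]
            rcases h6 with ⟨h7, h8⟩ | ⟨h7, j, h8⟩ | ⟨j, h7, h8⟩
            · constructor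
              · have h9 : Rl G t C y Z (Y u - y v) := Or.inr h7
                exact S.ge _ ((S.dec _).mp (Or.inl h9))
              · right; right; left
                refine ⟨h8, ?_, h7⟩
                rw [h8, hyw]; ring
            · constructor
              · rw [h8]; exact hhk.trans (hEh j)
              · right; right; right; left
                refine ⟨h7, ?_, j, h8⟩
                rw [h7, hyw]; ring
            · constructor
              · rw [h8]
                have := hEh j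
                linarith
              · right; right; right; right
                exact ⟨by ring, j, h7, h8⟩
      · -- `v` outside
        exfalso
        have h2 : u = nb v := ((hnb v hv ev).2.2 u).mp ha.symm
        have h3 := hYT v hv ev
        rw [← h2] at h3
        rcases (hnb v hv ev).1 with h4 | h4
        · rw [← h2] at h4
          rw [h4, hY1] at hl
          rw [h4] at h3
          have := ((hT1 _).mp h3).1
          linarith
        · rw [← h2] at h4
          have := (hTNN u h4 _ h3).2.2.1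
          rw [hYC u h4] at hl
          linarith
  have hduniq : ∀ n m v m' v', Desc G C w1 w2 y Z NN t h σ n m v →
      Desc G C w1 w2 y Z NN t h σ n m' v' → m = m' ∧ v = v' := by
    intro n m v m' v' h1 h2
    have hpair : ∀ u v, u ∈ C → v ∈ C → G.Adj u v → y v < y u → y u - y v = n →
        Rl G t C y Z n := by
      intro u v hu hv ha hl he
      exact Or.inl ⟨u, hu, v, hv, ha, hl, he⟩
    have hRN : Rl G t C y Z n → NN n := fun hr => Or.inl ((S.dec n).mp (Or.inl hr))
    rcases h1 with ⟨a1, a2, a3⟩ | ⟨a1, u, hu, a2, a3, a4, a5⟩ | ⟨a1, a2, a3⟩ | ⟨a1, a2, j, a3⟩ |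
      ⟨a2, j, a1, a3⟩
    · rcases h2 with ⟨b1, b2, b3⟩ | ⟨b1, u', hu', b2, b3, b4, b5⟩ | ⟨b1, b2, b3⟩ |
        ⟨b1, b2, j', b3⟩ | ⟨b2, j', b1, b3⟩
      · exact ⟨by rw [a2, b2], by rw [a1, b1]⟩
      · exact absurd (hRN (hpair u' v' hu' b1 b2 b3 b5)) a3
      · exact absurd (hRN (Or.inr b3)) a3
      · exact absurd (Or.inr (Or.inl ⟨j', b3⟩)) a3
      · exact absurd (Or.inr (Or.inr ⟨j', b3⟩)) a3
    · have hr := hpair u v hu a1 a2 a3 a5
      have hlt := hRlh n hr
      rcases h2 with ⟨b1, b2, b3⟩ | ⟨b1, u', hu', b2, b3, b4, b5⟩ | ⟨b1, b2, b3⟩ |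
        ⟨b1, b2, j', b3⟩ | ⟨b2, j', b1, b3⟩
      · exact absurd (hRN hr) b3
      · obtain ⟨g1, g2⟩ := S.uniq u hu v a1 u' hu' v' b1 a2 b2 a3 (by rw [a5, b5])
        exact ⟨by rw [← a4, ← b4, g1], g2⟩
      · exfalso
        apply S.sep u hu v a1 a2 a3
        rw [a5]
        exact b3
      · exfalso
        have := hEh j'
        rw [b3] at hlt
        exact absurd hlt (not_lt.mpr this)
      · exfalso
        have := hEh j'
        rw [b3] at hlt
        change E j' + t < h at hlt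
        linarith
    · have hr : Rl G t C y Z n := Or.inr a3
      have hlt := hRlh n hr
      rcases h2 with ⟨b1, b2, b3⟩ | ⟨b1, u', hu', b2, b3, b4, b5⟩ | ⟨b1, b2, b3⟩ |
        ⟨b1, b2, j', b3⟩ | ⟨b2, j', b1, b3⟩
      · exact absurd (hRN hr) b3
      · exfalso
        apply S.sep u' hu' v' b1 b2 b3
        rw [b5]
        exact a3
      · exact ⟨by rw [a2, b2], by rw [a1, b1]⟩
      · exact ⟨by rw [a2, b2], by rw [a1, b1]⟩
      · exfalso
        have := hEh j'
        rw [b3] at hlt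
        change E j' + t < h at hlt
        linarith
    · have hge := hEh j
      rcases h2 with ⟨b1, b2, b3⟩ | ⟨b1, u', hu', b2, b3, b4, b5⟩ | ⟨b1, b2, b3⟩ |
        ⟨b1, b2, j', b3⟩ | ⟨b2, j', b1, b3⟩
      · exact absurd (Or.inr (Or.inl ⟨j, a3⟩)) b3
      · exfalso
        have hlt := hRlh n (hpair u' v' hu' b1 b2 b3 b5)
        rw [a3] at hlt
        exact absurd hlt (not_lt.mpr hge)
      · exact ⟨by rw [a2, b2], by rw [a1, b1]⟩
      · exact ⟨by rw [a2, b2], by rw [a1, b1]⟩
      · exfalso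
        exact hEO j' j (b3.symm.trans a3)
    · have hge := hEh j
      rcases h2 with ⟨b1, b2, b3⟩ | ⟨b1, u', hu', b2, b3, b4, b5⟩ | ⟨b1, b2, b3⟩ |
        ⟨b1, b2, j', b3⟩ | ⟨b2, j', b1, b3⟩
      · exact absurd (Or.inr (Or.inr ⟨j, a3⟩)) b3
      · exfalso
        have hlt := hRlh n (hpair u' v' hu' b1 b2 b3 b5)
        rw [a3] at hlt
        change E j + t < h at hlt
        linarith
      · exfalso
        have hlt := hRlh n (Or.inr b3)
        rw [a3] at hlt
        change E j + t < h at hlt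
        linarith
      · exfalso
        exact hEO j j' (a3.symm.trans b3)
      · have h3 : E j + t = E j' + t := a3.symm.trans b3
        have h4 : j = j' := hEinj _ _ (by linarith)
        have h5 : v = v' := by rw [a1, b1, h4]
        exact ⟨by rw [a2, b2, h5], h5⟩
  apply bij_of_int hk Y s hYinj hYlow hYsurj
  · -- every label occurs
    intro n hn
    by_cases h1 : NN n
    · have hRlab : Rl G t C y Z n → ∃ u v, G.Adj u v ∧ Y u - Y v = n := by
        rintro (⟨u, hu, v, hv, ha, hl, he⟩ | hz)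
        · exact ⟨u, v, ha, by rw [hYC u hu, hYC v hv]; exact he⟩
        · obtain ⟨v, _, _, hvw, hv⟩ := hTsurj w2 (Or.inr hw2) h2inf _ (hZT _ hz)
          exact ⟨v, w2, hvw, by rw [hv, hYC w2 hw2, hyw]; ring⟩
      have hElab : ∀ j, n = E j → ∃ u v, G.Adj u v ∧ Y u - Y v = n := by
        intro j hj
        obtain ⟨v, _, _, hvw, hv⟩ := hTsurj w2 (Or.inr hw2) h2inf _ (hOT j)
        exact ⟨v, w2, hvw, by rw [hv, hYC w2 hw2, hyw, hj]; ring⟩
      rcases h1 with h2 | ⟨j, h2⟩ | ⟨j, h2⟩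
      · rcases hNmR n h2 with h3 | h3
        · exact hRlab h3
        · exact hElab 0 (by rw [h3, hE0])
      · exact hElab j h2
      · obtain ⟨v, _, _, hvw, hv⟩ := hTsurj (σ j) (Or.inr (hσC j)) (hσI j) _ (hET j)
        refine ⟨v, σ j, hvw, ?_⟩
        rw [hv, hYC _ (hσC j), h2, hEs]
        ring
    · by_cases h2 : ∃ x ∈ C, y x = n
      · obtain ⟨x, hx, he⟩ := h2
        have hxB : x ∉ B := by
          intro hb
          apply h1
          left
          rw [← he]
          exact hyB x hb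
        have ha : G.Adj w1 x := by
          by_contra hcon
          have := hylow x hx hxB hcon
          linarith
        exact ⟨x, w1, ha.symm, by rw [hYC x hx, hY1, he]; ring⟩
      · push Not at h2
        obtain ⟨v, _, _, hvw, hv⟩ := hTsurj w1 (Or.inl rfl) h1inf n ((hT1 n).mpr ⟨hn, h1, h2⟩)
        exact ⟨v, w1, hvw, by rw [hv, hY1]; ring⟩
  · intro u v u' v' ha ha' hl he
    have h1 := (hdesc u v ha hl).2
    have h2 := (hdesc u' v' ha' (by linarith)).2
    rw [← he] at h2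
    obtain ⟨g1, g2⟩ := hduniq _ _ _ _ _ h1 h2
    exact ⟨hYinj g1, g2⟩
  · intro u v ha hl
    exact (hdesc u v ha hl).1

end Pool.Agent.Graceful.BF
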