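import Mathlib
import Pool.Agent.Lib.MP_7616b3_co.BFMain

set_option autoImplicit false

namespace Pool.Agent.Graceful.BF

open Finset Classical

variable {V : Type*}

/-- the number of edges inside `F` -/
lemma e2_eq_ncard [Countable V] (G : SimpleGraph V) (F : Finset V) :
    e2 G F = 2 * {e ∈ G.edgeSet | ∀ v ∈ e, v ∈ F}.ncard := by
  obtain ⟨ν0, hν0⟩ := exists_injective_nat V
  let ν : V → ℤ := fun v => (ν0 v : ℤ)
  have hν : ∀ x x', ν x = ν x' → x = x' := fun x x' h => hν0 (Int.ofNat.inj h)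
  rw [e2_eq G F ν (fun x _ x' _ => hν x x')]
  set P := (F ×ˢ F).filter (fun p => G.Adj p.1 p.2 ∧ ν p.2 < ν p.1) with hP
  have h1 : {e ∈ G.edgeSet | ∀ v ∈ e, v ∈ F} = ↑(P.image (fun p => s(p.1, p.2))) := by
    ext e
    rw [Finset.mem_coe, Finset.mem_image]
    induction e with
    | _ u v =>
      constructor
      · rintro ⟨ha, hF⟩
        rw [SimpleGraph.mem_edgeSet] at ha
        have hu : u ∈ F := hF u (Sym2.mem_mk_left u v)
        have hv : v ∈ F := hF v (Sym2.mem_mk_right u v)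
        have hne : ν u ≠ ν v := fun h => ha.ne (hν _ _ h)
        rcases lt_or_gt_of_ne hne with h | h
        · refine ⟨(v, u), ?_, Sym2.eq_swap⟩
          rw [hP, Finset.mem_filter, Finset.mem_product]
          exact ⟨⟨hv, hu⟩, ha.symm, h⟩
        · refine ⟨(u, v), ?_, rfl⟩
          rw [hP, Finset.mem_filter, Finset.mem_product]
          exact ⟨⟨hu, hv⟩, ha, h⟩
      · rintro ⟨⟨a, b⟩, hp, he⟩
        rw [hP, Finset.mem_filter, Finset.mem_product] at hp
        simp only at hp he
        rw [← he]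
        refine ⟨hp.2.1, ?_⟩
        intro w hw
        rcases Sym2.mem_iff.mp hw with rfl | rfl
        · exact hp.1.1
        · exact hp.1.2
  rw [h1, Set.ncard_coe_finset, Finset.card_image_of_injOn]
  rintro ⟨a, b⟩ hab ⟨c, d⟩ hcd he
  rw [Finset.mem_coe, hP, Finset.mem_filter] at hab hcd
  simp only at hab hcd he
  rcases Sym2.eq_iff.mp he with ⟨h1, h2⟩ | ⟨h1, h2⟩
  · rw [h1, h2]
  · exfalso
    have h3 := hab.2.2
    have h4 := hcd.2.2
    rw [h1, h2] at h3
    linarith

lemma e2_leaves (G : SimpleGraph V) (F : Finset V)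
    (hF : ∀ v, v ∉ F → ∃ w ∈ F, ∀ u, G.Adj v u ↔ u = w) (Z : Finset V) (hZ : ∀ z ∈ Z, z ∉ F) :
    e2 G (F ∪ Z) = e2 G F + 2 * Z.card := by
  induction Z using Finset.induction_on with
  | empty => simp
  | insert u Z hu ih =>
    have hZ' : ∀ z ∈ Z, z ∉ F := fun z hz => hZ z (Finset.mem_insert_of_mem hz)
    have huF : u ∉ F := hZ u (Finset.mem_insert_self _ _)
    obtain ⟨w, hwF, hw⟩ := hF u huF
    have h1 : F ∪ insert u Z = insert u (F ∪ Z) := Finset.union_insert _ _ _
    have h2 : u ∉ F ∪ Z := by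
      rw [Finset.mem_union, not_or]
      exact ⟨huF, hu⟩
    have h3 : (F ∪ Z).filter (fun p => G.Adj u p) = {w} := by
      ext x
      rw [Finset.mem_filter, Finset.mem_singleton, hw]
      constructor
      · exact fun h => h.2
      · rintro rfl
        exact ⟨Finset.mem_union_left _ hwF, rfl⟩
    rw [h1, e2_insert G h2, ih hZ', h3, Finset.card_singleton, Finset.card_insert_of_notMem hu]
    ring

/-- sufficiency -/
theorem bij_of_core [Countable V] (G : SimpleGraph V) (k : ℕ) (hk : 1 ≤ k) (F : Finset V)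
    (hF : ∀ v, v ∉ F → ∃ w ∈ F, ∀ u, G.Adj v u ↔ u = w)
    (hcard : e2 G F + 2 * k + 2 ≤ 2 * F.card) (w1 w2 : V) (hne : w1 ≠ w2)
    (h1inf : {u | G.Adj w1 u}.Infinite) (h2inf : {u | G.Adj w2 u}.Infinite) :
    BijKGraceful G k := by
  -- the leaves at vertices of finite degree
  let Nf : V → Finset V := fun w => if h : {u | G.Adj w u}.Finite then h.toFinset else ∅
  have hNf : ∀ w, {u | G.Adj w u}.Finite → ∀ u, u ∈ Nf w ↔ G.Adj w u := by
    intro w h u
    simp only [Nf]
    rw [dif_pos h, Set.Finite.mem_toFinset]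
    rfl
  set Z := (F.biUnion Nf) \ F with hZ
  have hZF : ∀ z ∈ Z, z ∉ F := fun z hz => (Finset.mem_sdiff.mp hz).2
  set C0 := F ∪ Z with hC0
  have he0 := e2_leaves G F hF Z hZF
  have hc0 : C0.card = F.card + Z.card := by
    rw [hC0, Finset.card_union_of_disjoint]
    rw [Finset.disjoint_left]
    exact fun x hx hx' => hZF x hx' hx
  have hinF : ∀ w, {u | G.Adj w u}.Infinite → w ∈ F := by
    intro w hw
    by_contra hcon
    obtain ⟨w', _, h⟩ := hF w hcon
    apply hw
    apply (Set.finite_singleton w').subset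
    intro u hu
    exact (h u).mp hu
  have hw1C : w1 ∈ C0 := Finset.mem_union_left _ (hinF w1 h1inf)
  have hw2C : w2 ∈ C0 := Finset.mem_union_left _ (hinF w2 h2inf)
  have hins : insert w1 (C0.erase w1) = C0 := Finset.insert_erase hw1C
  have he1 : e2 G C0 = e2 G (C0.erase w1) + 2 * ((C0.erase w1).filter (fun x => G.Adj w1 x)).card := by
    conv_lhs => rw [← hins]
    exact e2_insert G (Finset.notMem_erase w1 C0)
  have hc1 : (C0.erase w1).card + 1 = C0.card := Finset.card_erase_add_one hw1C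
  have hsplit : ((C0.erase w1).filter (fun x => G.Adj w1 x)).card +
      ((C0.erase w1).filter (fun x => ¬ G.Adj w1 x)).card = (C0.erase w1).card := by
    convert Finset.card_filter_add_card_filter_not (s := C0.erase w1) (fun x => G.Adj w1 x)
  obtain ⟨eF, heF⟩ : ∃ e, e2 G F = 2 * e := ⟨_, e2_eq_ncard G F⟩
  apply bij_core G (C0.erase w1) w1 w2 k (F.card - eF - k - 1) hk (Finset.notMem_erase _ _)
    (Finset.mem_erase.mpr ⟨hne.symm, hw2C⟩) ?_ h1inf h2inf ?_
  · intro v hv hv1
    have hvC : v ∉ C0 := fun h => hv (Finset.mem_erase.mpr ⟨hv1, h⟩)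
    rw [hC0, Finset.mem_union, not_or] at hvC
    obtain ⟨w, hwF, hw⟩ := hF v hvC.1
    refine ⟨w, ?_, ?_, hw⟩
    · by_cases e : w = w1
      · exact Or.inl e
      · exact Or.inr (Finset.mem_erase.mpr ⟨e, Finset.mem_union_left _ hwF⟩)
    · intro hfin
      apply hvC.2
      rw [hZ, Finset.mem_sdiff, Finset.mem_biUnion]
      refine ⟨⟨w, hwF, ?_⟩, hvC.1⟩
      rw [hNf w hfin]
      exact ((hw w).mpr rfl).symm
  · rw [hc0] at hc1
    rw [he0, heF] at he1
    rw [heF] at hcard
    omega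

/-- necessity -/
theorem core_of_bij [Countable V] (G : SimpleGraph V) (k : ℕ) (W : Finset V)
    (hW : ∀ u v, G.Adj u v → u ∈ W ∨ v ∈ W) (hI : {v : V | ∀ w, ¬ G.Adj v w}.Finite)
    (a b : V) (hab : a ≠ b) (ha : {u | G.Adj a u}.Infinite) (hb : {u | G.Adj b u}.Infinite)
    (h : BijKGraceful G k) :
    ∃ F : Finset V, (∀ v, v ∉ F → ∃ w ∈ F, ∀ u, G.Adj v u ↔ u = w) ∧
      e2 G F + 2 * k + 2 ≤ 2 * F.card := by
  obtain ⟨f, ⟨hinj, hmaps, hinjE, hsurj⟩, hbij⟩ := h
  let g := Equiv.ofBijective f hbij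
  let U : ℕ → Finset V := fun n => (range (n + 1)).image g.symm
  have hU : ∀ n v, v ∈ U n ↔ f v ≤ n := by
    intro n v
    simp only [U, Finset.mem_image, Finset.mem_range]
    constructor
    · rintro ⟨i, hi, rfl⟩
      have : f (g.symm i) = i := g.apply_symm_apply i
      rw [this]
      omega
    · intro hv
      exact ⟨f v, by omega, g.symm_apply_apply v⟩
  have hUc : ∀ n, (U n).card = n + 1 := by
    intro n
    simp only [U]
    rw [Finset.card_image_of_injective _ g.symm.injective, Finset.card_range]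
  have hfg : ∀ n, f (g.symm n) = n := fun n => g.apply_symm_apply n
  have hUs : ∀ n, U (n + 1) = insert (g.symm (n + 1)) (U n) := by
    intro n
    ext v
    rw [Finset.mem_insert, hU, hU]
    constructor
    · intro hv
      by_cases e : f v = n + 1
      · left
        rw [← e]
        exact (g.symm_apply_apply v).symm
      · right; omega
    · rintro (h1 | h1)
      · rw [h1, hfg]
      · omega
  have hUn : ∀ n, g.symm (n + 1) ∉ U n := by
    intro n hn
    rw [hU, hfg] at hn
    omega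
  -- labels of ordered pairs
  let y : V → ℤ := fun v => (f v : ℤ)
  have hyinj : ∀ x x', y x = y x' → x = x' := fun x x' h => hinj (Int.ofNat.inj h)
  have hlab : ∀ u v, G.Adj u v → y v < y u → (k : ℤ) ≤ y u - y v := by
    intro u v ha hl
    have h1 := hmaps (show s(u, v) ∈ G.edgeSet from ha)
    rw [Set.mem_Ici] at h1
    simp only [edgeLabel, Sym2.lift_mk] at h1
    simp only [y] at hl ⊢
    omega
  have huniq : ∀ u v u' v', G.Adj u v → G.Adj u' v' → y v < y u → y v' < y u' →
      y u - y v = y u' - y v' → u = u' ∧ v = v' := by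
    intro u v u' v' ha ha' hl hl' he
    have h1 : edgeLabel f s(u, v) = edgeLabel f s(u', v') := by
      simp only [edgeLabel, Sym2.lift_mk]
      simp only [y] at he
      rw [he]
    have h2 := hinjE (show s(u, v) ∈ G.edgeSet from ha) (show s(u', v') ∈ G.edgeSet from ha') h1
    rcases Sym2.eq_iff.mp h2 with h3 | ⟨h3, h4⟩
    · exact h3
    · exfalso
      rw [h3, h4] at hl
      linarith
  let P : ℕ → Finset (V × V) := fun n =>
    (U n ×ˢ U n).filter (fun p => G.Adj p.1 p.2 ∧ y p.2 < y p.1)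
  have hPe : ∀ n, e2 G (U n) = 2 * (P n).card := fun n =>
    e2_eq G (U n) y (fun x _ x' _ => hyinj x x')
  have hPm : ∀ n p, p ∈ P n ↔ (f p.1 ≤ n ∧ f p.2 ≤ n) ∧ G.Adj p.1 p.2 ∧ y p.2 < y p.1 := by
    intro n p
    simp only [P, Finset.mem_filter, Finset.mem_product]
    rw [hU, hU]
  have himgc : ∀ n, ((P n).image (fun p => y p.1 - y p.2)).card = (P n).card := by
    intro n
    apply Finset.card_image_of_injOn
    rintro ⟨u, v⟩ hp ⟨u', v'⟩ hp' he
    rw [Finset.mem_coe, hPm] at hp hp'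
    simp only at hp hp' he
    obtain ⟨h1, h2⟩ := huniq u v u' v' hp.2.1 hp'.2.1 hp.2.2 hp'.2.2 he
    rw [h1, h2]
  have himg : ∀ n, (P n).image (fun p => y p.1 - y p.2) ⊆ Finset.Icc (k : ℤ) n := by
    intro n l hl
    obtain ⟨⟨u, v⟩, hp, he⟩ := Finset.mem_image.mp hl
    rw [hPm] at hp
    simp only at hp he
    have h1 := hlab u v hp.2.1 hp.2.2
    rw [Finset.mem_Icc]
    refine ⟨by linarith, ?_⟩
    rw [← he]
    simp only [y]
    have := hp.1.1
    omega
  have hPle : ∀ n, k ≤ n + 1 → (P n).card + k ≤ n + 1 := by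
    intro n hn
    have h1 := Finset.card_le_card (himg n)
    rw [himgc, Int.card_Icc] at h1
    omega
  -- from some point on all relevant vertices are inside
  obtain ⟨n1, hn1⟩ : ∃ n1, k ≤ n1 + 1 ∧ (∀ w ∈ W, f w ≤ n1) ∧ ∀ v, (∀ w, ¬ G.Adj v w) → f v ≤ n1 := by
    refine ⟨k + W.sup f + hI.toFinset.sup f, by omega, ?_, ?_⟩
    · intro w hw
      have := Finset.le_sup (f := f) hw
      omega
    · intro v hv
      have h1 : v ∈ hI.toFinset := by rw [Set.Finite.mem_toFinset]; exact hv
      have := Finset.le_sup (f := f) h1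
      omega
  obtain ⟨hn1k, hn1W, hn1I⟩ := hn1
  -- all neighbours of a late vertex are in `W`
  have hlate : ∀ v, n1 < f v → ∀ u, G.Adj v u → u ∈ W := by
    intro v hv u ha
    rcases hW v u ha with h1 | h1
    · have := hn1W v h1
      omega
    · exact h1
  let c : ℕ → ℕ := fun n => ((U n).filter (fun p => G.Adj (g.symm (n + 1)) p)).card
  have hec : ∀ n, e2 G (U (n + 1)) = e2 G (U n) + 2 * c n := by
    intro n
    rw [hUs n]
    exact e2_insert G (hUn n)
  have hc1 : ∀ n, n1 ≤ n → 1 ≤ c n := by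
    intro n hn
    have h1 : ∃ u, G.Adj (g.symm (n + 1)) u := by
      by_contra hcon
      push Not at hcon
      have := hn1I _ hcon
      rw [hfg] at this
      omega
    obtain ⟨u, hu⟩ := h1
    apply Finset.card_pos.mpr
    refine ⟨u, Finset.mem_filter.mpr ⟨?_, hu⟩⟩
    rw [hU]
    have h2 := hlate _ (by rw [hfg]; omega) u hu
    have := hn1W u h2
    omega
  -- minimise `n + 1 - e n`
  have hmin : ∃ n0, n1 ≤ n0 ∧ ∀ n, n1 ≤ n → n0 + 1 - (P n0).card ≤ n + 1 - (P n).card := by
    let S : Set ℕ := {m | ∃ n, n1 ≤ n ∧ m = n + 1 - (P n).card}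
    have hS : S.Nonempty := ⟨_, n1, le_refl _, rfl⟩
    obtain ⟨n0, hn0, he⟩ := Nat.sInf_mem hS
    refine ⟨n0, hn0, fun n hn => ?_⟩
    rw [← he]
    exact Nat.sInf_le ⟨n, hn, rfl⟩
  obtain ⟨n0, hn0, hmin⟩ := hmin
  have hPs : ∀ n, (P (n + 1)).card = (P n).card + c n := by
    intro n
    have h1 := hec n
    rw [hPe, hPe] at h1
    omega
  have hconst : ∀ n, n0 ≤ n → n + 1 - (P n).card = n0 + 1 - (P n0).card := by
    intro n hn
    induction n, hn using Nat.le_induction with
    | base => rfl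
    | succ n hn ih =>
      have h1 := hmin (n + 1) (by omega)
      have h2 := hPs n
      have h3 := hc1 n (by omega)
      have h4 := hPle n (by omega)
      have h5 := hPle (n + 1) (by omega)
      omega
  have hcone : ∀ n, n0 ≤ n → c n = 1 := by
    intro n hn
    have h1 := hconst n hn
    have h2 := hconst (n + 1) (by omega)
    have h3 := hPs n
    have h4 := hPle n (by omega)
    have h5 := hPle (n + 1) (by omega)
    omega
  have hF : ∀ v, v ∉ U n0 → ∃ w ∈ U n0, ∀ u, G.Adj v u ↔ u = w := by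
    intro v hv
    rw [hU] at hv
    obtain ⟨n, hn⟩ : ∃ n, f v = n + 1 := ⟨f v - 1, by omega⟩
    have hvg : v = g.symm (n + 1) := by
      rw [← hn]
      exact (g.symm_apply_apply v).symm
    have h1 := hcone n (by omega)
    obtain ⟨w, hw⟩ := Finset.card_eq_one.mp h1
    have h2 : ∀ u, G.Adj v u ↔ u = w := by
      intro u
      rw [← Finset.mem_singleton, ← hw, Finset.mem_filter, ← hvg]
      constructor
      · intro ha
        refine ⟨?_, ha⟩
        have h3 := hn1W u (hlate v (by omega) u ha)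
        rw [hU]
        omega
      · exact fun h => h.2
    refine ⟨w, ?_, h2⟩
    have h3 := hn1W w (hlate v (by omega) w ((h2 w).mpr rfl))
    rw [hU]
    omega
  refine ⟨U n0, hF, ?_⟩
  rw [hPe, hUc]
  have h4 := hPle n0 (by omega)
  by_contra hcon
  have heq : (P n0).card + k = n0 + 1 := by omega
  -- then every late vertex is adjacent to the vertex with number `0`
  have hz : ∀ v, v ∉ U n0 → G.Adj v (g.symm 0) := by
    intro v hv
    rw [hU] at hv
    obtain ⟨n, hn⟩ : ∃ n, f v = n + 1 := ⟨f v - 1, by omega⟩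
    have h5 := hconst (n + 1) (by omega)
    have h6 := hPle (n + 1) (by omega)
    have h7 : (P (n + 1)).card + k = n + 1 + 1 := by omega
    have h8 : (P (n + 1)).image (fun p => y p.1 - y p.2) = Finset.Icc (k : ℤ) (n + 1 : ℕ) := by
      apply Finset.eq_of_subset_of_card_le (himg (n + 1))
      rw [himgc, Int.card_Icc]
      omega
    have h9 : ((n + 1 : ℕ) : ℤ) ∈ (P (n + 1)).image (fun p => y p.1 - y p.2) := by
      rw [h8, Finset.mem_Icc]
      omega
    obtain ⟨⟨u, u'⟩, hp, he⟩ := Finset.mem_image.mp h9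
    rw [hPm] at hp
    simp only [y] at hp he
    have h10 : f u = n + 1 := by omega
    have h11 : f u' = 0 := by omega
    have h12 : u = v := hinj (by rw [h10, hn])
    have h13 : u' = g.symm 0 := hinj (by rw [h11, hfg])
    rw [← h12, ← h13]
    exact hp.2.1
  have hfinal : ∀ x, {u | G.Adj x u}.Infinite → x = g.symm 0 := by
    intro x hx
    by_contra hne
    apply hx
    apply (U n0).finite_toSet.subset
    intro v hv
    rw [Finset.mem_coe]
    by_contra hvU
    obtain ⟨w, _, hw⟩ := hF v hvU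
    have h5 := (hw _).mp (hz v hvU)
    have hv2 : G.Adj x v := hv
    have h6 := (hw x).mp hv2.symm
    exact hne (h6.trans h5.symm)
  exact hab ((hfinal a ha).trans (hfinal b hb).symm)

/-- infinitely many isolated vertices -/
theorem bij_of_graceful_isolated [Countable V] (G : SimpleGraph V) (k : ℕ)
    (hI : {v : V | ∀ w, ¬ G.Adj v w}.Infinite) (h : KGraceful G k) : BijKGraceful G k := by
  obtain ⟨F, ⟨hinj, hmaps, hinjE, hsurj⟩⟩ := h
  set I : Set V := {v : V | ∀ w, ¬ G.Adj v w} with hIdef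
  set J : Set ℕ := (F '' Iᶜ)ᶜ with hJ
  have hJinf : J.Infinite := by
    have h1 : (F '' I).Infinite := hI.image hinj.injOn
    apply h1.mono
    rintro n ⟨v, hv, rfl⟩
    rw [hJ, Set.mem_compl_iff]
    rintro ⟨w, hw, he⟩
    exact hw (hinj he ▸ hv)
  have : Infinite I := Set.infinite_coe_iff.mpr hI
  have : Infinite J := Set.infinite_coe_iff.mpr hJinf
  obtain ⟨e⟩ := nonempty_equiv_of_countable (α := I) (β := J)
  let f : V → ℕ := fun v => if h : v ∈ I then (e ⟨v, h⟩ : ℕ) else F v
  have hfI : ∀ v (h : v ∈ I), f v = (e ⟨v, h⟩ : ℕ) := fun v h => dif_pos h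
  have hfF : ∀ v, v ∉ I → f v = F v := fun v h => dif_neg h
  have hfIJ : ∀ v, v ∈ I → f v ∈ J := fun v h => by
    rw [hfI v h]; exact (e ⟨v, h⟩).2
  have hfFJ : ∀ v, v ∉ I → f v ∉ J := fun v h => by
    rw [hfF v h]
    exact fun h' => h' ⟨v, h, rfl⟩
  have hfinj : Function.Injective f := by
    intro u v huv
    by_cases hu : u ∈ I <;> by_cases hv : v ∈ I
    · rw [hfI u hu, hfI v hv] at huv
      have := e.injective (Subtype.ext huv)
      exact congrArg Subtype.val this
    · exact absurd (huv ▸ hfIJ u hu) (hfFJ v hv)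
    · exact absurd (huv.symm ▸ hfIJ v hv) (hfFJ u hu)
    · rw [hfF u hu, hfF v hv] at huv
      exact hinj huv
  have hfsurj : Function.Surjective f := by
    intro n
    by_cases hn : n ∈ J
    · refine ⟨(e.symm ⟨n, hn⟩ : I), ?_⟩
      rw [hfI _ (e.symm ⟨n, hn⟩).2]
      simp
    · have : n ∈ F '' Iᶜ := not_not.mp hn
      obtain ⟨v, hv, rfl⟩ := this
      exact ⟨v, hfF v hv⟩
  have hnotI : ∀ u v, G.Adj u v → u ∉ I := fun u v huv hu => hu v huv
  have hlab : ∀ a ∈ G.edgeSet, edgeLabel f a = edgeLabel F a := by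
    intro a ha
    induction a with
    | _ u v =>
      rw [SimpleGraph.mem_edgeSet] at ha
      simp only [edgeLabel, Sym2.lift_mk]
      rw [hfF u (hnotI u v ha), hfF v (hnotI v u ha.symm)]
  refine ⟨f, ⟨hfinj, ?_, ?_, ?_⟩, hfinj, hfsurj⟩
  · intro a ha
    rw [hlab a ha]
    exact hmaps ha
  · intro a ha b hb hab
    rw [hlab a ha, hlab b hb] at hab
    exact hinjE ha hb hab
  · intro l hl
    obtain ⟨a, ha, hal⟩ := hsurj hl
    exact ⟨a, ha, by rw [hlab a ha, hal]⟩

end Pool.Agent.Graceful.BF
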