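import Mathlib
import Pool.Agent.Lib.MP_7616b3_co.Limit

set_option autoImplicit false

namespace Pool.Agent.Graceful

universe u

variable {V : Type u} {G : SimpleGraph V} {k : ℕ}

namespace PL

lemma exists_insert (p : PL G k) (z : V) (n : ℕ) (hz : z ∉ p.dom)
    (h1 : ∀ x ∈ p.dom, p.f x ≠ n) (h2 : n ∉ p.forb)
    (h3 : ∀ x ∈ p.dom, G.Adj x z → ∀ l, (n = p.f x + l ∨ p.f x = n + l) → k ≤ l ∧ ¬ p.Real l)
    (h4 : ∀ x ∈ p.dom, ∀ y ∈ p.dom, G.Adj x z → G.Adj y z → ∀ l,
      n = p.f x + l → p.f y = n + l → False) :
    ∃ q : PL G k, p ≤ q ∧ (∀ x, x ∈ q.dom ↔ x = z ∨ x ∈ p.dom) ∧ q.f z = n ∧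
      q.forb = p.forb ∧ (∀ x ∈ p.dom, q.f x = p.f x) := by
  classical
  have hne : ∀ x ∈ p.dom, x ≠ z := fun x hx h => hz (h ▸ hx)
  have hup : ∀ x ∈ p.dom, Function.update p.f z n x = p.f x := fun x hx =>
    Function.update_of_ne (hne x hx) _ _
  have hupz : Function.update p.f z n z = n := Function.update_self _ _ _
  let q : PL G k :=
    { dom := insert z p.dom
      f := Function.update p.f z n
      forb := p.forb
      inj := by
        intro u hu v hv h
        rw [Finset.mem_insert] at hu hv
        rcases hu with rfl | hu <;> rcases hv with rfl | hv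
        · rfl
        · rw [hupz, hup v hv] at h
          exact absurd h.symm (h1 v hv)
        · rw [hupz, hup u hu] at h
          exact absurd h (h1 u hu)
        · rw [hup u hu, hup v hv] at h
          exact p.inj u hu v hv h
      avoid := by
        intro u hu
        rw [Finset.mem_insert] at hu
        rcases hu with rfl | hu
        · rw [hupz]; exact h2
        · rw [hup u hu]; exact p.avoid u hu
      lab_ge := by
        intro u hu v hv l ha h
        rw [Finset.mem_insert] at hu hv
        rcases hu with rfl | hu <;> rcases hv with rfl | hv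
        · exact absurd ha (G.loopless.irrefl _)
        · rw [hupz, hup v hv] at h
          exact (h3 v hv ha.symm l (Or.inr h)).1
        · rw [hupz, hup u hu] at h
          exact (h3 u hu ha l (Or.inl h)).1
        · rw [hup u hu, hup v hv] at h
          exact p.lab_ge u hu v hv l ha h
      lab_inj := by
        intro u hu v hv u' hu' v' hv' l ha ha' h h'
        rw [Finset.mem_insert] at hu hv hu' hv'
        -- case analysis
        have hneg : ∀ x ∈ p.dom, ∀ y ∈ p.dom, ∀ w ∈ p.dom, G.Adj x y → G.Adj w z →
            p.f y = p.f x + l → (n = p.f w + l ∨ p.f w = n + l) → False := by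
          intro x hx y hy w hw hxy hwz e1 e2
          exact (h3 w hw hwz l e2).2 ⟨x, hx, y, hy, hxy, e1⟩
        rcases hu with rfl | hu <;> rcases hv with rfl | hv <;>
          rcases hu' with rfl | hu' <;> rcases hv' with rfl | hv'
        · rfl
        · exact absurd ha (G.loopless.irrefl _)
        · exact absurd ha (G.loopless.irrefl _)
        · exact absurd ha (G.loopless.irrefl _)
        · exact absurd ha' (G.loopless.irrefl _)
        · rfl
        · -- u = z, v ; u', v' = z
          rw [hupz, hup v hv] at h
          rw [hupz, hup u' hu'] at h'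
          exact (h4 u' hu' v hv ha' ha.symm l h' h).elim
        · rw [hupz, hup v hv] at h
          rw [hup u' hu', hup v' hv'] at h'
          exact (hneg u' hu' v' hv' v hv ha' ha.symm h' (Or.inr h)).elim
        · exact absurd ha' (G.loopless.irrefl _)
        · rw [hupz, hup u hu] at h
          rw [hupz, hup v' hv'] at h'
          exact (h4 u hu v' hv' ha ha'.symm l h h').elim
        · rw [hupz, hup u hu] at h
          rw [hupz, hup u' hu'] at h'
          exact p.inj u hu u' hu' (by omega)
        · rw [hupz, hup u hu] at h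
          rw [hup u' hu', hup v' hv'] at h'
          exact (hneg u' hu' v' hv' u hu ha' ha h' (Or.inl h)).elim
        · exact absurd ha' (G.loopless.irrefl _)
        · rw [hup u hu, hup v hv] at h
          rw [hupz, hup v' hv'] at h'
          exact (hneg u hu v hv v' hv' ha ha'.symm h (Or.inr h')).elim
        · rw [hup u hu, hup v hv] at h
          rw [hupz, hup u' hu'] at h'
          exact (hneg u hu v hv u' hu' ha ha' h (Or.inl h')).elim
        · rw [hup u hu, hup v hv] at h
          rw [hup u' hu', hup v' hv'] at h'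
          exact p.lab_inj u hu v hv u' hu' v' hv' l ha ha' h h' }
  refine ⟨q, ⟨Finset.subset_insert _ _, fun v hv => hup v hv, fun _ h => h⟩, ?_, hupz, rfl,
    fun x hx => hup x hx⟩
  intro x
  exact Finset.mem_insert

/-- A bound for all numbers occurring in `p`. -/
lemma exists_bound (p : PL G k) (l : ℕ) : ∃ B : ℕ, l < B ∧ k < B ∧ (∀ x ∈ p.dom, p.f x < B) ∧
    ∀ m ∈ p.forb, m < B := by
  classical
  refine ⟨l + k + (p.dom.sup p.f) + (p.forb.sup id) + 1, by omega, by omega, ?_, ?_⟩
  · intro x hx
    have := Finset.le_sup (f := p.f) hx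
    omega
  · intro m hm
    have := Finset.le_sup (f := id) hm
    simp only [id] at this
    omega

lemma Real.lt {p : PL G k} {B : ℕ} (hB : ∀ x ∈ p.dom, p.f x < B) {l : ℕ} (h : p.Real l) :
    l < B := by
  obtain ⟨u, hu, v, hv, _, he⟩ := h
  have := hB v hv
  omega

/-- Insert a vertex far away. -/
lemma exists_insert_far (p : PL G k) (z : V) (n B : ℕ) (hz : z ∉ p.dom) (hkB : k < B)
    (hB : ∀ x ∈ p.dom, p.f x < B) (hB' : ∀ m ∈ p.forb, m < B) (hn : 2 * B ≤ n) :
    ∃ q : PL G k, p ≤ q ∧ (∀ x, x ∈ q.dom ↔ x = z ∨ x ∈ p.dom) ∧ q.f z = n ∧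
      q.forb = p.forb ∧ (∀ x ∈ p.dom, q.f x = p.f x) := by
  apply exists_insert p z n hz
  · intro x hx; have := hB x hx; omega
  · intro h; have := hB' n h; omega
  · intro x hx _ l hl
    have h1 := hB x hx
    rcases hl with hl | hl
    · refine ⟨by omega, fun hr => ?_⟩
      have := hr.lt hB
      omega
    · omega
  · intro x hx y hy _ _ l h1 h2
    have := hB y hy
    omega

end PL

end Pool.Agent.Graceful
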