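import Mathlib
import Pool.Agent.Lib.MP_7616b3_co.Insert

set_option autoImplicit false

namespace Pool.Agent.Graceful

universe u

variable {V : Type u} {G : SimpleGraph V} {k : ℕ}

lemma bij_of_edges [Countable V] (hk : 1 ≤ k)
    (hN : ∀ W : Finset V, ∃ t v, G.Adj t v ∧ t ∉ W ∧ v ∉ W ∧ ∀ w ∈ W, ¬ G.Adj t w) :
    BijKGraceful G k := by
  classical
  let S : Set (PL G k) := {p | p.forb = ∅}
  let Req : V ⊕ ℕ ⊕ ℕ → PL G k → Prop := fun i p =>
    match i with
    | Sum.inl v => v ∈ p.dom
    | Sum.inr (Sum.inl n) => ∃ v ∈ p.dom, p.f v = n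
    | Sum.inr (Sum.inr l) => k ≤ l → p.Real l
  obtain ⟨s, hs, hreq⟩ := exists_chain S (PL.empty (G := G) (k := k)) (by simp [S, PL.empty]) Req (by
    intro p hp i
    have hforb : p.forb = ∅ := hp
    rcases i with z | n | l
    · -- add a vertex
      by_cases hz : z ∈ p.dom
      · exact ⟨p, hp, le_refl p, hz⟩
      · obtain ⟨B, _, hkB, hB, hB'⟩ := p.exists_bound 0
        obtain ⟨q, hpq, hdom, _, hqf, _⟩ := p.exists_insert_far z (2 * B) B hz hkB hB hB' le_rfl
        refine ⟨q, ?_, hpq, ?_⟩
        · change q.forb = ∅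
          rw [hqf, hforb]
        · exact (hdom z).mpr (Or.inl rfl)
    · -- fill a position
      by_cases hn : ∃ v ∈ p.dom, p.f v = n
      · exact ⟨p, hp, le_refl p, hn⟩
      · push Not at hn
        obtain ⟨t, _, _, ht, _, hnb⟩ := hN p.dom
        obtain ⟨q, hpq, hdom, hqt, hqf, _⟩ := p.exists_insert t n ht hn (by rw [hforb]; simp)
          (fun x hx ha => absurd ha.symm (hnb x hx))
          (fun x hx _ _ ha => absurd ha.symm (hnb x hx))
        refine ⟨q, ?_, hpq, t, (hdom t).mpr (Or.inl rfl), hqt⟩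
        change q.forb = ∅
        rw [hqf, hforb]
    · -- realise a label
      by_cases hl : k ≤ l
      swap
      · exact ⟨p, hp, le_refl p, fun h => absurd h hl⟩
      by_cases hr : p.Real l
      · exact ⟨p, hp, le_refl p, fun _ => hr⟩
      obtain ⟨t, v, htv, ht, hv, hnb⟩ := hN p.dom
      obtain ⟨B, hlB, hkB, hB, hB'⟩ := p.exists_bound l
      obtain ⟨q, hpq, hdom, hqt, hqf, hqx⟩ :=
        p.exists_insert_far t (2 * B) B ht hkB hB hB' le_rfl
      have hvq : v ∉ q.dom := by
        rw [hdom]
        push Not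
        exact ⟨fun h => G.loopless.irrefl _ (h ▸ htv), hv⟩
      have hreal : ∀ m, q.Real m → p.Real m := by
        rintro m ⟨a, ha, b, hb, hab, he⟩
        rw [hdom] at ha hb
        rcases ha with rfl | ha <;> rcases hb with rfl | hb
        · exact absurd hab (G.loopless.irrefl _)
        · exact absurd hab (hnb b hb)
        · exact absurd hab.symm (hnb a ha)
        · rw [hqx a ha, hqx b hb] at he
          exact ⟨a, ha, b, hb, hab, he⟩
      obtain ⟨r, hqr, hdomr, hrv, hrf, hrx⟩ := q.exists_insert v (2 * B + l) hvq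
        (by
          intro x hx
          rw [hdom] at hx
          rcases hx with rfl | hx
          · rw [hqt]; omega
          · rw [hqx x hx]; have := hB x hx; omega)
        (by rw [hqf, hforb]; simp)
        (by
          intro x hx hxa m hm
          rw [hdom] at hx
          rcases hx with rfl | hx
          · rw [hqt] at hm
            have : m = l := by omega
            subst this
            exact ⟨hl, fun h => hr (hreal _ h)⟩
          · rw [hqx x hx] at hm
            have h1 := hB x hx
            refine ⟨by omega, fun h => ?_⟩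
            have := (hreal _ h).lt hB
            omega)
        (by
          intro x hx y hy hxa hya m h1 h2
          rw [hdom] at hy
          rcases hy with rfl | hy
          · rw [hqt] at h2; omega
          · rw [hqx y hy] at h2; have := hB y hy; omega)
      refine ⟨r, ?_, hpq.trans hqr, fun _ => ⟨t, ?_, v, ?_, htv, ?_⟩⟩
      · change r.forb = ∅
        rw [hrf, hqf, hforb]
      · rw [hdomr, hdom]; exact Or.inr (Or.inl rfl)
      · rw [hdomr]; exact Or.inl rfl
      · rw [hrv, hrx t ((hdom t).mpr (Or.inl rfl)), hqt])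
  obtain ⟨F, hF, hFs, _⟩ := glue s hs (fun v => hreq (Sum.inl v))
    (fun l hl => by
      obtain ⟨n, hn⟩ := hreq (Sum.inr (Sum.inr l))
      exact ⟨n, hn hl⟩)
  refine ⟨F, hF, hF.1, ?_⟩
  intro n
  obtain ⟨m, v, hv, he⟩ := hreq (Sum.inr (Sum.inl n))
  exact ⟨v, by rw [hFs m v hv, he]⟩

/-- Necessity: with an infinite matching, a bijectively `k`-graceful graph has, for every finite
set `W`, a vertex outside `W` without neighbour in `W`. -/
lemma exists_free_of_bij (hk : 1 ≤ k) (hM : HasInfiniteMatching G) (hG : BijKGraceful G k)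
    (W : Finset V) : ∃ v, v ∉ W ∧ ∀ w ∈ W, ¬ G.Adj v w := by
  classical
  by_contra hcon
  push Not at hcon
  obtain ⟨f, ⟨hinj, hmaps, hinjE, -⟩, -, hsurj⟩ := hG
  choose nb hnbW hnb using hcon
  obtain ⟨M, hMinf, hMsub, hMdis⟩ := hM
  -- edges of M avoiding W
  have hM' : {e ∈ M | ∀ w ∈ W, w ∉ e}.Infinite := by
    have hfin : {e ∈ M | ∃ w ∈ W, w ∈ e}.Finite := by
      -- at most one edge of M at each w
      have hsub : {e ∈ M | ∃ w ∈ W, w ∈ e} ⊆ ⋃ w ∈ (W : Set V), {e ∈ M | w ∈ e} := by
        rintro e ⟨heM, w, hw, hwe⟩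
        simp only [Set.mem_iUnion]
        exact ⟨w, hw, heM, hwe⟩
      apply Set.Finite.subset _ hsub
      apply Set.Finite.biUnion W.finite_toSet
      intro w _
      apply Set.Subsingleton.finite
      rintro e ⟨heM, hwe⟩ e' ⟨heM', hwe'⟩
      by_contra hne
      exact hMdis e heM e' heM' hne w hwe hwe'
    have : {e ∈ M | ∀ w ∈ W, w ∉ e} = M \ {e ∈ M | ∃ w ∈ W, w ∈ e} := by
      ext e
      simp only [Set.mem_sep_iff, Set.mem_sdiff, not_and, not_exists]
      constructor
      · rintro ⟨h1, h2⟩
        exact ⟨h1, fun _ w hw => h2 w hw⟩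
      · rintro ⟨h1, h2⟩
        exact ⟨h1, fun w hw => h2 h1 w hw⟩
    rw [this]
    exact hMinf.sdiff hfin
  obtain ⟨T, hTsub, hTcard⟩ := hM'.exists_subset_card_eq (W.card + 1)
  -- bound
  obtain ⟨N, hN⟩ : ∃ N : ℕ, (∀ w ∈ W, f w ≤ N) ∧ ∀ e ∈ T, edgeLabel f e ≤ N := by
    refine ⟨W.sup f + T.sup (edgeLabel f), ?_, ?_⟩
    · intro w hw
      have := Finset.le_sup (f := f) hw
      omega
    · intro e he
      have := Finset.le_sup (f := edgeLabel f) he
      omega
  choose g hg using hsurj
  -- the edges used by vertices at positions ≤ N outside W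
  let P : Finset ℕ := (Finset.range (N + 1)).filter (fun i => g i ∉ W)
  have hP : N + 1 ≤ P.card + W.card := by
    have h1 := Finset.card_filter_add_card_filter_not (s := Finset.range (N + 1))
      (fun i => g i ∉ W)
    have h2 : ((Finset.range (N + 1)).filter (fun i => ¬ g i ∉ W)).card ≤ W.card := by
      apply Finset.card_le_card_of_injOn g
      · intro i hi
        have := (Finset.mem_filter.mp hi).2
        exact Finset.mem_coe.mpr (not_not.mp this)
      · intro i _ j _ hij
        rw [← hg i, ← hg j, hij]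
    rw [Finset.card_range] at h1
    simp only [P]
    omega
  let E : ℕ → Sym2 V := fun i => if h : g i ∉ W then s(g i, nb (g i) h) else s(g i, g i)
  have hE : ∀ i ∈ P, ∃ w ∈ W, E i = s(g i, w) ∧ G.Adj (g i) w := by
    intro i hi
    have hi' := (Finset.mem_filter.mp hi).2
    refine ⟨nb (g i) hi', hnbW _ hi', ?_, hnb _ hi'⟩
    simp only [E]
    rw [dif_pos hi']
  have hEinj : Set.InjOn E P := by
    intro i hi j hj hij
    obtain ⟨w, hw, hEi, _⟩ := hE i hi
    obtain ⟨w', hw', hEj, _⟩ := hE j hj
    rw [hEi, hEj] at hij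
    have hi' := (Finset.mem_filter.mp hi).2
    rcases Sym2.eq_iff.mp hij with ⟨h1, _⟩ | ⟨h1, _⟩
    · rw [← hg i, ← hg j, h1]
    · exact absurd (h1 ▸ hw') hi'
  -- the union of edge sets
  have hdisj : Disjoint (P.image E) T := by
    rw [Finset.disjoint_left]
    intro e he heT
    obtain ⟨i, hi, rfl⟩ := Finset.mem_image.mp he
    obtain ⟨w, hw, hEi, _⟩ := hE i hi
    have := (hTsub heT).2 w hw
    apply this
    rw [hEi]
    exact Sym2.mem_mk_right _ _
  have hlab : ∀ e ∈ P.image E ∪ T, edgeLabel f e ∈ Finset.Icc 1 N ∧ e ∈ G.edgeSet := by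
    intro e he
    rcases Finset.mem_union.mp he with he | he
    · obtain ⟨i, hi, rfl⟩ := Finset.mem_image.mp he
      obtain ⟨w, hw, hEi, hadj⟩ := hE i hi
      have hmem : E i ∈ G.edgeSet := by rw [hEi]; exact hadj
      refine ⟨?_, hmem⟩
      have h1 := hmaps hmem
      simp only [Set.mem_Ici] at h1
      have h2 : i ≤ N := by
        have := (Finset.mem_filter.mp hi).1
        rw [Finset.mem_range] at this
        omega
      have h3 := hN.1 w hw
      have h4 := (edgeLabel_eq_iff (f := f) (u := g i) (v := w)).mp rfl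
      rw [← hEi, hg i] at h4
      rw [Finset.mem_Icc]
      omega
    · have hmem := hMsub (hTsub he).1
      refine ⟨?_, hmem⟩
      have h1 := hmaps hmem
      simp only [Set.mem_Ici] at h1
      rw [Finset.mem_Icc]
      exact ⟨by omega, hN.2 e he⟩
  have hcard : (P.image E ∪ T).card ≤ (Finset.Icc 1 N).card := by
    apply Finset.card_le_card_of_injOn (edgeLabel f)
    · intro e he
      exact (hlab e he).1
    · intro e he e' he' heq
      exact hinjE (hlab e he).2 (hlab e' he').2 heq
  rw [Finset.card_union_of_disjoint hdisj, Finset.card_image_of_injOn hEinj, hTcard,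
    Nat.card_Icc] at hcard
  omega

end Pool.Agent.Graceful
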