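import Mathlib
import Pool.Agent.Lib.MP_7616b3_co.Defs
import Pool.Agent.Lib.MP_7616b3_co.Arith

set_option autoImplicit false

namespace Pool.Agent.Graceful

/-- The join of the complete graph on the finite set `W` with the edgeless graph on the remaining
vertices. -/
def splitGraph {V : Type*} (W : Finset V) : SimpleGraph V where
  Adj u v := u ≠ v ∧ (u ∈ W ∨ v ∈ W)
  symm := ⟨fun _ _ h => ⟨h.1.symm, h.2.symm⟩⟩
  loopless := ⟨fun _ h => h.1 rfl⟩

namespace Split

open Finset

section

variable {V : Type*} {G : SimpleGraph V} {k : ℕ} {f : V → ℕ} {W : Finset V} {D : Finset (Sym2 V)}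

/-- the outer labels -/
def outer (f : V → ℕ) (W : Finset V) : Set ℤ := {n | ∃ v, v ∉ W ∧ (f v : ℤ) = n}

theorem label_eq (u v : V) (L : ℤ) (hL : 0 ≤ L) (h : (f v : ℤ) = f u + L) :
    (edgeLabel f s(u, v) : ℤ) = L := by
  simp only [edgeLabel, Sym2.lift_mk]
  omega

/-- a pair at distance `L` not in the defect set is an edge -/
theorem adj_of_pair [DecidableEq (Sym2 V)]
    (hD : ∀ e, e ∉ D → (e ∈ G.edgeSet ↔ e ∈ (splitGraph W).edgeSet))
    (u v : V) (L : ℤ) (hL : 1 ≤ L) (h : (f v : ℤ) = f u + L) (hW : u ∈ W ∨ v ∈ W)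
    (hLS : L ∉ D.image (fun e => (edgeLabel f e : ℤ))) : s(u, v) ∈ G.edgeSet := by
  have h1 : s(u, v) ∉ D := by
    intro h1
    apply hLS
    rw [Finset.mem_image]
    exact ⟨_, h1, label_eq u v L (by linarith) h⟩
  rw [hD _ h1, SimpleGraph.mem_edgeSet]
  refine ⟨?_, hW⟩
  rintro rfl
  linarith

theorem pair_unique (hf : IsKGracefulNumbering G k f) {u v u' v' : V} {L : ℤ} (hL : 1 ≤ L)
    (h : (f v : ℤ) = f u + L) (h' : (f v' : ℤ) = f u' + L) (he : s(u, v) ∈ G.edgeSet)
    (he' : s(u', v') ∈ G.edgeSet) : u = u' ∧ v = v' := by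
  have h1 : edgeLabel f s(u, v) = edgeLabel f s(u', v') := by
    have := label_eq u v L (by linarith) h
    have := label_eq u' v' L (by linarith) h'
    omega
  have h2 := hf.2.injOn he he' h1
  rw [Sym2.eq_iff] at h2
  rcases h2 with h2 | ⟨rfl, rfl⟩
  · exact h2
  · exfalso
    linarith

theorem exists_pair (hf : IsKGracefulNumbering G k f) (L : ℤ) (hL : (k : ℤ) ≤ L) :
    ∃ u v : V, (f v : ℤ) = f u + L ∧ s(u, v) ∈ G.edgeSet := by
  obtain ⟨l, rfl⟩ := Int.eq_ofNat_of_zero_le (le_trans (Int.natCast_nonneg k) hL)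
  have hl : l ∈ Set.Ici k := by
    rw [Set.mem_Ici]
    exact_mod_cast hL
  obtain ⟨e, he, hel⟩ := hf.2.surjOn hl
  induction e with
  | _ u v =>
    simp only [edgeLabel, Sym2.lift_mk] at hel
    rcases le_total (f u) (f v) with h | h
    · exact ⟨u, v, by omega, he⟩
    · refine ⟨v, u, by omega, ?_⟩
      rw [Sym2.eq_swap]
      exact he

theorem graph_count [DecidableEq (Sym2 V)] (hf : IsKGracefulNumbering G k f)
    (hD : ∀ e, e ∉ D → (e ∈ G.edgeSet ↔ e ∈ (splitGraph W).edgeSet)) (L : ℤ) (hL : 1 ≤ L)
    (hLS : L ∉ D.image (fun e => (edgeLabel f e : ℤ))) :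
    cX (toZ (W.image f)) (outer f W) L = if (k : ℤ) ≤ L then 1 else 0 := by
  classical
  have hinj : Function.Injective f := hf.1
  have hinjZ : Function.Injective (fun v => (f v : ℤ)) := fun a b h => hinj (Int.ofNat.inj h)
  have e0 : toZ (W.image f) = W.image (fun w => (f w : ℤ)) := by
    unfold toZ
    rw [Finset.image_image]
    rfl
  have hadj : ∀ u v : V, (f v : ℤ) = f u + L → (u ∈ W ∨ v ∈ W) → s(u, v) ∈ G.edgeSet :=
    fun u v h hW => adj_of_pair hD u v L hL h hW hLS
  have huniq : ∀ u v u' v' : V, (f v : ℤ) = f u + L → (f v' : ℤ) = f u' + L →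
      (u ∈ W ∨ v ∈ W) → (u' ∈ W ∨ v' ∈ W) → u = u' ∧ v = v' :=
    fun u v u' v' h h' hW hW' => pair_unique hf hL h h' (hadj u v h hW) (hadj u' v' h' hW')
  have hX : ∀ n : ℤ, n ∈ toZ (W.image f) ↔ ∃ w ∈ W, (f w : ℤ) = n := by
    intro n
    rw [e0, Finset.mem_image]
  have hsum : cX (toZ (W.image f)) (outer f W) L
      = ∑ w ∈ W, ((if (f w : ℤ) + L ∈ toZ (W.image f) then 1 else 0)
        + ind (outer f W) ((f w : ℤ) + L) + ind (outer f W) ((f w : ℤ) - L)) := by
    unfold cX
    conv_lhs => rw [e0]
    rw [Finset.sum_image (fun a _ b _ h => hinjZ h)]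
    rw [← e0]
  rw [hsum]
  -- vanishing of the three parts
  have hz1 : ∀ n : ℤ, (¬ ∃ w ∈ W, (f w : ℤ) = n) →
      (if n ∈ toZ (W.image f) then (1 : ℤ) else 0) = 0 := by
    intro n hn
    rw [if_neg]
    rw [hX]
    exact hn
  split_ifs with hkL
  · obtain ⟨u, v, huv, he⟩ := exists_pair hf L hkL
    have hnD : s(u, v) ∉ D := by
      intro h1
      apply hLS
      rw [Finset.mem_image]
      exact ⟨_, h1, label_eq u v L (by linarith) huv⟩
    have hsplit : s(u, v) ∈ (splitGraph W).edgeSet := (hD _ hnD).mp he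
    rw [SimpleGraph.mem_edgeSet] at hsplit
    have hWuv : u ∈ W ∨ v ∈ W := hsplit.2
    by_cases huW : u ∈ W
    · rw [Finset.sum_eq_single u]
      · have h3 : ind (outer f W) ((f u : ℤ) - L) = 0 := by
          apply ind_of_notMem
          rintro ⟨v', hv'W, hv'⟩
          have := (huniq v' u u v (by linarith) huv (Or.inr huW) (Or.inl huW)).1
          subst this
          exact hv'W huW
        rw [h3, add_zero]
        by_cases hvW : v ∈ W
        · rw [if_pos, ind_of_notMem]
          · rfl
          · rintro ⟨v', hv'W, hv'⟩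
            have : v' = v := hinjZ (by simp only; linarith)
            subst this
            exact hv'W hvW
          · rw [hX]
            exact ⟨v, hvW, huv⟩
        · rw [hz1, ind_of_mem]
          · rfl
          · exact ⟨v, hvW, huv⟩
          · rintro ⟨v', hv'W, hv'⟩
            have : v' = v := hinjZ (by simp only; linarith)
            subst this
            exact hvW hv'W
      · intro w hw hwu
        rw [hz1, ind_of_notMem, ind_of_notMem]
        · rfl
        · rintro ⟨v', hv'W, hv'⟩
          have := (huniq v' w u v (by linarith) huv (Or.inr hw) (Or.inl huW)).1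
          subst this
          exact hv'W huW
        · rintro ⟨v', hv'W, hv'⟩
          exact hwu (huniq w v' u v (by linarith) huv (Or.inl hw) (Or.inl huW)).1
        · rintro ⟨v', hv'W, hv'⟩
          exact hwu (huniq w v' u v (by linarith) huv (Or.inl hw) (Or.inl huW)).1
      · intro h
        exact absurd huW h
    · have hvW : v ∈ W := hWuv.resolve_left huW
      rw [Finset.sum_eq_single v]
      · rw [hz1, ind_of_notMem, ind_of_mem]
        · rfl
        · exact ⟨u, huW, by linarith⟩
        · rintro ⟨v', hv'W, hv'⟩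
          have := (huniq v v' u v (by linarith) huv (Or.inl hvW) (Or.inr hvW)).1
          subst this
          exact huW hvW
        · rintro ⟨v', hv'W, hv'⟩
          have := (huniq v v' u v (by linarith) huv (Or.inl hvW) (Or.inr hvW)).1
          subst this
          exact huW hvW
      · intro w hw hwv
        rw [hz1, ind_of_notMem, ind_of_notMem]
        · rfl
        · rintro ⟨v', hv'W, hv'⟩
          exact hwv (huniq v' w u v (by linarith) huv (Or.inr hw) (Or.inr hvW)).2
        · rintro ⟨v', hv'W, hv'⟩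
          have := (huniq w v' u v (by linarith) huv (Or.inl hw) (Or.inr hvW)).1
          subst this
          exact huW hw
        · rintro ⟨v', hv'W, hv'⟩
          have := (huniq w v' u v (by linarith) huv (Or.inl hw) (Or.inr hvW)).1
          subst this
          exact huW hw
      · intro h
        exact absurd hvW h
  · have hnone : ∀ u v : V, (f v : ℤ) = f u + L → ¬ (u ∈ W ∨ v ∈ W) := by
      intro u v h hW
      have h1 := hadj u v h hW
      have h2 := hf.2.mapsTo h1
      rw [Set.mem_Ici] at h2
      have h3 := label_eq u v L (by linarith) h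
      apply hkL
      rw [← h3]
      exact_mod_cast h2
    apply Finset.sum_eq_zero
    intro w hw
    rw [hz1, ind_of_notMem, ind_of_notMem]
    · rfl
    · rintro ⟨v', _, hv'⟩
      exact hnone v' w (by linarith) (Or.inr hw)
    · rintro ⟨v', _, hv'⟩
      exact hnone w v' (by linarith) (Or.inl hw)
    · rintro ⟨v', _, hv'⟩
      exact hnone w v' (by linarith) (Or.inl hw)

end

end Split

end Pool.Agent.Graceful
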