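import Mathlib
import Pool.Agent.Lib.MP_7616b3_co.SplitGraph

set_option autoImplicit false

namespace Pool.Agent.Graceful.Split

open Finset

section

variable {V : Type*} {G : SimpleGraph V} {k : ℕ} {f : V → ℕ} {W : Finset V} {D : Finset (Sym2 V)}

theorem no_two (hf : IsKGracefulNumbering G k f)
    (hD : ∀ e, e ∉ D → (e ∈ G.edgeSet ↔ e ∈ (splitGraph W).edgeSet))
    {u v u' v' : V} {L : ℤ} (hL : 1 ≤ L) (hu : u ∈ W) (hu' : u' ∈ W)
    (h : (f v : ℤ) = f u + L) (h' : (f v' : ℤ) = f u' + L) (hn : s(u, v) ∉ D)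
    (hn' : s(u', v') ∉ D) : u = u' ∧ v = v' := by
  have key : ∀ x y : V, x ∈ W → (f y : ℤ) = f x + L → s(x, y) ∉ D → s(x, y) ∈ G.edgeSet := by
    intro x y hx hxy hnD
    rw [hD _ hnD, SimpleGraph.mem_edgeSet]
    refine ⟨?_, Or.inl hx⟩
    rintro rfl
    linarith
  exact pair_unique hf hL h h' (key u v hu h hn) (key u' v' hu' h' hn')

/-- Hub pairs with constant label sum produce many defects. -/
theorem offDiag_le (hf : IsKGracefulNumbering G k f)
    (hD : ∀ e, e ∉ D → (e ∈ G.edgeSet ↔ e ∈ (splitGraph W).edgeSet))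
    (R : Finset ℕ) (a b : ℕ → V) (ha : ∀ r ∈ R, a r ∈ W) (hb : ∀ r ∈ R, b r ∈ W)
    (haa : ∀ r ∈ R, ∀ r' ∈ R, a r = a r' → r = r') (hbb : ∀ r ∈ R, ∀ r' ∈ R, b r = b r' → r = r')
    (hab : ∀ r ∈ R, ∀ r' ∈ R, a r ≠ b r')
    (hsum : ∀ r ∈ R, ∀ r' ∈ R, f (a r) + f (b r) = f (a r') + f (b r')) :
    R.card * R.card - R.card ≤ D.card := by
  classical
  have hinj : Function.Injective f := hf.1
  -- first pairing
  have hP1 : ∀ r ∈ R, ∀ r' ∈ R, r ≠ r' → s(a r, a r') ∈ D ∨ s(b r, b r') ∈ D := by
    intro r hr r' hr' hrr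
    by_contra hcon
    push Not at hcon
    obtain ⟨h1, h2⟩ := hcon
    have hs := hsum r hr r' hr'
    rcases lt_trichotomy (f (a r)) (f (a r')) with h | h | h
    · have := (no_two hf hD (u := a r) (v := a r') (u' := b r') (v' := b r)
        (L := (f (a r') : ℤ) - f (a r)) (by omega) (ha r hr) (hb r' hr') (by omega) (by omega) h1
        (by rw [Sym2.eq_swap]; exact h2)).1
      exact hab r hr r' hr' this
    · exact hrr (haa r hr r' hr' (hinj h))
    · have := (no_two hf hD (u := a r') (v := a r) (u' := b r) (v' := b r')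
        (L := (f (a r) : ℤ) - f (a r')) (by omega) (ha r' hr') (hb r hr) (by omega) (by omega)
        (by rw [Sym2.eq_swap]; exact h1) h2).1
      exact hab r' hr' r hr this
  have hP2 : ∀ r ∈ R, ∀ r' ∈ R, r ≠ r' → s(a r, b r') ∈ D ∨ s(a r', b r) ∈ D := by
    intro r hr r' hr' hrr
    by_contra hcon
    push Not at hcon
    obtain ⟨h1, h2⟩ := hcon
    have hs := hsum r hr r' hr'
    rcases lt_trichotomy (f (a r)) (f (b r')) with h | h | h
    · have := (no_two hf hD (u := a r) (v := b r') (u' := a r') (v' := b r)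
        (L := (f (b r') : ℤ) - f (a r)) (by omega) (ha r hr) (ha r' hr') (by omega) (by omega) h1
        h2).1
      exact hrr (haa r hr r' hr' this)
    · exact hab r hr r' hr' (hinj h)
    · have := (no_two hf hD (u := b r') (v := a r) (u' := b r) (v' := a r')
        (L := (f (a r) : ℤ) - f (b r')) (by omega) (hb r' hr') (hb r hr) (by omega) (by omega)
        (by rw [Sym2.eq_swap]; exact h1) (by rw [Sym2.eq_swap]; exact h2)).1
      exact hrr (hbb r' hr' r hr this).symm
  -- the injection
  let ι : (R ⊕ R) → V := Sum.elim (fun r => a r) (fun r => b r)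
  have hι : Function.Injective ι := by
    rintro (x | x) (y | y) h
    · have := haa x x.2 y y.2 h
      exact congrArg Sum.inl (Subtype.ext this)
    · exact absurd h (hab x x.2 y y.2)
    · exact absurd h.symm (hab y y.2 x x.2)
    · have := hbb x x.2 y y.2 h
      exact congrArg Sum.inr (Subtype.ext this)
  let φ : (R × R) → Sym2 (R ⊕ R) := fun q =>
    if (q.1 : ℕ) < q.2 then
      (if s(a q.1, a q.2) ∈ D then s(Sum.inl q.1, Sum.inl q.2) else s(Sum.inr q.1, Sum.inr q.2))
    else
      (if s(a q.1, b q.2) ∈ D then s(Sum.inl q.1, Sum.inr q.2) else s(Sum.inl q.2, Sum.inr q.1))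
  have hcard : (R.attach.offDiag).card = R.card * R.card - R.card := by
    rw [Finset.offDiag_card, Finset.card_attach]
  rw [← hcard]
  apply Finset.card_le_card_of_injOn (fun q => Sym2.map ι (φ q))
  · rintro ⟨r, r'⟩ hq
    have hq' : r ≠ r' := by
      have := Finset.mem_coe.mp hq
      rw [Finset.mem_offDiag] at this
      exact this.2.2
    have hne : (r : ℕ) ≠ r' := fun h => hq' (Subtype.ext h)
    rw [Finset.mem_coe]
    simp only [φ]
    split_ifs with h1 h2 h2
    · exact h2
    · exact (hP1 r r.2 r' r'.2 hne).resolve_left h2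
    · exact h2
    · exact (hP2 r r.2 r' r'.2 hne).resolve_left h2
  · rintro ⟨r1, r2⟩ hq ⟨r3, r4⟩ hq' heq
    have h12 : r1 ≠ r2 := by
      have := Finset.mem_coe.mp hq
      rw [Finset.mem_offDiag] at this
      exact this.2.2
    have h34 : r3 ≠ r4 := by
      have := Finset.mem_coe.mp hq'
      rw [Finset.mem_offDiag] at this
      exact this.2.2
    have heq' : φ (r1, r2) = φ (r3, r4) := Sym2.map.injective hι heq
    simp only [φ] at heq'
    split_ifs at heq' with c1 c2 c3 c4 c5 c6 c7 c8 c9 c10 c11 c12 <;>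
      simp only [Sym2.eq_iff, Sum.inl.injEq, Sum.inr.injEq, reduceCtorEq, false_and, and_false,
        or_false, false_or, or_self] at heq' <;>
      first
      | exact Prod.ext heq'.1 heq'.2
      | exact Prod.ext heq'.2 heq'.1
      | (rcases heq' with ⟨e1, e2⟩ | ⟨e1, e2⟩
         · exact Prod.ext e1 e2
         · exfalso
           subst e1 e2
           omega)
      | (exfalso
         obtain ⟨e1, e2⟩ := heq'
         subst e1 e2
         first
         | omega
         | exact h12 rfl
         | (have : (r1 : ℕ) = r2 := by omega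
            exact h12 (Subtype.ext this))
         | (have : (r2 : ℕ) = r1 := by omega
            exact h12 (Subtype.ext this).symm))

end

end Pool.Agent.Graceful.Split
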