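import Mathlib
import Pool.Agent.Lib.MP_7616b3_co.Robust

set_option autoImplicit false

namespace Pool.Agent.Graceful.Split

open Finset

section

variable {V : Type*} {G : SimpleGraph V} {k : ℕ} {f : V → ℕ} {W : Finset V} {D : Finset (Sym2 V)}

open Classical in
/-- the labels of the defects -/
noncomputable def dlab (f : V → ℕ) (D : Finset (Sym2 V)) : Finset ℤ :=
  D.image (fun e => (edgeLabel f e : ℤ))

theorem setup (hf : IsKGracefulNumbering G k f)
    (hD : ∀ e, e ∉ D → (e ∈ G.edgeSet ↔ e ∈ (splitGraph W).edgeSet)) {p : ℕ} (hp : p.Prime)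
    (hW : W.card = p) (hk : 1 ≤ k) :
    ∃ (g : ℕ) (Λ : ℤ) (a b : ℕ → V) (x0 : V), 0 < g ∧ x0 ∈ W ∧ (∀ r, a r ∈ W) ∧ (∀ r, b r ∈ W) ∧
      (∀ r : ℕ, (f (a r) : ℤ) ≡ Λ - g * r [ZMOD ((p : ℤ) * g)]) ∧
      (∀ r : ℕ, (f (b r) : ℤ) ≡ Λ + g * r [ZMOD ((p : ℤ) * g)]) ∧
      (f x0 : ℤ) ≡ Λ [ZMOD ((p : ℤ) * g)] ∧
      (∀ x ∈ W, ∀ y ∈ W, (f x : ℤ) ≡ f y [ZMOD ((p : ℤ) * g)] → x = y) ∧
      (∀ x ∈ W, Λ ≡ f x [ZMOD g]) ∧
      (∃ B : ℤ, ∀ n : ℤ, B ≤ n → n ≡ Λ [ZMOD g] →
        (n ∈ outer f W ↔ n ≡ Λ [ZMOD ((p : ℤ) * g)])) ∧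
      ∃ δ : ℤ → ℤ, (∀ L : ℤ, 1 ≤ L → L ∉ dlab f D → δ L = 0) ∧
      (∀ r : ℕ, 0 < r → r < p → 2 * (f x0 : ℤ) - f (a r) - f (b r)
        = ((p : ℤ) * g) * (p - 1 + Psi ((p : ℤ) * g) (g * r) k
          - ∑ L ∈ Ioc 0 Λ, chi ((p : ℤ) * g) (g * r) L * δ L)) := by
  classical
  have hinj : Function.Injective f := hf.1
  have hcard : (W.image f).card = p := by
    rw [Finset.card_image_of_injective _ hinj, hW]
  have hN0 : ∀ n ∈ outer f W, 0 ≤ n := by
    rintro n ⟨v, _, rfl⟩
    exact Int.natCast_nonneg _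
  have hXN : ∀ x ∈ W.image f, (x : ℤ) ∉ outer f W := by
    intro x hx
    obtain ⟨w, hw, rfl⟩ := Finset.mem_image.mp hx
    rintro ⟨v, hv, hvw⟩
    have : v = w := hinj (Int.ofNat.inj hvw)
    subst this
    exact hv hw
  have hc : ∀ L : ℤ, 1 ≤ L → L ∉ dlab f D →
      cX (toZ (W.image f)) (outer f W) L = if (k : ℤ) ≤ L then 1 else 0 := by
    intro L hL hLS
    apply graph_count hf hD L hL
    intro h
    apply hLS
    unfold dlab
    convert h using 1
  obtain ⟨g, Λ, hg0, hΛg, hXinj, hex, hB, hid⟩ :=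
    arith p hp (W.image f) hcard (outer f W) hN0 hXN k hk (dlab f D) hc
  have hex' : ∀ t : ℤ, ∃ w ∈ W, (f w : ℤ) ≡ Λ - g * t [ZMOD ((p : ℤ) * g)] := by
    intro t
    obtain ⟨x, hx, hxz⟩ := hex (g * t) (Dvd.intro _ rfl)
    obtain ⟨w, hw, rfl⟩ := Finset.mem_image.mp hx
    exact ⟨w, hw, hxz⟩
  choose F hFW hF using hex'
  have hFn : ∀ t : ℤ, (f (F (-t)) : ℤ) ≡ Λ + g * t [ZMOD ((p : ℤ) * g)] := by
    intro t
    have := hF (-t)
    rwa [mul_neg, sub_neg_eq_add] at this
  have hF0 : (f (F 0) : ℤ) ≡ Λ [ZMOD ((p : ℤ) * g)] := by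
    have := hF 0
    rwa [mul_zero, sub_zero] at this
  refine ⟨g, Λ, fun r => F r, fun r => F (-r), F 0, hg0, hFW 0,
    fun r => hFW _, fun r => hFW _,
    fun r => hF _, fun r => hFn _, hF0, ?_, ?_, hB,
    fun L => cX (toZ (W.image f)) (outer f W) L - (if (k : ℤ) ≤ L then 1 else 0), ?_, ?_⟩
  · intro x hx y hy hxy
    exact hinj (hXinj (f x) (Finset.mem_image_of_mem f hx) (f y) (Finset.mem_image_of_mem f hy) hxy)
  · intro x hx
    exact hΛg (f x) (Finset.mem_image_of_mem f hx)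
  · intro L hL hLS
    simp only
    rw [hc L hL hLS]
    ring
  · intro r hr0 hrp
    have hg0' : (0 : ℤ) < g := by exact_mod_cast hg0
    have hr0' : (0 : ℤ) < r := by exact_mod_cast hr0
    have hrp' : (r : ℤ) < p := by exact_mod_cast hrp
    exact hid (g * r) (Dvd.intro _ rfl) (by positivity) (by nlinarith) _
      (Finset.mem_image_of_mem f (hFW r)) _
      (Finset.mem_image_of_mem f (hFW (-r))) _
      (Finset.mem_image_of_mem f (hFW 0)) (hF r) (hFn r) hF0

/-- elementary facts on residues -/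
theorem mul_modEq {p g : ℕ} (hg : 0 < g) {u v : ℤ}
    (h : (g : ℤ) * u ≡ g * v [ZMOD ((p : ℤ) * g)]) : u ≡ v [ZMOD p] := by
  have hgz : (g : ℤ) ≠ 0 := by exact_mod_cast hg.ne'
  rw [Int.modEq_iff_dvd] at h ⊢
  obtain ⟨c, hc⟩ := h
  refine ⟨c, ?_⟩
  have : (g : ℤ) * (v - u) = g * (p * c) := by linarith
  exact mul_left_cancel₀ hgz this

theorem eq_of_modEq_small {p : ℕ} {r r' : ℕ} (hr : 2 * r < p) (hr' : 2 * r' < p)
    (h : (r : ℤ) ≡ r' [ZMOD p]) : r = r' := by
  have h1 := h.eq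
  rw [Int.emod_eq_of_lt (by positivity) (by exact_mod_cast (by omega : r < p)),
    Int.emod_eq_of_lt (by positivity) (by exact_mod_cast (by omega : r' < p))] at h1
  exact_mod_cast h1

theorem not_neg_modEq_small {p : ℕ} {r r' : ℕ} (hr0 : 0 < r) (hr : 2 * r < p) (hr' : 2 * r' < p)
    (h : (r : ℤ) ≡ -r' [ZMOD p]) : False := by
  have h1 := Int.modEq_iff_dvd.mp h
  have h2 : (p : ℤ) ∣ (r : ℤ) + r' := by
    have e : (r : ℤ) + r' = -(-r' - r) := by ring
    rw [e]
    exact h1.neg_right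
  have h3 : p ∣ r + r' := by exact_mod_cast h2
  have := Nat.le_of_dvd (by omega) h3
  omega

/-- The two sums on `R` are equal for each pair. -/
theorem robust {V : Type*} (G : SimpleGraph V) (W : Finset V) (D : Finset (Sym2 V)) (p m k : ℕ)
    (hp : p.Prime) (hm : 4 * m + 7 ≤ p) (hk : 1 ≤ k) (hW : W.card = p) (hDm : D.card ≤ m)
    (hD : ∀ e, e ∉ D → (e ∈ G.edgeSet ↔ e ∈ (splitGraph W).edgeSet)) : ¬ KGraceful G k := by
  classical
  rintro ⟨f, hf⟩
  obtain ⟨g, Λ, a, b, x0, hg0, hx0, haW, hbW, ha, hb, hx0Λ, hinjW, hΛg, hB, δ, hδ, hid⟩ :=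
    setup hf hD hp hW hk
  set M : ℤ := (p : ℤ) * g with hMdef
  have hg0' : (0 : ℤ) < g := by exact_mod_cast hg0
  have hp0' : (0 : ℤ) < p := by exact_mod_cast hp.pos
  have hM0 : 0 < M := by rw [hMdef]; positivity
  obtain ⟨q, hq⟩ : ∃ q : ℕ, p = 2 * q + 1 := by
    rcases hp.eq_two_or_odd' with h | h
    · omega
    · obtain ⟨q, hq⟩ := h
      exact ⟨q, hq⟩
  set Q : Finset ℕ := Finset.Icc 1 q with hQ
  have hQr : ∀ r ∈ Q, 0 < r ∧ 2 * r < p := by
    intro r hr
    rw [hQ, Finset.mem_Icc] at hr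
    omega
  -- facts on `a`, `b`
  have haa : ∀ r ∈ Q, ∀ r' ∈ Q, a r = a r' → r = r' := by
    intro r hr r' hr' h
    have h1 := ha r
    rw [h] at h1
    have h2 := (ha r').symm.trans h1
    have h3 := Int.ModEq.sub_left Λ h2
    have e1 : Λ - (Λ - (g : ℤ) * r') = g * r' := by ring
    have e2 : Λ - (Λ - (g : ℤ) * r) = g * r := by ring
    rw [e1, e2] at h3
    exact (eq_of_modEq_small (hQr r' hr').2 (hQr r hr).2 (mul_modEq hg0 h3)).symm
  have hbb : ∀ r ∈ Q, ∀ r' ∈ Q, b r = b r' → r = r' := by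
    intro r hr r' hr' h
    have h1 := hb r
    rw [h] at h1
    have h2 := (hb r').symm.trans h1
    have h3 := Int.ModEq.add_left_cancel' Λ h2
    exact (eq_of_modEq_small (hQr r' hr').2 (hQr r hr).2 (mul_modEq hg0 h3)).symm
  have hab : ∀ r ∈ Q, ∀ r' ∈ Q, a r ≠ b r' := by
    intro r hr r' hr' h
    have h1 := ha r
    rw [h] at h1
    have h2 := (hb r').symm.trans h1
    have e1 : Λ - (g : ℤ) * r = Λ + g * (-r) := by ring
    rw [e1] at h2
    have h3 := Int.ModEq.add_left_cancel' Λ h2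
    exact not_neg_modEq_small (hQr r' hr').1 (hQr r' hr').2 (hQr r hr).2 (mul_modEq hg0 h3)
  -- classes without defects
  set S := dlab f D with hS
  have hScard : S.card ≤ m := le_trans Finset.card_image_le hDm
  set R0 : Finset ℕ := Q.filter (fun r : ℕ => ∀ L ∈ S, ¬ (L ≡ g * r [ZMOD M]) ∧
    ¬ (L ≡ -(g * r) [ZMOD M])) with hR0
  have hR0Q : R0 ⊆ Q := Finset.filter_subset _ _
  have hR0card : q ≤ R0.card + m := by
    have h1 : (Q \ R0).card ≤ S.card := by
      have hex : ∀ r ∈ Q \ R0, ∃ L ∈ S, (L ≡ g * r [ZMOD M]) ∨ (L ≡ -(g * r) [ZMOD M]) := by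
        intro r hr
        rw [Finset.mem_sdiff, hR0, Finset.mem_filter, not_and] at hr
        have := hr.2 hr.1
        push Not at this
        obtain ⟨L, hL, hL'⟩ := this
        refine ⟨L, hL, ?_⟩
        by_cases h : L ≡ g * r [ZMOD M]
        · exact Or.inl h
        · exact Or.inr (hL' h)
      choose! u huS hu using hex
      apply Finset.card_le_card_of_injOn u
      · intro r hr
        exact huS r hr
      · intro r hr r' hr' h
        have hrQ := (Finset.mem_sdiff.mp hr).1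
        have hrQ' := (Finset.mem_sdiff.mp hr').1
        have h1 := hu r hr
        have h2 := hu r' hr'
        rw [h] at h1
        rcases h1 with h1 | h1 <;> rcases h2 with h2 | h2
        · exact eq_of_modEq_small (hQr r hrQ).2 (hQr r' hrQ').2 (mul_modEq hg0 (h1.symm.trans h2))
        · exfalso
          have h3 := h1.symm.trans h2
          have e : -((g : ℤ) * r') = g * (-r') := by ring
          rw [e] at h3
          exact not_neg_modEq_small (hQr r hrQ).1 (hQr r hrQ).2 (hQr r' hrQ').2 (mul_modEq hg0 h3)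
        · exfalso
          have h3 := h2.symm.trans h1
          have e : -((g : ℤ) * r) = g * (-r) := by ring
          rw [e] at h3
          exact not_neg_modEq_small (hQr r' hrQ').1 (hQr r' hrQ').2 (hQr r hrQ).2
            (mul_modEq hg0 h3)
        · have h3 := (h1.symm.trans h2).neg
          rw [neg_neg, neg_neg] at h3
          exact eq_of_modEq_small (hQr r hrQ).2 (hQr r' hrQ').2 (mul_modEq hg0 h3)
    have h2 : (Q \ R0).card + R0.card = Q.card := Finset.card_sdiff_add_card_eq_card hR0Q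
    have h3 : Q.card = q := by rw [hQ, Nat.card_Icc]; omega
    omega
  -- the weight sum is the same for all classes in `R0`
  set w0 : ℤ := ∑ L ∈ Ioc 0 Λ, ei M 0 L * δ L with hw0
  have hWr : ∀ r ∈ R0, ∑ L ∈ Ioc 0 Λ, chi M (g * r) L * δ L = -2 * w0 := by
    intro r hr
    rw [hR0, Finset.mem_filter] at hr
    rw [hw0, Finset.mul_sum]
    apply Finset.sum_congr rfl
    intro L hL
    rw [Finset.mem_Ioc] at hL
    by_cases hLS : L ∈ S
    · have h1 := hr.2 L hLS
      unfold chi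
      have e1 : ei M (g * r) L = 0 := by unfold ei; rw [if_neg h1.1]
      have e2 : ei M (-(g * r)) L = 0 := by unfold ei; rw [if_neg h1.2]
      rw [e1, e2]
      ring
    · rw [hδ L (by linarith [hL.1]) hLS]
      ring
  have hPsi : ∀ r ∈ Q, Psi M (g * r) k = (if (g : ℤ) * r ≤ ((k : ℤ) - 1) % M then 1 else 0)
      + (if M ≤ ((k : ℤ) - 1) % M + g * r then 1 else 0) := by
    intro r hr
    have hr1 := hQr r hr
    have hr0' : (0 : ℤ) < r := by exact_mod_cast hr1.1
    have hrp' : (r : ℤ) < p := by exact_mod_cast (by omega : r < p)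
    have := Psi_eq (p * g) (Nat.mul_pos hp.pos hg0) (g * r) (by positivity)
      (by push_cast; nlinarith) k hk
    push_cast at this
    exact this
  -- split according to the value of `Psi`
  have hmain : ∀ R : Finset ℕ, R ⊆ R0 →
      (∀ r ∈ R, ∀ r' ∈ R, Psi M (g * r) k = Psi M (g * r') k) → R.card * R.card - R.card ≤ m := by
    intro R hR hconst
    refine le_trans (offDiag_le hf hD R a b (fun r _ => haW r) (fun r _ => hbW r)
      (fun r hr r' hr' => haa r (hR0Q (hR hr)) r' (hR0Q (hR hr')))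
      (fun r hr r' hr' => hbb r (hR0Q (hR hr)) r' (hR0Q (hR hr')))
      (fun r hr r' hr' => hab r (hR0Q (hR hr)) r' (hR0Q (hR hr'))) ?_) hDm
    intro r hr r' hr'
    have h1 := hQr r (hR0Q (hR hr))
    have h2 := hQr r' (hR0Q (hR hr'))
    have e1 := hid r h1.1 (by omega)
    have e2 := hid r' h2.1 (by omega)
    rw [hWr r (hR hr), hconst r hr r' hr'] at e1
    rw [hWr r' (hR hr')] at e2
    have e3 : (f (a r) : ℤ) + f (b r) = f (a r') + f (b r') := by linarith
    exact_mod_cast e3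
  set R1 := R0.filter (fun r : ℕ => Psi M (g * r) k = 1) with hR1
  set R2 := R0.filter (fun r : ℕ => ¬ Psi M (g * r) k = 1) with hR2
  have h1 := hmain R1 (Finset.filter_subset _ _) (by
    intro r hr r' hr'
    rw [hR1, Finset.mem_filter] at hr hr'
    rw [hr.2, hr'.2])
  have h2 := hmain R2 (Finset.filter_subset _ _) (by
    intro r hr r' hr'
    rw [hR2, Finset.mem_filter] at hr hr'
    have hrQ := hR0Q hr.1
    have hrQ' := hR0Q hr'.1
    have k1 := hPsi r hrQ
    have k2 := hPsi r' hrQ'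
    have n1 := hr.2
    have n2 := hr'.2
    have q1 := hQr r hrQ
    have q2 := hQr r' hrQ'
    have hlt : (g : ℤ) * r + g * r' < M := by
      rw [hMdef]
      have : (r : ℤ) + r' < p := by exact_mod_cast (by omega : r + r' < p)
      nlinarith
    rw [k1] at n1
    rw [k2] at n2
    rw [k1, k2]
    set Rm := ((k : ℤ) - 1) % M
    split_ifs at n1 n2 ⊢ <;> first | rfl | (exfalso; first | exact n1 rfl | exact n2 rfl | linarith | omega) | omega)
  have h3 : R1.card + R2.card = R0.card := Finset.card_filter_add_card_filter_not _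
  -- numerics
  have hq3 : 2 * m + 3 ≤ q := by omega
  have h4 : m + 3 ≤ R1.card + R2.card := by omega
  have h5 : ∀ n : ℕ, n * n - n ≤ m → 2 * n < m + 3 := by
    intro n hn
    by_contra hcon
    push Not at hcon
    have h6 : n ≤ n * n := Nat.le_mul_self n
    have h7 : n * n ≤ m + n := by omega
    nlinarith
  have := h5 _ h1
  have := h5 _ h2
  omega

end

end Pool.Agent.Graceful.Split
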