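import Mathlib
import Pool.Agent.Lib.MP_7616b3_co.Robust2

set_option autoImplicit false

namespace Pool.Agent.Graceful.Split

open Finset

section

variable {V : Type*} {k : ℕ} {f : V → ℕ} {W : Finset V}

theorem split_edge {u v : V} {L : ℤ} (hL : 1 ≤ L) (h : (f v : ℤ) = f u + L)
    (hW : u ∈ W ∨ v ∈ W) : s(u, v) ∈ (splitGraph W).edgeSet := by
  rw [SimpleGraph.mem_edgeSet]
  refine ⟨?_, hW⟩
  rintro rfl
  linarith

theorem split_le (hf : IsKGracefulNumbering (splitGraph W) k f) {u v : V} {L : ℤ} (hL : 1 ≤ L)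
    (h : (f v : ℤ) = f u + L) (hW : u ∈ W ∨ v ∈ W) : (k : ℤ) ≤ L := by
  have h1 := split_edge hL h hW
  have h2 := hf.2.mapsTo h1
  rw [Set.mem_Ici] at h2
  have h3 := label_eq (f := f) u v L (by linarith) h
  rw [← h3]
  exact_mod_cast h2

theorem split_unique (hf : IsKGracefulNumbering (splitGraph W) k f) {u v u' v' : V} {L : ℤ}
    (hL : 1 ≤ L) (h : (f v : ℤ) = f u + L) (h' : (f v' : ℤ) = f u' + L) (hW : u ∈ W ∨ v ∈ W)
    (hW' : u' ∈ W ∨ v' ∈ W) : u = u' ∧ v = v' :=
  pair_unique hf hL h h' (split_edge hL h hW) (split_edge hL h' hW')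

theorem split_exists (hf : IsKGracefulNumbering (splitGraph W) k f) {L : ℤ} (hL : (k : ℤ) ≤ L) :
    ∃ u v : V, (f v : ℤ) = f u + L ∧ (u ∈ W ∨ v ∈ W) := by
  obtain ⟨u, v, h, he⟩ := exists_pair hf L hL
  rw [SimpleGraph.mem_edgeSet] at he
  exact ⟨u, v, h, he.2⟩

/-- The constraint at the far end of the numbering. -/
theorem top (hf : IsKGracefulNumbering (splitGraph W) k f) {p g : ℕ} (hg : 0 < g)
    (hp : 2 ≤ p) (hWp : W.card = p) (Λ : ℤ)
    (hinjW : ∀ x ∈ W, ∀ y ∈ W, (f x : ℤ) ≡ f y [ZMOD ((p : ℤ) * g)] → x = y)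
    (hΛg : ∀ x ∈ W, Λ ≡ f x [ZMOD g])
    (hcov : ∀ z : ℤ, z ≡ Λ [ZMOD g] → ∃ x ∈ W, (f x : ℤ) ≡ z [ZMOD ((p : ℤ) * g)])
    (hB : ∃ B : ℤ, ∀ n : ℤ, B ≤ n → n ≡ Λ [ZMOD g] →
        (n ∈ outer f W ↔ n ≡ Λ [ZMOD ((p : ℤ) * g)])) :
    ∃ wmin ∈ W, ∃ wmax ∈ W, wmin ≠ wmax ∧ (∀ x ∈ W, (f wmin : ℤ) ≤ f x ∧ (f x : ℤ) ≤ f wmax) ∧
      ∃ π : V → V, (∀ x ∈ W, π x ∈ W) ∧ (∀ x ∈ W, ∀ y ∈ W, π x = π y → x = y) ∧
        (∀ x ∈ W, (f x : ℤ) + f (π x) ≡ f wmax + f wmin [ZMOD ((p : ℤ) * g)]) ∧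
        (∀ x ∈ W, (f x : ℤ) + f (π x) ≤ f wmax + f wmin) := by
  classical
  have hinj : Function.Injective f := hf.1
  have hWne : W.Nonempty := by
    rw [← Finset.card_pos, hWp]
    omega
  obtain ⟨wmin, hwmin, hmin⟩ := Finset.exists_min_image W f hWne
  obtain ⟨wmax, hwmax, hmax⟩ := Finset.exists_max_image W f hWne
  have hne : wmin ≠ wmax := by
    rintro rfl
    have : W ⊆ {wmin} := by
      intro x hx
      rw [Finset.mem_singleton]
      exact hinj (le_antisymm (hmax x hx) (hmin x hx))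
    have := Finset.card_le_card this
    rw [hWp, Finset.card_singleton] at this
    omega
  have hlt : f wmin < f wmax := by
    have h1 := hmin wmax hwmax
    have h2 : f wmin ≠ f wmax := fun h => hne (hinj h)
    omega
  -- the smallest label in the class of the hubs
  obtain ⟨vs, hvs, hvsmin⟩ : ∃ v : V, (f v : ℤ) ≡ Λ [ZMOD g] ∧
      ∀ u : V, (f u : ℤ) ≡ Λ [ZMOD g] → f v ≤ f u := by
    have hex : ∃ n : ℕ, ∃ v : V, f v = n ∧ (f v : ℤ) ≡ Λ [ZMOD g] :=
      ⟨f wmin, wmin, rfl, (hΛg wmin hwmin).symm⟩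
    obtain ⟨v, hv, hvΛ⟩ := Nat.find_spec hex
    refine ⟨v, hvΛ, fun u hu => ?_⟩
    rw [hv]
    exact Nat.find_min' hex ⟨u, rfl, hu⟩
  have hvw : f vs ≤ f wmin := hvsmin wmin (hΛg wmin hwmin).symm
  have hgM : ∀ u v : ℤ, u ≡ v [ZMOD ((p : ℤ) * g)] → u ≡ v [ZMOD g] := fun u v h =>
    h.of_dvd (Dvd.intro_left _ rfl)
  -- every label beyond the range is covered once, from a hub upwards
  have hk1 : (k : ℤ) ≤ (f wmax : ℤ) - f vs := by
    apply split_le hf (u := vs) (v := wmax) (by omega) (by ring) (Or.inr hwmax)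
  have hone : ∀ L : ℤ, (f wmax : ℤ) - f vs < L → (g : ℤ) ∣ L →
      ∃ x ∈ W, (f x : ℤ) + L ∈ outer f W := by
    intro L hL hgL
    obtain ⟨u, v, huv, hW⟩ := split_exists hf (L := L) (by omega)
    have hvW : v ∉ W := by
      intro hv
      have h1 : (f u : ℤ) ≡ Λ [ZMOD g] := by
        have h2 : (f u : ℤ) = f v - L := by linarith
        rw [h2]
        have h3 := (hΛg v hv).symm.sub ((Int.modEq_zero_iff_dvd).mpr hgL)
        rwa [sub_zero] at h3
      have h4 := hvsmin u h1
      have h5 := hmax v hv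
      omega
    have huW : u ∈ W := hW.resolve_right hvW
    exact ⟨u, huW, v, hvW, huv⟩
  obtain ⟨B, hB⟩ := hB
  have hclaim : ∀ j : ℕ, ∀ n : ℤ, B ≤ n + j → (f wmax : ℤ) + f wmin - f vs < n →
      n ≡ Λ [ZMOD g] → (n ∈ outer f W ↔ n ≡ Λ [ZMOD ((p : ℤ) * g)]) := by
    intro j
    induction j with
    | zero =>
      intro n hn _ hng
      exact hB n (by simpa using hn) hng
    | succ j ih =>
      intro n hn hnτ hng
      set L : ℤ := n - f wmin with hL
      have hLg : (g : ℤ) ∣ L := by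
        have h1 := hng.trans (hΛg wmin hwmin)
        have h2 := Int.modEq_iff_dvd.mp h1
        have e : L = -((f wmin : ℤ) - n) := by rw [hL]; ring
        rw [e]
        exact h2.neg_right
      have hL1 : (f wmax : ℤ) - f vs < L := by rw [hL]; linarith
      have hLpos : 1 ≤ L := by omega
      -- other hubs are controlled by the induction hypothesis
      have hother : ∀ x ∈ W, x ≠ wmin →
          ((f x : ℤ) + L ∈ outer f W ↔ (f x : ℤ) + L ≡ Λ [ZMOD ((p : ℤ) * g)]) := by
        intro x hx hxne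
        have h1 : f wmin < f x := by
          have h2 := hmin x hx
          have h3 : f wmin ≠ f x := fun h => hxne (hinj h).symm
          omega
        apply ih
        · rw [hL]
          push_cast at hn
          have : (f wmin : ℤ) < f x := by exact_mod_cast h1
          linarith
        · rw [hL]
          have : (f wmin : ℤ) < f x := by exact_mod_cast h1
          linarith
        · have h4 := (hΛg x hx).symm.add ((Int.modEq_zero_iff_dvd).mpr hLg)
          rwa [add_zero] at h4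
      have hn' : n = (f wmin : ℤ) + L := by rw [hL]; ring
      constructor
      · intro hnN
        obtain ⟨v, hvW, hv⟩ := hnN
        -- the class of `Λ - L` is represented by a hub
        obtain ⟨x, hx, hxL⟩ := hcov (Λ - L) (by
          have h4 := (Int.ModEq.refl Λ : Λ ≡ Λ [ZMOD g]).sub ((Int.modEq_zero_iff_dvd).mpr hLg)
          rwa [sub_zero] at h4)
        have hxL' : (f x : ℤ) + L ≡ Λ [ZMOD ((p : ℤ) * g)] := by
          have := hxL.add_right L
          rwa [sub_add_cancel] at this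
        by_cases hxw : x = wmin
        · subst hxw
          rw [hn']
          exact hxL'
        · exfalso
          obtain ⟨v', hv'W, hv'⟩ := (hother x hx hxw).mpr hxL'
          have := (split_unique hf hLpos (u := x) (v := v') (u' := wmin) (v' := v) hv'
            (by rw [hv, hn']) (Or.inl hx) (Or.inl hwmin)).1
          exact hxw this
      · intro hnΛ
        obtain ⟨x, hx, hxN⟩ := hone L hL1 hLg
        by_cases hxw : x = wmin
        · subst hxw
          rw [hn']
          exact hxN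
        · exfalso
          have h1 := (hother x hx hxw).mp hxN
          rw [hn'] at hnΛ
          have h2 := Int.ModEq.add_right_cancel' L (h1.trans hnΛ.symm)
          exact hxw (hinjW x hx wmin hwmin h2)
  have hclaim' : ∀ n : ℤ, (f wmax : ℤ) + f wmin - f vs < n →
      n ≡ Λ [ZMOD g] → (n ∈ outer f W ↔ n ≡ Λ [ZMOD ((p : ℤ) * g)]) := by
    intro n hn hng
    apply hclaim (B - n).toNat n _ hn hng
    have := Int.self_le_toNat (B - n)
    linarith
  -- the partner of a hub
  have hpart : ∀ x : V, ∃ y : V, x ∈ W → y ∈ W ∧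
      (f y : ℤ) ≡ Λ - (f x - f vs) [ZMOD ((p : ℤ) * g)] := by
    intro x
    by_cases hx : x ∈ W
    · obtain ⟨y, hy, hyx⟩ := hcov (Λ - (f x - f vs)) (by
        have h1 := (hΛg x hx).symm.sub hvs
        have h2 := (Int.ModEq.refl Λ : Λ ≡ Λ [ZMOD g]).sub h1
        have e : Λ - (Λ - Λ) = Λ := by ring
        rwa [e] at h2)
      exact ⟨y, fun _ => ⟨hy, hyx⟩⟩
    · exact ⟨x, fun h => absurd h hx⟩
  choose π hπ using hpart
  have hπW : ∀ x ∈ W, π x ∈ W := fun x hx => (hπ x hx).1
  have hπΛ : ∀ x ∈ W, (f x : ℤ) + f (π x) ≡ Λ + f vs [ZMOD ((p : ℤ) * g)] := by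
    intro x hx
    have h1 := (hπ x hx).2.add_left (f x : ℤ)
    have e : (f x : ℤ) + (Λ - (f x - f vs)) = Λ + f vs := by ring
    rwa [e] at h1
  have hle : ∀ x ∈ W, (f x : ℤ) + f (π x) ≤ f wmax + f wmin := by
    intro x hx
    by_contra hcon
    push Not at hcon
    have hxv : x ≠ vs := by
      rintro rfl
      have h1 := hmin x hx
      have h2 := hmax (π x) (hπW x hx)
      omega
    have h3 : f vs < f x := by
      have h4 := hmin x hx
      have h5 : f vs ≠ f x := fun h => hxv (hinj h).symm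
      omega
    have h6 : ((f x : ℤ) - f vs) + f (π x) ∈ outer f W := by
      rw [hclaim' _ (by linarith)]
      · have e : ((f x : ℤ) - f vs) + f (π x) = (f x : ℤ) + f (π x) - f vs := by ring
        rw [e]
        have h7 := (hπΛ x hx).sub_right (f vs : ℤ)
        rwa [add_sub_cancel_right] at h7
      · have h8 := ((hΛg x hx).symm.sub hvs).add (hΛg (π x) (hπW x hx)).symm
        have e : Λ - Λ + Λ = Λ := by ring
        rwa [e] at h8
    obtain ⟨v, hvW, hv⟩ := h6
    have := (split_unique hf (L := (f x : ℤ) - f vs) (by omega) (u := vs) (v := x) (u' := π x)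
      (v' := v) (by ring) (by rw [hv]; ring) (Or.inr hx) (Or.inl (hπW x hx))).2
    subst this
    exact hvW hx
  have hmaxπ : π wmax = wmin := by
    have h1 := hle wmax hwmax
    have h2 := hmin (π wmax) (hπW wmax hwmax)
    apply hinj
    omega
  have hΛvs : (f wmax : ℤ) + f wmin ≡ Λ + f vs [ZMOD ((p : ℤ) * g)] := by
    have := hπΛ wmax hwmax
    rwa [hmaxπ] at this
  refine ⟨wmin, hwmin, wmax, hwmax, hne, fun x hx => ⟨by exact_mod_cast hmin x hx,
    by exact_mod_cast hmax x hx⟩, π, hπW, ?_, ?_, hle⟩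
  · intro x hx y hy hxy
    have h1 := hπΛ x hx
    have h2 := hπΛ y hy
    rw [hxy] at h1
    exact hinjW x hx y hy (Int.ModEq.add_right_cancel' _ (h1.trans h2.symm))
  · intro x hx
    exact (hπΛ x hx).trans hΛvs.symm

end

end Pool.Agent.Graceful.Split
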