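import Mathlib
import Pool.Agent.Lib.MP_7616b3_co.Top

set_option autoImplicit false

namespace Pool.Agent.Graceful.Split

open Finset

theorem five_a (C A1 B1 A2 B2 : ℤ) (hC : C ≤ 15) (h1 : A1 + B1 = 2 * C - 25)
    (h2 : A2 + B2 = 2 * C - 20) (a1 : 0 ≤ A1) (b1 : 0 ≤ B1) (a2 : 0 ≤ A2) (b2 : 0 ≤ B2)
    (r1 : (A1 - (C - 1)) % 5 = 0) (r2 : (B1 - (C + 1)) % 5 = 0)
    (r3 : (A2 - (C - 2)) % 5 = 0) (r4 : (B2 - (C + 2)) % 5 = 0)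
    (d1 : A1 + 2 ≤ B1 ∨ B1 + 2 ≤ A1) (d2 : A1 + 2 ≤ A2 ∨ A2 + 2 ≤ A1)
    (d3 : A1 + 2 ≤ B2 ∨ B2 + 2 ≤ A1) (d4 : B1 + 2 ≤ A2 ∨ A2 + 2 ≤ B1)
    (d5 : B1 + 2 ≤ B2 ∨ B2 + 2 ≤ B1) : False := by
  have hC2 : 14 ≤ C := by omega
  have hA1 : A1 ≤ 5 := by omega
  have hA2 : A2 ≤ 10 := by omega
  interval_cases C
  · interval_cases A1 <;> interval_cases A2 <;> omega
  · interval_cases A1 <;> interval_cases A2 <;> omega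

theorem five_b (C A1 B1 A2 B2 : ℤ) (hC : C ≤ 19) (h1 : A1 + B1 = 2 * C - 25)
    (h2 : A2 + B2 = 2 * C - 30) (a1 : 0 ≤ A1) (b1 : 0 ≤ B1) (a2 : 0 ≤ A2) (b2 : 0 ≤ B2)
    (r1 : (A1 - (C - 1)) % 5 = 0) (r2 : (B1 - (C + 1)) % 5 = 0)
    (r3 : (A2 - (C - 2)) % 5 = 0) (r4 : (B2 - (C + 2)) % 5 = 0)
    (d1 : A1 + 4 ≤ B1 ∨ B1 + 4 ≤ A1) (d2 : A1 + 4 ≤ A2 ∨ A2 + 4 ≤ A1)
    (d3 : A1 + 4 ≤ B2 ∨ B2 + 4 ≤ A1) (d4 : B1 + 4 ≤ A2 ∨ A2 + 4 ≤ B1)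
    (d5 : B1 + 4 ≤ B2 ∨ B2 + 4 ≤ B1) (d6 : A2 + 4 ≤ B2 ∨ B2 + 4 ≤ A2) : False := by
  have hC2 : 17 ≤ C := by omega
  have hA1 : A1 ≤ 13 := by omega
  have hA2 : A2 ≤ 8 := by omega
  interval_cases C
  · interval_cases A1 <;> interval_cases A2 <;> omega
  · interval_cases A1 <;> interval_cases A2 <;> omega
  · interval_cases A1 <;> interval_cases A2 <;> omega

end Pool.Agent.Graceful.Split
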