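import Mathlib
import Pool.Agent.Lib.MP_7616b3_co.Small

set_option autoImplicit false

namespace Pool.Agent.Graceful.Split

open Finset

section

variable {V : Type*} {k : ℕ} {f : V → ℕ} {W : Finset V}

theorem hub_facts {p g q : ℕ} (hg : 0 < g) (hpq : p = 2 * q + 1) {Λ : ℤ} {a b : ℕ → V} {x0 : V}
    (ha : ∀ r : ℕ, (f (a r) : ℤ) ≡ Λ - g * r [ZMOD ((p : ℤ) * g)])
    (hb : ∀ r : ℕ, (f (b r) : ℤ) ≡ Λ + g * r [ZMOD ((p : ℤ) * g)])
    (hx0 : (f x0 : ℤ) ≡ Λ [ZMOD ((p : ℤ) * g)]) :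
    (∀ r ∈ Icc 1 q, ∀ r' ∈ Icc 1 q, a r = a r' → r = r') ∧
    (∀ r ∈ Icc 1 q, ∀ r' ∈ Icc 1 q, b r = b r' → r = r') ∧
    (∀ r ∈ Icc 1 q, ∀ r' ∈ Icc 1 q, a r ≠ b r') ∧
    (∀ r ∈ Icc 1 q, a r ≠ x0) ∧ (∀ r ∈ Icc 1 q, b r ≠ x0) := by
  have hQr : ∀ r ∈ Icc 1 q, 0 < r ∧ 2 * r < p := by
    intro r hr
    rw [Finset.mem_Icc] at hr
    omega
  have hp0 : 2 * 0 < p := by omega
  refine ⟨?_, ?_, ?_, ?_, ?_⟩
  · intro r hr r' hr' h
    have h1 := ha r
    rw [h] at h1
    have h2 := (ha r').symm.trans h1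
    have h3 := Int.ModEq.sub_left Λ h2
    have e1 : Λ - (Λ - (g : ℤ) * r') = g * r' := by ring
    have e2 : Λ - (Λ - (g : ℤ) * r) = g * r := by ring
    rw [e1, e2] at h3
    exact (eq_of_modEq_small (hQr r' hr').2 (hQr r hr).2 (mul_modEq hg h3)).symm
  · intro r hr r' hr' h
    have h1 := hb r
    rw [h] at h1
    have h2 := (hb r').symm.trans h1
    have h3 := Int.ModEq.add_left_cancel' Λ h2
    exact (eq_of_modEq_small (hQr r' hr').2 (hQr r hr).2 (mul_modEq hg h3)).symm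
  · intro r hr r' hr' h
    have h1 := ha r
    rw [h] at h1
    have h2 := (hb r').symm.trans h1
    have e1 : Λ - (g : ℤ) * r = Λ + g * (-r) := by ring
    rw [e1] at h2
    have h3 := Int.ModEq.add_left_cancel' Λ h2
    exact not_neg_modEq_small (hQr r' hr').1 (hQr r' hr').2 (hQr r hr).2 (mul_modEq hg h3)
  · intro r hr h
    have h1 := ha r
    rw [h] at h1
    have h2 := (hx0.symm.trans h1).symm
    have h3 := Int.ModEq.sub_left Λ h2
    have e2 : Λ - (Λ - (g : ℤ) * r) = g * r := by ring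
    have e3 : Λ - Λ = (g : ℤ) * ((0 : ℕ) : ℤ) := by push_cast; ring
    rw [e2, e3] at h3
    have := eq_of_modEq_small (hQr r hr).2 hp0 (mul_modEq hg h3)
    have := (hQr r hr).1
    omega
  · intro r hr h
    have h1 := hb r
    rw [h] at h1
    have h2 := (hx0.symm.trans h1).symm
    have e3 : Λ = Λ + (g : ℤ) * ((0 : ℕ) : ℤ) := by push_cast; ring
    have h3 : Λ + (g : ℤ) * r ≡ Λ + (g : ℤ) * ((0 : ℕ) : ℤ) [ZMOD ((p : ℤ) * g)] := by
      rw [← e3]
      exact h2
    have h4 := Int.ModEq.add_left_cancel' Λ h3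
    have := eq_of_modEq_small (hQr r hr).2 hp0 (mul_modEq hg h4)
    have := (hQr r hr).1
    omega

theorem common (hf : IsKGracefulNumbering (splitGraph W) k f) {p q : ℕ} (hp : p.Prime)
    (hpq : p = 2 * q + 1) (hk : 1 ≤ k) (hWp : W.card = p) :
    ∃ (g : ℕ) (y : V → ℤ) (a b : ℕ → V) (x0 wmin wmax : V), 0 < g ∧ wmin ∈ W ∧ wmax ∈ W ∧
      x0 ∈ W ∧ (∀ r, a r ∈ W) ∧ (∀ r, b r ∈ W) ∧ y wmin = 0 ∧
      (∀ x ∈ W, 0 ≤ y x ∧ y x ≤ y wmax) ∧ (∀ x ∈ W, (g : ℤ) ∣ y x) ∧
      (∀ x ∈ W, ∀ z ∈ W, x ≠ z → (k : ℤ) ≤ |y x - y z|) ∧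
      (∀ x ∈ W, x = x0 ∨ ∃ r ∈ Icc 1 q, x = a r ∨ x = b r) ∧
      (∀ r : ℕ, y (a r) ≡ y x0 - g * r [ZMOD ((p : ℤ) * g)]) ∧
      (∀ r : ℕ, y (b r) ≡ y x0 + g * r [ZMOD ((p : ℤ) * g)]) ∧
      (∀ r ∈ Icc 1 q, y (a r) + y (b r)
        = 2 * y x0 - ((p : ℤ) * g) * (p - 1 + Psi ((p : ℤ) * g) (g * r) k)) ∧
      2 * (y x0 + ∑ r ∈ Icc 1 q, (y (a r) + y (b r)))
        ≤ p * y wmax - (p - 2) * ((p : ℤ) * g) ∧
      (∀ r ∈ Icc 1 q, ∀ r' ∈ Icc 1 q, r ≠ r' → y (a r) + y (b r) ≠ y (a r') + y (b r')) ∧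
      (∀ r ∈ Icc 1 q, ∀ r' ∈ Icc 1 q, a r = a r' → r = r') ∧
      (∀ r ∈ Icc 1 q, ∀ r' ∈ Icc 1 q, b r = b r' → r = r') ∧
      (∀ r ∈ Icc 1 q, ∀ r' ∈ Icc 1 q, a r ≠ b r') ∧
      (∀ r ∈ Icc 1 q, a r ≠ x0) ∧ (∀ r ∈ Icc 1 q, b r ≠ x0) := by
  classical
  have hinj : Function.Injective f := hf.1
  obtain ⟨g, Λ, a, b, x0, hg0, hx0, haW, hbW, ha, hb, hx0Λ, hinjW, hΛg, hB, δ, hδ, hid⟩ :=
    setup (D := ∅) hf (fun e _ => Iff.rfl) hp hWp hk
  have hg0' : (0 : ℤ) < g := by exact_mod_cast hg0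
  have hp0' : (0 : ℤ) < p := by exact_mod_cast hp.pos
  have hcov : ∀ z : ℤ, z ≡ Λ [ZMOD g] → ∃ x ∈ W, (f x : ℤ) ≡ z [ZMOD ((p : ℤ) * g)] := by
    intro z hz
    obtain ⟨t, ht⟩ := Int.modEq_iff_dvd.mp hz.symm
    rcases le_total 0 t with h | h
    · obtain ⟨n, rfl⟩ := Int.eq_ofNat_of_zero_le h
      refine ⟨b n, hbW n, ?_⟩
      have e : z = Λ + g * n := by linarith
      rw [e]
      exact hb n
    · obtain ⟨n, hn⟩ := Int.eq_ofNat_of_zero_le (a := -t) (by linarith)
      refine ⟨a n, haW n, ?_⟩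
      have e : z = Λ - g * n := by rw [← hn]; linarith
      rw [e]
      exact ha n
  obtain ⟨wmin, hwmin, wmax, hwmax, hne, hmm, π, hπW, hπinj, hπmod, hπle⟩ :=
    top hf hg0 hp.two_le hWp Λ hinjW hΛg hcov hB
  obtain ⟨haa, hbb, hab, hax, hbx⟩ := hub_facts (f := f) hg0 hpq ha hb hx0Λ
  set M : ℤ := (p : ℤ) * g with hMdef
  have hM0 : 0 < M := by rw [hMdef]; positivity
  -- the decomposition of `W`
  have hWeq : W = insert x0 ((Icc 1 q).image a ∪ (Icc 1 q).image b) := by
    symm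
    apply Finset.eq_of_subset_of_card_le
    · intro x hx
      rw [Finset.mem_insert, Finset.mem_union, Finset.mem_image, Finset.mem_image] at hx
      rcases hx with rfl | ⟨r, _, rfl⟩ | ⟨r, _, rfl⟩
      · exact hx0
      · exact haW r
      · exact hbW r
    · rw [Finset.card_insert_of_notMem, Finset.card_union_of_disjoint,
        Finset.card_image_of_injOn (fun r hr r' hr' h => haa r hr r' hr' h),
        Finset.card_image_of_injOn (fun r hr r' hr' h => hbb r hr r' hr' h), Nat.card_Icc, hWp]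
      · omega
      · rw [Finset.disjoint_left]
        intro x hx hx'
        obtain ⟨r, hr, rfl⟩ := Finset.mem_image.mp hx
        obtain ⟨r', hr', h⟩ := Finset.mem_image.mp hx'
        exact hab r hr r' hr' h.symm
      · rw [Finset.mem_union, Finset.mem_image, Finset.mem_image]
        rintro (⟨r, hr, h⟩ | ⟨r, hr, h⟩)
        · exact hax r hr h
        · exact hbx r hr h
  have hdec : ∀ F : V → ℤ, ∑ x ∈ W, F x = F x0 + ∑ r ∈ Icc 1 q, (F (a r) + F (b r)) := by
    intro F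
    conv_lhs => rw [hWeq]
    rw [Finset.sum_insert, Finset.sum_union,
      Finset.sum_image (fun r hr r' hr' h => haa r hr r' hr' h),
      Finset.sum_image (fun r hr r' hr' h => hbb r hr r' hr' h), Finset.sum_add_distrib]
    · rw [Finset.disjoint_left]
      intro x hx hx'
      obtain ⟨r, hr, rfl⟩ := Finset.mem_image.mp hx
      obtain ⟨r', hr', h⟩ := Finset.mem_image.mp hx'
      exact hab r hr r' hr' h.symm
    · rw [Finset.mem_union, Finset.mem_image, Finset.mem_image]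
      rintro (⟨r, hr, h⟩ | ⟨r, hr, h⟩)
      · exact hax r hr h
      · exact hbx r hr h
  -- the sum over the partners
  have hstrict : ∀ x ∈ W \ {wmin, wmax},
      M ≤ (f wmax : ℤ) + f wmin - ((f x : ℤ) + f (π x)) := by
    intro x hx
    rw [Finset.mem_sdiff, Finset.mem_insert, Finset.mem_singleton, not_or] at hx
    obtain ⟨hxW, hxmin, hxmax⟩ := hx
    have h1 := hπle x hxW
    have h2 : (f wmin : ℤ) < f x := by
      have h3 := (hmm x hxW).1
      have h4 : (f wmin : ℤ) ≠ f x := fun h => hxmin (hinj (Int.ofNat.inj h)).symm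
      omega
    have h5 : (f x : ℤ) + f (π x) ≠ f wmax + f wmin := by
      intro h6
      have := (split_unique hf (L := (f x : ℤ) - f wmin) (by omega) (u := wmin) (v := x)
        (u' := π x) (v' := wmax) (by ring) (by linarith) (Or.inl hwmin)
        (Or.inr hwmax)).2
      exact hxmax this
    have h7 := Int.modEq_iff_dvd.mp (hπmod x hxW)
    exact Int.le_of_dvd (by omega) h7
  have hπsum : ∑ x ∈ W, (f (π x) : ℤ) = ∑ x ∈ W, (f x : ℤ) := by
    have h1 : W.image π = W := by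
      apply Finset.eq_of_subset_of_card_le
      · intro x hx
        obtain ⟨z, hz, rfl⟩ := Finset.mem_image.mp hx
        exact hπW z hz
      · rw [Finset.card_image_of_injOn (fun x hx z hz h => hπinj x hx z hz h)]
    conv_rhs => rw [← h1]
    rw [Finset.sum_image (fun x hx z hz h => hπinj x hx z hz h)]
  have hsum1 : ((p : ℤ) - 2) * M
      ≤ ∑ x ∈ W, ((f wmax : ℤ) + f wmin - ((f x : ℤ) + f (π x))) := by
    have h1 : ∑ x ∈ W \ {wmin, wmax}, ((f wmax : ℤ) + f wmin - ((f x : ℤ) + f (π x)))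
        ≤ ∑ x ∈ W, ((f wmax : ℤ) + f wmin - ((f x : ℤ) + f (π x))) := by
      apply Finset.sum_le_sum_of_subset_of_nonneg Finset.sdiff_subset
      intro x hx _
      have := hπle x hx
      linarith
    have h2 : (W \ {wmin, wmax}).card = p - 2 := by
      rw [Finset.card_sdiff_of_subset, hWp, Finset.card_pair hne]
      intro x hx
      rw [Finset.mem_insert, Finset.mem_singleton] at hx
      rcases hx with rfl | rfl <;> assumption
    have h3 := Finset.card_nsmul_le_sum (W \ {wmin, wmax})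
      (fun x => (f wmax : ℤ) + f wmin - ((f x : ℤ) + f (π x))) M hstrict
    rw [h2, nsmul_eq_mul] at h3
    have h4 : ((p - 2 : ℕ) : ℤ) = (p : ℤ) - 2 := by
      have := hp.two_le
      push_cast [this]
      ring
    rw [h4] at h3
    linarith
  have hsum2 : ∑ x ∈ W, ((f wmax : ℤ) + f wmin - ((f x : ℤ) + f (π x)))
      = p * ((f wmax : ℤ) + f wmin) - 2 * ∑ x ∈ W, (f x : ℤ) := by
    rw [Finset.sum_sub_distrib, Finset.sum_add_distrib, Finset.sum_add_distrib, hπsum,
      Finset.sum_const, Finset.sum_const, hWp, nsmul_eq_mul, nsmul_eq_mul]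
    ring
  refine ⟨g, fun x => (f x : ℤ) - f wmin, a, b, x0, wmin, wmax, hg0, hwmin, hwmax, hx0, haW, hbW,
    by ring, ?_, ?_, ?_, ?_, ?_, ?_, ?_, ?_, ?_, haa, hbb, hab, hax, hbx⟩
  · intro x hx
    have := hmm x hx
    constructor <;> linarith [this.1, this.2]
  · intro x hx
    exact Int.modEq_iff_dvd.mp ((hΛg wmin hwmin).symm.trans (hΛg x hx))
  · intro x hx z hz hxz
    have h1 : (f x : ℤ) ≠ f z := fun h => hxz (hinj (Int.ofNat.inj h))
    rcases lt_or_gt_of_ne h1 with h | h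
    · have := split_le hf (L := (f z : ℤ) - f x) (by omega) (u := x) (v := z) (by ring)
        (Or.inl hx)
      simp only
      rw [abs_of_neg (by linarith)]
      linarith
    · have := split_le hf (L := (f x : ℤ) - f z) (by omega) (u := z) (v := x) (by ring)
        (Or.inl hz)
      simp only
      rw [abs_of_pos (by linarith)]
      linarith
  · intro x hx
    rw [hWeq, Finset.mem_insert, Finset.mem_union, Finset.mem_image, Finset.mem_image] at hx
    rcases hx with h | ⟨r, hr, h⟩ | ⟨r, hr, h⟩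
    · exact Or.inl h
    · exact Or.inr ⟨r, hr, Or.inl h.symm⟩
    · exact Or.inr ⟨r, hr, Or.inr h.symm⟩
  · intro r
    have h1 := (ha r).trans ((hx0Λ.symm).sub_right ((g : ℤ) * r))
    have h2 := h1.sub_right (f wmin : ℤ)
    have e : (f x0 : ℤ) - g * r - f wmin = (f x0 : ℤ) - f wmin - g * r := by ring
    simp only
    rw [← e]
    exact h2
  · intro r
    have h1 := (hb r).trans ((hx0Λ.symm).add_right ((g : ℤ) * r))
    have h2 := h1.sub_right (f wmin : ℤ)
    have e : (f x0 : ℤ) + g * r - f wmin = (f x0 : ℤ) - f wmin + g * r := by ring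
    simp only
    rw [← e]
    exact h2
  · intro r hr
    rw [Finset.mem_Icc] at hr
    have h1 := hid r hr.1 (by omega)
    have h2 : ∑ L ∈ Ioc 0 Λ, chi M (g * r) L * δ L = 0 := by
      apply Finset.sum_eq_zero
      intro L hL
      rw [Finset.mem_Ioc] at hL
      rw [hδ L (by linarith [hL.1]) (by unfold dlab; simp), mul_zero]
    rw [h2, sub_zero] at h1
    simp only
    linarith
  · have h1 := hdec (fun x => (f x : ℤ) - f wmin)
    simp only at h1 ⊢
    rw [← h1, Finset.sum_sub_distrib, Finset.sum_const, hWp, nsmul_eq_mul]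
    rw [hsum2] at hsum1
    linarith
  · intro r hr r' hr' hrr h
    have h1 := offDiag_le (D := ∅) hf (fun e _ => Iff.rfl) {r, r'} a b (fun r _ => haW r)
      (fun r _ => hbW r)
      (by
        intro s hs s' hs'
        rw [Finset.mem_insert, Finset.mem_singleton] at hs hs'
        apply haa
        · rcases hs with rfl | rfl <;> assumption
        · rcases hs' with rfl | rfl <;> assumption)
      (by
        intro s hs s' hs'
        rw [Finset.mem_insert, Finset.mem_singleton] at hs hs'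
        apply hbb
        · rcases hs with rfl | rfl <;> assumption
        · rcases hs' with rfl | rfl <;> assumption)
      (by
        intro s hs s' hs'
        rw [Finset.mem_insert, Finset.mem_singleton] at hs hs'
        apply hab
        · rcases hs with rfl | rfl <;> assumption
        · rcases hs' with rfl | rfl <;> assumption)
      (by
        simp only at h
        have h' : f (a r) + f (b r) = f (a r') + f (b r') := by omega
        intro s hs s' hs'
        rw [Finset.mem_insert, Finset.mem_singleton] at hs hs'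
        rcases hs with rfl | rfl <;> rcases hs' with rfl | rfl <;> omega)
    rw [Finset.card_pair hrr, Finset.card_empty] at h1
    omega

end

end Pool.Agent.Graceful.Split
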