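import Mathlib

set_option autoImplicit false

/-!
The groups of numbers given to the vertices of one type. A type is the set `A` of the positions of
the neighbours; the two special positions are `0` and `δ`.
-/

namespace Pool.Agent.Graceful.D2

/-- The positions of the type other than `0` and `δ`. -/
def inner (δ : ℕ) (A : Finset ℕ) : Finset ℕ := (A.erase 0).erase δ

/-- The positions whose labels are holes. -/
def off (δ : ℕ) (A : Finset ℕ) : Finset ℕ := if 0 ∈ A ∧ δ ∈ A then inner δ A else A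

/-- The pivot of a type. -/
def piv (δ : ℕ) (A : Finset ℕ) : ℕ := (inner δ A).sup id

/-- The number of classes of a cyclic group. -/
def len (δ : ℕ) (A : Finset ℕ) : ℕ := δ / piv δ A

/-- The twins of the group of the type `A` at base `B`: two numbers in class `c` with the indices
`x < y`. -/
def Tw (δ : ℕ) (A : Finset ℕ) (B c x y : ℕ) : Prop :=
  (0 ∈ A ∧ δ ∉ A ∧ c = δ / 2 ∧ x = B ∧ y = B + 1) ∨
  (0 ∉ A ∧ δ ∈ A ∧ c = 0 ∧ x = B + 1 ∧ y = B + 2) ∨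
  (0 ∉ A ∧ δ ∉ A ∧ ∃ i, i < len δ A ∧ c = i * piv δ A ∧
    ((i = 0 ∧ x = B + 4 * len δ A + 1 ∧ y = B + 8 * len δ A) ∨
     (i ≠ 0 ∧ x = B + 4 * i ∧ y = B + 4 * len δ A + 4 * i + 1))) ∨
  (0 ∈ A ∧ δ ∈ A ∧ ∃ i, i < len δ A ∧ c = i * piv δ A ∧
    ((i = 0 ∧ x = B + 1 ∧ y = B + 4 * len δ A) ∨
     (i ≠ 0 ∧ x + 4 * i = B + 4 * len δ A ∧ y + 4 * i = B + 8 * len δ A + 1)))

/-- The pairs of holes of the group. -/
def Pr (δ : ℕ) (A : Finset ℕ) (B φ c x y c' x' y' : ℕ) : Prop :=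
  Tw δ A B c x y ∧ φ ∈ off δ A ∧
    ((φ ≤ c ∧ c' + φ = c ∧ x' = x ∧ y' = y) ∨
     (c < φ ∧ c' + φ = c + δ ∧ x' + 1 = x ∧ y' + 1 = y))

/-- The hypotheses on the positions and on the type. -/
structure TypeOK (δ : ℕ) (A : Finset ℕ) : Prop where
  four : 4 ∣ δ
  pos : 0 < δ
  even : ∀ θ ∈ A, θ ≠ δ → θ % 2 = 0
  dvd : ∀ θ ∈ A, θ ∣ δ ∨ θ = 0
  le : ∀ θ ∈ A, θ ≠ δ → 2 * θ ≤ δ
  ne : (inner δ A).Nonempty ∨ (0 ∈ A ∧ δ ∉ A) ∨ (0 ∉ A ∧ δ ∈ A)

variable {δ : ℕ} {A : Finset ℕ}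

lemma mem_inner {θ : ℕ} : θ ∈ inner δ A ↔ θ ≠ δ ∧ θ ≠ 0 ∧ θ ∈ A := by
  simp [inner]

lemma piv_mem (hne : (inner δ A).Nonempty) : piv δ A ∈ inner δ A := by
  obtain ⟨x, hx, hx'⟩ := Finset.exists_mem_eq_sup (inner δ A) hne id
  rw [piv, hx']
  exact hx

lemma le_piv {θ : ℕ} (h : θ ∈ inner δ A) : θ ≤ piv δ A := Finset.le_sup (f := id) h

lemma piv_facts (h : TypeOK δ A) (hne : (inner δ A).Nonempty) :
    0 < piv δ A ∧ piv δ A % 2 = 0 ∧ len δ A * piv δ A = δ ∧ 2 ≤ len δ A ∧ len δ A ≤ δ ∧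
      2 * piv δ A ≤ δ := by
  have h1 := mem_inner.mp (piv_mem hne)
  have h2 := h.dvd _ h1.2.2
  have h3 : piv δ A ∣ δ := h2.resolve_right h1.2.1
  have h4 : len δ A * piv δ A = δ := Nat.div_mul_cancel h3
  have h5 := h.le _ h1.2.2 h1.1
  have h6 : 0 < piv δ A := Nat.pos_of_ne_zero h1.2.1
  refine ⟨h6, h.even _ h1.2.2 h1.1, h4, ?_, Nat.div_le_self _ _, h5⟩
  exact (Nat.le_div_iff_mul_le h6).mpr h5

lemma inner_nonempty_of_iff (h : TypeOK δ A) (h' : 0 ∈ A ↔ δ ∈ A) : (inner δ A).Nonempty := by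
  rcases h.ne with h1 | h1 | h1
  · exact h1
  · exact absurd (h'.mp h1.1) h1.2
  · exact absurd (h'.mpr h1.2) h1.1

lemma mem_off_iff {φ : ℕ} : φ ∈ off δ A ↔ φ ∈ A ∧ (0 ∈ A → δ ∈ A → φ ≠ 0 ∧ φ ≠ δ) := by
  unfold off
  split_ifs with h
  · rw [mem_inner]
    constructor
    · rintro ⟨h1, h2, h3⟩; exact ⟨h3, fun _ _ => ⟨h2, h1⟩⟩
    · rintro ⟨h1, h2⟩; exact ⟨(h2 h.1 h.2).2, (h2 h.1 h.2).1, h1⟩
  · constructor
    · intro h1; exact ⟨h1, fun a b => absurd ⟨a, b⟩ h⟩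
    · intro h1; exact h1.1

/-- In the cyclic cases, the offsets are positive and at most the pivot. -/
lemma off_cyclic (h' : 0 ∈ A ↔ δ ∈ A) {φ : ℕ} (hφ : φ ∈ off δ A) :
    φ ∈ inner δ A ∧ 0 < φ ∧ φ ≤ piv δ A := by
  have h1 : φ ∈ inner δ A := by
    rw [mem_off_iff] at hφ
    rw [mem_inner]
    by_cases h0 : 0 ∈ A
    · have := hφ.2 h0 (h'.mp h0)
      exact ⟨this.2, this.1, hφ.1⟩
    · refine ⟨?_, ?_, hφ.1⟩
      · rintro rfl; exact h0 (h'.mpr hφ.1)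
      · rintro rfl; exact h0 hφ.1
  exact ⟨h1, Nat.pos_of_ne_zero (mem_inner.mp h1).2.1, le_piv h1⟩

/-- Basic facts on the pairs. -/
lemma Pr.facts (h : TypeOK δ A) {B φ c x y c' x' y' : ℕ} (hB : B % 2 = 0)
    (hp : Pr δ A B φ c x y c' x' y') :
    c' % 2 = 0 ∧ c' < δ ∧ x' % 2 = 0 ∧ y' % 2 = 1 ∧ x' < y' ∧ B ≤ x' ∧ y' < B + 8 * δ ∧
      (∀ o, o + c + x * δ = φ + (o + c' + x' * δ)) ∧
      (∀ o, o + c + y * δ = φ + (o + c' + y' * δ)) := by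
  obtain ⟨ht, hφ, hs⟩ := hp
  have hpos := h.pos
  have hfour := h.four
  have hd2 : δ % 2 = 0 := by omega
  have hφA : φ ∈ A := (mem_off_iff.mp hφ).1
  have hφe : φ % 2 = 0 := by
    by_cases e : φ = δ
    · omega
    · exact h.even φ hφA e
  have heq : (∀ o, o + c + x * δ = φ + (o + c' + x' * δ)) ∧
      (∀ o, o + c + y * δ = φ + (o + c' + y' * δ)) := by
    rcases hs with ⟨h1, h2, rfl, rfl⟩ | ⟨h1, h2, rfl, rfl⟩
    · exact ⟨fun o => by omega, fun o => by omega⟩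
    · rw [Nat.succ_mul, Nat.succ_mul]
      exact ⟨fun o => by omega, fun o => by omega⟩
  refine ⟨?_, ?_, ?_, ?_, ?_, ?_, ?_, heq.1, heq.2⟩
  all_goals
    rcases ht with ⟨h0, hd, rfl, rfl, rfl⟩ | ⟨h0, hd, rfl, rfl, rfl⟩ | ⟨h0, hd, i, hi, rfl, hxy⟩ |
      ⟨h0, hd, i, hi, rfl, hxy⟩
  all_goals
    first
    | (have hφd : φ ≠ δ := fun e => hd (e ▸ hφA)
       have := h.le φ hφA hφd
       omega)
    | (have hφ0 : φ ≠ 0 := fun e => h0 (e ▸ hφA)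
       omega)
    | (have hiff : 0 ∈ A ↔ δ ∈ A := by tauto
       have hne := inner_nonempty_of_iff h hiff
       obtain ⟨w1, w2, w3, w4, w5, w6⟩ := piv_facts h hne
       obtain ⟨f1, f2, f3⟩ := off_cyclic hiff hφ
       have hie : (i * piv δ A) % 2 = 0 := by
         rw [Nat.mul_mod, w2, Nat.mul_zero, Nat.zero_mod]
       have hil : i * piv δ A + piv δ A ≤ δ := by
         calc i * piv δ A + piv δ A = (i + 1) * piv δ A := by ring
           _ ≤ len δ A * piv δ A := Nat.mul_le_mul_right _ hi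
           _ = δ := w3
       by_cases hi0 : i = 0
       · subst hi0
         simp only [Nat.zero_mul] at *
         omega
       · have hiw : piv δ A ≤ i * piv δ A := Nat.le_mul_of_pos_left _ (Nat.pos_of_ne_zero hi0)
         omega)

end Pool.Agent.Graceful.D2
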