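import Mathlib
import Pool.Agent.Lib.MP_7616b3_co.D2Group

set_option autoImplicit false

namespace Pool.Agent.Graceful.D2

variable {δ : ℕ} {A : Finset ℕ}

/-- The explicit indices of the twins in the cyclic cases. -/
def XY (A : Finset ℕ) (B L i x y : ℕ) : Prop :=
  (0 ∉ A ∧ ((i = 0 ∧ x = B + 4 * L + 1 ∧ y = B + 8 * L) ∨
     (i ≠ 0 ∧ x = B + 4 * i ∧ y = B + 4 * L + 4 * i + 1))) ∨
  (0 ∈ A ∧ ((i = 0 ∧ x = B + 1 ∧ y = B + 4 * L) ∨
     (i ≠ 0 ∧ x + 4 * i = B + 4 * L ∧ y + 4 * i = B + 8 * L + 1)))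

lemma tw_cyclic (hiff : 0 ∈ A ↔ δ ∈ A) {B c x y : ℕ} :
    Tw δ A B c x y ↔ ∃ i, i < len δ A ∧ c = i * piv δ A ∧ XY A B (len δ A) i x y := by
  constructor
  · rintro (⟨h0, hd, _⟩ | ⟨h0, hd, _⟩ | ⟨h0, hd, i, hi, hc, hxy⟩ | ⟨h0, hd, i, hi, hc, hxy⟩)
    · exact absurd (hiff.mp h0) hd
    · exact absurd (hiff.mpr hd) h0
    · exact ⟨i, hi, hc, Or.inl ⟨h0, hxy⟩⟩
    · exact ⟨i, hi, hc, Or.inr ⟨h0, hxy⟩⟩
  · rintro ⟨i, hi, hc, ⟨h0, hxy⟩ | ⟨h0, hxy⟩⟩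
    · exact Or.inr (Or.inr (Or.inl ⟨h0, fun h => h0 (hiff.mpr h), i, hi, hc, hxy⟩))
    · exact Or.inr (Or.inr (Or.inr ⟨h0, hiff.mp h0, i, hi, hc, hxy⟩))

lemma XY.uniq {B L i x y x2 y2 : ℕ} (h1 : XY A B L i x y) (h2 : XY A B L i x2 y2) :
    x = x2 ∧ y = y2 := by
  rcases h1 with ⟨h0, h | h⟩ | ⟨h0, h | h⟩ <;> rcases h2 with ⟨g0, g | g⟩ | ⟨g0, g | g⟩ <;>
    first
    | exact absurd h0 g0
    | exact absurd g0 h0
    | omega

lemma XY.exists (A : Finset ℕ) (B L i : ℕ) (hi : i < L) : ∃ x y, XY A B L i x y := by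
  by_cases h0 : 0 ∈ A
  · by_cases e : i = 0
    · exact ⟨B + 1, B + 4 * L, Or.inr ⟨h0, Or.inl ⟨e, rfl, rfl⟩⟩⟩
    · exact ⟨B + 4 * L - 4 * i, B + 8 * L + 1 - 4 * i, Or.inr ⟨h0, Or.inr ⟨e, by omega, by omega⟩⟩⟩
  · by_cases e : i = 0
    · exact ⟨B + 4 * L + 1, B + 8 * L, Or.inl ⟨h0, Or.inl ⟨e, rfl, rfl⟩⟩⟩
    · exact ⟨B + 4 * i, B + 4 * L + 4 * i + 1, Or.inl ⟨h0, Or.inr ⟨e, rfl, rfl⟩⟩⟩

/-- In the cyclic cases a pair in class `c'` with offset `φ` comes from the class of number `i`,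
with `c' + φ = j * piv`, where `j = i` or `i = 0` and `j` is the number of classes. -/
lemma Pr.cyclic (h : TypeOK δ A) (hiff : 0 ∈ A ↔ δ ∈ A) {B φ c x y c' x' y' : ℕ}
    (hp : Pr δ A B φ c x y c' x' y') :
    ∃ i j, i < len δ A ∧ c = i * piv δ A ∧ XY A B (len δ A) i x y ∧ c' + φ = j * piv δ A ∧
      ((i = 0 ∧ j = len δ A ∧ x' + 1 = x ∧ y' + 1 = y) ∨ (i ≠ 0 ∧ j = i ∧ x' = x ∧ y' = y)) := by
  obtain ⟨ht, hφ, hs⟩ := hp
  have hne := inner_nonempty_of_iff h hiff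
  obtain ⟨w1, w2, w3, w4, w5, w6⟩ := piv_facts h hne
  obtain ⟨f1, f2, f3⟩ := off_cyclic hiff hφ
  obtain ⟨i, hi, hc, hxy⟩ := (tw_cyclic hiff).mp ht
  by_cases hi0 : i = 0
  · subst hi0
    rw [Nat.zero_mul] at hc
    subst hc
    refine ⟨0, len δ A, hi, by simp, hxy, by omega, Or.inl ⟨rfl, rfl, by omega, by omega⟩⟩
  · have hiw : piv δ A ≤ i * piv δ A := Nat.le_mul_of_pos_left _ (Nat.pos_of_ne_zero hi0)
    refine ⟨i, i, hi, hc, hxy, by omega, Or.inr ⟨hi0, rfl, by omega, by omega⟩⟩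

lemma mul_uniq {w c φ φ2 j j2 : ℕ} (h1 : 0 < φ) (h2 : φ ≤ w) (h1' : 0 < φ2) (h2' : φ2 ≤ w)
    (e : c + φ = j * w) (e2 : c + φ2 = j2 * w) : j = j2 := by
  by_contra hne
  rcases Nat.lt_or_gt_of_ne hne with h | h
  · have : (j + 1) * w ≤ j2 * w := Nat.mul_le_mul_right _ h
    rw [Nat.succ_mul] at this
    omega
  · have : (j2 + 1) * w ≤ j * w := Nat.mul_le_mul_right _ h
    rw [Nat.succ_mul] at this
    omega

/-- A class contains at most one pair of a group. -/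
lemma Pr.uniq (h : TypeOK δ A) {B φ c x y c' x' y' φ2 c2 x2 y2 x2' y2' : ℕ}
    (hp : Pr δ A B φ c x y c' x' y') (hp2 : Pr δ A B φ2 c2 x2 y2 c' x2' y2') :
    φ = φ2 ∧ c = c2 ∧ x = x2 ∧ y = y2 := by
  by_cases hiff : 0 ∈ A ↔ δ ∈ A
  · have hne := inner_nonempty_of_iff h hiff
    obtain ⟨i, j, hi, hc, hxy, hj, hij⟩ := hp.cyclic h hiff
    obtain ⟨i2, j2, hi2, hc2, hxy2, hj2, hij2⟩ := hp2.cyclic h hiff
    obtain ⟨f1, f2, f3⟩ := off_cyclic hiff hp.2.1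
    obtain ⟨g1, g2, g3⟩ := off_cyclic hiff hp2.2.1
    have hjj : j = j2 := mul_uniq f2 f3 g2 g3 hj hj2
    subst hjj
    have hii : i = i2 := by omega
    subst hii
    obtain ⟨e1, e2⟩ := hxy.uniq hxy2
    exact ⟨by omega, by rw [hc, hc2], e1, e2⟩
  · obtain ⟨ht, hφ, hs⟩ := hp
    obtain ⟨ht2, hφ2, hs2⟩ := hp2
    have hA := (mem_off_iff.mp hφ).1
    have hA2 := (mem_off_iff.mp hφ2).1
    have hpos := h.pos
    rcases ht with ⟨h0, hd, rfl, rfl, rfl⟩ | ⟨h0, hd, rfl, rfl, rfl⟩ | ⟨h0, hd, _⟩ | ⟨h0, hd, _⟩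
    · rcases ht2 with ⟨_, _, rfl, rfl, rfl⟩ | ⟨g0, _⟩ | ⟨g0, _⟩ | ⟨_, g0, _⟩
      · have e1 := h.le φ hA (fun e => hd (e ▸ hA))
        have e2 := h.le φ2 hA2 (fun e => hd (e ▸ hA2))
        omega
      · exact absurd h0 g0
      · exact absurd h0 g0
      · exact absurd g0 hd
    · rcases ht2 with ⟨g0, _⟩ | ⟨_, _, rfl, rfl, rfl⟩ | ⟨_, g0, _⟩ | ⟨g0, _⟩
      · exact absurd g0 h0
      · have e1 : φ ≠ 0 := fun e => h0 (e ▸ hA)
        have e2 : φ2 ≠ 0 := fun e => h0 (e ▸ hA2)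
        omega
      · exact absurd hd g0
      · exact absurd g0 h0
    · exact absurd ⟨fun a => absurd a h0, fun a => absurd a hd⟩ hiff
    · exact absurd ⟨fun _ => hd, fun _ => h0⟩ hiff

/-- The unique pair in the class of the twin number `i`. -/
lemma at_class (h : TypeOK δ A) (hiff : 0 ∈ A ↔ δ ∈ A) {B i : ℕ} (hi : i < len δ A) :
    ∃ φ c x y x' y', Pr δ A B φ c x y (i * piv δ A) x' y' ∧
      ((0 ∉ A ∧ i + 1 < len δ A ∧ x' = B + 4 * (i + 1) ∧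
          y' = B + 4 * len δ A + 4 * (i + 1) + 1) ∨
       (0 ∉ A ∧ i + 1 = len δ A ∧ x' = B + 4 * len δ A ∧ y' + 1 = B + 8 * len δ A) ∨
       (0 ∈ A ∧ i + 1 < len δ A ∧ x' + 4 * (i + 1) = B + 4 * len δ A ∧
          y' + 4 * (i + 1) = B + 8 * len δ A + 1) ∨
       (0 ∈ A ∧ i + 1 = len δ A ∧ x' = B ∧ y' + 1 = B + 4 * len δ A)) := by
  have hne := inner_nonempty_of_iff h hiff
  obtain ⟨w1, w2, w3, w4, w5, w6⟩ := piv_facts h hne
  have hw := piv_mem hne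
  have hoff : piv δ A ∈ off δ A := by
    rw [mem_off_iff]
    have := mem_inner.mp hw
    exact ⟨this.2.2, fun _ _ => ⟨this.2.1, this.1⟩⟩
  by_cases hl : i + 1 < len δ A
  · obtain ⟨x, y, hxy⟩ := XY.exists A B (len δ A) (i + 1) hl
    have e : (i + 1) * piv δ A = i * piv δ A + piv δ A := Nat.succ_mul _ _
    refine ⟨piv δ A, (i + 1) * piv δ A, x, y, x, y, ⟨?_, hoff, Or.inl ⟨by omega, by omega, rfl,
      rfl⟩⟩, ?_⟩
    · exact (tw_cyclic hiff).mpr ⟨i + 1, hl, rfl, hxy⟩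
    · rcases hxy with ⟨h0, h1 | h1⟩ | ⟨h0, h1 | h1⟩
      · omega
      · exact Or.inl ⟨h0, hl, h1.2⟩
      · omega
      · exact Or.inr (Or.inr (Or.inl ⟨h0, hl, h1.2⟩))
  · have hl' : i + 1 = len δ A := by omega
    have e : i * piv δ A + piv δ A = δ := by rw [← Nat.succ_mul, Nat.succ_eq_add_one, hl', w3]
    obtain ⟨x, y, hxy⟩ := XY.exists A B (len δ A) 0 (by omega)
    have hx1 : 1 ≤ x ∧ 1 ≤ y := by
      rcases hxy with ⟨h0, h1 | h1⟩ | ⟨h0, h1 | h1⟩ <;> omega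
    refine ⟨piv δ A, 0, x, y, x - 1, y - 1, ⟨?_, hoff, Or.inr ⟨w1, by omega, by omega, by omega⟩⟩,
      ?_⟩
    · exact (tw_cyclic hiff).mpr ⟨0, by omega, by simp, hxy⟩
    · rcases hxy with ⟨h0, h1 | h1⟩ | ⟨h0, h1 | h1⟩
      · exact Or.inr (Or.inl ⟨h0, hl', by omega, by omega⟩)
      · omega
      · exact Or.inr (Or.inr (Or.inr ⟨h0, hl', by omega, by omega⟩))
      · omega

/-- The numbers of a group whose type does not contain both special positions are not upper. -/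
lemma num_not_upp (h : TypeOK δ A) (hn : ¬ (0 ∈ A ∧ δ ∈ A)) {B c x y z : ℕ} (hB : B % 2 = 0)
    (ht : Tw δ A B c x y) (hz : z = x ∨ z = y) :
    (z % 2 = 1 → ∃ φ c2 x2 y2 x' y', Pr δ A B φ c2 x2 y2 c x' y' ∧ x' ≤ z ∧ z ≤ y') ∧
      (z % 2 = 0 → ∀ φ c2 x2 y2 x' y', Pr δ A B φ c2 x2 y2 c x' y' → ¬ (x' < z ∧ z < y')) := by
  have hpos := h.pos
  have hfour := h.four
  rcases ht with ⟨h0, hd, hc, rfl, rfl⟩ | ⟨h0, hd, hc, rfl, rfl⟩ | ⟨h0, hd, i, hi, hc, hxy⟩ |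
    ⟨h0, hd, _⟩
  · constructor
    · intro hodd
      refine ⟨0, c, x, x + 1, x, x + 1, ⟨Or.inl ⟨h0, hd, hc, rfl, rfl⟩, ?_, Or.inl
        ⟨by omega, by omega, rfl, rfl⟩⟩, by omega, by omega⟩
      rw [mem_off_iff]
      exact ⟨h0, fun _ g => absurd g hd⟩
    · intro heven φ c2 x2 y2 x' y' hp hlt
      have hA := (mem_off_iff.mp hp.2.1).1
      have e1 := h.le φ hA (fun e => hd (e ▸ hA))
      obtain ⟨ht2, _, hs⟩ := hp
      rcases ht2 with ⟨_, _, hc2, rfl, rfl⟩ | ⟨g0, _⟩ | ⟨g0, _⟩ | ⟨_, g0, _⟩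
      · omega
      · exact absurd h0 g0
      · exact absurd h0 g0
      · exact absurd g0 hd
  · constructor
    · intro hodd
      refine ⟨δ, c, B + 1, B + 2, B, B + 1, ⟨Or.inr (Or.inl ⟨h0, hd, hc, rfl, rfl⟩), ?_, Or.inr
        ⟨by omega, by omega, rfl, rfl⟩⟩, by omega, by omega⟩
      rw [mem_off_iff]
      exact ⟨hd, fun g _ => absurd g h0⟩
    · intro heven φ c2 x2 y2 x' y' hp hlt
      have hA := (mem_off_iff.mp hp.2.1).1
      have e1 : φ ≠ 0 := fun e => h0 (e ▸ hA)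
      obtain ⟨ht2, _, hs⟩ := hp
      rcases ht2 with ⟨g0, _⟩ | ⟨_, _, hc2, rfl, rfl⟩ | ⟨_, g0, _⟩ | ⟨g0, _⟩
      · exact absurd g0 h0
      · omega
      · exact absurd hd g0
      · exact absurd g0 h0
  · have hiff : 0 ∈ A ↔ δ ∈ A := ⟨fun a => absurd a h0, fun a => absurd a hd⟩
    obtain ⟨w1, w2, w3, w4, w5, w6⟩ := piv_facts h (inner_nonempty_of_iff h hiff)
    subst hc
    obtain ⟨φ, c2, x2, y2, x', y', hp, hh⟩ := at_class h hiff (B := B) hi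
    constructor
    · intro hodd
      refine ⟨φ, c2, x2, y2, x', y', hp, ?_⟩
      rcases hh with hh | hh | hh | hh
      · omega
      · omega
      · exact absurd hh.1 h0
      · exact absurd hh.1 h0
    · intro heven φ2 c3 x3 y3 x3' y3' hp2 hlt
      obtain ⟨u1, u2, u3, u4⟩ := hp.uniq h hp2
      have e : x' = x3' ∧ y' = y3' := by
        have s1 := hp.2.2
        have s2 := hp2.2.2
        subst u1 u2 u3 u4
        omega
      rcases hh with hh | hh | hh | hh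
      · omega
      · omega
      · exact absurd hh.1 h0
      · exact absurd hh.1 h0
  · exact absurd ⟨h0, hd⟩ hn

/-- The numbers of a group whose type contains both special positions are upper. -/
lemma num_upp (h : TypeOK δ A) (h0 : 0 ∈ A) (hd : δ ∈ A) {B c x y z : ℕ} (hB : B % 2 = 0)
    (ht : Tw δ A B c x y) (hz : z = x ∨ z = y) :
    (z % 2 = 1 → ∀ φ c2 x2 y2 x' y', Pr δ A B φ c2 x2 y2 c x' y' → ¬ (x' ≤ z ∧ z ≤ y')) ∧
      (z % 2 = 0 → ∃ φ c2 x2 y2 x' y', Pr δ A B φ c2 x2 y2 c x' y' ∧ x' < z ∧ z < y') := by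
  have hpos := h.pos
  have hiff : 0 ∈ A ↔ δ ∈ A := ⟨fun _ => hd, fun _ => h0⟩
  obtain ⟨w1, w2, w3, w4, w5, w6⟩ := piv_facts h (inner_nonempty_of_iff h hiff)
  rcases ht with ⟨_, hd', _⟩ | ⟨h0', _⟩ | ⟨h0', _⟩ | ⟨_, _, i, hi, hc, hxy⟩
  · exact absurd hd hd'
  · exact absurd h0 h0'
  · exact absurd h0 h0'
  subst hc
  obtain ⟨φ, c2, x2, y2, x', y', hp, hh⟩ := at_class h hiff (B := B) hi
  constructor
  · intro hodd φ2 c3 x3 y3 x3' y3' hp2 hlt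
    obtain ⟨u1, u2, u3, u4⟩ := hp.uniq h hp2
    have e : x' = x3' ∧ y' = y3' := by
      have s1 := hp.2.2
      have s2 := hp2.2.2
      subst u1 u2 u3 u4
      omega
    rcases hh with hh | hh | hh | hh
    · exact absurd h0 hh.1
    · exact absurd h0 hh.1
    · omega
    · omega
  · intro heven
    refine ⟨φ, c2, x2, y2, x', y', hp, ?_⟩
    rcases hh with hh | hh | hh | hh
    · exact absurd h0 hh.1
    · exact absurd h0 hh.1
    · omega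
    · omega

/-- The indices of the numbers of a group. -/
lemma Tw.range (h : TypeOK δ A) {B c x y : ℕ} (ht : Tw δ A B c x y) :
    c % 2 = 0 ∧ c < δ ∧ B ≤ x ∧ x < y ∧ y < B + 8 * δ := by
  have hpos := h.pos
  have hfour := h.four
  by_cases hiff : 0 ∈ A ↔ δ ∈ A
  · obtain ⟨w1, w2, w3, w4, w5, w6⟩ := piv_facts h (inner_nonempty_of_iff h hiff)
    obtain ⟨i, hi, rfl, hxy⟩ := (tw_cyclic hiff).mp ht
    have hie : (i * piv δ A) % 2 = 0 := by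
      rw [Nat.mul_mod, w2, Nat.mul_zero, Nat.zero_mod]
    have hil : i * piv δ A + piv δ A ≤ δ := by
      calc i * piv δ A + piv δ A = (i + 1) * piv δ A := by ring
        _ ≤ len δ A * piv δ A := Nat.mul_le_mul_right _ hi
        _ = δ := w3
    have hl : 2 * len δ A ≤ δ := by
      calc 2 * len δ A = len δ A * 2 := Nat.mul_comm _ _
        _ ≤ len δ A * piv δ A := Nat.mul_le_mul_left _ (by omega)
        _ = δ := w3
    rcases hxy with ⟨_, h1 | h1⟩ | ⟨_, h1 | h1⟩ <;> omega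
  · rcases ht with ⟨h0, hd, rfl, rfl, rfl⟩ | ⟨h0, hd, rfl, rfl, rfl⟩ | ⟨h0, hd, _⟩ | ⟨h0, hd, _⟩
    · omega
    · omega
    · exact absurd ⟨fun a => absurd a h0, fun a => absurd a hd⟩ hiff
    · exact absurd ⟨fun _ => hd, fun _ => h0⟩ hiff

/-- A class contains at most one twin of a group. -/
lemma Tw.uniq (h : TypeOK δ A) {B c x y x2 y2 : ℕ} (ht : Tw δ A B c x y)
    (ht2 : Tw δ A B c x2 y2) : x = x2 ∧ y = y2 := by
  by_cases hiff : 0 ∈ A ↔ δ ∈ A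
  · obtain ⟨w1, w2, w3, w4, w5, w6⟩ := piv_facts h (inner_nonempty_of_iff h hiff)
    obtain ⟨i, hi, hc, hxy⟩ := (tw_cyclic hiff).mp ht
    obtain ⟨i2, hi2, hc2, hxy2⟩ := (tw_cyclic hiff).mp ht2
    have : i = i2 := Nat.eq_of_mul_eq_mul_right w1 (by rw [← hc, ← hc2])
    subst this
    exact hxy.uniq hxy2
  · rcases ht with ⟨h0, hd, h1, h2, h3⟩ | ⟨h0, hd, h1, h2, h3⟩ | ⟨h0, hd, _⟩ | ⟨h0, hd, _⟩
    · rcases ht2 with ⟨_, _, g1, g2, g3⟩ | ⟨g0, _⟩ | ⟨g0, _⟩ | ⟨_, g0, _⟩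
      · omega
      · exact absurd h0 g0
      · exact absurd h0 g0
      · exact absurd g0 hd
    · rcases ht2 with ⟨g0, _⟩ | ⟨_, _, g1, g2, g3⟩ | ⟨_, g0, _⟩ | ⟨g0, _⟩
      · exact absurd g0 h0
      · omega
      · exact absurd hd g0
      · exact absurd g0 h0
    · exact absurd ⟨fun a => absurd a h0, fun a => absurd a hd⟩ hiff
    · exact absurd ⟨fun _ => hd, fun _ => h0⟩ hiff

/-- Every group has a twin. -/
lemma exists_tw (h : TypeOK δ A) (B : ℕ) : ∃ c x y, Tw δ A B c x y := by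
  by_cases hiff : 0 ∈ A ↔ δ ∈ A
  · obtain ⟨w1, w2, w3, w4, w5, w6⟩ := piv_facts h (inner_nonempty_of_iff h hiff)
    obtain ⟨x, y, hxy⟩ := XY.exists A B (len δ A) 0 (by omega)
    exact ⟨0, x, y, (tw_cyclic hiff).mpr ⟨0, by omega, by simp, hxy⟩⟩
  · by_cases h0 : 0 ∈ A
    · have hd : δ ∉ A := fun hd => hiff ⟨fun _ => hd, fun _ => h0⟩
      exact ⟨_, _, _, Or.inl ⟨h0, hd, rfl, rfl, rfl⟩⟩
    · have hd : δ ∈ A := by
        by_contra hd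
        exact hiff ⟨fun a => absurd a h0, fun a => absurd a hd⟩
      exact ⟨_, _, _, Or.inr (Or.inl ⟨h0, hd, rfl, rfl, rfl⟩)⟩

/-- Every twin and every offset give a pair. -/
lemma exists_pr (h : TypeOK δ A) {B φ c x y : ℕ} (hB : B % 2 = 0) (hB0 : 0 < B)
    (ht : Tw δ A B c x y) (hφ : φ ∈ off δ A) : ∃ c' x' y', Pr δ A B φ c x y c' x' y' := by
  have hr := ht.range h
  have hφδ : φ ≤ δ := by
    by_cases e : φ = δ
    · omega
    · have := h.le φ (mem_off_iff.mp hφ).1 e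
      omega
  by_cases hle : φ ≤ c
  · exact ⟨c - φ, x, y, ht, hφ, Or.inl ⟨hle, by omega, rfl, rfl⟩⟩
  · exact ⟨c + δ - φ, x - 1, y - 1, ht, hφ, Or.inr ⟨by omega, by omega, by omega, by omega⟩⟩

end Pool.Agent.Graceful.D2
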