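import Mathlib

set_option autoImplicit false

/-!
Tiling of the labels `k, k + 1, ...` by pairs `{t, t + δ}` after removal of a set of holes: at most one
hole of index `0` in the classes of `R`, and disjoint pairs of holes (even index, odd index) in the
other classes.
-/

namespace Pool.Agent.Graceful.D2

/-- The holes. -/
def Hole (k δ : ℕ) (R : Set ℕ) (P : ℕ → ℕ → ℕ → Prop) (n : ℕ) : Prop :=
  n ∈ R ∨ ∃ r x y, P r x y ∧ (n = k + r + x * δ ∨ n = k + r + y * δ)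

/-- The upper elements of the tiles, by class and index. -/
def UppC (k : ℕ) (R : Set ℕ) (P : ℕ → ℕ → ℕ → Prop) (r q : ℕ) : Prop :=
  (k + r ∈ R ∧ q % 2 = 0 ∧ q ≠ 0) ∨
  (k + r ∉ R ∧ ((q % 2 = 1 ∧ ∀ x y, P r x y → ¬ (x ≤ q ∧ q ≤ y)) ∨
    (q % 2 = 0 ∧ ∃ x y, P r x y ∧ x < q ∧ q < y)))

/-- The upper elements of the tiles. -/
def Upp (k δ : ℕ) (R : Set ℕ) (P : ℕ → ℕ → ℕ → Prop) (n : ℕ) : Prop :=
  ∃ r q, r < δ ∧ n = k + r + q * δ ∧ UppC k R P r q

variable {k δ : ℕ} {R : Set ℕ} {P : ℕ → ℕ → ℕ → Prop}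

lemma coord_unique {r q r' q' : ℕ} (hr : r < δ) (hr' : r' < δ)
    (h : k + r + q * δ = k + r' + q' * δ) : r = r' ∧ q = q' := by
  have h1 : r + q * δ = r' + q' * δ := by omega
  have h2 : (r + q * δ) % δ = (r' + q' * δ) % δ := by rw [h1]
  rw [Nat.add_mul_mod_self_right, Nat.add_mul_mod_self_right, Nat.mod_eq_of_lt hr,
    Nat.mod_eq_of_lt hr'] at h2
  subst h2
  have h3 : q * δ = q' * δ := by omega
  exact ⟨rfl, Nat.eq_of_mul_eq_mul_right (by omega) h3⟩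

lemma exists_coord (hδ : 0 < δ) {n : ℕ} (hn : k ≤ n) : ∃ r q, r < δ ∧ n = k + r + q * δ := by
  refine ⟨(n - k) % δ, (n - k) / δ, Nat.mod_lt _ hδ, ?_⟩
  have := Nat.mod_add_div (n - k) δ
  rw [mul_comm] at this
  omega

lemma upp_coord {r q : ℕ} (hr : r < δ) : Upp k δ R P (k + r + q * δ) ↔ UppC k R P r q := by
  constructor
  · rintro ⟨r', q', hr', h, hU⟩
    obtain ⟨rfl, rfl⟩ := coord_unique hr hr' h
    exact hU
  · intro h
    exact ⟨r, q, hr, rfl, h⟩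

/-- The hypotheses on the pairs of holes. -/
structure Good (k δ : ℕ) (R : Set ℕ) (P : ℕ → ℕ → ℕ → Prop) : Prop where
  pos : 0 < δ
  hR : ∀ l ∈ R, k ≤ l ∧ l < k + δ
  lt : ∀ r x y, P r x y → r < δ
  even : ∀ r x y, P r x y → x % 2 = 0
  odd : ∀ r x y, P r x y → y % 2 = 1
  le : ∀ r x y, P r x y → x < y
  notR : ∀ r x y, P r x y → k + r ∉ R
  disj : ∀ r x y x' y', P r x y → P r x' y' → (x = x' ∧ y = y') ∨ y < x' ∨ y' < x

variable (hG : Good k δ R P)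
include hG

lemma Good.hole_coord {r q : ℕ} (hr : r < δ) : Hole k δ R P (k + r + q * δ) ↔
    (k + r ∈ R ∧ q = 0) ∨ ∃ x y, P r x y ∧ (q = x ∨ q = y) := by
  constructor
  · rintro (h | ⟨r', x, y, hp, h | h⟩)
    · left
      have h1 := hG.hR _ h
      have hq : q = 0 := by
        by_contra hq
        have : δ ≤ q * δ := Nat.le_mul_of_pos_left δ (by omega)
        omega
      subst hq
      refine ⟨?_, rfl⟩
      simpa using h
    · obtain ⟨rfl, rfl⟩ := coord_unique hr (hG.lt _ _ _ hp) h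
      exact Or.inr ⟨_, _, hp, Or.inl rfl⟩
    · obtain ⟨rfl, rfl⟩ := coord_unique hr (hG.lt _ _ _ hp) h
      exact Or.inr ⟨_, _, hp, Or.inr rfl⟩
  · rintro (⟨h, rfl⟩ | ⟨x, y, hp, rfl | rfl⟩)
    · left; simpa using h
    · exact Or.inr ⟨r, _, y, hp, Or.inl rfl⟩
    · exact Or.inr ⟨r, x, _, hp, Or.inr rfl⟩

lemma Good.upp_imp {n : ℕ} (h : Upp k δ R P n) :
    k + δ ≤ n ∧ ¬ Hole k δ R P n ∧ ¬ Hole k δ R P (n - δ) ∧ ¬ Upp k δ R P (n - δ) := by
  obtain ⟨r, q, hr, rfl, hU⟩ := h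
  have hq : q ≠ 0 := by
    rintro rfl
    rcases hU with ⟨_, _, h⟩ | ⟨_, ⟨h, _⟩ | ⟨_, x, y, _, h, _⟩⟩
    · exact h rfl
    · omega
    · omega
  obtain ⟨p, rfl⟩ := Nat.exists_eq_succ_of_ne_zero hq
  have hs : k + r + (p + 1) * δ - δ = k + r + p * δ := by
    rw [Nat.succ_mul]; omega
  have hs' : (p + 1) * δ = p * δ + δ := Nat.succ_mul p δ
  simp only [Nat.succ_eq_add_one] at *
  refine ⟨by omega, ?_, ?_, ?_⟩
  · rw [hG.hole_coord hr]
    rintro (⟨_, h⟩ | ⟨x, y, hp, h⟩)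
    · omega
    · have he := hG.even _ _ _ hp
      have ho := hG.odd _ _ _ hp
      have hl := hG.le _ _ _ hp
      rcases hU with ⟨h1, _, _⟩ | ⟨_, ⟨h1, h2⟩ | ⟨h1, x', y', hp', h2, h3⟩⟩
      · exact hG.notR _ _ _ hp h1
      · exact h2 x y hp (by omega)
      · rcases hG.disj _ _ _ _ _ hp hp' with ⟨e1, e2⟩ | h4 | h4
        · omega
        · omega
        · omega
  · rw [hs, hG.hole_coord hr]
    rintro (⟨h1, h2⟩ | ⟨x, y, hp, h⟩)
    · subst h2
      rcases hU with ⟨_, h, _⟩ | ⟨h, _⟩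
      · omega
      · exact h h1
    · have he := hG.even _ _ _ hp
      have ho := hG.odd _ _ _ hp
      have hl := hG.le _ _ _ hp
      rcases hU with ⟨h1, _, _⟩ | ⟨_, ⟨h1, h2⟩ | ⟨h1, x', y', hp', h2, h3⟩⟩
      · exact hG.notR _ _ _ hp h1
      · exact h2 x y hp (by omega)
      · rcases hG.disj _ _ _ _ _ hp hp' with ⟨e1, e2⟩ | h4 | h4
        · omega
        · omega
        · omega
  · rw [hs, upp_coord hr]
    intro hU'
    rcases hU with ⟨h1, h1', _⟩ | ⟨h0, ⟨h1, h2⟩ | ⟨h1, x', y', hp', h2, h3⟩⟩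
    · rcases hU' with ⟨_, g1, _⟩ | ⟨g1, _⟩
      · omega
      · exact g1 h1
    · rcases hU' with ⟨g1, _, _⟩ | ⟨_, ⟨g1, _⟩ | ⟨g1, x, y, hp, g2, g3⟩⟩
      · exact h0 g1
      · omega
      · exact h2 x y hp (by omega)
    · rcases hU' with ⟨g1, _, _⟩ | ⟨_, ⟨g1, g2⟩ | ⟨g1, x, y, hp, g2, g3⟩⟩
      · exact h0 g1
      · have := hG.even _ _ _ hp'
        exact g2 x' y' hp' (by omega)
      · omega

lemma Good.cover {l : ℕ} (hl : k ≤ l) :
    Hole k δ R P l ∨ Upp k δ R P l ∨ Upp k δ R P (l + δ) := by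
  obtain ⟨r, q, hr, rfl⟩ := exists_coord hG.pos hl
  have hs : k + r + q * δ + δ = k + r + (q + 1) * δ := by
    rw [Nat.succ_mul]; omega
  rw [hs, upp_coord hr, upp_coord hr, hG.hole_coord hr]
  by_cases hR : k + r ∈ R
  · rcases Nat.mod_two_eq_zero_or_one q with h | h
    · by_cases hq : q = 0
      · exact Or.inl (Or.inl ⟨hR, hq⟩)
      · exact Or.inr (Or.inl (Or.inl ⟨hR, h, hq⟩))
    · exact Or.inr (Or.inr (Or.inl ⟨hR, by omega, by omega⟩))
  · by_cases hex : ∃ x y, P r x y ∧ x ≤ q ∧ q ≤ y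
    · obtain ⟨x, y, hp, h1, h2⟩ := hex
      have he := hG.even _ _ _ hp
      have ho := hG.odd _ _ _ hp
      by_cases e1 : q = x
      · exact Or.inl (Or.inr ⟨x, y, hp, Or.inl e1⟩)
      by_cases e2 : q = y
      · exact Or.inl (Or.inr ⟨x, y, hp, Or.inr e2⟩)
      rcases Nat.mod_two_eq_zero_or_one q with h | h
      · exact Or.inr (Or.inl (Or.inr ⟨hR, Or.inr ⟨h, x, y, hp, by omega, by omega⟩⟩))
      · exact Or.inr (Or.inr (Or.inr ⟨hR, Or.inr ⟨by omega, x, y, hp, by omega, by omega⟩⟩))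
    · push Not at hex
      rcases Nat.mod_two_eq_zero_or_one q with h | h
      · refine Or.inr (Or.inr (Or.inr ⟨hR, Or.inl ⟨by omega, ?_⟩⟩))
        intro x y hp hxy
        have he := hG.even _ _ _ hp
        have := hex x y hp (by omega)
        omega
      · refine Or.inr (Or.inl (Or.inr ⟨hR, Or.inl ⟨h, ?_⟩⟩))
        intro x y hp hxy
        have := hex x y hp hxy.1
        omega

end Pool.Agent.Graceful.D2
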