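import Mathlib
import Pool.Agent.Lib.MP_7616b3_co.D2Tile
import Pool.Agent.Lib.MP_7616b3_co.D2Num

set_option autoImplicit false

namespace Pool.Agent.Graceful.D2

variable {k δ : ℕ} {R : Set ℕ} {𝒯 : Finset (Finset ℕ)}

/-- The offset which makes `k + rho k` odd. -/
def rho (k : ℕ) : ℕ := (k + 1) % 2

/-- A bound for the codes of the types. -/
def tau (𝒯 : Finset (Finset ℕ)) : ℕ := 𝒯.sup Encodable.encode + 1

/-- The base of the group number `s` of the type `A`. -/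
def bas (δ : ℕ) (𝒯 : Finset (Finset ℕ)) (A : Finset ℕ) (s : ℕ) : ℕ :=
  8 * δ * (tau 𝒯 * s + Encodable.encode A + 1)

/-- All pairs of holes. -/
def PP (k δ : ℕ) (𝒯 : Finset (Finset ℕ)) (r x' y' : ℕ) : Prop :=
  ∃ A ∈ 𝒯, ∃ s φ c x y c', r = rho k + c' ∧ Pr δ A (bas δ 𝒯 A s) φ c x y c' x' y'

/-- The numbers of the vertices of the type `A`. -/
def SS (k δ : ℕ) (𝒯 : Finset (Finset ℕ)) (A : Finset ℕ) : Set ℕ :=
  {N | ∃ s c x y z, Tw δ A (bas δ 𝒯 A s) c x y ∧ (z = x ∨ z = y) ∧ N = k + (rho k + c) + z * δ}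

lemma bas_eq_or {A A' : Finset ℕ} (hA : A ∈ 𝒯) (hA' : A' ∈ 𝒯) (s s' : ℕ) :
    (A = A' ∧ s = s') ∨ bas δ 𝒯 A s + 8 * δ ≤ bas δ 𝒯 A' s' ∨
      bas δ 𝒯 A' s' + 8 * δ ≤ bas δ 𝒯 A s := by
  have h1 : Encodable.encode A < tau 𝒯 := Nat.lt_succ_of_le (Finset.le_sup (f := Encodable.encode) hA)
  have h2 : Encodable.encode A' < tau 𝒯 :=
    Nat.lt_succ_of_le (Finset.le_sup (f := Encodable.encode) hA')
  rcases lt_trichotomy (tau 𝒯 * s + Encodable.encode A) (tau 𝒯 * s' + Encodable.encode A')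
    with h | h | h
  · right; left
    unfold bas
    calc 8 * δ * (tau 𝒯 * s + Encodable.encode A + 1) + 8 * δ
        = 8 * δ * (tau 𝒯 * s + Encodable.encode A + 1 + 1) := by ring
      _ ≤ _ := Nat.mul_le_mul_left _ (by omega)
  · left
    have h3 : (tau 𝒯 * s + Encodable.encode A) % tau 𝒯 = Encodable.encode A := by
      rw [Nat.mul_add_mod, Nat.mod_eq_of_lt h1]
    have h4 : (tau 𝒯 * s' + Encodable.encode A') % tau 𝒯 = Encodable.encode A' := by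
      rw [Nat.mul_add_mod, Nat.mod_eq_of_lt h2]
    have h5 : Encodable.encode A = Encodable.encode A' := by rw [← h3, ← h4, h]
    refine ⟨Encodable.encode_injective h5, ?_⟩
    rw [h5] at h
    have h6 : tau 𝒯 * s = tau 𝒯 * s' := by omega
    exact Nat.eq_of_mul_eq_mul_left (by unfold tau; omega) h6
  · right; right
    unfold bas
    calc 8 * δ * (tau 𝒯 * s' + Encodable.encode A' + 1) + 8 * δ
        = 8 * δ * (tau 𝒯 * s' + Encodable.encode A' + 1 + 1) := by ring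
      _ ≤ _ := Nat.mul_le_mul_left _ (by omega)

lemma bas_even (A : Finset ℕ) (s : ℕ) : bas δ 𝒯 A s % 2 = 0 := by
  unfold bas
  rw [show 8 * δ * (tau 𝒯 * s + Encodable.encode A + 1) =
    2 * (4 * δ * (tau 𝒯 * s + Encodable.encode A + 1)) by ring]
  exact Nat.mul_mod_right _ _

lemma le_bas (A : Finset ℕ) (s : ℕ) : 8 * δ ≤ bas δ 𝒯 A s := by
  unfold bas
  exact Nat.le_mul_of_pos_right _ (by omega)

lemma le_bas' (hδ : 0 < δ) (A : Finset ℕ) (s : ℕ) : s ≤ bas δ 𝒯 A s := by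
  unfold bas
  have h1 : s ≤ tau 𝒯 * s := Nat.le_mul_of_pos_left _ (by unfold tau; omega)
  calc s ≤ tau 𝒯 * s + Encodable.encode A + 1 := by omega
    _ ≤ _ := Nat.le_mul_of_pos_left _ (by omega)

variable (hk : 1 ≤ k) (h4 : 4 ∣ δ) (hδ : 0 < δ) (hR : ∀ l ∈ R, l % 2 = 0 ∧ k ≤ l ∧ l < k + δ)
  (hT : ∀ A ∈ 𝒯, TypeOK δ A)

include hT in
lemma PP.odd_class {r x y : ℕ} (h : PP k δ 𝒯 r x y) : (k + r) % 2 = 1 := by
  obtain ⟨A, hA, s, φ, c, x0, y0, c', rfl, hp⟩ := h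
  have := hp.facts (hT A hA) (bas_even A s)
  unfold rho
  omega

include h4 hδ hR hT in
lemma good_PP : Good k δ R (PP k δ 𝒯) where
  pos := hδ
  hR := fun l hl => (hR l hl).2
  lt := by
    rintro r x y ⟨A, hA, s, φ, c, x0, y0, c', rfl, hp⟩
    have := hp.facts (hT A hA) (bas_even A s)
    unfold rho
    omega
  even := by
    rintro r x y ⟨A, hA, s, φ, c, x0, y0, c', rfl, hp⟩
    exact (hp.facts (hT A hA) (bas_even A s)).2.2.1
  odd := by
    rintro r x y ⟨A, hA, s, φ, c, x0, y0, c', rfl, hp⟩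
    exact (hp.facts (hT A hA) (bas_even A s)).2.2.2.1
  le := by
    rintro r x y ⟨A, hA, s, φ, c, x0, y0, c', rfl, hp⟩
    exact (hp.facts (hT A hA) (bas_even A s)).2.2.2.2.1
  notR := by
    intro r x y h hr
    have h1 := h.odd_class hT
    have h2 := (hR _ hr).1
    omega
  disj := by
    rintro r x y x' y' ⟨A, hA, s, φ, c, x0, y0, c', rfl, hp⟩
      ⟨A2, hA2, s2, φ2, c2, x02, y02, c2', hc, hp2⟩
    have hcc : c' = c2' := by omega
    subst hcc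
    have f1 := hp.facts (hT A hA) (bas_even A s)
    have f2 := hp2.facts (hT A2 hA2) (bas_even A2 s2)
    rcases bas_eq_or (δ := δ) hA hA2 s s2 with ⟨e1, e2⟩ | h | h
    · subst e1 e2
      obtain ⟨u1, u2, u3, u4⟩ := hp.uniq (hT A hA) hp2
      have s1 := hp.2.2
      have s2 := hp2.2.2
      subst u1 u2 u3 u4
      omega
    · omega
    · omega

include hδ h4 in
lemma SS.facts (hT : ∀ A ∈ 𝒯, TypeOK δ A) {A : Finset ℕ} (hA : A ∈ 𝒯) {N : ℕ}
    (h : N ∈ SS k δ 𝒯 A) : N % 2 = 1 ∧ δ < N ∧ k ≤ N := by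
  obtain ⟨s, c, x, y, z, ht, hz, rfl⟩ := h
  obtain ⟨h1, h2, h3, h4', h5⟩ := ht.range (hT A hA)
  have h6 := le_bas (δ := δ) (𝒯 := 𝒯) A s
  have h7 : 8 * δ ≤ z := by omega
  have h8 : z ≤ z * δ := Nat.le_mul_of_pos_right _ hδ
  have h9 : (z * δ) % 2 = 0 := by
    obtain ⟨d, rfl⟩ := h4
    rw [show z * (4 * d) = 2 * (2 * z * d) by ring]
    exact Nat.mul_mod_right _ _
  refine ⟨?_, by omega, by omega⟩
  unfold rho
  omega

include h4 hδ in
lemma SS.infinite (hT : ∀ A ∈ 𝒯, TypeOK δ A) {A : Finset ℕ} (hA : A ∈ 𝒯) :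
    (SS k δ 𝒯 A).Infinite := by
  rw [← Set.not_finite]
  intro hfin
  obtain ⟨M, hM⟩ := hfin.bddAbove
  obtain ⟨c, x, y, ht⟩ := exists_tw (hT A hA) (bas δ 𝒯 A (M + 1))
  have h1 : k + (rho k + c) + x * δ ∈ SS k δ 𝒯 A := ⟨M + 1, c, x, y, x, ht, Or.inl rfl, rfl⟩
  have h2 := hM h1
  have h3 := (ht.range (hT A hA)).2.2.1
  have h4 := le_bas' (𝒯 := 𝒯) hδ A (M + 1)
  have h5 : x ≤ x * δ := Nat.le_mul_of_pos_right _ hδ
  omega

include h4 hδ in
/-- A number determines the type. -/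
lemma SS.type_eq (hT : ∀ A ∈ 𝒯, TypeOK δ A) {A A' : Finset ℕ} (hA : A ∈ 𝒯) (hA' : A' ∈ 𝒯) {N : ℕ}
    (h : N ∈ SS k δ 𝒯 A) (h' : N ∈ SS k δ 𝒯 A') : A = A' := by
  obtain ⟨s, c, x, y, z, ht, hz, hN⟩ := h
  obtain ⟨s', c', x', y', z', ht', hz', hN'⟩ := h'
  obtain ⟨h1, h2, h3, h4', h5⟩ := ht.range (hT A hA)
  obtain ⟨g1, g2, g3, g4, g5⟩ := ht'.range (hT A' hA')
  have hr : rho k + c < δ := by unfold rho; omega
  have hr' : rho k + c' < δ := by unfold rho; omega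
  obtain ⟨_, e⟩ := coord_unique hr hr' (hN.symm.trans hN')
  rcases bas_eq_or (δ := δ) hA hA' s s' with h | h | h
  · exact h.1
  · omega
  · omega

include h4 hδ hR hT in
lemma SS.not_upp {A : Finset ℕ} (hA : A ∈ 𝒯) (hn : ¬ (0 ∈ A ∧ δ ∈ A)) {N : ℕ}
    (h : N ∈ SS k δ 𝒯 A) : ¬ Upp k δ R (PP k δ 𝒯) N := by
  obtain ⟨s, c, x, y, z, ht, hz, rfl⟩ := h
  obtain ⟨h1, h2, h3, h4', h5⟩ := ht.range (hT A hA)
  have hr : rho k + c < δ := by unfold rho; omega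
  rw [upp_coord hr]
  obtain ⟨n1, n2⟩ := num_not_upp (hT A hA) hn (bas_even A s) ht hz
  rintro (⟨g1, _⟩ | ⟨_, ⟨g1, g2⟩ | ⟨g1, x2, y2, hp, g2, g3⟩⟩)
  · have := (hR _ g1).1
    unfold rho at this
    omega
  · obtain ⟨φ, c2, x2, y2, x', y', hp, i1, i2⟩ := n1 g1
    exact g2 x' y' ⟨A, hA, s, φ, c2, x2, y2, c, rfl, hp⟩ ⟨i1, i2⟩
  · obtain ⟨A2, hA2, s2, φ, c2, x3, y3, c', hc, hp⟩ := hp
    have hcc : c = c' := by omega
    subst hcc
    have f2 := hp.facts (hT A2 hA2) (bas_even A2 s2)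
    rcases bas_eq_or (δ := δ) hA hA2 s s2 with ⟨e1, e2⟩ | h | h
    · subst e1 e2
      exact n2 g1 φ c2 x3 y3 x2 y2 hp ⟨g2, g3⟩
    · omega
    · omega

include h4 hδ hR hT in
lemma SS.upp {A : Finset ℕ} (hA : A ∈ 𝒯) (h0 : 0 ∈ A) (hd : δ ∈ A) {N : ℕ}
    (h : N ∈ SS k δ 𝒯 A) : Upp k δ R (PP k δ 𝒯) N := by
  obtain ⟨s, c, x, y, z, ht, hz, rfl⟩ := h
  obtain ⟨h1, h2, h3, h4', h5⟩ := ht.range (hT A hA)
  have hr : rho k + c < δ := by unfold rho; omega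
  rw [upp_coord hr]
  obtain ⟨n1, n2⟩ := num_upp (hT A hA) h0 hd (bas_even A s) ht hz
  right
  constructor
  · intro g1
    have := (hR _ g1).1
    unfold rho at this
    omega
  · rcases Nat.mod_two_eq_zero_or_one z with g | g
    · right
      obtain ⟨φ, c2, x2, y2, x', y', hp, i1, i2⟩ := n2 g
      exact ⟨g, x', y', ⟨A, hA, s, φ, c2, x2, y2, c, rfl, hp⟩, i1, i2⟩
    · left
      refine ⟨g, ?_⟩
      rintro x2 y2 ⟨A2, hA2, s2, φ, c2, x3, y3, c', hc, hp⟩ ⟨i1, i2⟩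
      have hcc : c = c' := by omega
      subst hcc
      have f2 := hp.facts (hT A2 hA2) (bas_even A2 s2)
      rcases bas_eq_or (δ := δ) hA hA2 s s2 with ⟨e1, e2⟩ | h | h
      · subst e1 e2
        exact n1 g φ c2 x3 y3 x2 y2 hp ⟨i1, i2⟩
      · omega
      · omega

/-- `l` is the label of `N` at the offset `φ`, a hole. -/
def HL (k δ : ℕ) (𝒯 : Finset (Finset ℕ)) (N φ l : ℕ) : Prop :=
  ∃ A ∈ 𝒯, ∃ s c x y c' x' y', Pr δ A (bas δ 𝒯 A s) φ c x y c' x' y' ∧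
    ((N = k + (rho k + c) + x * δ ∧ l = k + (rho k + c') + x' * δ) ∨
     (N = k + (rho k + c) + y * δ ∧ l = k + (rho k + c') + y' * δ))

include hT in
lemma HL.add {N φ l : ℕ} (h : HL k δ 𝒯 N φ l) : N = φ + l := by
  obtain ⟨A, hA, s, c, x, y, c', x', y', hp, h⟩ := h
  have f := hp.facts (hT A hA) (bas_even A s)
  have f1 := f.2.2.2.2.2.2.2.1 (k + rho k)
  have f2 := f.2.2.2.2.2.2.2.2 (k + rho k)
  omega

include h4 hδ hT in
lemma exists_HL {A : Finset ℕ} (hA : A ∈ 𝒯) {N φ : ℕ} (hN : N ∈ SS k δ 𝒯 A) (hφ : φ ∈ off δ A) :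
    ∃ l, HL k δ 𝒯 N φ l := by
  obtain ⟨s, c, x, y, z, ht, hz, rfl⟩ := hN
  have h8 := le_bas (δ := δ) (𝒯 := 𝒯) A s
  obtain ⟨c', x', y', hp⟩ := exists_pr (hT A hA) (bas_even A s) (by omega) ht hφ
  rcases hz with rfl | rfl
  · exact ⟨_, A, hA, s, c, z, y, c', x', y', hp, Or.inl ⟨rfl, rfl⟩⟩
  · exact ⟨_, A, hA, s, c, x, z, c', x', y', hp, Or.inr ⟨rfl, rfl⟩⟩

lemma HL.hole {N φ l : ℕ} (h : HL k δ 𝒯 N φ l) : Hole k δ R (PP k δ 𝒯) l := by
  obtain ⟨A, hA, s, c, x, y, c', x', y', hp, h⟩ := h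
  right
  refine ⟨rho k + c', x', y', ⟨A, hA, s, φ, c, x, y, c', rfl, hp⟩, ?_⟩
  rcases h with h | h
  · exact Or.inl h.2
  · exact Or.inr h.2

include hT h4 hδ in
lemma HL.not_even {N φ l : ℕ} (h : HL k δ 𝒯 N φ l) : l % 2 = 1 ∧ k ≤ l := by
  obtain ⟨A, hA, s, c, x, y, c', x', y', hp, h⟩ := h
  have f := hp.facts (hT A hA) (bas_even A s)
  have hz : ∀ z : ℕ, (z * δ) % 2 = 0 := by
    intro z
    obtain ⟨d, rfl⟩ := h4
    rw [show z * (4 * d) = 2 * (2 * z * d) by ring]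
    exact Nat.mul_mod_right _ _
  have h1 := hz x'
  have h2 := hz y'
  unfold rho at h
  omega

include hT h4 hδ in
lemma HL.inj {N φ N2 φ2 l : ℕ} (h : HL k δ 𝒯 N φ l) (h2 : HL k δ 𝒯 N2 φ2 l) :
    N = N2 ∧ φ = φ2 := by
  have a1 := h.add hT
  have a2 := h2.add hT
  obtain ⟨A, hA, s, c, x, y, c', x', y', hp, h⟩ := h
  obtain ⟨A2, hA2, s2, c2, x2, y2, c2', x2', y2', hp2, h2⟩ := h2
  have f1 := hp.facts (hT A hA) (bas_even A s)
  have f2 := hp2.facts (hT A2 hA2) (bas_even A2 s2)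
  have hr : rho k + c' < δ := by unfold rho; omega
  have hr' : rho k + c2' < δ := by unfold rho; omega
  have key : c' = c2' ∧ ((x' ≤ y2' ∧ x2' ≤ y')) := by
    rcases h with h | h <;> rcases h2 with h2 | h2 <;>
    · obtain ⟨e1, e2⟩ := coord_unique hr hr' (h.2.symm.trans h2.2)
      omega
  obtain ⟨rfl, k1, k2⟩ := key
  rcases bas_eq_or (δ := δ) hA hA2 s s2 with ⟨e1, e2⟩ | hb | hb
  · subst e1 e2
    obtain ⟨u1, u2, u3, u4⟩ := hp.uniq (hT A hA) hp2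
    omega
  · omega
  · omega

include hk h4 hδ hR hT in
/-- The combinatorial core. -/
theorem core : ∃ (S : Finset ℕ → Set ℕ) (I : Set ℕ),
    (∀ A ∈ insert {0, δ} 𝒯, (S A).Infinite) ∧ I.Infinite ∧
    (∀ A ∈ insert {0, δ} 𝒯, ∀ N ∈ S A, δ < N) ∧ (∀ N ∈ I, δ < N) ∧
    (∀ A ∈ insert {0, δ} 𝒯, ∀ A' ∈ insert {0, δ} 𝒯, ∀ N ∈ S A, N ∈ S A' → A = A') ∧
    (∀ A ∈ insert {0, δ} 𝒯, ∀ N ∈ S A, N ∉ I) ∧
    (∀ A ∈ insert {0, δ} 𝒯, ∀ N ∈ S A, ∀ φ ∈ A, ∃ l, N = φ + l ∧ k ≤ l ∧ l ∉ R) ∧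
    (∀ A ∈ insert {0, δ} 𝒯, ∀ N ∈ S A, ∀ φ ∈ A, ∀ A' ∈ insert {0, δ} 𝒯, ∀ N' ∈ S A', ∀ φ' ∈ A',
      N + φ' = N' + φ → N = N' ∧ φ = φ') ∧
    (∀ l, k ≤ l → l ∉ R → ∃ A ∈ insert {0, δ} 𝒯, ∃ N ∈ S A, ∃ φ ∈ A, N = φ + l) := by
  classical
  have hG := good_PP h4 hδ hR hT
  have h0δ : ({0, δ} : Finset ℕ) ∉ 𝒯 := by
    intro h
    rcases (hT _ h).ne with h1 | ⟨_, h1⟩ | ⟨h1, _⟩
    · obtain ⟨x, hx⟩ := h1
      rw [mem_inner] at hx
      have := hx.2.2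
      simp only [Finset.mem_insert, Finset.mem_singleton] at this
      omega
    · exact h1 (by simp)
    · exact h1 (by simp)
  set U : Set ℕ := {N | Upp k δ R (PP k δ 𝒯) N} with hU
  set S : Finset ℕ → Set ℕ := fun A =>
    if A = {0, δ} then {N | N ∈ U ∧ ∀ A' ∈ 𝒯, N ∉ SS k δ 𝒯 A'} else SS k δ 𝒯 A with hS
  set I : Set ℕ := {N | N % 2 = 0 ∧ δ < N ∧ N ∉ U} with hI
  have hS0 : ∀ N, N ∈ S {0, δ} ↔ (N ∈ U ∧ ∀ A' ∈ 𝒯, N ∉ SS k δ 𝒯 A') := by
    intro N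
    simp only [hS, if_true]
    exact Iff.rfl
  have hSA : ∀ A ∈ 𝒯, S A = SS k δ 𝒯 A := by
    intro A hA
    simp only [hS]
    rw [if_neg]
    rintro rfl
    exact h0δ hA
  -- every label is a hole label or a tile label
  have hkind : ∀ A ∈ insert {0, δ} 𝒯, ∀ N ∈ S A, ∀ φ ∈ A,
      (∃ l, HL k δ 𝒯 N φ l) ∨ (N ∈ U ∧ (φ = 0 ∨ φ = δ)) := by
    intro A hA N hN φ hφ
    rcases Finset.mem_insert.mp hA with rfl | hA
    · right
      refine ⟨((hS0 N).mp hN).1, ?_⟩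
      simpa using hφ
    · rw [hSA A hA] at hN
      by_cases h : φ ∈ off δ A
      · exact Or.inl (exists_HL h4 hδ hT hA hN h)
      · rw [mem_off_iff] at h
        push Not at h
        obtain ⟨g0, gd, g⟩ := h hφ
        right
        refine ⟨SS.upp h4 hδ hR hT hA g0 gd hN, ?_⟩
        by_cases e : φ = 0
        · exact Or.inl e
        · exact Or.inr (g e)
  have hUδ : ∀ N ∈ U, k + δ ≤ N := fun N hN => (hG.upp_imp hN).1
  have hpar : ∀ q, (q * δ) % 2 = 0 := by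
    intro z
    obtain ⟨d, rfl⟩ := h4
    rw [show z * (4 * d) = 2 * (2 * z * d) by ring]
    exact Nat.mul_mod_right _ _
  -- the even class
  have hev : ∀ q, UppC k R (PP k δ 𝒯) (k % 2) q ↔
      ((k + k % 2 ∈ R ∧ q % 2 = 0 ∧ q ≠ 0) ∨ (k + k % 2 ∉ R ∧ q % 2 = 1)) := by
    intro q
    have hno : ∀ x y, ¬ PP k δ 𝒯 (k % 2) x y := by
      intro x y h
      have := h.odd_class hT
      omega
    constructor
    · rintro (h | ⟨h1, ⟨h2, _⟩ | ⟨h2, x, y, h3, _⟩⟩)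
      · exact Or.inl h
      · exact Or.inr ⟨h1, h2⟩
      · exact absurd h3 (hno x y)
    · rintro (h | ⟨h1, h2⟩)
      · exact Or.inl h
      · exact Or.inr ⟨h1, Or.inl ⟨h2, fun x y h => absurd h (hno x y)⟩⟩
  have hk2 : k % 2 < δ := by omega
  refine ⟨S, I, ?_, ?_, ?_, ?_, ?_, ?_, ?_, ?_, ?_⟩
  · intro A hA
    rcases Finset.mem_insert.mp hA with rfl | hA
    · rw [← Set.not_finite]
      intro hfin
      obtain ⟨M, hM⟩ := hfin.bddAbove
      have hc : ∃ q, M < q ∧ UppC k R (PP k δ 𝒯) (k % 2) q := by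
        by_cases h : k + k % 2 ∈ R
        · exact ⟨2 * (M + 1), by omega, (hev _).mpr (Or.inl ⟨h, by omega, by omega⟩)⟩
        · exact ⟨2 * (M + 1) + 1, by omega, (hev _).mpr (Or.inr ⟨h, by omega⟩)⟩
      obtain ⟨q, hq, hc⟩ := hc
      have h1 : k + k % 2 + q * δ ∈ S {0, δ} := by
        rw [hS0]
        refine ⟨(upp_coord hk2).mpr hc, ?_⟩
        intro A' hA' h
        have := SS.facts h4 hδ hT hA' h
        have := hpar q
        omega
      have h2 := hM h1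
      have h3 : q ≤ q * δ := Nat.le_mul_of_pos_right _ hδ
      omega
    · rw [hSA A hA]
      exact SS.infinite h4 hδ hT hA
  · rw [← Set.not_finite]
    intro hfin
    obtain ⟨M, hM⟩ := hfin.bddAbove
    have hc : ∃ q, M < q ∧ 2 ≤ q ∧ ¬ UppC k R (PP k δ 𝒯) (k % 2) q := by
      by_cases h : k + k % 2 ∈ R
      · refine ⟨2 * (M + 1) + 1, by omega, by omega, ?_⟩
        rw [hev]
        rintro (⟨_, g, _⟩ | ⟨g, _⟩)
        · omega
        · exact g h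
      · refine ⟨2 * (M + 1), by omega, by omega, ?_⟩
        rw [hev]
        rintro (⟨g, _⟩ | ⟨_, g⟩)
        · exact h g
        · omega
    obtain ⟨q, hq, hq2, hc⟩ := hc
    have h3 : q ≤ q * δ := Nat.le_mul_of_pos_right _ hδ
    have h5 : 2 * δ ≤ q * δ := Nat.mul_le_mul_right _ hq2
    have h1 : k + k % 2 + q * δ ∈ I := by
      refine ⟨?_, by omega, ?_⟩
      · have := hpar q
        omega
      · intro h
        exact hc ((upp_coord hk2).mp h)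
    have h2 := hM h1
    omega
  · intro A hA N hN
    rcases Finset.mem_insert.mp hA with rfl | hA
    · have := hUδ N ((hS0 N).mp hN).1
      omega
    · rw [hSA A hA] at hN
      exact (SS.facts h4 hδ hT hA hN).2.1
  · intro N hN
    exact hN.2.1
  · intro A hA A' hA' N hN hN'
    rcases Finset.mem_insert.mp hA with rfl | hA <;> rcases Finset.mem_insert.mp hA' with rfl | hA'
    · rfl
    · rw [hSA A' hA'] at hN'
      exact absurd hN' (((hS0 N).mp hN).2 A' hA')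
    · rw [hSA A hA] at hN
      exact absurd hN (((hS0 N).mp hN').2 A hA)
    · rw [hSA A hA] at hN
      rw [hSA A' hA'] at hN'
      exact SS.type_eq h4 hδ hT hA hA' hN hN'
  · intro A hA N hN hNI
    rcases Finset.mem_insert.mp hA with rfl | hA
    · exact hNI.2.2 ((hS0 N).mp hN).1
    · rw [hSA A hA] at hN
      have := (SS.facts h4 hδ hT hA hN).1
      have := hNI.1
      omega
  · intro A hA N hN φ hφ
    rcases hkind A hA N hN φ hφ with ⟨l, hl⟩ | ⟨h1, h2⟩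
    · refine ⟨l, hl.add hT, (hl.not_even h4 hδ hT).2, ?_⟩
      intro h
      have := (hR l h).1
      have := (hl.not_even h4 hδ hT).1
      omega
    · obtain ⟨g1, g2, g3, g4⟩ := hG.upp_imp h1
      rcases h2 with rfl | rfl
      · exact ⟨N, by omega, by omega, fun h => g2 (Or.inl h)⟩
      · exact ⟨N - φ, by omega, by omega, fun h => g3 (Or.inl h)⟩
  · intro A hA N hN φ hφ A' hA' N' hN' φ' hφ' heq
    rcases hkind A hA N hN φ hφ with ⟨l, hl⟩ | ⟨h1, h2⟩ <;>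
      rcases hkind A' hA' N' hN' φ' hφ' with ⟨l', hl'⟩ | ⟨h1', h2'⟩
    · have e1 := hl.add hT
      have e2 := hl'.add hT
      have e : l = l' := by omega
      subst e
      exact hl.inj h4 hδ hT hl'
    · exfalso
      have e1 := hl.add hT
      obtain ⟨g1, g2, g3, g4⟩ := hG.upp_imp h1'
      have hh : Hole k δ R (PP k δ 𝒯) l := hl.hole
      rcases h2' with rfl | rfl
      · exact g2 (by rw [show N' = l by omega]; exact hh)
      · exact g3 (by rw [show N' - φ' = l by omega]; exact hh)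
    · exfalso
      have e1 := hl'.add hT
      obtain ⟨g1, g2, g3, g4⟩ := hG.upp_imp h1
      have hh : Hole k δ R (PP k δ 𝒯) l' := hl'.hole
      rcases h2 with rfl | rfl
      · exact g2 (by rw [show N = l' by omega]; exact hh)
      · exact g3 (by rw [show N - φ = l' by omega]; exact hh)
    · obtain ⟨g1, g2, g3, g4⟩ := hG.upp_imp h1
      obtain ⟨g1', g2', g3', g4'⟩ := hG.upp_imp h1'
      rcases h2 with rfl | rfl <;> rcases h2' with rfl | rfl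
      · exact ⟨by omega, rfl⟩
      · exact absurd (by rw [show N' - φ' = N by omega]; exact h1) g4'
      · exact absurd (by rw [show N - φ = N' by omega]; exact h1') g4
      · exact ⟨by omega, rfl⟩
  · intro l hl hlR
    have hUS : ∀ N ∈ U, ∃ A ∈ insert {0, δ} 𝒯, N ∈ S A ∧ 0 ∈ A ∧ δ ∈ A := by
      intro N hN
      by_cases h : ∃ A ∈ 𝒯, N ∈ SS k δ 𝒯 A
      · obtain ⟨A, hA, h⟩ := h
        refine ⟨A, Finset.mem_insert_of_mem hA, by rw [hSA A hA]; exact h, ?_⟩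
        by_contra hcon
        exact SS.not_upp h4 hδ hR hT hA hcon h hN
      · push Not at h
        exact ⟨{0, δ}, Finset.mem_insert_self _ _, (hS0 N).mpr ⟨hN, h⟩, by simp, by simp⟩
    rcases hG.cover hl with h | h | h
    · rcases h with h | ⟨r, x', y', ⟨A, hA, s, φ, c, x, y, c', rfl, hp⟩, hxy⟩
      · exact absurd h hlR
      · have hφ := (mem_off_iff.mp hp.2.1).1
        have f := hp.facts (hT A hA) (bas_even A s)
        have f1 := f.2.2.2.2.2.2.2.1 (k + rho k)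
        have f2 := f.2.2.2.2.2.2.2.2 (k + rho k)
        rcases hxy with hxy | hxy
        · refine ⟨A, Finset.mem_insert_of_mem hA, k + (rho k + c) + x * δ, ?_, φ, hφ, by omega⟩
          rw [hSA A hA]
          exact ⟨s, c, x, y, x, hp.1, Or.inl rfl, rfl⟩
        · refine ⟨A, Finset.mem_insert_of_mem hA, k + (rho k + c) + y * δ, ?_, φ, hφ, by omega⟩
          rw [hSA A hA]
          exact ⟨s, c, x, y, y, hp.1, Or.inr rfl, rfl⟩
    · obtain ⟨A, hA, hN, h0, _⟩ := hUS l h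
      exact ⟨A, hA, l, hN, 0, h0, by omega⟩
    · obtain ⟨A, hA, hN, _, hd⟩ := hUS (l + δ) h
      exact ⟨A, hA, l + δ, hN, δ, hd, by omega⟩

end Pool.Agent.Graceful.D2
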