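import Mathlib
import Pool.Agent.Lib.MP_7616b3_co.Insert

set_option autoImplicit false

namespace Pool.Agent.Graceful

universe u

variable {V : Type u} {G : SimpleGraph V} {k : ℕ}

/-- A convenient criterion for a numbering to be `k`-graceful. -/
lemma graceful_of (f : V → ℕ) (hinj : Function.Injective f)
    (h1 : ∀ u v, G.Adj u v → f u < f v → k ≤ f v - f u)
    (h2 : ∀ u v u' v', G.Adj u v → G.Adj u' v' → f u < f v → f u' < f v' →
      f v - f u = f v' - f u' → u = u' ∧ v = v')
    (h3 : ∀ l, k ≤ l → ∃ u v, G.Adj u v ∧ f u < f v ∧ f v - f u = l) :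
    IsKGracefulNumbering G k f := by
  have key : ∀ u v, G.Adj u v → ∃ u' v', G.Adj u' v' ∧ s(u', v') = s(u, v) ∧ f u' < f v' ∧
      edgeLabel f s(u, v) = f v' - f u' := by
    intro u v huv
    have hne : f u ≠ f v := fun h => huv.ne (hinj h)
    rcases lt_or_gt_of_ne hne with h | h
    · refine ⟨u, v, huv, rfl, h, ?_⟩
      rw [edgeLabel_eq_iff]; omega
    · refine ⟨v, u, huv.symm, Sym2.eq_swap, h, ?_⟩
      rw [edgeLabel_eq_iff]; omega
  refine ⟨hinj, ?_, ?_, ?_⟩
  · intro e he
    induction e with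
    | _ u v =>
      obtain ⟨u', v', ha, _, hlt, hl⟩ := key u v he
      rw [Set.mem_Ici, hl]
      exact h1 u' v' ha hlt
  · intro e he e' he' heq
    induction e with
    | _ u v =>
      induction e' with
      | _ x y =>
        obtain ⟨u', v', ha, hs, hlt, hl⟩ := key u v he
        obtain ⟨x', y', hb, ht, hlt', hl'⟩ := key x y he'
        rw [hl, hl'] at heq
        obtain ⟨rfl, rfl⟩ := h2 u' v' x' y' ha hb hlt hlt' heq
        rw [← hs, ← ht]
  · intro l hl
    obtain ⟨u, v, ha, hlt, he⟩ := h3 l hl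
    refine ⟨s(u, v), ha, ?_⟩
    rw [edgeLabel_eq_iff]; omega

/-- A graph without infinite matching has a finite vertex cover. -/
lemma exists_cover (hM : ¬ HasInfiniteMatching G) :
    ∃ W : Finset V, ∀ u v, G.Adj u v → u ∈ W ∨ v ∈ W := by
  classical
  by_contra hcon
  push Not at hcon
  apply hM
  obtain ⟨f, hf, hr⟩ := exists_seq_of_forall_finset_exists (α := V × V)
    (fun q => G.Adj q.1 q.2) (fun q r => r.1 ≠ q.1 ∧ r.1 ≠ q.2 ∧ r.2 ≠ q.1 ∧ r.2 ≠ q.2) (by
      intro s _
      obtain ⟨u, v, huv, hu, hv⟩ := hcon (s.image Prod.fst ∪ s.image Prod.snd)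
      refine ⟨(u, v), huv, ?_⟩
      intro q hq
      refine ⟨?_, ?_, ?_, ?_⟩
      · rintro h; exact hu (Finset.mem_union_left _ (Finset.mem_image.mpr ⟨q, hq, h.symm⟩))
      · rintro h; exact hu (Finset.mem_union_right _ (Finset.mem_image.mpr ⟨q, hq, h.symm⟩))
      · rintro h; exact hv (Finset.mem_union_left _ (Finset.mem_image.mpr ⟨q, hq, h.symm⟩))
      · rintro h; exact hv (Finset.mem_union_right _ (Finset.mem_image.mpr ⟨q, hq, h.symm⟩)))
  have hdisj : ∀ m n, m ≠ n → ∀ v, v ∈ s((f m).1, (f m).2) → v ∉ s((f n).1, (f n).2) := by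
    have haux : ∀ m n, m < n → ∀ v, v ∈ s((f m).1, (f m).2) → v ∉ s((f n).1, (f n).2) := by
      intro m n hmn v hv hv'
      obtain ⟨a1, a2, a3, a4⟩ := hr m n hmn
      rw [Sym2.mem_iff] at hv hv'
      rcases hv with hv | hv <;> rcases hv' with hv' | hv'
      · exact a1 (hv'.symm.trans hv)
      · exact a3 (hv'.symm.trans hv)
      · exact a2 (hv'.symm.trans hv)
      · exact a4 (hv'.symm.trans hv)
    intro m n hmn v hv hv'
    rcases lt_or_gt_of_ne hmn with h | h
    · exact haux m n h v hv hv'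
    · exact haux n m h v hv' hv
  refine ⟨Set.range (fun n => s((f n).1, (f n).2)), ?_, ?_, ?_⟩
  · apply Set.infinite_range_of_injective
    intro m n hmn
    by_contra hne
    have hmn' : s((f m).1, (f m).2) = s((f n).1, (f n).2) := hmn
    exact hdisj m n hne (f m).1 (Sym2.mem_mk_left _ _) (hmn' ▸ Sym2.mem_mk_left _ _)
  · rintro e ⟨n, rfl⟩
    exact hf n
  · rintro e ⟨m, rfl⟩ e' ⟨n, rfl⟩ hne v hv
    exact hdisj m n (fun h => hne (by rw [h])) v hv

namespace PL

/-- Extend a partial labelling to finitely many more vertices, all placed to the right. -/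
lemma exists_extend (p : PL G k) (S : Finset V) :
    ∃ q : PL G k, p ≤ q ∧ (∀ x, x ∈ q.dom ↔ x ∈ S ∨ x ∈ p.dom) ∧
      ∀ x ∈ S, x ∉ p.dom → ∀ y ∈ p.dom, q.f y < q.f x := by
  classical
  induction S using Finset.induction_on with
  | empty => exact ⟨p, le_refl p, by simp, by simp⟩
  | insert a S ha ih =>
    obtain ⟨q, hpq, hdom, hlt⟩ := ih
    by_cases haq : a ∈ q.dom
    · refine ⟨q, hpq, ?_, ?_⟩
      · intro x
        rw [hdom, Finset.mem_insert]
        constructor
        · rintro (h | h)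
          · exact Or.inl (Or.inr h)
          · exact Or.inr h
        · rintro ((rfl | h) | h)
          · exact (hdom x).mp haq
          · exact Or.inl h
          · exact Or.inr h
      · intro x hx hxp y hy
        rw [Finset.mem_insert] at hx
        rcases hx with rfl | hx
        · rcases (hdom x).mp haq with h | h
          · exact absurd h ha
          · exact absurd h hxp
        · exact hlt x hx hxp y hy
    · obtain ⟨B, _, hkB, hB, hB'⟩ := q.exists_bound 0
      obtain ⟨r, hqr, hdomr, hra, _, hrx⟩ :=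
        q.exists_insert_far a (2 * B) B haq hkB hB hB' le_rfl
      refine ⟨r, hpq.trans hqr, ?_, ?_⟩
      · intro x
        rw [hdomr, hdom, Finset.mem_insert]
        tauto
      · intro x hx hxp y hy
        have hyq : y ∈ q.dom := hpq.1 hy
        rw [Finset.mem_insert] at hx
        rcases hx with rfl | hx
        · rw [hra, hrx y hyq]
          have := hB y hyq
          omega
        · have hxq : x ∈ q.dom := (hdom x).mpr (Or.inl hx)
          rw [hrx x hxq, hrx y hyq]
          exact hlt x hx hxp y hy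

end PL

/-- Place a finite set of vertices with `c` to the right of all others. -/
lemma exists_placed (S : Finset V) (c : V) (hc : c ∉ S) :
    ∃ q : PL G k, (∀ x, x ∈ q.dom ↔ x ∈ S ∨ x = c) ∧ ∀ x ∈ S, q.f x < q.f c := by
  obtain ⟨q1, _, hdom1, _⟩ := (PL.empty (G := G) (k := k)).exists_extend S
  obtain ⟨q, hq1q, hdom, hlt⟩ := q1.exists_extend {c}
  have h1 : ∀ x, x ∈ q1.dom ↔ x ∈ S := fun x => by rw [hdom1]; simp [PL.empty]
  refine ⟨q, ?_, ?_⟩
  · intro x
    rw [hdom, h1, Finset.mem_singleton]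
    tauto
  · intro x hx
    exact hlt c (Finset.mem_singleton_self c) (fun h => hc ((h1 c).mp h)) x ((h1 x).mpr hx)

/-- Place a finite set of vertices between `c'` on the left and `c` on the right. -/
lemma exists_placed2 (S : Finset V) (c c' : V) (hc : c ∉ S) (hc' : c' ∉ S) (hne : c ≠ c') :
    ∃ q : PL G k, (∀ x, x ∈ q.dom ↔ x ∈ S ∨ x = c ∨ x = c') ∧
      (∀ x ∈ S, q.f x < q.f c ∧ q.f c' < q.f x) ∧ q.f c' < q.f c := by
  obtain ⟨q0, _, hdom0, _⟩ := (PL.empty (G := G) (k := k)).exists_extend {c'}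
  obtain ⟨q1, h01, hdom1, hlt1⟩ := q0.exists_extend S
  obtain ⟨q, hq1q, hdom, hlt⟩ := q1.exists_extend {c}
  have h0 : ∀ x, x ∈ q0.dom ↔ x = c' := fun x => by rw [hdom0]; simp [PL.empty]
  have h1 : ∀ x, x ∈ q1.dom ↔ x ∈ S ∨ x = c' := fun x => by rw [hdom1, h0]
  have hcq : c ∉ q1.dom := by
    rw [h1]
    push Not
    exact ⟨hc, hne⟩
  have hc'1 : c' ∈ q1.dom := (h1 c').mpr (Or.inr rfl)
  refine ⟨q, ?_, ?_, ?_⟩
  · intro x
    rw [hdom, h1, Finset.mem_singleton]
    tauto
  · intro x hx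
    have hx1 : x ∈ q1.dom := (h1 x).mpr (Or.inl hx)
    refine ⟨hlt c (Finset.mem_singleton_self c) hcq x hx1, ?_⟩
    rw [hq1q.2.1 x hx1, hq1q.2.1 c' hc'1]
    exact hlt1 x hx (fun h => hc' ((h0 x).mp h ▸ hx)) c' ((h0 c').mpr rfl)
  · exact hlt c (Finset.mem_singleton_self c) hcq c' hc'1

end Pool.Agent.Graceful
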