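import Mathlib
import Pool.Agent.Lib.MP_7616b3_co.Fin1

set_option autoImplicit false

namespace Pool.Agent.Graceful

universe u

variable {V : Type u} {G : SimpleGraph V}

/-- The chain of positions for the vertices that are not leaves at `c`. -/
lemma exists_chain_positions [Countable V] (B0 : Finset V) (c : V) (Z : Set V) (g s0 : ℕ)
    (hg : 1 ≤ g) (eps : V → ℕ) (hceps : eps c = 0)
    (hZ : ∀ z ∈ Z, ∃ d ∈ B0, G.Adj z d)
    (hge : ∀ d ∈ B0, g ≤ eps d) (hdvd : ∀ d ∈ B0, g ∣ eps d)
    (heinj : ∀ d ∈ B0, ∀ d' ∈ B0, eps d = eps d' → d = d') :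
    ∃ t : V → ℕ,
      (∀ z ∈ Z, ∃ q, t z = s0 + g * q) ∧
      (∀ z ∈ Z, ∀ d, (d ∈ B0 ∨ d = c) → G.Adj z d → s0 < t z + eps d) ∧
      (∀ z ∈ Z, ∀ z' ∈ Z, ∀ d d', (d ∈ B0 ∨ d = c) → (d' ∈ B0 ∨ d' = c) →
        G.Adj z d → G.Adj z' d' → t z + eps d = t z' + eps d' → z = z' ∧ d = d') ∧
      (∀ z ∈ Z, ∀ z' ∈ Z, t z = t z' → z = z') ∧
      (∀ z ∈ Z, t z = s0 ∨ ∃ z' ∈ Z, ∃ d, (d ∈ B0 ∨ d = c) ∧ G.Adj z' d ∧ t z = t z' + eps d) ∧
      ({z ∈ Z | ∃ a b, a ≠ b ∧ (a ∈ B0 ∨ a = c) ∧ (b ∈ B0 ∨ b = c) ∧ G.Adj z a ∧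
          G.Adj z b}.Infinite →
        {l | (l = s0 ∨ ∃ z' ∈ Z, ∃ d, (d ∈ B0 ∨ d = c) ∧ G.Adj z' d ∧ l = t z' + eps d) ∧
          ∀ z ∈ Z, t z ≠ l}.Infinite) := by
  classical
  obtain ⟨e, he⟩ := Countable.exists_injective_nat V
  let M : V → ℕ := fun z => B0.sup (fun d => if G.Adj z d then eps d else 0)
  let a : V → ℕ := fun z => if G.Adj z c then g else 0
  let inc : ℕ → ℕ := fun j => if h : ∃ z, z ∈ Z ∧ e z = j then a h.choose + M h.choose else 0
  let s : ℕ → ℕ := fun j => s0 + ∑ i ∈ Finset.range j, inc i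
  let t : V → ℕ := fun z => s (e z) + a z
  have hinc : ∀ z ∈ Z, inc (e z) = a z + M z := by
    intro z hz
    have hex : ∃ z', z' ∈ Z ∧ e z' = e z := ⟨z, hz, rfl⟩
    have hch : hex.choose = z := he hex.choose_spec.2
    simp only [inc]
    rw [dif_pos hex, hch]
  have hs0 : s 0 = s0 := by simp [s]
  have hss : ∀ j, s (j + 1) = s j + inc j := by
    intro j
    simp only [s, Finset.sum_range_succ]
    ring
  have hmono : Monotone s := monotone_nat_of_le_succ (fun j => by rw [hss]; omega)
  have hsZ : ∀ z ∈ Z, s (e z + 1) = s (e z) + a z + M z := by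
    intro z hz; rw [hss, hinc z hz]; ring
  have hMle : ∀ z, ∀ d ∈ B0, G.Adj z d → eps d ≤ M z := by
    intro z d hd had
    have := Finset.le_sup (f := fun d => if G.Adj z d then eps d else 0) hd
    simp only [if_pos had] at this
    exact this
  have hMex : ∀ z ∈ Z, ∃ d ∈ B0, G.Adj z d ∧ M z = eps d := by
    intro z hz
    obtain ⟨d0, hd0, had0⟩ := hZ z hz
    obtain ⟨d, hd, hsup⟩ := Finset.exists_mem_eq_sup B0 ⟨d0, hd0⟩
      (fun d => if G.Adj z d then eps d else 0)
    have hpos : 1 ≤ M z := le_trans hg (le_trans (hge d0 hd0) (hMle z d0 hd0 had0))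
    have hMd : M z = if G.Adj z d then eps d else 0 := hsup
    by_cases had : G.Adj z d
    · rw [if_pos had] at hMd
      exact ⟨d, hd, had, hMd⟩
    · rw [if_neg had] at hMd
      omega
  have hMg : ∀ z ∈ Z, g ≤ M z := by
    intro z hz
    obtain ⟨d, hd, _, h⟩ := hMex z hz
    rw [h]; exact hge d hd
  have hsdvd : ∀ j, ∃ q, s j = s0 + g * q := by
    intro j
    induction j with
    | zero => exact ⟨0, by rw [hs0]; simp⟩
    | succ j ih =>
      obtain ⟨q, hq⟩ := ih
      by_cases hex : ∃ z, z ∈ Z ∧ e z = j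
      · obtain ⟨z, hz, rfl⟩ := hex
        rw [hsZ z hz]
        obtain ⟨d, hd, _, h⟩ := hMex z hz
        obtain ⟨r, hr⟩ := hdvd d hd
        by_cases hc : G.Adj z c
        · refine ⟨q + 1 + r, ?_⟩
          have : a z = g := if_pos hc
          rw [this, h, hr, hq]; ring
        · refine ⟨q + r, ?_⟩
          have : a z = 0 := if_neg hc
          rw [this, h, hr, hq]; ring
      · refine ⟨q, ?_⟩
        rw [hss]
        have : inc j = 0 := dif_neg hex
        rw [this, hq]
        rfl
  have htlo : ∀ z, s (e z) ≤ t z := fun z => Nat.le_add_right _ _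
  have hthi : ∀ z ∈ Z, t z < s (e z + 1) := by
    intro z hz
    rw [hsZ z hz]
    have := hMg z hz
    simp only [t]
    omega
  have hlab : ∀ z ∈ Z, ∀ d, (d ∈ B0 ∨ d = c) → G.Adj z d →
      s (e z) < t z + eps d ∧ t z + eps d ≤ s (e z + 1) := by
    intro z hz d hd had
    rw [hsZ z hz]
    simp only [t]
    rcases hd with hd | rfl
    · have h1 := hge d hd
      have h2 := hMle z d hd had
      constructor <;> omega
    · have : a z = g := if_pos had
      rw [this, hceps]
      constructor <;> omega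
  -- the intervals determine the vertex
  have hdet : ∀ z ∈ Z, ∀ z' ∈ Z, ∀ x, s (e z) < x → x ≤ s (e z + 1) → s (e z') < x →
      x ≤ s (e z' + 1) → z = z' := by
    intro z _ z' _ x h1 h2 h3 h4
    rcases lt_trichotomy (e z) (e z') with h | h | h
    · have := hmono (show e z + 1 ≤ e z' from h)
      omega
    · exact he h
    · have := hmono (show e z' + 1 ≤ e z from h)
      omega
  have hdet' : ∀ z ∈ Z, ∀ z' ∈ Z, ∀ x, s (e z) ≤ x → x < s (e z + 1) → s (e z') ≤ x →
      x < s (e z' + 1) → z = z' := by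
    intro z hz z' hz' x h1 h2 h3 h4
    exact hdet z hz z' hz' (x + 1) (by omega) (by omega) (by omega) (by omega)
  have hslab : ∀ j, s j = s0 ∨
      ∃ z' ∈ Z, ∃ d, (d ∈ B0 ∨ d = c) ∧ G.Adj z' d ∧ s j = t z' + eps d := by
    intro j
    induction j with
    | zero => exact Or.inl hs0
    | succ j ih =>
      by_cases hex : ∃ z, z ∈ Z ∧ e z = j
      · obtain ⟨z, hz, rfl⟩ := hex
        right
        obtain ⟨d, hd, had, h⟩ := hMex z hz
        refine ⟨z, hz, d, Or.inl hd, had, ?_⟩
        rw [hsZ z hz, h]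
      · have h0 : inc j = 0 := dif_neg hex
        rw [hss, h0, Nat.add_zero]
        exact ih
  refine ⟨t, ?_, ?_, ?_, ?_, ?_, ?_⟩
  · intro z hz
    obtain ⟨q, hq⟩ := hsdvd (e z)
    by_cases hc : G.Adj z c
    · refine ⟨q + 1, ?_⟩
      have : a z = g := if_pos hc
      simp only [t]
      rw [this, hq]; ring
    · refine ⟨q, ?_⟩
      have : a z = 0 := if_neg hc
      simp only [t]
      rw [this, hq]; rfl
  · intro z hz d hd had
    have h1 := (hlab z hz d hd had).1
    have h2 := hmono (Nat.zero_le (e z))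
    rw [hs0] at h2
    omega
  · intro z hz z' hz' d d' hd hd' had had' heq
    have h1 := hlab z hz d hd had
    have h2 := hlab z' hz' d' hd' had'
    have hzz := hdet z hz z' hz' _ h1.1 h1.2 (heq ▸ h2.1) (heq ▸ h2.2)
    subst hzz
    refine ⟨rfl, ?_⟩
    have h3 : eps d = eps d' := by omega
    rcases hd with hd | rfl <;> rcases hd' with hd' | rfl
    · exact heinj d hd d' hd' h3
    · have := hge d hd
      rw [hceps] at h3
      omega
    · have := hge d' hd'
      rw [hceps] at h3
      omega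
    · rfl
  · intro z hz z' hz' heq
    exact hdet' z hz z' hz' (t z) (htlo z) (hthi z hz) (heq ▸ htlo z') (heq ▸ hthi z' hz')
  · intro z hz
    by_cases hc : G.Adj z c
    · exact Or.inr ⟨z, hz, c, Or.inr rfl, hc, by rw [hceps]; rfl⟩
    · have : t z = s (e z) := by
        simp only [t]
        have : a z = 0 := if_neg hc
        rw [this]; rfl
      rw [this]
      exact hslab (e z)
  · intro hinf
    set Z2 := {z ∈ Z | ∃ a b, a ≠ b ∧ (a ∈ B0 ∨ a = c) ∧ (b ∈ B0 ∨ b = c) ∧ G.Adj z a ∧
          G.Adj z b} with hZ2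
    -- choose a slot for every vertex of Z2
    have hslot : ∀ z ∈ Z2, ∃ l, s (e z) ≤ l ∧ l < s (e z + 1) ∧
        (l = s0 ∨ ∃ z' ∈ Z, ∃ d, (d ∈ B0 ∨ d = c) ∧ G.Adj z' d ∧ l = t z' + eps d) ∧
          ∀ z ∈ Z, t z ≠ l := by
      rintro z ⟨hz, x, y, hxy, hx, hy, hax, hay⟩
      by_cases hc : G.Adj z c
      · refine ⟨s (e z), le_refl _, ?_, hslab (e z), ?_⟩
        · have := hthi z hz
          have := htlo z
          omega
        · intro z' hz' heq
          have hzz := hdet' z hz z' hz' (s (e z)) (le_refl _)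
            (lt_of_le_of_lt (htlo z) (hthi z hz)) (heq ▸ htlo z') (heq ▸ hthi z' hz')
          subst hzz
          have h1 : a z = g := if_pos hc
          simp only [t] at heq
          omega
      · -- two neighbours in B0
        have hxB : x ∈ B0 := by
          rcases hx with h | h
          · exact h
          · exact absurd (h ▸ hax) hc
        have hyB : y ∈ B0 := by
          rcases hy with h | h
          · exact h
          · exact absurd (h ▸ hay) hc
        have htz : t z = s (e z) := by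
          simp only [t]
          have : a z = 0 := if_neg hc
          rw [this]; rfl
        have hlt : ∃ d ∈ B0, G.Adj z d ∧ eps d < M z := by
          have h1 := hMle z x hxB hax
          have h2 := hMle z y hyB hay
          have h3 : eps x ≠ eps y := fun h => hxy (heinj x hxB y hyB h)
          rcases lt_or_gt_of_ne h3 with h | h
          · exact ⟨x, hxB, hax, by omega⟩
          · exact ⟨y, hyB, hay, by omega⟩
        obtain ⟨d, hd, had, hdM⟩ := hlt
        have h1 := hlab z hz d (Or.inl hd) had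
        have h2 : t z + eps d < s (e z + 1) := by
          rw [hsZ z hz]
          have : a z = 0 := if_neg hc
          omega
        refine ⟨t z + eps d, h1.1.le, h2, Or.inr ⟨z, hz, d, Or.inl hd, had, rfl⟩, ?_⟩
        intro z' hz' heq
        have hzz := hdet' z hz z' hz' (t z + eps d) h1.1.le h2 (heq ▸ htlo z') (heq ▸ hthi z' hz')
        subst hzz
        have := hge d hd
        omega
    choose! sl hsl using hslot
    apply Set.infinite_of_injOn_mapsTo (f := sl) (s := Z2) _ _ hinf
    · intro z hz z' hz' heq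
      have h1 := hsl z hz
      have h2 := hsl z' hz'
      exact hdet' z hz.1 z' hz'.1 (sl z) h1.1 h1.2.1 (heq ▸ h2.1) (heq ▸ h2.2.1)
    · intro z hz
      exact (hsl z hz).2.2

end Pool.Agent.Graceful
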