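import Mathlib
import Pool.Agent.Lib.MP_7616b3_co.LeafCase

set_option autoImplicit false

namespace Pool.Agent.Graceful

universe u

variable {V : Type u} {G : SimpleGraph V} {k : ℕ}

lemma exists_bijOn_nat [Countable V] (L : Set V) (hL : L.Infinite) (T : Set ℕ) (hT : T.Infinite) :
    ∃ lam : V → ℕ, Set.BijOn lam L T := by
  classical
  have : Infinite L := Set.infinite_coe_iff.mpr hL
  have : Infinite T := Set.infinite_coe_iff.mpr hT
  obtain ⟨E⟩ := nonempty_equiv_of_countable (α := L) (β := T)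
  refine ⟨fun v => if h : v ∈ L then (E ⟨v, h⟩ : ℕ) else 0, ?_, ?_, ?_⟩
  · intro v hv
    simp only [dif_pos hv]
    exact (E ⟨v, hv⟩).2
  · intro v hv w hw h
    simp only [dif_pos hv, dif_pos hw] at h
    exact congrArg Subtype.val (E.injective (Subtype.ext h))
  · intro l hl
    refine ⟨(E.symm ⟨l, hl⟩ : L), (E.symm ⟨l, hl⟩).2, ?_⟩
    simp

lemma exists_injOn_nat [Countable V] (I : Set V) (S : Set ℕ) (h : I = ∅ ∨ S.Infinite) :
    ∃ iota : V → ℕ, Set.MapsTo iota I S ∧ Set.InjOn iota I := by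
  rcases h with h | h
  · refine ⟨fun _ => 0, ?_, ?_⟩
    · intro v hv; rw [h] at hv; exact absurd hv (Set.notMem_empty _)
    · intro v hv; rw [h] at hv; exact absurd hv (Set.notMem_empty _)
  · obtain ⟨e, he⟩ := Countable.exists_injective_nat V
    refine ⟨fun v => (Set.Infinite.natEmbedding S h (e v) : ℕ), ?_, ?_⟩
    · intro v _
      exact (Set.Infinite.natEmbedding S h (e v)).2
    · intro v _ w _ hvw
      exact he ((Set.Infinite.natEmbedding S h).injective (Subtype.ext hvw))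

theorem graceful_leafcase [Countable V] (hk : 1 ≤ k) (B0 : Finset V) (c z0 : V) (hcB : c ∉ B0)
    (hzB : z0 ∉ B0) (hz0c : z0 ≠ c) (hz0 : ∀ w, G.Adj z0 w ↔ w = c)
    (hcov : ∀ u v, G.Adj u v → (u ∈ B0 ∨ u = c) ∨ (v ∈ B0 ∨ v = c))
    (hL : {z | ∀ w, G.Adj z w ↔ w = c}.Infinite)
    (hI : (∀ z, z ∉ B0 → z ≠ c → z ≠ z0 → ∃ w, G.Adj z w) ∨
      {v | ∃ a b, a ≠ b ∧ G.Adj v a ∧ G.Adj v b}.Infinite) : KGraceful G k := by
  classical
  obtain ⟨P, hPdom, hPlt⟩ := exists_placed (G := G) (k := 1) B0 c hcB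
  set φ : V → ℕ := P.f with hφ
  set g : ℕ := k + 2 with hg
  have hPinj : ∀ x y, (x ∈ B0 ∨ x = c) → (y ∈ B0 ∨ y = c) → φ x = φ y → x = y := fun x y hx hy =>
    P.inj x ((hPdom x).mpr hx) y ((hPdom y).mpr hy)
  have hPle : ∀ x, (x ∈ B0 ∨ x = c) → φ x ≤ φ c := by
    rintro x (hx | rfl)
    · exact (hPlt x hx).le
    · exact le_refl _
  let eps : V → ℕ := fun d => g * (φ c - φ d)
  set s0 : ℕ := g + 1 with hs0
  set Z : Set V := {z | z ∉ B0 ∧ z ≠ c ∧ z ≠ z0 ∧ ∃ d ∈ B0, G.Adj z d} with hZdef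
  obtain ⟨t, ht1, ht2, ht3, ht4, ht5, ht6⟩ := exists_chain_positions (G := G) B0 c Z g s0
    (by omega) eps (by simp [eps]) (fun z hz => hz.2.2.2)
    (fun d hd => by
      have := hPlt d hd
      exact Nat.le_mul_of_pos_right g (by omega))
    (fun d _ => Dvd.intro _ rfl)
    (fun d hd d' hd' h => by
      have h1 := hPlt d hd
      have h2 := hPlt d' hd'
      have h3 : φ c - φ d = φ c - φ d' := Nat.eq_of_mul_eq_mul_left (by omega) h
      exact hPinj d d' (Or.inl hd) (Or.inl hd') (by omega))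
  -- realised labels
  set RZ : Set ℕ := {l | l = s0 ∨ ∃ z' ∈ Z, ∃ d, (d ∈ B0 ∨ d = c) ∧ G.Adj z' d ∧
    l = t z' + eps d} with hRZ
  set RB : Set ℕ := {l | ∃ u v, (u ∈ B0 ∨ u = c) ∧ (v ∈ B0 ∨ v = c) ∧ G.Adj u v ∧ φ u < φ v ∧
    l = g * (φ v - φ u)} with hRB
  have hRZmod : ∀ l ∈ RZ, ∃ q, l = g * q + 1 := by
    rintro l (rfl | ⟨z, hz, d, _, _, rfl⟩)
    · exact ⟨1, by omega⟩
    · obtain ⟨q, hq⟩ := ht1 z hz
      refine ⟨1 + q + (φ c - φ d), ?_⟩
      simp only [eps]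
      rw [hq, hs0]; ring
  have hmod : ∀ a b, g * a ≠ g * b + 1 := by
    intro a b h
    have h1 : g ∣ g * b + 1 := h ▸ Dvd.intro a rfl
    have h2 : g ∣ 1 := (Nat.dvd_add_right (Dvd.intro b rfl)).mp h1
    have h3 := Nat.le_of_dvd one_pos h2
    omega
  have hRBRZ : ∀ l ∈ RB, l ∉ RZ := by
    rintro l ⟨u, v, _, _, _, _, rfl⟩ hl
    obtain ⟨q, hq⟩ := hRZmod _ hl
    exact hmod _ _ hq
  set Lam : Set ℕ := {l | k ≤ l ∧ l ∉ RB ∧ l ∉ RZ} with hLam
  have hLaminf : Lam.Infinite := by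
    apply Set.infinite_of_injective_forall_mem (f := fun n : ℕ => g * (φ c + 1 + n))
    · intro m n hmn
      have := Nat.eq_of_mul_eq_mul_left (by omega : 0 < g) hmn
      omega
    · intro n
      refine ⟨?_, ?_, ?_⟩
      · have : g ≤ g * (φ c + 1 + n) := Nat.le_mul_of_pos_right g (by omega)
        omega
      · rintro ⟨u, v, hu, hv, _, _, h⟩
        have h1 := Nat.eq_of_mul_eq_mul_left (by omega : 0 < g) h
        have h2 := hPle v hv
        omega
      · intro h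
        obtain ⟨q, hq⟩ := hRZmod _ h
        exact hmod _ _ hq
  set L : Set V := {z | z ∉ B0 ∧ z ≠ c ∧ z ≠ z0 ∧ ∀ w, G.Adj z w ↔ w = c} with hLdef
  have hLinf : L.Infinite := by
    have h1 : ({z | ∀ w, G.Adj z w ↔ w = c} \ ((B0 ∪ {c, z0} : Finset V) : Set V)).Infinite :=
      hL.sdiff (Finset.finite_toSet _)
    apply h1.mono
    rintro z ⟨hz, hz'⟩
    simp only [Finset.coe_union, Finset.coe_insert, Finset.coe_singleton, Set.mem_union,
      Finset.mem_coe, Set.mem_insert_iff, Set.mem_singleton_iff, not_or] at hz'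
    exact ⟨hz'.1, hz'.2.1, hz'.2.2, hz⟩
  obtain ⟨lam, hlamM, hlamI, hlamS⟩ := exists_bijOn_nat L hLinf Lam hLaminf
  set Slots : Set ℕ := {l | l ∈ RZ ∧ ∀ z ∈ Z, t z ≠ l} with hSlots
  set I : Set V := {z | z ∉ B0 ∧ z ≠ c ∧ z ≠ z0 ∧ ∀ w, ¬ G.Adj z w} with hIdef
  have hISlots : I = ∅ ∨ Slots.Infinite := by
    rcases hI with h | h
    · left
      ext z
      simp only [Set.mem_empty_iff_false, iff_false]
      rintro ⟨h1, h2, h3, h4⟩
      obtain ⟨w, hw⟩ := h z h1 h2 h3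
      exact h4 w hw
    · right
      apply ht6
      have h1 : ({v | ∃ a b, a ≠ b ∧ G.Adj v a ∧ G.Adj v b} \
          ((B0 ∪ {c, z0} : Finset V) : Set V)).Infinite := h.sdiff (Finset.finite_toSet _)
      apply h1.mono
      rintro z ⟨⟨a, b, hab, ha, hb⟩, hz'⟩
      simp only [Finset.coe_union, Finset.coe_insert, Finset.coe_singleton, Set.mem_union,
        Finset.mem_coe, Set.mem_insert_iff, Set.mem_singleton_iff, not_or] at hz'
      have hz1 : ¬ (z ∈ B0 ∨ z = c) := by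
        push Not
        exact ⟨hz'.1, hz'.2.1⟩
      have ha' : a ∈ B0 ∨ a = c := (hcov z a ha).resolve_left hz1
      have hb' : b ∈ B0 ∨ b = c := (hcov z b hb).resolve_left hz1
      refine ⟨⟨hz'.1, hz'.2.1, hz'.2.2, ?_⟩, a, b, hab, ha', hb', ha, hb⟩
      rcases ha' with ha' | ha'
      · exact ⟨a, ha', ha⟩
      · rcases hb' with hb' | hb'
        · exact ⟨b, hb', hb⟩
        · exact absurd (ha'.trans hb'.symm) hab
  obtain ⟨iota, hiotaM, hiotaI⟩ := exists_injOn_nat I Slots hISlots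
  -- trichotomy of far vertices
  have htri : ∀ z, ¬ (z ∈ B0 ∨ z = c) → z ≠ z0 → z ∈ Z ∨ z ∈ L ∨ z ∈ I := by
    intro z hz hzz
    have hz' : z ∉ B0 ∧ z ≠ c := by
      push Not at hz
      exact hz
    by_cases h : ∃ d ∈ B0, G.Adj z d
    · exact Or.inl ⟨hz'.1, hz'.2, hzz, h⟩
    · push Not at h
      have hw : ∀ w, G.Adj z w → w = c := by
        intro w hw
        rcases (hcov z w hw).resolve_left hz with h1 | h1
        · exact absurd hw (h w h1)
        · exact h1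
      by_cases hc : G.Adj z c
      · right; left
        refine ⟨hz'.1, hz'.2, hzz, fun w => ⟨hw w, ?_⟩⟩
        rintro rfl
        exact hc
      · right; right
        refine ⟨hz'.1, hz'.2, hzz, fun w hw' => hc ?_⟩
        rw [← hw w hw']
        exact hw'
  let τ : V → ℕ := fun v => if v ∈ Z then t v else if G.Adj v c then lam v else iota v
  have hZL : ∀ z ∈ L, z ∉ Z := by
    rintro z ⟨_, _, _, h⟩ ⟨_, _, _, d, hd, hzd⟩
    exact hcB ((h d).mp hzd ▸ hd)
  have hZI : ∀ z ∈ I, z ∉ Z := by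
    rintro z ⟨_, _, _, h⟩ ⟨_, _, _, d, hd, hzd⟩
    exact h d hzd
  have hτZ : ∀ z ∈ Z, τ z = t z := fun z hz => if_pos hz
  have hτL : ∀ z ∈ L, τ z = lam z := fun z hz => by
    have h1 : G.Adj z c := (hz.2.2.2 c).mpr rfl
    simp only [τ, if_neg (hZL z hz), if_pos h1]
  have hτI : ∀ z ∈ I, τ z = iota z := fun z hz => by
    have h1 : ¬ G.Adj z c := hz.2.2.2 c
    simp only [τ, if_neg (hZI z hz), if_neg h1]
  have hs0RZ : s0 ∈ RZ := Or.inl rfl
  have htRZ : ∀ z ∈ Z, t z ∈ RZ := fun z hz => ht5 z hz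
  have hRZpos : ∀ l ∈ RZ, 1 ≤ l := by
    intro l hl
    obtain ⟨q, hq⟩ := hRZmod l hl
    omega
  have hLampos : ∀ l ∈ Lam, l ∉ RZ := fun l hl => hl.2.2
  have hRge : ∀ l ∈ RZ, s0 ≤ l := by
    rintro l (rfl | ⟨z, hz, d, hd, had, rfl⟩)
    · exact le_refl _
    · exact (ht2 z hz d hd had).le
  have hτinj : ∀ z w, ¬ (z ∈ B0 ∨ z = c) → z ≠ z0 → ¬ (w ∈ B0 ∨ w = c) → w ≠ z0 →
      τ z = τ w → z = w := by
    intro z w hz1 hz2 hw1 hw2 h
    rcases htri z hz1 hz2 with hz | hz | hz <;> rcases htri w hw1 hw2 with hw | hw | hw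
    · rw [hτZ z hz, hτZ w hw] at h
      exact ht4 z hz w hw h
    · rw [hτZ z hz, hτL w hw] at h
      exact absurd (htRZ z hz) (h ▸ hLampos _ (hlamM hw))
    · rw [hτZ z hz, hτI w hw] at h
      exact absurd h ((hiotaM hw).2 z hz)
    · rw [hτL z hz, hτZ w hw] at h
      exact absurd (htRZ w hw) (h ▸ hLampos _ (hlamM hz))
    · rw [hτL z hz, hτL w hw] at h
      exact hlamI hz hw h
    · rw [hτL z hz, hτI w hw] at h
      exact absurd (hiotaM hw).1 (h ▸ hLampos _ (hlamM hz))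
    · rw [hτI z hz, hτZ w hw] at h
      exact absurd h.symm ((hiotaM hz).2 w hw)
    · rw [hτI z hz, hτL w hw] at h
      exact absurd (hiotaM hz).1 (h ▸ hLampos _ (hlamM hw))
    · rw [hτI z hz, hτI w hw] at h
      exact hiotaI hz hw h
  have hτpos : ∀ z, ¬ (z ∈ B0 ∨ z = c) → z ≠ z0 → 1 ≤ τ z := by
    intro z hz1 hz2
    rcases htri z hz1 hz2 with hz | hz | hz
    · rw [hτZ z hz]; exact hRZpos _ (htRZ z hz)
    · rw [hτL z hz]; have := (hlamM hz).1; omega
    · rw [hτI z hz]; exact hRZpos _ (hiotaM hz).1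
  -- the numbering
  let f : V → ℕ := fun v => if v ∈ B0 ∨ v = c then g * φ v + 2 * g
    else if v = z0 then g * φ c + g - 1 else g * φ c + 2 * g + τ v
  have hz0B : ¬ (z0 ∈ B0 ∨ z0 = c) := by push Not; exact ⟨hzB, hz0c⟩
  have hfB : ∀ v, (v ∈ B0 ∨ v = c) → f v = g * φ v + 2 * g := fun v hv => if_pos hv
  have hfz : f z0 = g * φ c + g - 1 := by
    simp only [f, if_neg hz0B]; exact if_pos trivial
  have hfF : ∀ v, ¬ (v ∈ B0 ∨ v = c) → v ≠ z0 → f v = g * φ c + 2 * g + τ v := fun v hv hv' => by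
    simp only [f, if_neg hv, if_neg hv']
  have hBle : ∀ v, (v ∈ B0 ∨ v = c) → g * φ v ≤ g * φ c := fun v hv =>
    Nat.mul_le_mul_left g (hPle v hv)
  have hsub : ∀ u v, g * (φ v - φ u) = g * φ v - g * φ u := fun u v => Nat.mul_sub _ _ _
  have hz0mod : ∀ v, (v ∈ B0 ∨ v = c) → f v ≠ f z0 := by
    intro v hv h
    rw [hfB v hv, hfz] at h
    apply hmod (φ c + 1) (φ v + 2)
    rw [Nat.mul_add, Nat.mul_add]
    omega
  have hfinj : Function.Injective f := by
    intro u v huv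
    by_cases hu : u ∈ B0 ∨ u = c <;> by_cases hv : v ∈ B0 ∨ v = c
    · rw [hfB u hu, hfB v hv] at huv
      apply hPinj u v hu hv
      exact Nat.eq_of_mul_eq_mul_left (by omega : 0 < g) (by omega)
    · by_cases hvz : v = z0
      · subst hvz
        exact absurd huv (hz0mod u hu)
      · rw [hfB u hu, hfF v hv hvz] at huv
        have := hBle u hu
        have := hτpos v hv hvz
        omega
    · by_cases huz : u = z0
      · subst huz
        exact absurd huv.symm (hz0mod v hv)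
      · rw [hfB v hv, hfF u hu huz] at huv
        have := hBle v hv
        have := hτpos u hu huz
        omega
    · by_cases huz : u = z0 <;> by_cases hvz : v = z0
      · rw [huz, hvz]
      · rw [huz, hfz, hfF v hv hvz] at huv
        omega
      · rw [hvz, hfz, hfF u hu huz] at huv
        omega
      · rw [hfF u hu huz, hfF v hv hvz] at huv
        exact hτinj u v hu huz hv hvz (by omega)
  -- classification of edges
  have hclass : ∀ u v, G.Adj u v → f u < f v →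
      ((u ∈ B0 ∨ u = c) ∧ (v ∈ B0 ∨ v = c) ∧ φ u < φ v ∧ f v - f u = g * (φ v - φ u)) ∨
      (u = z0 ∧ v = c ∧ f v - f u = s0) ∨
      (v ∈ Z ∧ (u ∈ B0 ∨ u = c) ∧ f v - f u = t v + eps u) ∨
      (v ∈ L ∧ u = c ∧ f v - f u = lam v) := by
    intro u v huv hlt
    by_cases hu : u ∈ B0 ∨ u = c
    · by_cases hv : v ∈ B0 ∨ v = c
      · left
        rw [hfB u hu, hfB v hv] at hlt ⊢
        have h1 : φ u < φ v := lt_of_mul_lt_mul_left (by omega : g * φ u < g * φ v) (Nat.zero_le g)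
        refine ⟨hu, hv, h1, ?_⟩
        rw [hsub]; omega
      · by_cases hvz : v = z0
        · exfalso
          have huc : u = c := (hz0 u).mp (hvz ▸ huv.symm)
          rw [huc, hvz, hfz, hfB c (Or.inr rfl)] at hlt
          omega
        · have hle := hBle u hu
          have hfar := hfF v hv hvz
          rcases htri v hv hvz with hvZ | hvL | hvI
          · right; right; left
            refine ⟨hvZ, hu, ?_⟩
            rw [hfar, hfB u hu, hτZ v hvZ]
            simp only [eps]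
            rw [hsub]; omega
          · right; right; right
            have huc : u = c := (hvL.2.2.2 u).mp huv.symm
            refine ⟨hvL, huc, ?_⟩
            rw [hfar, huc, hfB c (Or.inr rfl), hτL v hvL]
            omega
          · exact absurd huv.symm (hvI.2.2.2 u)
    · have hv : v ∈ B0 ∨ v = c := (hcov u v huv).resolve_left hu
      by_cases huz : u = z0
      · right; left
        have hvc : v = c := (hz0 v).mp (huz ▸ huv)
        refine ⟨huz, hvc, ?_⟩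
        rw [hvc, huz, hfz, hfB c (Or.inr rfl), hs0]
        omega
      · exfalso
        rw [hfF u hu huz, hfB v hv] at hlt
        have := hBle v hv
        omega
  refine ⟨f, graceful_of f hfinj ?_ ?_ ?_⟩
  · intro u v huv hlt
    rcases hclass u v huv hlt with ⟨_, _, h1, h2⟩ | ⟨_, _, h2⟩ | ⟨hvZ, hu, h2⟩ | ⟨hvL, _, h2⟩
    · rw [h2]
      have : g ≤ g * (φ v - φ u) := Nat.le_mul_of_pos_right g (by omega)
      omega
    · rw [h2]; omega
    · rw [h2]
      have := ht2 v hvZ u hu huv.symm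
      omega
    · rw [h2]; exact (hlamM hvL).1
  · intro u v u' v' huv huv' hlt hlt' heq
    have hcl : ∀ u v, G.Adj u v → f u < f v →
        (f v - f u ∈ RB ∧ (u ∈ B0 ∨ u = c) ∧ (v ∈ B0 ∨ v = c) ∧ φ u < φ v ∧
          f v - f u = g * (φ v - φ u)) ∨
        (f v - f u ∈ RZ ∧ ((u = z0 ∧ v = c ∧ f v - f u = s0) ∨
          (v ∈ Z ∧ (u ∈ B0 ∨ u = c) ∧ f v - f u = t v + eps u))) ∨
        (f v - f u ∈ Lam ∧ v ∈ L ∧ u = c ∧ f v - f u = lam v) := by
      intro u v huv hlt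
      rcases hclass u v huv hlt with ⟨hu, hv, h1, h2⟩ | ⟨hu, hv, h2⟩ | ⟨hvZ, hu, h2⟩ | ⟨hvL, hu, h2⟩
      · left
        exact ⟨⟨u, v, hu, hv, huv, h1, h2⟩, hu, hv, h1, h2⟩
      · right; left
        refine ⟨?_, Or.inl ⟨hu, hv, h2⟩⟩
        rw [h2]; exact hs0RZ
      · right; left
        exact ⟨Or.inr ⟨v, hvZ, u, hu, huv.symm, h2⟩, Or.inr ⟨hvZ, hu, h2⟩⟩
      · right; right
        refine ⟨?_, hvL, hu, h2⟩
        rw [h2]; exact hlamM hvL
    rcases hcl u v huv hlt with ⟨hR, hu, hv, h1, h2⟩ | ⟨hR, h2⟩ | ⟨hR, hvL, hu, h2⟩ <;>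
      rcases hcl u' v' huv' hlt' with ⟨hR', hu', hv', h1', h2'⟩ | ⟨hR', h2'⟩ | ⟨hR', hvL', hu', h2'⟩
    · -- both in B
      have h3 : φ v - φ u = φ v' - φ u' :=
        Nat.eq_of_mul_eq_mul_left (by omega : 0 < g) (by rw [← h2, ← h2', heq])
      have h4 : u = u' := P.lab_inj u ((hPdom u).mpr hu) v ((hPdom v).mpr hv) u'
        ((hPdom u').mpr hu') v' ((hPdom v').mpr hv') (φ v - φ u) huv huv'
        (by simp only [hφ] at *; omega) (by simp only [hφ] at *; omega)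
      subst h4
      exact ⟨rfl, hPinj v v' hv hv' (by omega)⟩
    · exact absurd (heq ▸ hR') (hRBRZ _ hR)
    · exact absurd (heq ▸ hR : f v' - f u' ∈ RB) hR'.2.1
    · exact absurd (heq ▸ hR : f v' - f u' ∈ RZ) (hRBRZ _ hR')
    · rcases h2 with ⟨rfl, rfl, h2⟩ | ⟨hvZ, hu, h2⟩ <;> rcases h2' with ⟨rfl, rfl, h2'⟩ | ⟨hvZ', hu', h2'⟩
      · exact ⟨rfl, rfl⟩
      · have := ht2 v' hvZ' u' hu' huv'.symm
        omega
      · have := ht2 v hvZ u hu huv.symm
        omega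
      · have := ht3 v hvZ v' hvZ' u u' hu hu' huv.symm huv'.symm (by rw [← h2, ← h2', heq])
        exact ⟨this.2, this.1⟩
    · exact absurd (heq ▸ hR : f v' - f u' ∈ RZ) hR'.2.2
    · exact absurd (heq ▸ hR' : f v - f u ∈ RB) hR.2.1
    · exact absurd (heq ▸ hR' : f v - f u ∈ RZ) hR.2.2
    · rw [hu, hu']
      exact ⟨rfl, hlamI hvL hvL' (by rw [← h2, ← h2', heq])⟩
  · intro l hl
    by_cases hlB : l ∈ RB
    · obtain ⟨u, v, hu, hv, huv, hlt, rfl⟩ := hlB
      have h1 : g * φ u < g * φ v := Nat.mul_lt_mul_of_pos_left hlt (by omega)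
      refine ⟨u, v, huv, ?_, ?_⟩
      · rw [hfB u hu, hfB v hv]; omega
      · rw [hfB u hu, hfB v hv, hsub]; omega
    by_cases hlZ : l ∈ RZ
    · rcases hlZ with rfl | ⟨z, hz, d, hd, had, rfl⟩
      · refine ⟨z0, c, (hz0 c).mpr rfl, ?_, ?_⟩
        · rw [hfz, hfB c (Or.inr rfl)]; omega
        · rw [hfz, hfB c (Or.inr rfl), hs0]; omega
      · have hz1 : ¬ (z ∈ B0 ∨ z = c) := by push Not; exact ⟨hz.1, hz.2.1⟩
        have hle := hBle d hd
        have hpos := hτpos z hz1 hz.2.2.1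
        refine ⟨d, z, had.symm, ?_, ?_⟩
        · rw [hfB d hd, hfF z hz1 hz.2.2.1]; omega
        · rw [hfB d hd, hfF z hz1 hz.2.2.1, hτZ z hz]
          simp only [eps]
          rw [hsub]; omega
    · obtain ⟨z, hz, hzl⟩ := hlamS ⟨hl, hlB, hlZ⟩
      have hz1 : ¬ (z ∈ B0 ∨ z = c) := by push Not; exact ⟨hz.1, hz.2.1⟩
      have hpos := hτpos z hz1 hz.2.2.1
      refine ⟨c, z, ((hz.2.2.2 c).mpr rfl).symm, ?_, ?_⟩
      · rw [hfB c (Or.inr rfl), hfF z hz1 hz.2.2.1]; omega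
      · rw [hfB c (Or.inr rfl), hfF z hz1 hz.2.2.1, hτL z hz, hzl]; omega

end Pool.Agent.Graceful
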