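import Mathlib
import Pool.Agent.Lib.MP_7616b3_co.D2Core
import Pool.Agent.Lib.MP_7616b3_co.LeafCase2

set_option autoImplicit false

namespace Pool.Agent.Graceful

universe u

variable {V : Type u} {G : SimpleGraph V} {k : ℕ}

/-- Positions of the special vertices: `0` for `a`, the largest for `b`, and each at least four
times the previous one. -/
lemma exists_positions (hk : 1 ≤ k) (Q : Finset V) (a b : V) (ha : a ∈ Q) (hb : b ∈ Q)
    (hab : a ≠ b) : ∃ p : V → ℕ, p a = 0 ∧ Set.InjOn p Q ∧ (∀ q ∈ Q, q ≠ b → p q < p b) ∧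
      (∀ q ∈ Q, p q % 2 = 0) ∧ 4 ∣ p b ∧ (∀ q ∈ Q, p q ∣ p b ∨ p q = 0) ∧
      (∀ q ∈ Q, ∀ q' ∈ Q, p q < p q' → 4 * p q ≤ p q') ∧ (∀ q ∈ Q, q ≠ a → 4 * k ≤ p q) := by
  classical
  set Q' : Finset V := (Q.erase a).erase b with hQ'
  let E := Q'.equivFin
  let ι : V → ℕ := fun q => if h : q ∈ Q' then (E ⟨q, h⟩ : ℕ) else Q'.card
  have hιlt : ∀ q ∈ Q', ι q < Q'.card := by
    intro q hq
    simp only [ι, dif_pos hq]
    exact (E ⟨q, hq⟩).2
  have hbQ' : b ∉ Q' := by simp [hQ']
  have hιb : ι b = Q'.card := by simp only [ι, dif_neg hbQ']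
  have hmem : ∀ q ∈ Q, q ≠ a → q ≠ b → q ∈ Q' := by
    intro q hq h1 h2
    rw [hQ']
    exact Finset.mem_erase.mpr ⟨h2, Finset.mem_erase.mpr ⟨h1, hq⟩⟩
  have hιinj : ∀ q ∈ Q, ∀ q' ∈ Q, q ≠ a → q' ≠ a → ι q = ι q' → q = q' := by
    intro q hq q' hq' h1 h1' h
    by_cases e : q = b
    · by_cases e' : q' = b
      · rw [e, e']
      · have := hιlt q' (hmem q' hq' h1' e')
        rw [e, hιb] at h
        omega
    · by_cases e' : q' = b
      · have := hιlt q (hmem q hq h1 e)
        rw [e', hιb] at h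
        omega
      · have g := hmem q hq h1 e
        have g' := hmem q' hq' h1' e'
        simp only [ι, dif_pos g, dif_pos g'] at h
        have := E.injective (Fin.ext h)
        exact congrArg Subtype.val this
  have hιle : ∀ q ∈ Q, q ≠ a → ι q ≤ Q'.card := by
    intro q hq h1
    by_cases e : q = b
    · rw [e, hιb]
    · exact (hιlt q (hmem q hq h1 e)).le
  let p : V → ℕ := fun q => if q = a then 0 else k * 4 ^ (ι q + 1)
  have hpa : p a = 0 := if_pos rfl
  have hp : ∀ q, q ≠ a → p q = k * 4 ^ (ι q + 1) := fun q h => if_neg h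
  have hppos : ∀ q, q ≠ a → 4 * k ≤ p q := by
    intro q h
    rw [hp q h, pow_succ]
    have : 1 ≤ 4 ^ ι q := Nat.one_le_pow _ _ (by norm_num)
    nlinarith
  have hmono : ∀ q q', q ≠ a → q' ≠ a → ι q < ι q' → 4 * p q ≤ p q' := by
    intro q q' h h' hlt
    rw [hp q h, hp q' h']
    have h1 : (4 : ℕ) ^ (ι q + 1 + 1) ≤ 4 ^ (ι q' + 1) :=
      Nat.pow_le_pow_right (by norm_num) (by omega)
    calc 4 * (k * 4 ^ (ι q + 1)) = k * 4 ^ (ι q + 1 + 1) := by ring
      _ ≤ _ := Nat.mul_le_mul_left _ h1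
  refine ⟨p, hpa, ?_, ?_, ?_, ?_, ?_, ?_, fun q _ h => hppos q h⟩
  · intro q hq q' hq' h
    by_cases e : q = a <;> by_cases e' : q' = a
    · rw [e, e']
    · have := hppos q' e'
      rw [e, hpa] at h
      omega
    · have := hppos q e
      rw [e', hpa] at h
      omega
    · apply hιinj q hq q' hq' e e'
      by_contra hne
      have g := hppos q e
      rcases Nat.lt_or_gt_of_ne hne with hl | hl
      · have := hmono q q' e e' hl
        omega
      · have := hmono q' q e' e hl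
        omega
  · intro q hq hqb
    by_cases e : q = a
    · rw [e, hpa]
      have := hppos b hab.symm
      omega
    · have h1 := hιlt q (hmem q hq e hqb)
      have h2 := hmono q b e hab.symm (by rw [hιb]; exact h1)
      have := hppos q e
      omega
  · intro q _
    by_cases e : q = a
    · rw [e, hpa]
    · rw [hp q e, pow_succ, show k * (4 ^ ι q * 4) = 2 * (k * 4 ^ ι q * 2) by ring]
      exact Nat.mul_mod_right _ _
  · rw [hp b hab.symm, pow_succ]
    exact ⟨k * 4 ^ ι b, by ring⟩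
  · intro q hq
    by_cases e : q = a
    · right; rw [e, hpa]
    · left
      rw [hp q e, hp b hab.symm, hιb]
      exact Nat.mul_dvd_mul_left _ (pow_dvd_pow _ (by have := hιle q hq e; omega))
  · intro q hq q' hq' hlt
    by_cases e : q = a
    · rw [e, hpa]; omega
    · have e' : q' ≠ a := by
        rintro rfl
        omega
      apply hmono q q' e e'
      by_contra hcon
      have hle : ι q' ≤ ι q := by omega
      rcases Nat.eq_or_lt_of_le hle with h | h
      · have := hιinj q' hq' q hq e' e h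
        rw [this] at hlt
        omega
      · have := hmono q' q e' e h
        omega

/-- Infinitely many vertices of degree two. -/
theorem graceful_d2 [Countable V] (hk : 1 ≤ k) (W : Finset V)
    (hW : ∀ u v, G.Adj u v → u ∈ W ∨ v ∈ W)
    (h2 : {v | ∃ a b, a ≠ b ∧ ∀ w, G.Adj v w ↔ (w = a ∨ w = b)}.Infinite) : KGraceful G k := by
  classical
  let nb : V → Finset V := fun z => W.filter (fun w => G.Adj z w)
  have hnbW : ∀ z, nb z ⊆ W := fun z => Finset.filter_subset _ _
  have hnb : ∀ z, z ∉ W → ∀ w, G.Adj z w ↔ w ∈ nb z := by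
    intro z hz w
    simp only [nb, Finset.mem_filter]
    constructor
    · intro h; exact ⟨(hW z w h).resolve_left hz, h⟩
    · intro h; exact h.2
  let cls : Finset V → Set V := fun T => {z | z ∉ W ∧ nb z = T}
  have hUfin : (⋃ T ∈ {T | T ∈ W.powerset ∧ (cls T).Finite}, cls T).Finite := by
    apply Set.Finite.biUnion
    · exact (Finset.finite_toSet W.powerset).subset (fun T hT => hT.1)
    · intro T hT; exact hT.2
  set Q : Finset V := W ∪ hUfin.toFinset with hQ
  have hWQ : ∀ w ∈ W, w ∈ Q := fun w hw => Finset.mem_union_left _ hw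
  have hnQ : ∀ z, z ∉ Q → z ∉ W ∧ (cls (nb z)).Infinite := by
    intro z hz
    have hzW : z ∉ W := fun h => hz (hWQ z h)
    refine ⟨hzW, ?_⟩
    intro hfin
    apply hz
    rw [hQ]
    apply Finset.mem_union_right
    rw [Set.Finite.mem_toFinset]
    simp only [Set.mem_iUnion]
    exact ⟨nb z, ⟨Finset.mem_powerset.mpr (hnbW z), hfin⟩, hzW, rfl⟩
  -- the special pair
  obtain ⟨a, b, hab, haW, hbW, hinf⟩ : ∃ a b, a ≠ b ∧ a ∈ W ∧ b ∈ W ∧ (cls {a, b}).Infinite := by
    by_contra hcon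
    push Not at hcon
    have h1 : ({v | ∃ a b, a ≠ b ∧ ∀ w, G.Adj v w ↔ (w = a ∨ w = b)} \ (W : Set V)).Infinite :=
      h2.sdiff W.finite_toSet
    apply h1
    have hsub : {v | ∃ a b, a ≠ b ∧ ∀ w, G.Adj v w ↔ (w = a ∨ w = b)} \ (W : Set V) ⊆
        ⋃ q ∈ {q : V × V | q.1 ≠ q.2 ∧ q.1 ∈ W ∧ q.2 ∈ W}, cls {q.1, q.2} := by
      rintro v ⟨⟨a, b, hab, hv⟩, hvW⟩
      have hvW' : v ∉ W := hvW
      have haW : a ∈ W := (hW v a ((hv a).mpr (Or.inl rfl))).resolve_left hvW'
      have hbW : b ∈ W := (hW v b ((hv b).mpr (Or.inr rfl))).resolve_left hvW'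
      simp only [Set.mem_iUnion]
      refine ⟨(a, b), ⟨hab, haW, hbW⟩, hvW', ?_⟩
      ext w
      rw [← hnb v hvW' w, hv w]
      simp
    apply Set.Finite.subset _ hsub
    apply Set.Finite.biUnion
    · exact ((W.finite_toSet).prod (W.finite_toSet)).subset (fun q hq => ⟨hq.2.1, hq.2.2⟩)
    · rintro ⟨a, b⟩ ⟨h1, h2, h3⟩
      exact hcon a b h1 h2 h3
  obtain ⟨p, hpa, hpinj, hplt, hpev, hp4, hpdvd, hpmono, hpge⟩ :=
    exists_positions hk Q a b (hWQ a haW) (hWQ b hbW) hab
  set δ : ℕ := p b with hδdef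
  have hδpos : 0 < δ := by
    have := hpge b (hWQ b hbW) hab.symm
    omega
  have hple : ∀ q ∈ Q, p q ≤ δ := by
    intro q hq
    by_cases e : q = b
    · rw [e]
    · exact (hplt q hq e).le
  have himg : ∀ T ⊆ W, ∀ T' ⊆ W, T.image p = T'.image p → T = T' := by
    intro T hT T' hT' h
    have key : ∀ T ⊆ W, ∀ T' ⊆ W, T.image p = T'.image p → T ⊆ T' := by
      intro T hT T' hT' h x hx
      have h1 : p x ∈ T'.image p := by
        rw [← h]; exact Finset.mem_image_of_mem _ hx
      obtain ⟨y, hy, hxy⟩ := Finset.mem_image.mp h1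
      have := hpinj (hWQ y (hT' hy)) (hWQ x (hT hx)) hxy
      rwa [← this]
    exact Finset.Subset.antisymm (key T hT T' hT' h) (key T' hT' T hT h.symm)
  set fam : Finset (Finset V) := W.powerset.filter (fun T => T.Nonempty ∧ (cls T).Infinite)
    with hfam
  have hfamW : ∀ T ∈ fam, T ⊆ W := fun T hT => Finset.mem_powerset.mp (Finset.mem_filter.mp hT).1
  have habfam : ({a, b} : Finset V) ∈ fam := by
    rw [hfam, Finset.mem_filter, Finset.mem_powerset]
    refine ⟨?_, by simp, hinf⟩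
    intro x hx
    simp only [Finset.mem_insert, Finset.mem_singleton] at hx
    rcases hx with rfl | rfl
    · exact haW
    · exact hbW
  have habimg : ({a, b} : Finset V).image p = {0, δ} := by
    rw [Finset.image_insert, Finset.image_singleton, hpa]
  set 𝒯 : Finset (Finset ℕ) := (fam.erase {a, b}).image (fun T => T.image p) with h𝒯
  have hmem𝒯 : ∀ T ∈ fam, T.image p ∈ insert {0, δ} 𝒯 := by
    intro T hT
    by_cases e : T = {a, b}
    · rw [e, habimg]; exact Finset.mem_insert_self _ _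
    · apply Finset.mem_insert_of_mem
      rw [h𝒯]
      exact Finset.mem_image_of_mem _ (Finset.mem_erase.mpr ⟨e, hT⟩)
  have hof𝒯 : ∀ A ∈ insert {0, δ} 𝒯, ∃ T ∈ fam, A = T.image p := by
    intro A hA
    rcases Finset.mem_insert.mp hA with rfl | hA
    · exact ⟨{a, b}, habfam, habimg.symm⟩
    · rw [h𝒯] at hA
      obtain ⟨T, hT, rfl⟩ := Finset.mem_image.mp hA
      exact ⟨T, (Finset.mem_erase.mp hT).2, rfl⟩
  have hTok : ∀ A ∈ 𝒯, D2.TypeOK δ A := by
    intro A hA
    rw [h𝒯] at hA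
    obtain ⟨T, hT, rfl⟩ := Finset.mem_image.mp hA
    obtain ⟨hTne, hTf⟩ := Finset.mem_erase.mp hT
    have hTW := hfamW T hTf
    have hθ : ∀ θ ∈ T.image p, ∃ q ∈ Q, θ = p q ∧ q ∈ T := by
      intro θ hθ
      obtain ⟨q, hq, rfl⟩ := Finset.mem_image.mp hθ
      exact ⟨q, hWQ q (hTW hq), rfl, hq⟩
    refine ⟨hp4, hδpos, ?_, ?_, ?_, ?_⟩
    · intro θ hθ' _
      obtain ⟨q, hq, rfl, _⟩ := hθ θ hθ'
      exact hpev q hq
    · intro θ hθ'
      obtain ⟨q, hq, rfl, _⟩ := hθ θ hθ'
      exact hpdvd q hq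
    · intro θ hθ' hne
      obtain ⟨q, hq, rfl, _⟩ := hθ θ hθ'
      have hqb : q ≠ b := fun e => hne (by rw [e])
      have h1 := hpmono q hq b (hWQ b hbW) (hplt q hq hqb)
      omega
    · by_contra hcon
      push Not at hcon
      obtain ⟨h1, h2, h3⟩ := hcon
      have hsub : ∀ x ∈ T, x = a ∨ x = b := by
        intro x hx
        by_contra hx'
        push Not at hx'
        have hxQ := hWQ x (hTW hx)
        have h4 : p x ∈ D2.inner δ (T.image p) := by
          rw [D2.mem_inner]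
          refine ⟨?_, ?_, Finset.mem_image_of_mem _ hx⟩
          · intro e
            exact hx'.2 (hpinj hxQ (hWQ b hbW) e)
          · have := hpge x hxQ hx'.1
            omega
        rw [h1] at h4
        exact absurd h4 (Finset.notMem_empty _)
      have ha0 : 0 ∈ T.image p ↔ a ∈ T := by
        constructor
        · intro h
          obtain ⟨q, hq, hq0⟩ := Finset.mem_image.mp h
          have : q = a := by
            by_contra e
            have := hpge q (hWQ q (hTW hq)) e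
            omega
          rwa [← this]
        · intro h
          rw [← hpa]; exact Finset.mem_image_of_mem _ h
      have hb0 : δ ∈ T.image p ↔ b ∈ T := by
        constructor
        · intro h
          obtain ⟨q, hq, hq0⟩ := Finset.mem_image.mp h
          have := hpinj (hWQ q (hTW hq)) (hWQ b hbW) hq0
          rwa [← this]
        · intro h
          exact Finset.mem_image_of_mem _ h
      rw [ha0, hb0] at h2 h3
      have hTn : T.Nonempty := (Finset.mem_filter.mp hTf).2.1
      obtain ⟨x, hx⟩ := hTn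
      have haT : a ∈ T := by
        by_contra h
        rcases hsub x hx with e | e
        · exact h (e ▸ hx)
        · exact h3 h (e ▸ hx)
      have hbT : b ∈ T := h2 haT
      apply hTne
      ext y
      simp only [Finset.mem_insert, Finset.mem_singleton]
      constructor
      · exact hsub y
      · rintro (rfl | rfl)
        · exact haT
        · exact hbT
  set R : Set ℕ := {l | ∃ u ∈ Q, ∃ v ∈ Q, G.Adj u v ∧ p u < p v ∧ l = p v - p u} with hR
  have hRok : ∀ l ∈ R, l % 2 = 0 ∧ k ≤ l ∧ l < k + δ := by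
    rintro l ⟨u, hu, v, hv, _, hlt, rfl⟩
    have h1 := hpev u hu
    have h2 := hpev v hv
    have h3 := hpmono u hu v hv hlt
    have hva : v ≠ a := by rintro rfl; omega
    have h4 := hpge v hv hva
    have h5 := hple v hv
    omega
  obtain ⟨S, I, hSinf, hIinf, hSgt, hIgt, hSS, hSI, hlab, hinj, hsurj⟩ :=
    D2.core hk hp4 hδpos hRok hTok
  -- the bijections
  have hcls : ∀ T ∈ fam, {z | z ∉ Q ∧ nb z = T}.Infinite := by
    intro T hT
    have h1 : (cls T \ (Q : Set V)).Infinite := (Finset.mem_filter.mp hT).2.2.sdiff Q.finite_toSet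
    apply h1.mono
    rintro z ⟨hz, hzQ⟩
    exact ⟨hzQ, hz.2⟩
  have hlamex : ∀ T : Finset V, ∃ lam : V → ℕ, T ∈ fam →
      Set.BijOn lam {z | z ∉ Q ∧ nb z = T} (S (T.image p)) := by
    intro T
    by_cases hT : T ∈ fam
    · obtain ⟨lam, hlam⟩ := exists_bijOn_nat _ (hcls T hT) _ (hSinf _ (hmem𝒯 T hT))
      exact ⟨lam, fun _ => hlam⟩
    · exact ⟨fun _ => 0, fun h => absurd h hT⟩
  choose lam hlam using hlamex
  obtain ⟨iota, hiotaM, hiotaI⟩ := exists_injOn_nat {z : V | z ∉ Q ∧ nb z = ∅} I (Or.inr hIinf)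
  let f : V → ℕ := fun z => if z ∈ Q then p z else if nb z = ∅ then iota z else lam (nb z) z
  have hfQ : ∀ z ∈ Q, f z = p z := fun z hz => if_pos hz
  have hfI : ∀ z, z ∉ Q → nb z = ∅ → f z = iota z := by
    intro z hz h; simp only [f, if_neg hz, if_pos h]
  have hfL : ∀ z, z ∉ Q → nb z ≠ ∅ → f z = lam (nb z) z := by
    intro z hz h; simp only [f, if_neg hz, if_neg h]
  have hfam' : ∀ z, z ∉ Q → nb z ≠ ∅ → nb z ∈ fam := by
    intro z hz h
    rw [hfam, Finset.mem_filter, Finset.mem_powerset]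
    exact ⟨hnbW z, Finset.nonempty_iff_ne_empty.mpr h, (hnQ z hz).2⟩
  have hfS : ∀ z, z ∉ Q → nb z ≠ ∅ → f z ∈ S ((nb z).image p) := by
    intro z hz h
    rw [hfL z hz h]
    exact (hlam (nb z) (hfam' z hz h)).mapsTo ⟨hz, rfl⟩
  have hfII : ∀ z, z ∉ Q → nb z = ∅ → f z ∈ I := by
    intro z hz h
    rw [hfI z hz h]
    exact hiotaM ⟨hz, h⟩
  have hfgt : ∀ z, z ∉ Q → δ < f z := by
    intro z hz
    by_cases h : nb z = ∅
    · exact hIgt _ (hfII z hz h)
    · exact hSgt _ (hmem𝒯 _ (hfam' z hz h)) _ (hfS z hz h)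
  have hfinj : Function.Injective f := by
    intro u v huv
    by_cases hu : u ∈ Q <;> by_cases hv : v ∈ Q
    · rw [hfQ u hu, hfQ v hv] at huv
      exact hpinj hu hv huv
    · have h1 := hfgt v hv
      have h2 := hple u hu
      rw [← huv, hfQ u hu] at h1
      omega
    · have h1 := hfgt u hu
      have h2 := hple v hv
      rw [huv, hfQ v hv] at h1
      omega
    · by_cases h1 : nb u = ∅ <;> by_cases h2 : nb v = ∅
      · rw [hfI u hu h1, hfI v hv h2] at huv
        exact hiotaI ⟨hu, h1⟩ ⟨hv, h2⟩ huv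
      · have g := hfS v hv h2
        rw [← huv] at g
        exact absurd (hfII u hu h1) (hSI _ (hmem𝒯 _ (hfam' v hv h2)) _ g)
      · have g := hfS u hu h1
        rw [huv] at g
        exact absurd (hfII v hv h2) (hSI _ (hmem𝒯 _ (hfam' u hu h1)) _ g)
      · have g := hfS u hu h1
        have g' := hfS v hv h2
        rw [← huv] at g'
        have hTT := himg _ (hnbW u) _ (hnbW v) (hSS _ (hmem𝒯 _ (hfam' u hu h1)) _
          (hmem𝒯 _ (hfam' v hv h2)) _ g g')
        rw [hfL u hu h1, hfL v hv h2, ← hTT] at huv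
        exact (hlam (nb u) (hfam' u hu h1)).injOn ⟨hu, rfl⟩ ⟨hv, hTT.symm⟩ huv
  have hclass : ∀ u v, G.Adj u v → f u < f v →
      (u ∈ Q ∧ v ∈ Q ∧ p u < p v ∧ f v - f u = p v - p u ∧ f v - f u ∈ R) ∨
      (v ∉ Q ∧ u ∈ Q ∧ nb v ≠ ∅ ∧ u ∈ nb v ∧ f u = p u) := by
    intro u v huv hlt
    by_cases hv : v ∈ Q
    · have hu : u ∈ Q := by
        by_contra hu
        have h1 := hfgt u hu
        have h2 := hple v hv
        rw [hfQ v hv] at hlt
        omega
      left
      rw [hfQ u hu, hfQ v hv] at hlt ⊢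
      exact ⟨hu, hv, hlt, rfl, u, hu, v, hv, huv, hlt, rfl⟩
    · right
      have hvW := (hnQ v hv).1
      have hu : u ∈ nb v := (hnb v hvW u).mp huv.symm
      have huQ : u ∈ Q := hWQ u (hnbW v hu)
      exact ⟨hv, huQ, fun h => by rw [h] at hu; exact absurd hu (Finset.notMem_empty _), hu,
        hfQ u huQ⟩
  refine ⟨f, graceful_of f hfinj ?_ ?_ ?_⟩
  · intro u v huv hlt
    rcases hclass u v huv hlt with ⟨_, _, _, _, h⟩ | ⟨hv, hu, hne, hun, hfu⟩
    · exact (hRok _ h).2.1
    · obtain ⟨l, hl1, hl2, _⟩ := hlab _ (hmem𝒯 _ (hfam' v hv hne)) _ (hfS v hv hne) (p u)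
        (Finset.mem_image_of_mem _ hun)
      omega
  · intro u v u' v' huv huv' hlt hlt' heq
    rcases hclass u v huv hlt with ⟨hu, hv, h1, h2, h3⟩ | ⟨hv, hu, hne, hun, hfu⟩ <;>
      rcases hclass u' v' huv' hlt' with ⟨hu', hv', h1', h2', h3'⟩ | ⟨hv', hu', hne', hun', hfu'⟩
    · have m1 := hpmono u hu v hv h1
      have m2 := hpmono u' hu' v' hv' h1'
      have hvv : p v = p v' := by
        rcases lt_trichotomy (p v) (p v') with h | h | h
        · have := hpmono v hv v' hv' h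
          omega
        · exact h
        · have := hpmono v' hv' v hv h
          omega
      exact ⟨hpinj hu hu' (by omega), hpinj hv hv' hvv⟩
    · exfalso
      obtain ⟨l, hl1, hl2, hl3⟩ := hlab _ (hmem𝒯 _ (hfam' v' hv' hne')) _ (hfS v' hv' hne') (p u')
        (Finset.mem_image_of_mem _ hun')
      exact hl3 (by rw [show l = f v - f u by omega]; exact h3)
    · exfalso
      obtain ⟨l, hl1, hl2, hl3⟩ := hlab _ (hmem𝒯 _ (hfam' v hv hne)) _ (hfS v hv hne) (p u)
        (Finset.mem_image_of_mem _ hun)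
      exact hl3 (by rw [show l = f v' - f u' by omega]; exact h3')
    · obtain ⟨e1, e2⟩ := hinj _ (hmem𝒯 _ (hfam' v hv hne)) _ (hfS v hv hne) (p u)
        (Finset.mem_image_of_mem _ hun) _ (hmem𝒯 _ (hfam' v' hv' hne')) _ (hfS v' hv' hne') (p u')
        (Finset.mem_image_of_mem _ hun') (by omega)
      exact ⟨hpinj hu hu' e2, hfinj e1⟩
  · intro l hl
    by_cases hlR : l ∈ R
    · obtain ⟨u, hu, v, hv, huv, hlt, rfl⟩ := hlR
      exact ⟨u, v, huv, by rw [hfQ u hu, hfQ v hv]; exact hlt, by rw [hfQ u hu, hfQ v hv]⟩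
    · obtain ⟨A, hA, N, hN, φ, hφ, he⟩ := hsurj l hl hlR
      obtain ⟨T, hT, rfl⟩ := hof𝒯 A hA
      obtain ⟨w, hw, rfl⟩ := Finset.mem_image.mp hφ
      obtain ⟨z, ⟨hzQ, hznb⟩, hz⟩ := (hlam T hT).surjOn hN
      have hne : nb z ≠ ∅ := by
        rw [hznb]
        exact Finset.nonempty_iff_ne_empty.mp (Finset.mem_filter.mp hT).2.1
      have hfz : f z = N := by
        rw [hfL z hzQ hne, hznb, hz]
      have hwQ : w ∈ Q := hWQ w (hfamW T hT hw)
      refine ⟨w, z, ((hnb z (hnQ z hzQ).1 w).mpr (by rw [hznb]; exact hw)).symm, ?_, ?_⟩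
      · rw [hfz, hfQ w hwQ]
        have := hfgt z hzQ
        have := hple w hwQ
        omega
      · rw [hfz, hfQ w hwQ]
        omega

end Pool.Agent.Graceful
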