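import Mathlib
import Pool.Agent.Lib.MP_7616b3_co.Insert

set_option autoImplicit false

namespace Pool.Agent.Graceful

universe u

variable {V : Type u} {G : SimpleGraph V}

open Filter

/-- One step of the strategy. -/
def StepW (G : SimpleGraph V) (W : Set (Set (V × V))) (R : Set (V × V)) : Prop :=
  ∀ F : Finset V, ∃ u v, G.Adj u v ∧ u ∉ F ∧ v ∉ F ∧ ∀ p ∈ R,
    ¬ (G.Adj p.1 u ∧ G.Adj p.2 v) ∧
    (¬ G.Adj p.1 u → ¬ G.Adj p.2 v → ({(p.1, u), (p.2, v)} : Set (V × V)) ∈ W)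

/-- `R` is winning. -/
def Win (G : SimpleGraph V) (R : Set (V × V)) : Prop :=
  ∃ W : Set (Set (V × V)), (∀ R ∈ W, StepW G W R) ∧ R ∈ W

lemma StepW.mono {W W' : Set (Set (V × V))} {R R' : Set (V × V)} (hW : W ⊆ W') (hR : R' ⊆ R)
    (h : StepW G W R) : StepW G W' R' := by
  intro F
  obtain ⟨u, v, huv, hu, hv, hp⟩ := h F
  exact ⟨u, v, huv, hu, hv, fun p hp' => ⟨(hp p (hR hp')).1, fun h1 h2 =>
    hW ((hp p (hR hp')).2 h1 h2)⟩⟩

lemma Win.step {R : Set (V × V)} (h : Win G R) : StepW G {R | Win G R} R := by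
  obtain ⟨W, hW, hR⟩ := h
  exact (hW R hR).mono (fun R' hR' => ⟨W, hW, hR'⟩) (le_refl _)

lemma Win.mono {R R' : Set (V × V)} (h : Win G R) (hR : R' ⊆ R) : Win G R' := by
  refine ⟨{R' | Win G R'} ∪ {R'}, ?_, Or.inr rfl⟩
  rintro R'' (h'' | h'')
  · exact (Win.step h'').mono (Set.subset_union_left) (le_refl _)
  · rw [Set.mem_singleton_iff] at h''
    rw [h'']
    exact (Win.step h).mono (Set.subset_union_left) hR

lemma exists_late_edge (hM : HasInfiniteMatching G) (F : Finset V) :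
    ∃ u v, G.Adj u v ∧ u ∉ F ∧ v ∉ F := by
  classical
  obtain ⟨M, hMinf, hMsub, hMdis⟩ := hM
  by_contra hcon
  push Not at hcon
  apply hMinf
  have hsub : M ⊆ ⋃ w ∈ (F : Set V), {e ∈ M | w ∈ e} := by
    intro e he
    have hE := hMsub he
    induction e with
    | _ u v =>
      rw [SimpleGraph.mem_edgeSet] at hE
      simp only [Set.mem_iUnion]
      by_cases hu : u ∈ F
      · exact ⟨u, hu, he, Sym2.mem_mk_left _ _⟩
      · exact ⟨v, hcon u v hE hu, he, Sym2.mem_mk_right _ _⟩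
  apply Set.Finite.subset _ hsub
  apply Set.Finite.biUnion F.finite_toSet
  intro w _
  apply Set.Subsingleton.finite
  rintro e ⟨heM, hwe⟩ e' ⟨heM', hwe'⟩
  by_contra hne
  exact hMdis e heM e' heM' hne w hwe hwe'

lemma win_empty (hM : HasInfiniteMatching G) : Win G (∅ : Set (V × V)) := by
  refine ⟨{∅}, ?_, rfl⟩
  intro R hR
  rw [Set.mem_singleton_iff] at hR
  rw [hR]
  intro F
  obtain ⟨u, v, huv, hu, hv⟩ := exists_late_edge hM F
  exact ⟨u, v, huv, hu, hv, fun p hp => absurd hp (Set.notMem_empty _)⟩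

/-- An ultrafilter concentrating on late edges satisfying `Φ`. -/
lemma exists_ultra (Φ : V → V → Prop)
    (h : ∀ F : Finset V, ∃ u v, G.Adj u v ∧ u ∉ F ∧ v ∉ F ∧ Φ u v) :
    ∃ U : Ultrafilter (V × V), (∀ᶠ q in (U : Filter (V × V)), G.Adj q.1 q.2 ∧ Φ q.1 q.2) ∧
      ∀ F : Finset V, ∀ᶠ q in (U : Filter (V × V)), q.1 ∉ F ∧ q.2 ∉ F := by
  classical
  let E : Finset V → Set (V × V) := fun F =>
    {q | G.Adj q.1 q.2 ∧ q.1 ∉ F ∧ q.2 ∉ F ∧ Φ q.1 q.2}
  let f : Filter (V × V) := ⨅ F : Finset V, 𝓟 (E F)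
  have hdir : Directed (· ≥ ·) (fun F : Finset V => 𝓟 (E F)) := by
    intro F F'
    refine ⟨F ∪ F', ?_, ?_⟩
    · simp only [ge_iff_le, Filter.le_principal_iff, Filter.mem_principal]
      rintro q ⟨h1, h2, h3, h4⟩
      exact ⟨h1, fun h => h2 (Finset.mem_union_left _ h), fun h => h3 (Finset.mem_union_left _ h),
        h4⟩
    · simp only [ge_iff_le, Filter.le_principal_iff, Filter.mem_principal]
      rintro q ⟨h1, h2, h3, h4⟩
      exact ⟨h1, fun h => h2 (Finset.mem_union_right _ h),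
        fun h => h3 (Finset.mem_union_right _ h), h4⟩
  have hne : NeBot f := by
    apply Filter.iInf_neBot_of_directed' hdir
    intro F
    rw [Filter.principal_neBot_iff]
    obtain ⟨u, v, h1, h2, h3, h4⟩ := h F
    exact ⟨(u, v), h1, h2, h3, h4⟩
  have hf : ∀ F, ∀ᶠ q in f, q ∈ E F := fun F =>
    Filter.mem_iInf_of_mem F (Filter.mem_principal_self _)
  refine ⟨Ultrafilter.of f, ?_, ?_⟩
  · have h1 := (Ultrafilter.of_le f) (hf ∅)
    filter_upwards [h1] with q hq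
    exact ⟨hq.1, hq.2.2.2⟩
  · intro F
    have h1 := (Ultrafilter.of_le f) (hf F)
    filter_upwards [h1] with q hq
    exact ⟨hq.2.1, hq.2.2.1⟩

section Ultra

variable (U : Ultrafilter (V × V))

lemma type_fst (w : V) : ∀ᶠ q in (U : Filter (V × V)),
    (G.Adj w q.1 ↔ ∀ᶠ q in (U : Filter (V × V)), G.Adj w q.1) := by
  by_cases h : ∀ᶠ q in (U : Filter (V × V)), G.Adj w q.1
  · filter_upwards [h] with q hq
    exact ⟨fun _ => h, fun _ => hq⟩
  · have h' := Ultrafilter.eventually_not.mpr h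
    filter_upwards [h'] with q hq
    exact ⟨fun h1 => absurd h1 hq, fun h1 => absurd h1 h⟩

lemma type_snd (w : V) : ∀ᶠ q in (U : Filter (V × V)),
    (G.Adj w q.2 ↔ ∀ᶠ q in (U : Filter (V × V)), G.Adj w q.2) := by
  by_cases h : ∀ᶠ q in (U : Filter (V × V)), G.Adj w q.2
  · filter_upwards [h] with q hq
    exact ⟨fun _ => h, fun _ => hq⟩
  · have h' := Ultrafilter.eventually_not.mpr h
    filter_upwards [h'] with q hq
    exact ⟨fun h1 => absurd h1 hq, fun h1 => absurd h1 h⟩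

/-- Strategy of kind B. -/
lemma win_kindB (hE : ∀ᶠ q in (U : Filter (V × V)), G.Adj q.1 q.2)
    (hF : ∀ F : Finset V, ∀ᶠ q in (U : Filter (V × V)), q.1 ∉ F ∧ q.2 ∉ F)
    (hδ : ∀ᶠ q in (U : Filter (V × V)), ¬ ∀ᶠ r in (U : Filter (V × V)), G.Adj q.2 r.2)
    (R : Set (V × V)) (hfin : R.Finite)
    (hR : ∀ p ∈ R, ¬ ((∀ᶠ q in (U : Filter (V × V)), G.Adj p.1 q.1) ∧
      ∀ᶠ q in (U : Filter (V × V)), G.Adj p.2 q.2)) : Win G R := by
  refine ⟨{R | R.Finite ∧ ∀ p ∈ R, ¬ ((∀ᶠ q in (U : Filter (V × V)), G.Adj p.1 q.1) ∧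
      ∀ᶠ q in (U : Filter (V × V)), G.Adj p.2 q.2)}, ?_, hfin, hR⟩
  rintro R ⟨hfin, hR⟩ F
  have h1 : ∀ᶠ q in (U : Filter (V × V)), ∀ p ∈ R,
      (G.Adj p.1 q.1 ↔ ∀ᶠ q in (U : Filter (V × V)), G.Adj p.1 q.1) ∧
      (G.Adj p.2 q.2 ↔ ∀ᶠ q in (U : Filter (V × V)), G.Adj p.2 q.2) := by
    rw [Filter.eventually_all_finite hfin]
    intro p _
    exact (type_fst U p.1).and (type_snd U p.2)
  obtain ⟨q, ⟨⟨⟨hadj, hqF⟩, hq⟩, hqδ⟩⟩ := (((hE.and (hF F)).and h1).and hδ).exists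
  refine ⟨q.1, q.2, hadj, hqF.1, hqF.2, ?_⟩
  intro p hp
  have h2 := hq p hp
  have h3 := hR p hp
  refine ⟨fun h => h3 ⟨h2.1.mp h.1, h2.2.mp h.2⟩, ?_⟩
  intro hn1 hn2
  refine ⟨by simp, ?_⟩
  intro p' hp'
  rcases hp' with rfl | hp'
  · intro h
    exact hn1 (h2.1.mpr h.1)
  · rw [Set.mem_singleton_iff] at hp'
    subst hp'
    intro h
    exact hqδ h.2

/-- Strategy of kind C. -/
lemma win_kindC (hF : ∀ F : Finset V, ∀ᶠ q in (U : Filter (V × V)), q.1 ∉ F ∧ q.2 ∉ F)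
    (hδ : ∀ᶠ q in (U : Filter (V × V)), ∀ᶠ r in (U : Filter (V × V)), G.Adj q.2 r.2)
    (R : Set (V × V)) (hfin : R.Finite)
    (hR : ∀ p ∈ R, ¬ ((∀ᶠ q in (U : Filter (V × V)), G.Adj p.1 q.2) ∧
      ∀ᶠ q in (U : Filter (V × V)), G.Adj p.2 q.2)) : Win G R := by
  refine ⟨{R | R.Finite ∧ ∀ p ∈ R, ¬ ((∀ᶠ q in (U : Filter (V × V)), G.Adj p.1 q.2) ∧
      ∀ᶠ q in (U : Filter (V × V)), G.Adj p.2 q.2)}, ?_, hfin, hR⟩
  rintro R ⟨hfin, hR⟩ F
  have h1 : ∀ᶠ q in (U : Filter (V × V)), ∀ p ∈ R,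
      (G.Adj p.1 q.2 ↔ ∀ᶠ q in (U : Filter (V × V)), G.Adj p.1 q.2) ∧
      (G.Adj p.2 q.2 ↔ ∀ᶠ q in (U : Filter (V × V)), G.Adj p.2 q.2) := by
    rw [Filter.eventually_all_finite hfin]
    intro p _
    exact (type_snd U p.1).and (type_snd U p.2)
  obtain ⟨q, ⟨⟨hqF, hq⟩, hqδ⟩⟩ := (((hF F)).and h1).and hδ |>.exists
  obtain ⟨r, ⟨⟨hrF, hr⟩, hqr⟩⟩ := (((hF F)).and h1).and hqδ |>.exists
  refine ⟨q.2, r.2, hqr, hqF.2, hrF.2, ?_⟩
  intro p hp
  have h2 := hq p hp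
  have h2' := hr p hp
  have h3 := hR p hp
  refine ⟨fun h => h3 ⟨h2.1.mp h.1, h2'.2.mp h.2⟩, ?_⟩
  intro hn1 hn2
  refine ⟨by simp, ?_⟩
  intro p' hp'
  rcases hp' with rfl | hp'
  · intro h
    exact hn1 (h2.1.mpr h.1)
  · rw [Set.mem_singleton_iff] at hp'
    subst hp'
    intro h
    exact hn2 (h2'.2.mpr h.1)

end Ultra

lemma not_lateDominating_iff {w : V} : ¬ LateDominating G w ↔
    ∀ F : Finset V, ∃ u v, G.Adj u v ∧ u ∉ F ∧ v ∉ F ∧ ¬ G.Adj w u := by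
  unfold LateDominating
  push Not
  constructor
  · intro h F
    obtain ⟨u, v, h1, h2, h3, h4⟩ := h F
    by_cases hu : G.Adj w u
    · exact ⟨v, u, h1.symm, h3, h2, h4 hu⟩
    · exact ⟨u, v, h1, h2, h3, hu⟩
  · intro h F
    obtain ⟨u, v, h1, h2, h3, h4⟩ := h F
    exact ⟨u, v, h1, h2, h3, fun h => absurd h h4⟩

lemma win_single (x y : V) (h : ¬ (LateDominating G x ∧ LateDominating G y)) :
    Win G ({(x, y)} : Set (V × V)) := by
  by_cases hx : LateDominating G x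
  · -- then y is not late dominating
    have hy : ¬ LateDominating G y := fun hy => h ⟨hx, hy⟩
    rw [not_lateDominating_iff] at hy
    obtain ⟨U, hU, hUF⟩ := exists_ultra (G := G) (fun _ v => ¬ G.Adj y v) (by
      intro F
      obtain ⟨u, v, h1, h2, h3, h4⟩ := hy F
      exact ⟨v, u, h1.symm, h3, h2, h4⟩)
    have hby : ¬ ∀ᶠ q in (U : Filter (V × V)), G.Adj y q.2 := by
      rw [← Ultrafilter.eventually_not]
      filter_upwards [hU] with q hq using hq.2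
    by_cases hδ : ∀ᶠ q in (U : Filter (V × V)), ∀ᶠ r in (U : Filter (V × V)), G.Adj q.2 r.2
    · apply win_kindC U hUF hδ _ (Set.finite_singleton _)
      intro p hp
      rw [Set.mem_singleton_iff] at hp
      subst hp
      exact fun h => hby h.2
    · rw [← Ultrafilter.eventually_not] at hδ
      apply win_kindB U (hU.mono fun q hq => hq.1) hUF hδ _ (Set.finite_singleton _)
      intro p hp
      rw [Set.mem_singleton_iff] at hp
      subst hp
      exact fun h => hby h.2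
  · rw [not_lateDominating_iff] at hx
    obtain ⟨U, hU, hUF⟩ := exists_ultra (G := G) (fun u _ => ¬ G.Adj x u) hx
    have hax : ¬ ∀ᶠ q in (U : Filter (V × V)), G.Adj x q.1 := by
      rw [← Ultrafilter.eventually_not]
      filter_upwards [hU] with q hq using hq.2
    by_cases hδ : ∀ᶠ q in (U : Filter (V × V)), ∀ᶠ r in (U : Filter (V × V)), G.Adj q.2 r.2
    · by_cases hb : (∀ᶠ q in (U : Filter (V × V)), G.Adj x q.2) ∧
        ∀ᶠ q in (U : Filter (V × V)), G.Adj y q.2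
      · refine ⟨{{(x, y)}}, ?_, rfl⟩
        intro R hR F
        rw [Set.mem_singleton_iff] at hR
        subst hR
        obtain ⟨q, ⟨⟨hq1, hq2⟩, hq3⟩⟩ := ((hU.and (hUF F)).and hb.2).exists
        refine ⟨q.1, q.2, hq1.1, hq2.1, hq2.2, ?_⟩
        intro p hp
        rw [Set.mem_singleton_iff] at hp
        subst hp
        exact ⟨fun h => hq1.2 h.1, fun _ h => absurd hq3 h⟩
      · apply win_kindC U hUF hδ _ (Set.finite_singleton _)
        intro p hp
        rw [Set.mem_singleton_iff] at hp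
        subst hp
        exact hb
    · rw [← Ultrafilter.eventually_not] at hδ
      apply win_kindB U (hU.mono fun q hq => hq.1) hUF hδ _ (Set.finite_singleton _)
      intro p hp
      rw [Set.mem_singleton_iff] at hp
      subst hp
      exact fun h => hax h.1

end Pool.Agent.Graceful
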