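import Mathlib
import Pool.Agent.Lib.MP_7616b3_co.Win
import Pool.Agent.Lib.MP_7616b3_co.BijCase

set_option autoImplicit false

namespace Pool.Agent.Graceful

universe u

variable {V : Type u} {G : SimpleGraph V} {k : ℕ}

/-- A non-adjacent pair of late dominating vertices. -/
def HPair (G : SimpleGraph V) (x y : V) : Prop :=
  x ≠ y ∧ ¬ G.Adj x y ∧ LateDominating G x ∧ LateDominating G y

lemma HPair.symm {x y : V} (h : HPair G x y) : HPair G y x :=
  ⟨h.1.symm, fun ha => h.2.1 ha.symm, h.2.2.2, h.2.2.1⟩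

lemma win_pair {x y : V} (hne : x ≠ y) (hadj : ¬ G.Adj x y) (h : ¬ HPair G x y) :
    Win G ({(x, y)} : Set (V × V)) :=
  win_single x y (fun h' => h ⟨hne, hadj, h'⟩)

namespace PL

/-- Pairs of the domain with difference `l`. -/
def Rep (p : PL G k) (l : ℕ) : Set (V × V) :=
  {q | q.1 ∈ p.dom ∧ q.2 ∈ p.dom ∧ p.f q.2 = p.f q.1 + l}

/-- The invariant. -/
def Inv (p : PL G k) : Prop := ∀ l, k ≤ l → ¬ p.Real l → Win G (p.Rep l)

end PL

open PL

section Steps

variable (hk : 1 ≤ k) (hM : HasInfiniteMatching G)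
  (hH : ∀ x y y', HPair G x y → HPair G x y' → y = y')

include hH in
lemma partners_finite (W : Finset V) : {v | ∃ x ∈ W, HPair G x v}.Finite := by
  have : {v | ∃ x ∈ W, HPair G x v} ⊆ ⋃ x ∈ (W : Set V), {v | HPair G x v} := by
    rintro v ⟨x, hx, hv⟩
    simp only [Set.mem_iUnion]
    exact ⟨x, hx, hv⟩
  apply Set.Finite.subset _ this
  apply Set.Finite.biUnion W.finite_toSet
  intro x _
  apply Set.Subsingleton.finite
  intro y hy y' hy'
  exact hH x y y' hy hy'

lemma inv_empty (hM : HasInfiniteMatching G) : (PL.empty (G := G) (k := k)).Inv := by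
  intro l _ _
  apply (win_empty hM).mono
  rintro q ⟨hq, _⟩
  simp [PL.empty] at hq

/-- Adding a forbidden number. -/
lemma step_forb (p : PL G k) (hp : p.Inv) :
    ∃ q : PL G k, p ≤ q ∧ q.Inv ∧ p.forb.card < q.forb.card := by
  classical
  obtain ⟨B, _, _, hB, hB'⟩ := p.exists_bound 0
  refine ⟨{ dom := p.dom, f := p.f, forb := insert B p.forb, inj := p.inj, avoid := ?_,
            lab_ge := p.lab_ge, lab_inj := p.lab_inj }, ⟨fun _ h => h, fun _ _ => rfl,
            Finset.subset_insert _ _⟩, ?_, ?_⟩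
  · intro u hu h
    rw [Finset.mem_insert] at h
    rcases h with h | h
    · have := hB u hu; omega
    · exact p.avoid u hu h
  · exact hp
  · simp only
    rw [Finset.card_insert_of_notMem]
    · omega
    · intro h; have := hB' B h; omega

include hk in
/-- Adding a vertex that has no `HPair` partner in the domain. -/
lemma step_add_far (hM : HasInfiniteMatching G) (p : PL G k) (hp : p.Inv) (z : V)
    (hz : z ∉ p.dom) (hw : ∀ w ∈ p.dom, ¬ HPair G w z) :
    ∃ q : PL G k, p ≤ q ∧ q.Inv ∧ z ∈ q.dom := by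
  classical
  obtain ⟨B, _, hkB, hB, hB'⟩ := p.exists_bound 0
  obtain ⟨q, hpq, hdom, hqz, _, hqx⟩ := p.exists_insert_far z (3 * B) B hz hkB hB hB' (by omega)
  refine ⟨q, hpq, ?_, (hdom z).mpr (Or.inl rfl)⟩
  intro l hl hr
  -- every representing pair is old or ends at z
  by_cases hlB : l < B
  · have hsub : q.Rep l ⊆ p.Rep l := by
      rintro ⟨x, y⟩ ⟨hx, hy, he⟩
      simp only at hx hy he
      rw [hdom] at hx hy
      rcases hx with rfl | hx <;> rcases hy with rfl | hy
      · omega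
      · rw [hqz, hqx y hy] at he; have := hB y hy; omega
      · rw [hqz, hqx x hx] at he; have := hB x hx; omega
      · rw [hqx x hx, hqx y hy] at he
        exact ⟨hx, hy, he⟩
    exact (hp l hl (fun h => hr (h.mono hpq))).mono hsub
  · by_cases hemp : q.Rep l = ∅
    · rw [hemp]; exact win_empty hM
    · obtain ⟨⟨x, y⟩, hx, hy, he⟩ := Set.nonempty_iff_ne_empty.mpr hemp
      simp only at hx hy he
      have hxd : x ∈ p.dom ∧ y = z := by
        rw [hdom] at hx hy
        rcases hx with rfl | hx <;> rcases hy with rfl | hy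
        · omega
        · rw [hqz, hqx y hy] at he; have := hB y hy; omega
        · exact ⟨hx, rfl⟩
        · rw [hqx x hx, hqx y hy] at he; have := hB y hy; omega
      obtain ⟨hxd, rfl⟩ := hxd
      have hsub : q.Rep l ⊆ {(x, y)} := by
        rintro ⟨x', y'⟩ ⟨hx', hy', he'⟩
        simp only at hx' hy' he'
        rw [Set.mem_singleton_iff]
        have hxd' : x' ∈ p.dom ∧ y' = y := by
          rw [hdom] at hx' hy'
          rcases hx' with rfl | hx' <;> rcases hy' with rfl | hy'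
          · omega
          · rw [hqz, hqx y' hy'] at he'; have := hB y' hy'; omega
          · exact ⟨hx', rfl⟩
          · rw [hqx x' hx', hqx y' hy'] at he'; have := hB y' hy'; omega
        obtain ⟨hxd', rfl⟩ := hxd'
        have : x' = x := by
          apply p.inj x' hxd' x hxd
          rw [hqz, hqx x hxd] at he
          rw [hqz, hqx x' hxd'] at he'
          omega
        rw [this]
      have hne : x ≠ y := fun h => hz (h ▸ hxd)
      have hnadj : ¬ G.Adj x y := fun h => hr ⟨x, (hdom x).mpr (Or.inr hxd), y,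
        (hdom y).mpr (Or.inl rfl), h, he⟩
      exact (win_pair hne hnadj (hw x hxd)).mono hsub

include hk hH in
/-- Adding a vertex that has an `HPair` partner in the domain. -/
lemma step_add_partner (hM : HasInfiniteMatching G) (p : PL G k) (hp : p.Inv) (z w : V)
    (hz : z ∉ p.dom) (hwd : w ∈ p.dom) (hwz : HPair G w z) :
    ∃ q : PL G k, p ≤ q ∧ q.Inv ∧ z ∈ q.dom := by
  classical
  obtain ⟨Fw, hFw⟩ := hwz.2.2.1
  obtain ⟨Fz, hFz⟩ := hwz.2.2.2
  set Pt : Finset V := (partners_finite hH (insert z p.dom)).toFinset with hPt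
  obtain ⟨v, v', hvv', hv, hv'⟩ := exists_late_edge hM (insert z p.dom ∪ Fw ∪ Fz ∪ Pt)
  have hvz : v ∉ insert z p.dom := fun h => hv (by
    simp only [Finset.mem_union]; exact Or.inl (Or.inl (Or.inl h)))
  have hvz1 : v ≠ z := fun h => hvz (by simp [h])
  have hvdom : v ∉ p.dom := fun h => hvz (by simp [h])
  have hvFw : v ∉ Fw := fun h => hv (by simp [h])
  have hvFz : v ∉ Fz := fun h => hv (by simp [h])
  have hv'Fw : v' ∉ Fw := fun h => hv' (by simp [h])
  have hv'Fz : v' ∉ Fz := fun h => hv' (by simp [h])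
  have hvPt : v ∉ Pt := fun h => hv (by simp [h])
  have hnoH : ∀ x, x = z ∨ x ∈ p.dom → ¬ HPair G x v := by
    intro x hx h
    apply hvPt
    rw [hPt, Set.Finite.mem_toFinset]
    exact ⟨x, by simpa using hx, h⟩
  have hadjw : G.Adj w v := (hFw v v' hvv' hvFw hv'Fw).1
  have hadjz : G.Adj z v := (hFz v v' hvv' hvFz hv'Fz).1
  obtain ⟨B, _, hkB, hB, hB'⟩ := p.exists_bound 0
  obtain ⟨q1, hpq1, hdom1, hq1z, hq1f, hq1x⟩ :=
    p.exists_insert_far z (3 * B) B hz hkB hB hB' (by omega)
  have hfw := hB w hwd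
  -- labels of q1
  have hreal1 : ∀ l, q1.Real l → l < B ∨ ∃ x ∈ p.dom, G.Adj x z ∧ 3 * B = p.f x + l := by
    rintro l ⟨a, ha, b, hb, hab, he⟩
    rw [hdom1] at ha hb
    rcases ha with rfl | ha <;> rcases hb with rfl | hb
    · exact absurd hab (G.loopless.irrefl _)
    · rw [hq1z, hq1x b hb] at he; have := hB b hb; omega
    · rw [hq1z, hq1x a ha] at he; exact Or.inr ⟨a, ha, hab, he⟩
    · rw [hq1x b hb] at he; have := hB b hb; left; omega
  obtain ⟨q, hq1q, hdomq, hqv, _, hqx⟩ := q1.exists_insert v (6 * B - p.f w)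
    (by rw [hdom1]; push Not; exact ⟨hvz1, hvdom⟩)
    (by
      intro x hx
      rw [hdom1] at hx
      rcases hx with rfl | hx
      · rw [hq1z]; omega
      · rw [hq1x x hx]; have := hB x hx; omega)
    (by
      rw [hq1f]
      intro h
      have := hB' _ h
      omega)
    (by
      intro x hx hxv l hl'
      rw [hdom1] at hx
      rcases hx with rfl | hx
      · rw [hq1z] at hl'
        refine ⟨by omega, fun h => ?_⟩
        rcases hreal1 l h with h1 | ⟨y, hy, hyz, h1⟩
        · omega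
        · have : y = w := by
            apply p.inj y hy w hwd
            omega
          subst this
          exact hwz.2.1 hyz
      · rw [hq1x x hx] at hl'
        have h1 := hB x hx
        refine ⟨by omega, fun h => ?_⟩
        rcases hreal1 l h with h1 | ⟨y, hy, hyz, h1⟩ <;> omega)
    (by
      intro x hx y hy _ _ l h1 h2
      rw [hdom1] at hy
      rcases hy with rfl | hy
      · rw [hq1z] at h2; omega
      · rw [hq1x y hy] at h2; have := hB y hy; omega)
  have hzq : z ∈ q.dom := (hdomq z).mpr (Or.inr ((hdom1 z).mpr (Or.inl rfl)))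
  have hvq : v ∈ q.dom := (hdomq v).mpr (Or.inl rfl)
  have hfz : q.f z = 3 * B := by rw [hqx z ((hdom1 z).mpr (Or.inl rfl)), hq1z]
  have hfd : ∀ x ∈ p.dom, q.f x = p.f x := fun x hx => by
    rw [hqx x ((hdom1 x).mpr (Or.inr hx)), hq1x x hx]
  have hdq : ∀ x, x ∈ q.dom → x = v ∨ x = z ∨ x ∈ p.dom := by
    intro x hx
    rw [hdomq, hdom1] at hx
    exact hx
  have hpq : p ≤ q := hpq1.trans hq1q
  refine ⟨q, hpq, ?_, hzq⟩
  intro l hl hr
  have hlne : l ≠ 3 * B - p.f w := by
    intro h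
    apply hr
    exact ⟨z, hzq, v, hvq, hadjz, by rw [hqv, hfz]; omega⟩
  -- classification of pairs
  have hclass : ∀ x y, (x, y) ∈ q.Rep l → (x ∈ p.dom ∧ y ∈ p.dom ∧ p.f y = p.f x + l ∧ l < B) ∨
      (x ∈ p.dom ∧ y = z ∧ 3 * B = p.f x + l ∧ x ≠ w) ∨
      (x ∈ p.dom ∧ y = v ∧ 6 * B - p.f w = p.f x + l) := by
    rintro x y ⟨hx, hy, he⟩
    simp only at hx hy he
    rcases hdq x hx with rfl | rfl | hx' <;> rcases hdq y hy with rfl | rfl | hy'
    · omega
    · rw [hqv, hfz] at he; omega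
    · rw [hqv, hfd y hy'] at he; have := hB y hy'; omega
    · rw [hqv, hfz] at he; omega
    · omega
    · rw [hfz, hfd y hy'] at he; have := hB y hy'; omega
    · right; right
      rw [hqv, hfd x hx'] at he
      exact ⟨hx', rfl, he⟩
    · right; left
      rw [hfz, hfd x hx'] at he
      refine ⟨hx', rfl, he, ?_⟩
      rintro rfl
      omega
    · left
      rw [hfd x hx', hfd y hy'] at he
      have := hB y hy'
      exact ⟨hx', hy', he, by omega⟩
  by_cases hemp : q.Rep l = ∅
  · rw [hemp]; exact win_empty hM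
  · obtain ⟨⟨x, y⟩, hxy⟩ := Set.nonempty_iff_ne_empty.mpr hemp
    have hnadj : ¬ G.Adj x y := fun h => hr ⟨x, hxy.1, y, hxy.2.1, h, hxy.2.2⟩
    rcases hclass x y hxy with ⟨hx, hy, he, hlB⟩ | ⟨hx, rfl, he, hxw⟩ | ⟨hx, rfl, he⟩
    · apply (hp l hl (fun h => hr (h.mono hpq))).mono
      rintro ⟨x', y'⟩ hxy'
      rcases hclass x' y' hxy' with ⟨hx', hy', he', _⟩ | ⟨hx', rfl, he', _⟩ | ⟨hx', rfl, he'⟩
      · exact ⟨hx', hy', he'⟩
      · have := hB x' hx'; omega
      · have := hB x' hx'; omega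
    · have hne : x ≠ y := fun h => hz (h ▸ hx)
      have hnH : ¬ HPair G x y := by
        intro h
        exact hxw (hH y x w h.symm hwz.symm)
      apply (win_pair hne hnadj hnH).mono
      rintro ⟨x', y'⟩ hxy'
      have hxB := hB x hx
      rcases hclass x' y' hxy' with ⟨hx', hy', he', h1⟩ | ⟨hx', rfl, he', _⟩ | ⟨hx', rfl, he'⟩
      · omega
      · have : x' = x := p.inj x' hx' x hx (by omega)
        rw [this]; rfl
      · have := hB x' hx'; omega
    · have hne : x ≠ y := fun h => hvdom (h ▸ hx)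
      apply (win_pair hne hnadj (hnoH x (Or.inr hx))).mono
      rintro ⟨x', y'⟩ hxy'
      have hxB := hB x hx
      rcases hclass x' y' hxy' with ⟨hx', hy', he', h1⟩ | ⟨hx', rfl, he', _⟩ | ⟨hx', rfl, he'⟩
      · omega
      · have := hB x' hx'; omega
      · have : x' = x := p.inj x' hx' x hx (by omega)
        rw [this]; rfl

include hk hH in
/-- Realising a label. -/
lemma step_real (hM : HasInfiniteMatching G) (p : PL G k) (hp : p.Inv) (l0 : ℕ) (hl0 : k ≤ l0) :
    ∃ q : PL G k, p ≤ q ∧ q.Inv ∧ q.Real l0 := by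
  classical
  by_cases hr0 : p.Real l0
  · exact ⟨p, le_refl p, hp, hr0⟩
  set Pt : Finset V := (partners_finite hH p.dom).toFinset with hPt
  obtain ⟨u, v, huv, hu, hv, hpair⟩ := (hp l0 hl0 hr0).step (p.dom ∪ Pt)
  have hud : u ∉ p.dom := fun h => hu (by simp [h])
  have hvd : v ∉ p.dom := fun h => hv (by simp [h])
  have huPt : u ∉ Pt := fun h => hu (by simp [h])
  have hvPt : v ∉ Pt := fun h => hv (by simp [h])
  have hnoHu : ∀ x ∈ p.dom, ¬ HPair G x u := by
    intro x hx h
    apply huPt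
    rw [hPt, Set.Finite.mem_toFinset]
    exact ⟨x, hx, h⟩
  have hnoHv : ∀ x ∈ p.dom, ¬ HPair G x v := by
    intro x hx h
    apply hvPt
    rw [hPt, Set.Finite.mem_toFinset]
    exact ⟨x, hx, h⟩
  have huv' : v ≠ u := huv.ne'
  obtain ⟨B, hl0B, hkB, hB, hB'⟩ := p.exists_bound l0
  obtain ⟨q1, hpq1, hdom1, hq1u, hq1f, hq1x⟩ :=
    p.exists_insert_far u (3 * B) B hud hkB hB hB' (by omega)
  have hreal1 : ∀ l, q1.Real l → (p.Real l ∧ l < B) ∨ ∃ x ∈ p.dom, G.Adj x u ∧ 3 * B = p.f x + l := by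
    rintro l ⟨a, ha, b, hb, hab, he⟩
    rw [hdom1] at ha hb
    rcases ha with rfl | ha <;> rcases hb with rfl | hb
    · exact absurd hab (G.loopless.irrefl _)
    · rw [hq1u, hq1x b hb] at he; have := hB b hb; omega
    · rw [hq1u, hq1x a ha] at he; exact Or.inr ⟨a, ha, hab, he⟩
    · rw [hq1x b hb, hq1x a ha] at he; have := hB b hb; left
      exact ⟨⟨a, ha, b, hb, hab, he⟩, by omega⟩
  obtain ⟨q, hq1q, hdomq, hqv, _, hqx⟩ := q1.exists_insert v (3 * B + l0)
    (by rw [hdom1]; push Not; exact ⟨huv', hvd⟩)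
    (by
      intro x hx
      rw [hdom1] at hx
      rcases hx with rfl | hx
      · rw [hq1u]; omega
      · rw [hq1x x hx]; have := hB x hx; omega)
    (by
      rw [hq1f]
      intro h
      have := hB' _ h
      omega)
    (by
      intro x hx hxv l hl'
      rw [hdom1] at hx
      rcases hx with rfl | hx
      · rw [hq1u] at hl'
        have hll : l = l0 := by omega
        subst hll
        refine ⟨hl0, fun h => ?_⟩
        rcases hreal1 l h with ⟨h1, _⟩ | ⟨y, hy, hyz, h1⟩
        · exact hr0 h1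
        · have := hB y hy; omega
      · rw [hq1x x hx] at hl'
        have h1 := hB x hx
        refine ⟨by omega, fun h => ?_⟩
        rcases hreal1 l h with h1 | ⟨y, hy, hyu, h1⟩
        · omega
        · have hmem : (y, x) ∈ p.Rep l0 := ⟨hy, hx, by simp only; omega⟩
          exact (hpair _ hmem).1 ⟨hyu, hxv⟩)
    (by
      intro x hx y hy _ _ l h1 h2
      rw [hdom1] at hy
      rcases hy with rfl | hy
      · rw [hq1u] at h2; omega
      · rw [hq1x y hy] at h2; have := hB y hy; omega)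
  have huq : u ∈ q.dom := (hdomq u).mpr (Or.inr ((hdom1 u).mpr (Or.inl rfl)))
  have hvq : v ∈ q.dom := (hdomq v).mpr (Or.inl rfl)
  have hfu : q.f u = 3 * B := by rw [hqx u ((hdom1 u).mpr (Or.inl rfl)), hq1u]
  have hfd : ∀ x ∈ p.dom, q.f x = p.f x := fun x hx => by
    rw [hqx x ((hdom1 x).mpr (Or.inr hx)), hq1x x hx]
  have hdq : ∀ x, x ∈ q.dom → x = v ∨ x = u ∨ x ∈ p.dom := by
    intro x hx
    rw [hdomq, hdom1] at hx
    exact hx
  have hpq : p ≤ q := hpq1.trans hq1q
  have hrealq : q.Real l0 := ⟨u, huq, v, hvq, huv, by rw [hqv, hfu]⟩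
  refine ⟨q, hpq, ?_, hrealq⟩
  intro l hl hr
  have hlne : l ≠ l0 := fun h => hr (h ▸ hrealq)
  have hclass : ∀ x y, (x, y) ∈ q.Rep l → (x ∈ p.dom ∧ y ∈ p.dom ∧ p.f y = p.f x + l ∧ l < B) ∨
      (x ∈ p.dom ∧ y = u ∧ 3 * B = p.f x + l) ∨
      (x ∈ p.dom ∧ y = v ∧ 3 * B + l0 = p.f x + l) := by
    rintro x y ⟨hx, hy, he⟩
    simp only at hx hy he
    rcases hdq x hx with rfl | rfl | hx' <;> rcases hdq y hy with rfl | rfl | hy'
    · omega
    · rw [hqv, hfu] at he; omega
    · rw [hqv, hfd y hy'] at he; have := hB y hy'; omega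
    · rw [hqv, hfu] at he; omega
    · omega
    · rw [hfu, hfd y hy'] at he; have := hB y hy'; omega
    · right; right
      rw [hqv, hfd x hx'] at he
      exact ⟨hx', rfl, he⟩
    · right; left
      rw [hfu, hfd x hx'] at he
      exact ⟨hx', rfl, he⟩
    · left
      rw [hfd x hx', hfd y hy'] at he
      have := hB y hy'
      exact ⟨hx', hy', he, by omega⟩
  by_cases hlB : l < B
  · apply (hp l hl (fun h => hr (h.mono hpq))).mono
    rintro ⟨x', y'⟩ hxy'
    rcases hclass x' y' hxy' with ⟨hx', hy', he', _⟩ | ⟨hx', rfl, he'⟩ | ⟨hx', rfl, he'⟩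
    · exact ⟨hx', hy', he'⟩
    · have := hB x' hx'; omega
    · have := hB x' hx'; omega
  · by_cases h1 : ∃ x ∈ p.dom, 3 * B = p.f x + l
    · obtain ⟨x, hx, hxe⟩ := h1
      have hxuq : (x, u) ∈ q.Rep l := ⟨hpq.1 hx, huq, by simp only; rw [hfu, hfd x hx, hxe]⟩
      have hnadjx : ¬ G.Adj x u := fun h => hr ⟨x, hxuq.1, u, hxuq.2.1, h, hxuq.2.2⟩
      by_cases h2 : ∃ y ∈ p.dom, 3 * B + l0 = p.f y + l
      · obtain ⟨y, hy, hye⟩ := h2
        have hyvq : (y, v) ∈ q.Rep l := ⟨hpq.1 hy, hvq, by simp only; rw [hqv, hfd y hy, hye]⟩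
        have hnadjy : ¬ G.Adj y v := fun h => hr ⟨y, hyvq.1, v, hyvq.2.1, h, hyvq.2.2⟩
        have hmem : (x, y) ∈ p.Rep l0 := ⟨hx, hy, by simp only; omega⟩
        have hwin : Win G ({(x, u), (y, v)} : Set (V × V)) := (hpair _ hmem).2 hnadjx hnadjy
        apply hwin.mono
        rintro ⟨x', y'⟩ hxy'
        rcases hclass x' y' hxy' with ⟨hx', hy', he', h1⟩ | ⟨hx', rfl, he'⟩ | ⟨hx', rfl, he'⟩
        · omega
        · have : x' = x := p.inj x' hx' x hx (by omega)
          rw [this]; exact Or.inl rfl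
        · have : x' = y := p.inj x' hx' y hy (by omega)
          rw [this]; exact Or.inr rfl
      · have hne : x ≠ u := fun h => hud (h ▸ hx)
        apply (win_pair hne hnadjx (hnoHu x hx)).mono
        rintro ⟨x', y'⟩ hxy'
        rcases hclass x' y' hxy' with ⟨hx', hy', he', h1⟩ | ⟨hx', rfl, he'⟩ | ⟨hx', rfl, he'⟩
        · omega
        · have : x' = x := p.inj x' hx' x hx (by omega)
          rw [this]; rfl
        · exact absurd ⟨x', hx', he'⟩ h2
    · by_cases h2 : ∃ y ∈ p.dom, 3 * B + l0 = p.f y + l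
      · obtain ⟨y, hy, hye⟩ := h2
        have hyvq : (y, v) ∈ q.Rep l := ⟨hpq.1 hy, hvq, by simp only; rw [hqv, hfd y hy, hye]⟩
        have hnadjy : ¬ G.Adj y v := fun h => hr ⟨y, hyvq.1, v, hyvq.2.1, h, hyvq.2.2⟩
        have hne : y ≠ v := fun h => hvd (h ▸ hy)
        apply (win_pair hne hnadjy (hnoHv y hy)).mono
        rintro ⟨x', y'⟩ hxy'
        rcases hclass x' y' hxy' with ⟨hx', hy', he', h1⟩ | ⟨hx', rfl, he'⟩ | ⟨hx', rfl, he'⟩
        · omega
        · exact absurd ⟨x', hx', he'⟩ h1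
        · have : x' = y := p.inj x' hx' y hy (by omega)
          rw [this]; rfl
      · apply (win_empty hM).mono
        rintro ⟨x', y'⟩ hxy'
        rcases hclass x' y' hxy' with ⟨hx', hy', he', h1⟩ | ⟨hx', rfl, he'⟩ | ⟨hx', rfl, he'⟩
        · omega
        · exact absurd ⟨x', hx', he'⟩ h1
        · exact absurd ⟨x', hx', he'⟩ h2

include hk hM hH in
/-- The main construction: a `k`-graceful numbering whose image misses infinitely many numbers. -/
theorem exists_graceful [Countable V] :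
    ∃ F : V → ℕ, IsKGracefulNumbering G k F ∧ (Set.range F)ᶜ.Infinite := by
  classical
  let S : Set (PL G k) := {p | p.Inv}
  let Req : V ⊕ ℕ ⊕ ℕ → PL G k → Prop := fun i p =>
    match i with
    | Sum.inl v => v ∈ p.dom
    | Sum.inr (Sum.inl n) => n ≤ p.forb.card
    | Sum.inr (Sum.inr l) => k ≤ l → p.Real l
  obtain ⟨s, hs, hreq⟩ := exists_chain S (PL.empty (G := G) (k := k)) (inv_empty hM) Req (by
    intro p hp i
    rcases i with z | n | l
    · by_cases hz : z ∈ p.dom
      · exact ⟨p, hp, le_refl p, hz⟩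
      · by_cases hw : ∃ w ∈ p.dom, HPair G w z
        · obtain ⟨w, hwd, hwz⟩ := hw
          obtain ⟨q, h1, h2, h3⟩ := step_add_partner hk hH hM p hp z w hz hwd hwz
          exact ⟨q, h2, h1, h3⟩
        · push Not at hw
          obtain ⟨q, h1, h2, h3⟩ := step_add_far hk hM p hp z hz hw
          exact ⟨q, h2, h1, h3⟩
    · -- n ≤ card forb
      induction n with
      | zero => exact ⟨p, hp, le_refl p, Nat.zero_le _⟩
      | succ n ih =>
        obtain ⟨q, hq, hpq, hn⟩ := ih
        obtain ⟨r, h1, h2, h3⟩ := step_forb q hq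
        have hn' : n ≤ q.forb.card := hn
        refine ⟨r, h2, hpq.trans h1, ?_⟩
        change n + 1 ≤ r.forb.card
        omega
    · by_cases hl : k ≤ l
      · obtain ⟨q, h1, h2, h3⟩ := step_real hk hH hM p hp l hl
        exact ⟨q, h2, h1, fun _ => h3⟩
      · exact ⟨p, hp, le_refl p, fun h => absurd h hl⟩)
  obtain ⟨F, hF, _, hforb⟩ := glue s hs (fun v => hreq (Sum.inl v))
    (fun l hl => by
      obtain ⟨n, hn⟩ := hreq (Sum.inr (Sum.inr l))
      exact ⟨n, hn hl⟩)
  refine ⟨F, hF, ?_⟩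
  intro hfin
  obtain ⟨n, hn⟩ := hreq (Sum.inr (Sum.inl (hfin.toFinset.card + 1)))
  have hn' : hfin.toFinset.card + 1 ≤ (s n).forb.card := hn
  have hsub : (s n).forb ⊆ hfin.toFinset := by
    intro m hm
    rw [Set.Finite.mem_toFinset, Set.mem_compl_iff]
    rintro ⟨v, hv⟩
    exact hforb n m hm v hv
  have := Finset.card_le_card hsub
  omega

end Steps

end Pool.Agent.Graceful
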