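import Mathlib
import Pool.Agent.Lib.MP_7616b3_co.Main

set_option autoImplicit false

namespace Pool.Agent.Graceful

universe u

variable {V : Type u} {G : SimpleGraph V} {k : ℕ}

open PL

/-- The `HPair` partners of a vertex form a finite set. -/
lemma hpair_finite (hM : HasInfiniteMatching G) (x : V) : {y | HPair G x y}.Finite := by
  classical
  by_cases hx : LateDominating G x
  · obtain ⟨F, hF⟩ := hx
    apply F.finite_toSet.subset
    rintro y ⟨hne, hnadj, _, ⟨F', hF'⟩⟩
    by_contra hy
    obtain ⟨u, v, huv, hu, hv⟩ := exists_late_edge hM (F ∪ F')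
    have hyu := (hF' u v huv (fun h => hu (Finset.mem_union_right _ h))
      (fun h => hv (Finset.mem_union_right _ h))).1
    exact hnadj (hF y u hyu hy (fun h => hu (Finset.mem_union_left _ h))).1
  · have : {y | HPair G x y} = ∅ := by
      ext y
      simp only [Set.mem_empty_iff_false, iff_false]
      exact fun h => hx h.2.2.1
    rw [this]
    exact Set.finite_empty

lemma partners_finite' (hM : HasInfiniteMatching G) (W : Finset V) :
    {v | ∃ x ∈ W, HPair G x v}.Finite := by
  have : {v | ∃ x ∈ W, HPair G x v} ⊆ ⋃ x ∈ (W : Set V), {v | HPair G x v} := by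
    rintro v ⟨x, hx, hv⟩
    simp only [Set.mem_iUnion]
    exact ⟨x, hx, hv⟩
  apply Set.Finite.subset _ this
  apply Set.Finite.biUnion W.finite_toSet
  intro x _
  exact hpair_finite hM x

/-- Each part meets the domain in nothing, in one vertex, or is contained in it. -/
def PL.PartInv (p : PL G k) : Prop :=
  ∀ x ∈ p.dom, (∀ y, HPair G x y → y ∉ p.dom) ∨ (∀ y, HPair G x y → y ∈ p.dom)

section StepsT

variable (hk : 1 ≤ k) (hM : HasInfiniteMatching G)
  (hT : ∀ x y z, HPair G x y → HPair G y z → x = z ∨ HPair G x z)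

include hk in
lemma step_add_farT (hM : HasInfiniteMatching G) (p : PL G k) (hp : p.Inv) (hq : p.PartInv) (z : V)
    (hz : z ∉ p.dom) (hw : ∀ w ∈ p.dom, ¬ HPair G w z) :
    ∃ q : PL G k, p ≤ q ∧ q.Inv ∧ q.PartInv ∧ z ∈ q.dom := by
  classical
  obtain ⟨B, _, hkB, hB, hB'⟩ := p.exists_bound 0
  obtain ⟨q, hpq, hdom, hqz, _, hqx⟩ := p.exists_insert_far z (3 * B) B hz hkB hB hB' (by omega)
  refine ⟨q, hpq, ?_, ?_, (hdom z).mpr (Or.inl rfl)⟩
  · intro l hl hr
    by_cases hlB : l < B
    · have hsub : q.Rep l ⊆ p.Rep l := by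
        rintro ⟨x, y⟩ ⟨hx, hy, he⟩
        simp only at hx hy he
        rw [hdom] at hx hy
        rcases hx with rfl | hx <;> rcases hy with rfl | hy
        · omega
        · rw [hqz, hqx y hy] at he; have := hB y hy; omega
        · rw [hqz, hqx x hx] at he; have := hB x hx; omega
        · rw [hqx x hx, hqx y hy] at he
          exact ⟨hx, hy, he⟩
      exact (hp l hl (fun h => hr (h.mono hpq))).mono hsub
    · by_cases hemp : q.Rep l = ∅
      · rw [hemp]; exact win_empty hM
      · obtain ⟨⟨x, y⟩, hx, hy, he⟩ := Set.nonempty_iff_ne_empty.mpr hemp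
        simp only at hx hy he
        have hxd : x ∈ p.dom ∧ y = z := by
          rw [hdom] at hx hy
          rcases hx with rfl | hx <;> rcases hy with rfl | hy
          · omega
          · rw [hqz, hqx y hy] at he; have := hB y hy; omega
          · exact ⟨hx, rfl⟩
          · rw [hqx x hx, hqx y hy] at he; have := hB y hy; omega
        obtain ⟨hxd, rfl⟩ := hxd
        have hsub : q.Rep l ⊆ {(x, y)} := by
          rintro ⟨x', y'⟩ ⟨hx', hy', he'⟩
          simp only at hx' hy' he'
          rw [Set.mem_singleton_iff]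
          have hxd' : x' ∈ p.dom ∧ y' = y := by
            rw [hdom] at hx' hy'
            rcases hx' with rfl | hx' <;> rcases hy' with rfl | hy'
            · omega
            · rw [hqz, hqx y' hy'] at he'; have := hB y' hy'; omega
            · exact ⟨hx', rfl⟩
            · rw [hqx x' hx', hqx y' hy'] at he'; have := hB y' hy'; omega
          obtain ⟨hxd', rfl⟩ := hxd'
          have : x' = x := by
            apply p.inj x' hxd' x hxd
            rw [hqz, hqx x hxd] at he
            rw [hqz, hqx x' hxd'] at he'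
            omega
          rw [this]
        have hne : x ≠ y := fun h => hz (h ▸ hxd)
        have hnadj : ¬ G.Adj x y := fun h => hr ⟨x, (hdom x).mpr (Or.inr hxd), y,
          (hdom y).mpr (Or.inl rfl), h, he⟩
        exact (win_pair hne hnadj (hw x hxd)).mono hsub
  · intro x hx
    rw [hdom] at hx
    rcases hx with rfl | hx
    · left
      intro y hy hyq
      rw [hdom] at hyq
      rcases hyq with rfl | hyq
      · exact hy.1 rfl
      · exact hw y hyq hy.symm
    · rcases hq x hx with h | h
      · left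
        intro y hy hyq
        rw [hdom] at hyq
        rcases hyq with rfl | hyq
        · exact hw x hx hy
        · exact h y hy hyq
      · right
        intro y hy
        exact (hdom y).mpr (Or.inr (h y hy))

/-- Insert the vertices of a finite set of pairwise non-adjacent vertices, non-adjacent to `w`, at
the positions `f w + r y * s`. -/
lemma exists_insert_part (hk : 1 ≤ k) (p : PL G k) (w : V) (hwd : w ∈ p.dom) (B s : ℕ)
    (hkB : k < B) (hB : ∀ x ∈ p.dom, p.f x < B) (hB' : ∀ m ∈ p.forb, m < B) (hs : 3 * B ≤ s)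
    (r : V → ℕ) (P : Finset V) (hPdom : ∀ y ∈ P, y ∉ p.dom) (hr : ∀ y ∈ P, 1 ≤ r y)
    (hrinj : ∀ y ∈ P, ∀ y' ∈ P, r y = r y' → y = y')
    (hind : ∀ y ∈ P, ∀ y' ∈ P, ¬ G.Adj y y') :
    ∃ q : PL G k, p ≤ q ∧ (∀ x, x ∈ q.dom ↔ x ∈ P ∨ x ∈ p.dom) ∧
      (∀ y ∈ P, q.f y = p.f w + r y * s) ∧ q.forb = p.forb ∧ (∀ x ∈ p.dom, q.f x = p.f x) := by
  classical
  induction P using Finset.induction_on with
  | empty =>
    refine ⟨p, le_refl p, fun x => by simp, by simp, rfl, fun _ _ => rfl⟩
  | insert y P hyP ih =>
    obtain ⟨q, hpq, hdom, hqy, hqf, hqx⟩ := ih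
      (fun y' h => hPdom y' (Finset.mem_insert_of_mem h))
      (fun y' h => hr y' (Finset.mem_insert_of_mem h))
      (fun y1 h1 y2 h2 => hrinj y1 (Finset.mem_insert_of_mem h1) y2 (Finset.mem_insert_of_mem h2))
      (fun y1 h1 y2 h2 => hind y1 (Finset.mem_insert_of_mem h1) y2 (Finset.mem_insert_of_mem h2))
    have hy0 : y ∈ insert y P := Finset.mem_insert_self _ _
    have hyr := hr y hy0
    have hws := hB w hwd
    have hmul : s ≤ r y * s := Nat.le_mul_of_pos_left s hyr
    have hcmp : ∀ a b c d : ℕ, a < B → b < B → a + c * s = b + d * s → c = d := by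
      intro a b c d ha hb h
      rcases lt_trichotomy c d with hcd | hcd | hcd
      · exfalso
        have : c * s + s ≤ d * s := by
          calc c * s + s = (c + 1) * s := by ring
            _ ≤ d * s := Nat.mul_le_mul_right s hcd
        omega
      · exact hcd
      · exfalso
        have : d * s + s ≤ c * s := by
          calc d * s + s = (d + 1) * s := by ring
            _ ≤ c * s := Nat.mul_le_mul_right s hcd
        omega
    obtain ⟨q', hqq', hdom', hq'y, hq'f, hq'x⟩ := q.exists_insert y (p.f w + r y * s)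
      (by
        rw [hdom]
        push Not
        exact ⟨hyP, hPdom y hy0⟩)
      (by
        intro x hx
        rw [hdom] at hx
        rcases hx with hx | hx
        · rw [hqy x hx]
          intro h
          have h1 := hcmp _ _ _ _ hws hws h
          exact hyP (hrinj x (Finset.mem_insert_of_mem hx) y hy0 h1 ▸ hx)
        · rw [hqx x hx]
          have := hB x hx
          omega)
      (by
        rw [hqf]
        intro h
        have := hB' _ h
        omega)
      (by
        intro x hx hxy l hl
        rw [hdom] at hx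
        rcases hx with hx | hx
        · exact absurd hxy (hind x (Finset.mem_insert_of_mem hx) y hy0)
        · rw [hqx x hx] at hl
          have hxB := hB x hx
          refine ⟨by omega, ?_⟩
          rintro ⟨a, ha, b, hb, hab, he⟩
          rw [hdom] at ha hb
          rcases ha with ha | ha <;> rcases hb with hb | hb
          · exact hind a (Finset.mem_insert_of_mem ha) b (Finset.mem_insert_of_mem hb) hab
          · rw [hqy a ha, hqx b hb] at he
            have h1 := hB b hb
            have h2 := hr a (Finset.mem_insert_of_mem ha)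
            have h3 : s ≤ r a * s := Nat.le_mul_of_pos_left s h2
            omega
          · rw [hqx a ha, hqy b hb] at he
            have h1 := hB a ha
            have h2 : p.f x + r b * s = p.f a + r y * s := by omega
            have h3 := hcmp _ _ _ _ hxB h1 h2
            exact hyP (hrinj b (Finset.mem_insert_of_mem hb) y hy0 h3 ▸ hb)
          · rw [hqx a ha, hqx b hb] at he
            have h1 := hB b hb
            omega)
      (by
        intro x hx y' hy' hxy hy'y l h1 h2
        rw [hdom] at hx hy'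
        rcases hy' with hy' | hy'
        · exact absurd hy'y (hind y' (Finset.mem_insert_of_mem hy') y hy0)
        · rw [hqx y' hy'] at h2
          have := hB y' hy'
          omega)
    refine ⟨q', hpq.trans hqq', ?_, ?_, by rw [hq'f, hqf], ?_⟩
    · intro x
      rw [hdom', hdom, Finset.mem_insert]
      tauto
    · intro y' hy'
      rw [Finset.mem_insert] at hy'
      rcases hy' with rfl | hy'
      · exact hq'y
      · rw [hq'x y' ((hdom y').mpr (Or.inl hy')), hqy y' hy']
    · intro x hx
      rw [hq'x x ((hdom x).mpr (Or.inr hx)), hqx x hx]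

include hk hT in
/-- Adding a vertex that has an `HPair` partner in the domain: the whole part is added. -/
lemma step_add_partnerT (hM : HasInfiniteMatching G) (p : PL G k) (hp : p.Inv) (hPI : p.PartInv)
    (z w : V) (hz : z ∉ p.dom) (hwd : w ∈ p.dom) (hwz : HPair G w z) :
    ∃ q : PL G k, p ≤ q ∧ q.Inv ∧ q.PartInv ∧ z ∈ q.dom := by
  classical
  set P : Finset V := (hpair_finite hM w).toFinset with hPdef
  have hP : ∀ y, y ∈ P ↔ HPair G w y := fun y => by rw [hPdef, Set.Finite.mem_toFinset]; rfl
  have hPdom : ∀ y ∈ P, y ∉ p.dom := by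
    rcases hPI w hwd with h | h
    · intro y hy; exact h y ((hP y).mp hy)
    · exact absurd (h z hwz) hz
  have hzP : z ∈ P := (hP z).mpr hwz
  set m := P.card with hm
  let r : V → ℕ := fun v => if h : v ∈ P then (P.equivFin ⟨v, h⟩).val + 1 else 0
  have hrP : ∀ v (h : v ∈ P), r v = (P.equivFin ⟨v, h⟩).val + 1 := fun v h => dif_pos h
  have hr1 : ∀ y ∈ P, 1 ≤ r y := fun y hy => by rw [hrP y hy]; omega
  have hrm : ∀ y ∈ P, r y ≤ m := fun y hy => by
    rw [hrP y hy]; have := (P.equivFin ⟨y, hy⟩).isLt; omega
  have hrinj : ∀ y ∈ P, ∀ y' ∈ P, r y = r y' → y = y' := by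
    intro y hy y' hy' h
    rw [hrP y hy, hrP y' hy'] at h
    have h1 : P.equivFin ⟨y, hy⟩ = P.equivFin ⟨y', hy'⟩ := Fin.ext (by omega)
    exact congrArg Subtype.val (P.equivFin.injective h1)
  have hrsurj : ∀ i, 1 ≤ i → i ≤ m → ∃ y ∈ P, r y = i := by
    intro i hi him
    have hlt : i - 1 < P.card := by omega
    refine ⟨(P.equivFin.symm ⟨i - 1, hlt⟩ : P), (P.equivFin.symm ⟨i - 1, hlt⟩).2, ?_⟩
    rw [hrP _ (P.equivFin.symm ⟨i - 1, hlt⟩).2]
    simp only [Subtype.coe_eta, Equiv.apply_symm_apply]
    omega
  have hm1 : 1 ≤ m := by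
    rw [hm]; exact Finset.card_pos.mpr ⟨z, hzP⟩
  have hPP : ∀ y ∈ P, ∀ y' ∈ P, y = y' ∨ HPair G y y' := by
    intro y hy y' hy'
    exact hT y w y' ((hP y).mp hy).symm ((hP y').mp hy')
  have hind : ∀ y ∈ P, ∀ y' ∈ P, ¬ G.Adj y y' := by
    intro y hy y' hy' h
    rcases hPP y hy y' hy' with rfl | h'
    · exact G.loopless.irrefl _ h
    · exact h'.2.1 h
  -- partners of `w` and of vertices of `P`
  have hpart : ∀ x, ∀ y ∈ P, HPair G x y → x = w ∨ x ∈ P := by
    intro x y hy h
    rcases hT w y x ((hP y).mp hy) h.symm with h1 | h1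
    · exact Or.inl h1.symm
    · exact Or.inr ((hP x).mpr h1)
  -- the late domination sets
  have hLD : ∀ y ∈ P, LateDominating G y := fun y hy => ((hP y).mp hy).2.2.2
  choose! Fy hFy using hLD
  obtain ⟨Fw, hFw⟩ := hwz.2.2.1
  set Pt : Finset V := (partners_finite' hM (P ∪ p.dom)).toFinset with hPt
  obtain ⟨v, v', hvv', hv, hv'⟩ := exists_late_edge hM (p.dom ∪ P ∪ Fw ∪ P.biUnion Fy ∪ Pt)
  have hvdom : v ∉ p.dom := fun h => hv (by
    simp only [Finset.mem_union]; exact Or.inl (Or.inl (Or.inl (Or.inl h))))
  have hvP : v ∉ P := fun h => hv (by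
    simp only [Finset.mem_union]; exact Or.inl (Or.inl (Or.inl (Or.inr h))))
  have hvFw : v ∉ Fw := fun h => hv (by
    simp only [Finset.mem_union]; exact Or.inl (Or.inl (Or.inr h)))
  have hv'Fw : v' ∉ Fw := fun h => hv' (by
    simp only [Finset.mem_union]; exact Or.inl (Or.inl (Or.inr h)))
  have hvFy : ∀ y ∈ P, v ∉ Fy y := fun y hy h => hv (by
    simp only [Finset.mem_union]
    exact Or.inl (Or.inr (Finset.mem_biUnion.mpr ⟨y, hy, h⟩)))
  have hv'Fy : ∀ y ∈ P, v' ∉ Fy y := fun y hy h => hv' (by
    simp only [Finset.mem_union]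
    exact Or.inl (Or.inr (Finset.mem_biUnion.mpr ⟨y, hy, h⟩)))
  have hvPt : v ∉ Pt := fun h => hv (by
    simp only [Finset.mem_union]; exact Or.inr h)
  have hnoH : ∀ x, x ∈ P ∨ x ∈ p.dom → ¬ HPair G x v := by
    intro x hx h
    apply hvPt
    rw [hPt, Set.Finite.mem_toFinset]
    exact ⟨x, Finset.mem_union.mpr hx, h⟩
  have hadjw : G.Adj w v := (hFw v v' hvv' hvFw hv'Fw).1
  have hadjP : ∀ y ∈ P, G.Adj y v := fun y hy => (hFy y hy v v' hvv' (hvFy y hy) (hv'Fy y hy)).1
  obtain ⟨B, _, hkB, hB, hB'⟩ := p.exists_bound 0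
  set s := 3 * B with hs
  obtain ⟨q1, hpq1, hdom1, hq1y, hq1f, hq1x⟩ :=
    exists_insert_part hk p w hwd B s hkB hB hB' (by omega) r P hPdom hr1 hrinj hind
  have hfw := hB w hwd
  have hcmp : ∀ a b c d : ℕ, a < B → b < B → a + c * s = b + d * s → c = d ∧ a = b := by
    intro a b c d ha hb h
    have hcd : c = d := by
      rcases lt_trichotomy c d with hcd | hcd | hcd
      · exfalso
        have : c * s + s ≤ d * s := by
          calc c * s + s = (c + 1) * s := by ring
            _ ≤ d * s := Nat.mul_le_mul_right s hcd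
        omega
      · exact hcd
      · exfalso
        have : d * s + s ≤ c * s := by
          calc d * s + s = (d + 1) * s := by ring
            _ ≤ c * s := Nat.mul_le_mul_right s hcd
        omega
    refine ⟨hcd, ?_⟩
    subst hcd
    omega
  -- labels of q1
  have hreal1 : ∀ l, q1.Real l → l < B ∨
      ∃ x ∈ p.dom, ∃ y ∈ P, G.Adj x y ∧ p.f w + r y * s = p.f x + l := by
    rintro l ⟨a, ha, b, hb, hab, he⟩
    rw [hdom1] at ha hb
    rcases ha with ha | ha <;> rcases hb with hb | hb
    · exact absurd hab (hind a ha b hb)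
    · rw [hq1y a ha, hq1x b hb] at he
      have h1 := hB b hb
      have h3 : s ≤ r a * s := Nat.le_mul_of_pos_left s (hr1 a ha)
      omega
    · rw [hq1y b hb, hq1x a ha] at he
      exact Or.inr ⟨a, ha, b, hb, hab, he⟩
    · rw [hq1x b hb] at he; have := hB b hb; left; omega
  have hms : s ≤ (m + 1) * s := Nat.le_mul_of_pos_left s (by omega)
  obtain ⟨q, hq1q, hdomq, hqv, _, hqx⟩ := q1.exists_insert v (p.f w + (m + 1) * s)
    (by rw [hdom1]; push Not; exact ⟨hvP, hvdom⟩)
    (by
      intro x hx
      rw [hdom1] at hx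
      rcases hx with hx | hx
      · rw [hq1y x hx]
        intro h
        have h1 := (hcmp _ _ _ _ hfw hfw h).1
        have h2 := hrm x hx
        omega
      · rw [hq1x x hx]; have := hB x hx; omega)
    (by
      rw [hq1f]
      intro h
      have := hB' _ h
      omega)
    (by
      intro x hx hxv l hl'
      rw [hdom1] at hx
      rcases hx with hx | hx
      · rw [hq1y x hx] at hl'
        have hrx := hrm x hx
        obtain ⟨j, hj⟩ : ∃ j, m + 1 = r x + j := ⟨m + 1 - r x, by omega⟩
        have hmul : (m + 1) * s = r x * s + j * s := by rw [hj]; ring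
        have hjl : l = j * s := by omega
        have hj1 : 1 ≤ j := by omega
        have hjs : s ≤ j * s := Nat.le_mul_of_pos_left s hj1
        refine ⟨by omega, fun h => ?_⟩
        rcases hreal1 l h with h1 | ⟨y, hy, y', hy', hyy', h1⟩
        · omega
        · rw [hjl] at h1
          have hyB := hB y hy
          have h2 := (hcmp _ _ _ _ hfw hyB h1).2
          have h3 : y = w := p.inj y hy w hwd h2.symm
          subst h3
          exact ((hP y').mp hy').2.1 hyy'
      · rw [hq1x x hx] at hl'
        have h1 := hB x hx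
        refine ⟨by omega, fun h => ?_⟩
        rcases hreal1 l h with h2 | ⟨y, hy, y', hy', hyy', h2⟩
        · omega
        · have hyB := hB y hy
          have h3 : p.f y + (m + 1) * s = p.f x + r y' * s := by omega
          have h4 := (hcmp _ _ _ _ hyB h1 h3).1
          have := hrm y' hy'
          omega)
    (by
      intro x hx y hy _ _ l h1 h2
      rw [hdom1] at hy
      rcases hy with hy | hy
      · rw [hq1y y hy] at h2
        have h3 := hrm y hy
        have h4 : r y * s ≤ (m + 1) * s := Nat.mul_le_mul_right s (by omega)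
        have h5 : l = 0 := by omega
        have h6 : p.f w + r y * s = p.f w + (m + 1) * s := by omega
        have h7 := (hcmp _ _ _ _ hfw hfw h6).1
        omega
      · rw [hq1x y hy] at h2; have := hB y hy; omega)
  have hvq : v ∈ q.dom := (hdomq v).mpr (Or.inl rfl)
  have hfP : ∀ y ∈ P, q.f y = p.f w + r y * s := fun y hy => by
    rw [hqx y ((hdom1 y).mpr (Or.inl hy)), hq1y y hy]
  have hPq : ∀ y ∈ P, y ∈ q.dom := fun y hy => (hdomq y).mpr (Or.inr ((hdom1 y).mpr (Or.inl hy)))
  have hfd : ∀ x ∈ p.dom, q.f x = p.f x := fun x hx => by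
    rw [hqx x ((hdom1 x).mpr (Or.inr hx)), hq1x x hx]
  have hdq : ∀ x, x ∈ q.dom ↔ x = v ∨ x ∈ P ∨ x ∈ p.dom := by
    intro x
    rw [hdomq, hdom1]
  have hpq : p ≤ q := hpq1.trans hq1q
  refine ⟨q, hpq, ?_, ?_, hPq z hzP⟩
  · intro l hl hr
    -- multiples of s are realised
    have hmulreal : ∀ j, 1 ≤ j → j ≤ m + 1 → l ≠ j * s := by
      intro j hj hjm h
      apply hr
      rcases Nat.lt_or_ge j (m + 1) with hjm' | hjm'
      · obtain ⟨y, hy, hry⟩ := hrsurj (m + 1 - j) (by omega) (by omega)
        refine ⟨y, hPq y hy, v, hvq, hadjP y hy, ?_⟩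
        rw [hqv, hfP y hy, hry, h]
        have : (m + 1) * s = (m + 1 - j) * s + j * s := by
          rw [← Nat.add_mul]
          congr 1
          omega
        omega
      · have hjm'' : j = m + 1 := by omega
        subst hjm''
        refine ⟨w, hpq.1 hwd, v, hvq, hadjw, ?_⟩
        rw [hqv, hfd w hwd, h]
    -- classification of pairs
    have hclass : ∀ x y, (x, y) ∈ q.Rep l →
        (x ∈ p.dom ∧ y ∈ p.dom ∧ p.f y = p.f x + l ∧ l < B) ∨
        (x ∈ p.dom ∧ x ≠ w ∧ (y ∈ P ∨ y = v) ∧ ∃ i, 1 ≤ i ∧ i ≤ m + 1 ∧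
          q.f y = p.f w + i * s ∧ p.f w + i * s = p.f x + l) := by
      rintro x y ⟨hx, hy, he⟩
      simp only at hx hy he
      rw [hdq] at hx hy
      rcases hx with rfl | hx | hx
      · -- x = v
        exfalso
        rcases hy with rfl | hy | hy
        · omega
        · rw [hqv, hfP y hy] at he
          have h3 := hrm y hy
          have h4 : r y * s ≤ (m + 1) * s := Nat.mul_le_mul_right s (by omega)
          omega
        · rw [hqv, hfd y hy] at he; have := hB y hy; omega
      · exfalso
        rcases hy with rfl | hy | hy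
        · exact hr ⟨x, hPq x hx, y, hvq, hadjP x hx, he⟩
        · rw [hfP x hx, hfP y hy] at he
          have h1 : r x < r y := by
            by_contra hcon
            have h2 : r y * s ≤ r x * s := Nat.mul_le_mul_right s (by omega)
            omega
          apply hmulreal (r y - r x) (by omega) (by have := hrm y hy; omega)
          have h2 : r y * s = r x * s + (r y - r x) * s := by
            rw [← Nat.add_mul]
            congr 1
            omega
          omega
        · rw [hfP x hx, hfd y hy] at he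
          have h1 := hB y hy
          have h3 : s ≤ r x * s := Nat.le_mul_of_pos_left s (hr1 x hx)
          omega
      · rcases hy with rfl | hy | hy
        · right
          have hxw : x ≠ w := by
            rintro rfl
            exact hr ⟨x, hpq.1 hx, y, hvq, hadjw, he⟩
          refine ⟨hx, hxw, Or.inr rfl, m + 1, by omega, le_refl _, hqv, ?_⟩
          rw [hqv, hfd x hx] at he
          exact he
        · right
          rw [hfP y hy, hfd x hx] at he
          have hxw : x ≠ w := by
            rintro rfl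
            exact hmulreal (r y) (hr1 y hy) (by have := hrm y hy; omega) (by omega)
          exact ⟨hx, hxw, Or.inl hy, r y, hr1 y hy, by have := hrm y hy; omega, hfP y hy, he⟩
        · left
          rw [hfd x hx, hfd y hy] at he
          have := hB y hy
          exact ⟨hx, hy, he, by omega⟩
    by_cases hemp : q.Rep l = ∅
    · rw [hemp]; exact win_empty hM
    · obtain ⟨⟨x, y⟩, hxy⟩ := Set.nonempty_iff_ne_empty.mpr hemp
      have hnadj : ¬ G.Adj x y := fun h => hr ⟨x, hxy.1, y, hxy.2.1, h, hxy.2.2⟩
      rcases hclass x y hxy with ⟨hx, hy, he, hlB⟩ | ⟨hx, hxw, hyv, i, hi1, him, hyf, he⟩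
      · apply (hp l hl (fun h => hr (h.mono hpq))).mono
        rintro ⟨x', y'⟩ hxy'
        rcases hclass x' y' hxy' with ⟨hx', hy', he', _⟩ | ⟨hx', _, _, i, hi1, _, _, he'⟩
        · exact ⟨hx', hy', he'⟩
        · have h1 := hB x' hx'
          have h3 : s ≤ i * s := Nat.le_mul_of_pos_left s hi1
          omega
      · have hxB := hB x hx
        have hne : x ≠ y := by
          rcases hyv with h | h
          · exact fun h' => hPdom y h (h' ▸ hx)
          · exact fun h' => hvdom (h ▸ h' ▸ hx)
        have hnH : ¬ HPair G x y := by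
          intro h
          rcases hyv with h' | h'
          · rcases hpart x y h' h with h1 | h1
            · exact hxw h1
            · exact hPdom x h1 hx
          · exact hnoH x (Or.inr hx) (h' ▸ h)
        apply (win_pair hne hnadj hnH).mono
        rintro ⟨x', y'⟩ hxy'
        have h3 : s ≤ i * s := Nat.le_mul_of_pos_left s hi1
        rcases hclass x' y' hxy' with ⟨hx', hy', he', h1⟩ | ⟨hx', _, _, i', hi1', him', hyf', he'⟩
        · omega
        · have hxB' := hB x' hx'
          have h5 : p.f x' + i * s = p.f x + i' * s := by omega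
          obtain ⟨h6, h7⟩ := hcmp _ _ _ _ hxB' hxB h5
          have h8 : x' = x := p.inj x' hx' x hx h7
          have h9 : y' = y := by
            apply q.inj y' hxy'.2.1 y hxy.2.1
            rw [hyf, hyf', h6]
          rw [h8, h9]
          rfl
  · intro x hx
    rw [hdq] at hx
    rcases hx with rfl | hx | hx
    · left
      intro y hy hyq
      rw [hdq] at hyq
      rcases hyq with rfl | hyq | hyq
      · exact hy.1 rfl
      · exact hnoH y (Or.inl hyq) hy.symm
      · exact hnoH y (Or.inr hyq) hy.symm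
    · right
      intro y hy
      rw [hdq]
      rcases hpart y x hx hy.symm with h | h
      · right; right; rw [h]; exact hwd
      · right; left; exact h
    · by_cases hxw : x = w
      · right
        intro y hy
        rw [hdq]
        right; left
        rw [hxw] at hy
        exact (hP y).mpr hy
      · rcases hPI x hx with h | h
        · left
          intro y hy hyq
          rw [hdq] at hyq
          rcases hyq with rfl | hyq | hyq
          · exact hnoH x (Or.inr hx) hy
          · rcases hpart x y hyq hy with h1 | h1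
            · exact hxw h1
            · exact hPdom x h1 hx
          · exact h y hy hyq
        · right
          intro y hy
          rw [hdq]
          right; right
          exact h y hy

include hk in
/-- Realising a label. -/
lemma step_realT (hM : HasInfiniteMatching G) (p : PL G k) (hp : p.Inv) (hPI : p.PartInv)
    (l0 : ℕ) (hl0 : k ≤ l0) :
    ∃ q : PL G k, p ≤ q ∧ q.Inv ∧ q.PartInv ∧ q.Real l0 := by
  classical
  by_cases hr0 : p.Real l0
  · exact ⟨p, le_refl p, hp, hPI, hr0⟩
  set Pt : Finset V := (partners_finite' hM p.dom).toFinset with hPt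
  obtain ⟨u, v, huv, hu, hv, hpair⟩ := (hp l0 hl0 hr0).step (p.dom ∪ Pt)
  have hud : u ∉ p.dom := fun h => hu (by simp [h])
  have hvd : v ∉ p.dom := fun h => hv (by simp [h])
  have huPt : u ∉ Pt := fun h => hu (by simp [h])
  have hvPt : v ∉ Pt := fun h => hv (by simp [h])
  have hnoHu : ∀ x ∈ p.dom, ¬ HPair G x u := by
    intro x hx h
    apply huPt
    rw [hPt, Set.Finite.mem_toFinset]
    exact ⟨x, hx, h⟩
  have hnoHv : ∀ x ∈ p.dom, ¬ HPair G x v := by
    intro x hx h
    apply hvPt
    rw [hPt, Set.Finite.mem_toFinset]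
    exact ⟨x, hx, h⟩
  have huv' : v ≠ u := huv.ne'
  obtain ⟨B, hl0B, hkB, hB, hB'⟩ := p.exists_bound l0
  obtain ⟨q1, hpq1, hdom1, hq1u, hq1f, hq1x⟩ :=
    p.exists_insert_far u (3 * B) B hud hkB hB hB' (by omega)
  have hreal1 : ∀ l, q1.Real l → (p.Real l ∧ l < B) ∨
      ∃ x ∈ p.dom, G.Adj x u ∧ 3 * B = p.f x + l := by
    rintro l ⟨a, ha, b, hb, hab, he⟩
    rw [hdom1] at ha hb
    rcases ha with rfl | ha <;> rcases hb with rfl | hb
    · exact absurd hab (G.loopless.irrefl _)
    · rw [hq1u, hq1x b hb] at he; have := hB b hb; omega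
    · rw [hq1u, hq1x a ha] at he; exact Or.inr ⟨a, ha, hab, he⟩
    · rw [hq1x b hb, hq1x a ha] at he; have := hB b hb; left
      exact ⟨⟨a, ha, b, hb, hab, he⟩, by omega⟩
  obtain ⟨q, hq1q, hdomq, hqv, _, hqx⟩ := q1.exists_insert v (3 * B + l0)
    (by rw [hdom1]; push Not; exact ⟨huv', hvd⟩)
    (by
      intro x hx
      rw [hdom1] at hx
      rcases hx with rfl | hx
      · rw [hq1u]; omega
      · rw [hq1x x hx]; have := hB x hx; omega)
    (by
      rw [hq1f]
      intro h
      have := hB' _ h
      omega)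
    (by
      intro x hx hxv l hl'
      rw [hdom1] at hx
      rcases hx with rfl | hx
      · rw [hq1u] at hl'
        have hll : l = l0 := by omega
        subst hll
        refine ⟨hl0, fun h => ?_⟩
        rcases hreal1 l h with ⟨h1, _⟩ | ⟨y, hy, hyz, h1⟩
        · exact hr0 h1
        · have := hB y hy; omega
      · rw [hq1x x hx] at hl'
        have h1 := hB x hx
        refine ⟨by omega, fun h => ?_⟩
        rcases hreal1 l h with h1 | ⟨y, hy, hyu, h1⟩
        · omega
        · have hmem : (y, x) ∈ p.Rep l0 := ⟨hy, hx, by simp only; omega⟩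
          exact (hpair _ hmem).1 ⟨hyu, hxv⟩)
    (by
      intro x hx y hy _ _ l h1 h2
      rw [hdom1] at hy
      rcases hy with rfl | hy
      · rw [hq1u] at h2; omega
      · rw [hq1x y hy] at h2; have := hB y hy; omega)
  have huq : u ∈ q.dom := (hdomq u).mpr (Or.inr ((hdom1 u).mpr (Or.inl rfl)))
  have hvq : v ∈ q.dom := (hdomq v).mpr (Or.inl rfl)
  have hfu : q.f u = 3 * B := by rw [hqx u ((hdom1 u).mpr (Or.inl rfl)), hq1u]
  have hfd : ∀ x ∈ p.dom, q.f x = p.f x := fun x hx => by
    rw [hqx x ((hdom1 x).mpr (Or.inr hx)), hq1x x hx]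
  have hdq' : ∀ x, x ∈ q.dom ↔ x = v ∨ x = u ∨ x ∈ p.dom := by
    intro x
    rw [hdomq, hdom1]
  have hdq : ∀ x, x ∈ q.dom → x = v ∨ x = u ∨ x ∈ p.dom := fun x => (hdq' x).mp
  have hpq : p ≤ q := hpq1.trans hq1q
  have hrealq : q.Real l0 := ⟨u, huq, v, hvq, huv, by rw [hqv, hfu]⟩
  refine ⟨q, hpq, ?_, ?_, hrealq⟩
  · intro l hl hr
    have hclass : ∀ x y, (x, y) ∈ q.Rep l →
        (x ∈ p.dom ∧ y ∈ p.dom ∧ p.f y = p.f x + l ∧ l < B) ∨
        (x ∈ p.dom ∧ y = u ∧ 3 * B = p.f x + l) ∨
        (x ∈ p.dom ∧ y = v ∧ 3 * B + l0 = p.f x + l) := by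
      rintro x y ⟨hx, hy, he⟩
      simp only at hx hy he
      have hlne : l ≠ l0 := fun h => hr (h ▸ hrealq)
      rcases hdq x hx with rfl | rfl | hx' <;> rcases hdq y hy with rfl | rfl | hy'
      · omega
      · rw [hqv, hfu] at he; omega
      · rw [hqv, hfd y hy'] at he; have := hB y hy'; omega
      · rw [hqv, hfu] at he; omega
      · omega
      · rw [hfu, hfd y hy'] at he; have := hB y hy'; omega
      · right; right
        rw [hqv, hfd x hx'] at he
        exact ⟨hx', rfl, he⟩
      · right; left
        rw [hfu, hfd x hx'] at he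
        exact ⟨hx', rfl, he⟩
      · left
        rw [hfd x hx', hfd y hy'] at he
        have := hB y hy'
        exact ⟨hx', hy', he, by omega⟩
    by_cases hlB : l < B
    · apply (hp l hl (fun h => hr (h.mono hpq))).mono
      rintro ⟨x', y'⟩ hxy'
      rcases hclass x' y' hxy' with ⟨hx', hy', he', _⟩ | ⟨hx', rfl, he'⟩ | ⟨hx', rfl, he'⟩
      · exact ⟨hx', hy', he'⟩
      · have := hB x' hx'; omega
      · have := hB x' hx'; omega
    · by_cases h1 : ∃ x ∈ p.dom, 3 * B = p.f x + l
      · obtain ⟨x, hx, hxe⟩ := h1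
        have hxuq : (x, u) ∈ q.Rep l := ⟨hpq.1 hx, huq, by simp only; rw [hfu, hfd x hx, hxe]⟩
        have hnadjx : ¬ G.Adj x u := fun h => hr ⟨x, hxuq.1, u, hxuq.2.1, h, hxuq.2.2⟩
        by_cases h2 : ∃ y ∈ p.dom, 3 * B + l0 = p.f y + l
        · obtain ⟨y, hy, hye⟩ := h2
          have hyvq : (y, v) ∈ q.Rep l := ⟨hpq.1 hy, hvq, by simp only; rw [hqv, hfd y hy, hye]⟩
          have hnadjy : ¬ G.Adj y v := fun h => hr ⟨y, hyvq.1, v, hyvq.2.1, h, hyvq.2.2⟩
          have hmem : (x, y) ∈ p.Rep l0 := ⟨hx, hy, by simp only; omega⟩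
          have hwin : Win G ({(x, u), (y, v)} : Set (V × V)) := (hpair _ hmem).2 hnadjx hnadjy
          apply hwin.mono
          rintro ⟨x', y'⟩ hxy'
          rcases hclass x' y' hxy' with ⟨hx', hy', he', h1⟩ | ⟨hx', rfl, he'⟩ | ⟨hx', rfl, he'⟩
          · omega
          · have : x' = x := p.inj x' hx' x hx (by omega)
            rw [this]; exact Or.inl rfl
          · have : x' = y := p.inj x' hx' y hy (by omega)
            rw [this]; exact Or.inr rfl
        · have hne : x ≠ u := fun h => hud (h ▸ hx)
          apply (win_pair hne hnadjx (hnoHu x hx)).mono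
          rintro ⟨x', y'⟩ hxy'
          rcases hclass x' y' hxy' with ⟨hx', hy', he', h1⟩ | ⟨hx', rfl, he'⟩ | ⟨hx', rfl, he'⟩
          · omega
          · have : x' = x := p.inj x' hx' x hx (by omega)
            rw [this]; rfl
          · exact absurd ⟨x', hx', he'⟩ h2
      · by_cases h2 : ∃ y ∈ p.dom, 3 * B + l0 = p.f y + l
        · obtain ⟨y, hy, hye⟩ := h2
          have hyvq : (y, v) ∈ q.Rep l := ⟨hpq.1 hy, hvq, by simp only; rw [hqv, hfd y hy, hye]⟩
          have hnadjy : ¬ G.Adj y v := fun h => hr ⟨y, hyvq.1, v, hyvq.2.1, h, hyvq.2.2⟩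
          have hne : y ≠ v := fun h => hvd (h ▸ hy)
          apply (win_pair hne hnadjy (hnoHv y hy)).mono
          rintro ⟨x', y'⟩ hxy'
          rcases hclass x' y' hxy' with ⟨hx', hy', he', h1⟩ | ⟨hx', rfl, he'⟩ | ⟨hx', rfl, he'⟩
          · omega
          · exact absurd ⟨x', hx', he'⟩ h1
          · have : x' = y := p.inj x' hx' y hy (by omega)
            rw [this]; rfl
        · apply (win_empty hM).mono
          rintro ⟨x', y'⟩ hxy'
          rcases hclass x' y' hxy' with ⟨hx', hy', he', h1⟩ | ⟨hx', rfl, he'⟩ | ⟨hx', rfl, he'⟩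
          · omega
          · exact absurd ⟨x', hx', he'⟩ h1
          · exact absurd ⟨x', hx', he'⟩ h2
  · -- parts
    have hnoHuv : ¬ HPair G u v := fun h => h.2.1 huv
    intro x hx
    rw [hdq'] at hx
    rcases hx with rfl | rfl | hx
    · left
      intro y hy hyq
      rw [hdq'] at hyq
      rcases hyq with rfl | rfl | hyq
      · exact hy.1 rfl
      · exact hnoHuv hy.symm
      · exact hnoHv y hyq hy.symm
    · left
      intro y hy hyq
      rw [hdq'] at hyq
      rcases hyq with rfl | rfl | hyq
      · exact hnoHuv hy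
      · exact hy.1 rfl
      · exact hnoHu y hyq hy.symm
    · rcases hPI x hx with h | h
      · left
        intro y hy hyq
        rw [hdq'] at hyq
        rcases hyq with rfl | rfl | hyq
        · exact hnoHv x hx hy
        · exact hnoHu x hx hy
        · exact h y hy hyq
      · right
        intro y hy
        rw [hdq']
        right; right
        exact h y hy

include hk hM hT in
/-- The main construction when non-adjacency is transitive on late dominating vertices. -/
theorem exists_gracefulT [Countable V] :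
    ∃ F : V → ℕ, IsKGracefulNumbering G k F ∧ (Set.range F)ᶜ.Infinite := by
  classical
  let S : Set (PL G k) := {p | p.Inv ∧ p.PartInv}
  let Req : V ⊕ ℕ ⊕ ℕ → PL G k → Prop := fun i p =>
    match i with
    | Sum.inl v => v ∈ p.dom
    | Sum.inr (Sum.inl n) => n ≤ p.forb.card
    | Sum.inr (Sum.inr l) => k ≤ l → p.Real l
  obtain ⟨s, hs, hreq⟩ := exists_chain S (PL.empty (G := G) (k := k))
    ⟨inv_empty hM, by intro x hx; simp [PL.empty] at hx⟩ Req (by
    rintro p ⟨hp, hPI⟩ i
    rcases i with z | n | l
    · by_cases hz : z ∈ p.dom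
      · exact ⟨p, ⟨hp, hPI⟩, le_refl p, hz⟩
      · by_cases hw : ∃ w ∈ p.dom, HPair G w z
        · obtain ⟨w, hwd, hwz⟩ := hw
          obtain ⟨q, h1, h2, h2', h3⟩ := step_add_partnerT hk hT hM p hp hPI z w hz hwd hwz
          exact ⟨q, ⟨h2, h2'⟩, h1, h3⟩
        · push Not at hw
          obtain ⟨q, h1, h2, h2', h3⟩ := step_add_farT hk hM p hp hPI z hz hw
          exact ⟨q, ⟨h2, h2'⟩, h1, h3⟩
    · -- n ≤ card forb
      induction n with
      | zero => exact ⟨p, ⟨hp, hPI⟩, le_refl p, Nat.zero_le _⟩
      | succ n ih =>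
        obtain ⟨q, ⟨hq, hqPI⟩, hpq, hn⟩ := ih
        obtain ⟨B, _, _, hB, hB'⟩ := q.exists_bound 0
        have hn' : n ≤ q.forb.card := hn
        refine ⟨{ dom := q.dom, f := q.f, forb := insert B q.forb, inj := q.inj, avoid := ?_,
                  lab_ge := q.lab_ge, lab_inj := q.lab_inj }, ⟨hq, hqPI⟩,
                  hpq.trans ⟨fun _ h => h, fun _ _ => rfl, Finset.subset_insert _ _⟩, ?_⟩
        · intro u hu h
          rw [Finset.mem_insert] at h
          rcases h with h | h
          · have := hB u hu; omega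
          · exact q.avoid u hu h
        · change n + 1 ≤ (insert B q.forb).card
          rw [Finset.card_insert_of_notMem]
          · omega
          · intro h; have := hB' B h; omega
    · by_cases hl : k ≤ l
      · obtain ⟨q, h1, h2, h2', h3⟩ := step_realT hk hM p hp hPI l hl
        exact ⟨q, ⟨h2, h2'⟩, h1, fun _ => h3⟩
      · exact ⟨p, ⟨hp, hPI⟩, le_refl p, fun h => absurd h hl⟩)
  obtain ⟨F, hF, _, hforb⟩ := glue s hs (fun v => hreq (Sum.inl v))
    (fun l hl => by
      obtain ⟨n, hn⟩ := hreq (Sum.inr (Sum.inr l))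
      exact ⟨n, hn hl⟩)
  refine ⟨F, hF, ?_⟩
  intro hfin
  obtain ⟨n, hn⟩ := hreq (Sum.inr (Sum.inl (hfin.toFinset.card + 1)))
  have hn' : hfin.toFinset.card + 1 ≤ (s n).forb.card := hn
  have hsub : (s n).forb ⊆ hfin.toFinset := by
    intro m hm
    rw [Set.Finite.mem_toFinset, Set.mem_compl_iff]
    rintro ⟨v, hv⟩
    exact hforb n m hm v hv
  have := Finset.card_le_card hsub
  omega

end StepsT

end Pool.Agent.Graceful
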