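import Mathlib
import Pool.Agent.Lib.MP_7616b3_co.Limit

set_option autoImplicit false

namespace Pool.Agent.Graceful

universe u

variable {V : Type u} {G : SimpleGraph V} {k : ℕ}

/-- With a finite vertex cover, infinitely many isolated vertices and only finitely many vertices
of degree at least two, there is no `k`-graceful numbering. -/
theorem not_graceful (W : Finset V) (hW : ∀ u v, G.Adj u v → u ∈ W ∨ v ∈ W)
    (hI : {v | ∀ w, ¬ G.Adj v w}.Infinite)
    (hD : {v | ∃ a b, a ≠ b ∧ G.Adj v a ∧ G.Adj v b}.Finite) : ¬ KGraceful G k := by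
  classical
  rintro ⟨f, hinj, hmaps, hinjE, hsurj⟩
  have hedge : ∀ l, k ≤ l → ∃ u v, G.Adj u v ∧ f v = f u + l := by
    intro l hl
    obtain ⟨e, he, hel⟩ := hsurj hl
    induction e with
    | _ u v =>
      rw [edgeLabel_eq_iff] at hel
      rcases hel with h | h
      · exact ⟨u, v, he, h⟩
      · exact ⟨v, u, he.symm, h⟩
  set B : Finset V := W ∪ hD.toFinset with hB
  set M : ℕ := B.sup f with hM
  have hMB : ∀ x ∈ B, f x ≤ M := fun x hx => Finset.le_sup (f := f) hx
  obtain ⟨A, hAI, hAc⟩ := hI.exists_subset_card_eq (B.card * B.card + M + k + 1)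
  set N : ℕ := A.sup f + k with hN
  have hAN : ∀ a ∈ A, f a ≤ N := fun a ha => by
    have := Finset.le_sup (f := f) ha
    omega
  have hne : Nonempty V := ⟨hI.nonempty.some⟩
  choose! U U' hU hU' using hedge
  set S1 : Finset ℕ := (Finset.Icc k N).filter (fun l => U l ∈ B ∧ U' l ∈ B) with hS1
  set S2 : Finset ℕ := (Finset.Icc k N).filter (fun l => ¬ (U l ∈ B ∧ U' l ∈ B)) with hS2
  have hcardS : S1.card + S2.card = N + 1 - k := by
    rw [hS1, hS2, Finset.card_filter_add_card_filter_not, Nat.card_Icc]
  have hc1 : S1.card ≤ B.card * B.card := by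
    rw [← Finset.card_product]
    apply Finset.card_le_card_of_injOn (fun l => (U l, U' l))
    · intro l hl
      have h := (Finset.mem_filter.mp hl).2
      exact Finset.mem_coe.mpr (Finset.mem_product.mpr ⟨h.1, h.2⟩)
    · intro l hl l' hl' h
      have h1 := (Finset.mem_Icc.mp (Finset.mem_filter.mp hl).1).1
      have h1' := (Finset.mem_Icc.mp (Finset.mem_filter.mp hl').1).1
      have h2 := hU' l h1
      have h2' := hU' l' h1'
      simp only [Prod.mk.injEq] at h
      rw [h.1, h.2] at h2
      omega
  have hout : ∀ l ∈ S2, ∃ x y, x ∉ B ∧ y ∈ B ∧ G.Adj x y ∧ (f x = f y + l ∨ f y = f x + l) := by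
    intro l hl
    have h1 := (Finset.mem_Icc.mp (Finset.mem_filter.mp hl).1).1
    have h2 := (Finset.mem_filter.mp hl).2
    have ha := hU l h1
    have he := hU' l h1
    by_cases hu : U l ∈ B
    · have hu' : U' l ∉ B := fun h => h2 ⟨hu, h⟩
      exact ⟨U' l, U l, hu', hu, ha.symm, Or.inl he⟩
    · have hu' : U' l ∈ B := by
        rcases hW _ _ ha with h | h
        · exact absurd (Finset.mem_union_left _ h) hu
        · exact Finset.mem_union_left _ h
      exact ⟨U l, U' l, hu, hu', ha, Or.inr he⟩
  choose! X Y hX hY hXY hlab using hout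
  have hc2 : S2.card ≤ (Finset.range (N + M + 1) \ A.image f).card := by
    apply Finset.card_le_card_of_injOn (fun l => f (X l))
    · intro l hl
      have h1 := (Finset.mem_Icc.mp (Finset.mem_filter.mp hl).1).2
      have h2 := hMB _ (hY l hl)
      have h3 := hlab l hl
      simp only [Finset.coe_sdiff, Set.mem_sdiff, Finset.mem_coe, Finset.mem_range,
        Finset.mem_image, not_exists, not_and]
      refine ⟨by omega, ?_⟩
      intro a ha hfa
      have : a = X l := hinj hfa
      subst this
      exact hAI ha _ (hXY l hl)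
    · intro l hl l' hl' h
      have hxx : X l = X l' := hinj h
      have hyy : Y l = Y l' := by
        by_contra hne
        apply hX l hl
        rw [hB, Finset.mem_union]
        right
        rw [Set.Finite.mem_toFinset]
        exact ⟨Y l, Y l', hne, hXY l hl, hxx ▸ hXY l' hl'⟩
      have h1 := hlab l hl
      have h2 := hlab l' hl'
      rw [hxx, hyy] at h1
      omega
  have hcardA : (A.image f).card = A.card := Finset.card_image_of_injective A hinj
  have hsub : A.image f ⊆ Finset.range (N + M + 1) := by
    intro n hn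
    obtain ⟨a, ha, rfl⟩ := Finset.mem_image.mp hn
    rw [Finset.mem_range]
    have := hAN a ha
    omega
  have h5 := Finset.card_le_card hsub
  rw [Finset.card_sdiff_of_subset hsub, hcardA, hAc, Finset.card_range] at hc2
  rw [hcardA, hAc, Finset.card_range] at h5
  have hkN : k ≤ N := by omega
  omega

end Pool.Agent.Graceful
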