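import Mathlib
import Pool.Agent.Lib.MP_7616b3_co.Common

set_option autoImplicit false

namespace Pool.Agent.Graceful.Split

open Finset

section

variable {V : Type*} {k : ℕ} {W : Finset V}

theorem le_of_dvd_of_lt {g : ℕ} (hg : 0 < g) {u j : ℤ} (h : (g : ℤ) ∣ u) (hj : (g : ℤ) * j < u) :
    (g : ℤ) * (j + 1) ≤ u := by
  obtain ⟨c, rfl⟩ := h
  have hg' : (0 : ℤ) < g := by exact_mod_cast hg
  have : j < c := lt_of_mul_lt_mul_left hj hg'.le
  exact mul_le_mul_of_nonneg_left (by omega) hg'.le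

theorem emod_le_self' {K M : ℤ} (hK : 0 ≤ K) (hM : 0 < M) : K % M ≤ K := by
  have h1 := Int.emod_add_mul_ediv K M
  have h2 : 0 ≤ K / M := Int.ediv_nonneg hK hM.le
  have h3 : 0 ≤ M * (K / M) := mul_nonneg hM.le h2
  linarith

theorem split_three (hk : 1 ≤ k) (hW : W.card = 3) : ¬ KGraceful (splitGraph W) k := by
  rintro ⟨f, hf⟩
  obtain ⟨g, y, a, b, x0, wmin, wmax, hg, hwmin, hwmax, hx0, ha, hb, hymin, hymm, hyg, hyk, hmem,
    hra, hrb, hS, hsum, hsid, haa, hbb, hab, hax, hbx⟩ :=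
    common (q := 1) hf Nat.prime_three (by norm_num) hk hW
  have hg' : (0 : ℤ) < g := by exact_mod_cast hg
  have h1 : (1 : ℕ) ∈ Icc 1 1 := by simp
  have hPsi := Psi_eq (3 * g) (by omega) (g * ((1 : ℕ) : ℤ)) (by push_cast; linarith)
    (by push_cast; linarith) k hk
  have hS1 := hS 1 h1
  rw [Finset.Icc_self, Finset.sum_singleton] at hsum
  push_cast at hPsi hS1 hsum
  rw [mul_one] at hPsi hS1
  set R : ℤ := ((k : ℤ) - 1) % (3 * g) with hR
  have hR0 : 0 ≤ R := Int.emod_nonneg _ (by omega)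
  have hRk : R ≤ (k : ℤ) - 1 := by
    have hk' : (1 : ℤ) ≤ k := by exact_mod_cast hk
    exact emod_le_self' (by linarith) (by positivity)
  set F : ℤ := Psi (3 * g) g k with hF
  -- `g F ≤ R`
  have hFR : g * F ≤ R := by
    rw [hPsi]
    split_ifs <;> nlinarith
  have hF0 : 0 ≤ F := by
    rw [hPsi]
    split_ifs <;> norm_num
  have hy0 := hymm x0 hx0
  have hya := hymm (a 1) (ha 1)
  have hyb := hymm (b 1) (hb 1)
  have hmax := hmem wmax hwmax
  have hmin := hmem wmin hwmin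
  have kab := hyk (a 1) (ha 1) (b 1) (hb 1) (hab 1 h1 1 h1)
  rcases hmax with rfl | ⟨r, hr, hr'⟩
  · -- the largest hub is `x0`
    have hmin' : y (a 1) = 0 ∨ y (b 1) = 0 := by
      rcases hmin with rfl | ⟨r, hr, hr'⟩
      · exfalso
        rw [hymin] at hya hyb
        have e1 : y (a 1) = 0 := le_antisymm hya.2 hya.1
        have e2 : y (b 1) = 0 := le_antisymm hyb.2 hyb.1
        rw [e1, e2] at kab
        simp at kab
        omega
      · rw [Finset.Icc_self, Finset.mem_singleton] at hr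
        subst hr
        rcases hr' with h | h
        · left; rw [← h]; exact hymin
        · right; rw [← h]; exact hymin
    have kS : (k : ℤ) ≤ y (a 1) + y (b 1) := by
      rcases hmin' with h | h
      · rw [h, zero_sub, abs_neg, abs_of_nonneg hyb.1] at kab
        linarith
      · rw [h, sub_zero, abs_of_nonneg hya.1] at kab
        linarith
    nlinarith
  · -- the largest hub is not `x0`
    rw [Finset.Icc_self, Finset.mem_singleton] at hr
    subst hr
    have : y wmax ≤ y (a 1) + y (b 1) := by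
      rcases hr' with h | h
      · rw [h]; linarith [hyb.1]
      · rw [h]; linarith [hya.1]
    nlinarith

theorem split_five (hk : 1 ≤ k) (hW : W.card = 5) : ¬ KGraceful (splitGraph W) k := by
  rintro ⟨f, hf⟩
  obtain ⟨g, y, a, b, x0, wmin, wmax, hg, hwmin, hwmax, hx0, ha, hb, hymin, hymm, hyg, hyk, hmem,
    hra, hrb, hS, hsum, hsid, haa, hbb, hab, hax, hbx⟩ :=
    common (q := 2) hf Nat.prime_five (by norm_num) hk hW
  have hg' : (0 : ℤ) < g := by exact_mod_cast hg
  have h1 : (1 : ℕ) ∈ Icc 1 2 := by simp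
  have h2 : (2 : ℕ) ∈ Icc 1 2 := by simp
  have hP1 := Psi_eq (5 * g) (by omega) (g * ((1 : ℕ) : ℤ)) (by push_cast; linarith)
    (by push_cast; linarith) k hk
  have hP2 := Psi_eq (5 * g) (by omega) (g * ((2 : ℕ) : ℤ)) (by push_cast; linarith)
    (by push_cast; linarith) k hk
  have hS1 := hS 1 h1
  have hS2 := hS 2 h2
  have hne := hsid 1 h1 2 h2 (by norm_num)
  have hIcc : (Icc 1 2 : Finset ℕ) = {1, 2} := by decide
  rw [hIcc, Finset.sum_pair (by norm_num)] at hsum
  push_cast at hP1 hP2 hS1 hS2 hsum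
  rw [mul_one] at hP1 hS1
  set R : ℤ := ((k : ℤ) - 1) % (5 * g) with hR
  have hR0 : 0 ≤ R := Int.emod_nonneg _ (by omega)
  have hR5 : R < 5 * g := Int.emod_lt_of_pos _ (by linarith)
  have hk' : (1 : ℤ) ≤ k := by exact_mod_cast hk
  have hRk : R ≤ (k : ℤ) - 1 := by
    exact emod_le_self' (by linarith) (by positivity)
  set F1 : ℤ := Psi (5 * g) g k with hF1
  set F2 : ℤ := Psi (5 * g) (g * 2) k with hF2
  -- the values of `F1`, `F2`
  have hcases : F1 = F2 ∨ (F1 = 1 ∧ F2 = 0 ∧ (g : ℤ) ≤ R) ∨ (F1 = 1 ∧ F2 = 2 ∧ 3 * (g : ℤ) ≤ R) := by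
    rw [hP1, hP2]
    split_ifs <;> omega
  have hFle : F1 ≤ F2 + 1 ∧ F2 ≤ F1 + 1 ∧ 0 ≤ F1 ∧ 0 ≤ F2 := by
    rw [hP1, hP2]
    split_ifs <;> omega
  have hy0 := hymm x0 hx0
  have hya := hymm (a 1) (ha 1)
  have hyb := hymm (b 1) (hb 1)
  have hya2 := hymm (a 2) (ha 2)
  have hyb2 := hymm (b 2) (hb 2)
  have hmax := hmem wmax hwmax
  -- the largest hub is `x0`
  have hmaxx : wmax = x0 := by
    rcases hmax with h | ⟨r, hr, hr'⟩
    · exact h
    · exfalso
      rw [hIcc, Finset.mem_insert, Finset.mem_singleton] at hr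
      rcases hr with rfl | rfl
      · have : y wmax ≤ y (a 1) + y (b 1) := by
          rcases hr' with h | h
          · rw [h]; linarith [hyb.1]
          · rw [h]; linarith [hya.1]
        nlinarith [hFle.1, hFle.2.1, hFle.2.2.1, hFle.2.2.2]
      · have : y wmax ≤ y (a 2) + y (b 2) := by
          rcases hr' with h | h
          · rw [h]; linarith [hyb2.1]
          · rw [h]; linarith [hya2.1]
        nlinarith [hFle.1, hFle.2.1, hFle.2.2.1, hFle.2.2.2]
  subst hmaxx
  -- divide by `g`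
  obtain ⟨C, hC⟩ := hyg wmax hwmax
  obtain ⟨A1, hA1⟩ := hyg (a 1) (ha 1)
  obtain ⟨B1, hB1⟩ := hyg (b 1) (hb 1)
  obtain ⟨A2, hA2⟩ := hyg (a 2) (ha 2)
  obtain ⟨B2, hB2⟩ := hyg (b 2) (hb 2)
  have hres : ∀ u v : ℤ, (g : ℤ) * u ≡ g * v [ZMOD (5 * g)] → (u - v) % 5 = 0 := by
    intro u v h
    have h' := mul_modEq (p := 5) hg (by push_cast; exact h)
    have := Int.modEq_iff_dvd.mp h'.symm
    push_cast at this
    exact Int.emod_eq_zero_of_dvd this
  have r1 : (A1 - (C - 1)) % 5 = 0 := by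
    apply hres
    have := hra 1
    rw [hC, hA1] at this
    push_cast at this
    have e : (g : ℤ) * C - g * 1 = g * (C - 1) := by ring
    rw [e] at this
    exact this
  have r2 : (B1 - (C + 1)) % 5 = 0 := by
    apply hres
    have := hrb 1
    rw [hC, hB1] at this
    push_cast at this
    have e : (g : ℤ) * C + g * 1 = g * (C + 1) := by ring
    rw [e] at this
    exact this
  have r3 : (A2 - (C - 2)) % 5 = 0 := by
    apply hres
    have := hra 2
    rw [hC, hA2] at this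
    push_cast at this
    have e : (g : ℤ) * C - g * 2 = g * (C - 2) := by ring
    rw [e] at this
    exact this
  have r4 : (B2 - (C + 2)) % 5 = 0 := by
    apply hres
    have := hrb 2
    rw [hC, hB2] at this
    push_cast at this
    have e : (g : ℤ) * C + g * 2 = g * (C + 2) := by ring
    rw [e] at this
    exact this
  have hnn : ∀ u : ℤ, 0 ≤ (g : ℤ) * u → 0 ≤ u := fun u h => by
    by_contra hcon
    push Not at hcon
    have := mul_neg_of_pos_of_neg hg' hcon
    linarith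
  have a1 : 0 ≤ A1 := hnn _ (by rw [← hA1]; exact hya.1)
  have b1 : 0 ≤ B1 := hnn _ (by rw [← hB1]; exact hyb.1)
  have a2 : 0 ≤ A2 := hnn _ (by rw [← hA2]; exact hya2.1)
  have b2 : 0 ≤ B2 := hnn _ (by rw [← hB2]; exact hyb2.1)
  -- distances
  have hdist : ∀ (j : ℤ) (u v : ℤ), (g : ℤ) * j ≤ R → (k : ℤ) ≤ |(g : ℤ) * u - g * v| →
      u + (j + 1) ≤ v ∨ v + (j + 1) ≤ u := by
    intro j u v hj huv
    have h3 : (g : ℤ) * j < |(g : ℤ) * u - g * v| := by linarith
    have h4 : |(g : ℤ) * u - g * v| = g * |u - v| := by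
      rw [← mul_sub, abs_mul, abs_of_pos hg']
    rw [h4] at h3
    have h5 : j < |u - v| := lt_of_mul_lt_mul_left h3 hg'.le
    rcases abs_cases (u - v) with ⟨h6, _⟩ | ⟨h6, _⟩
    · right; linarith
    · left; linarith
  have n1 := hab 1 h1 1 h1
  have n2 : a 1 ≠ a 2 := fun h => by have := haa 1 h1 2 h2 h; omega
  have n3 := hab 1 h1 2 h2
  have n4 : b 1 ≠ a 2 := fun h => hab 2 h2 1 h1 h.symm
  have n5 : b 1 ≠ b 2 := fun h => by have := hbb 1 h1 2 h2 h; omega
  have n6 := hab 2 h2 2 h2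
  have k1 := hyk _ (ha 1) _ (hb 1) n1
  have k2 := hyk _ (ha 1) _ (ha 2) n2
  have k3 := hyk _ (ha 1) _ (hb 2) n3
  have k4 := hyk _ (hb 1) _ (ha 2) n4
  have k5 := hyk _ (hb 1) _ (hb 2) n5
  have k6 := hyk _ (ha 2) _ (hb 2) n6
  rw [hA1, hB1] at k1
  rw [hA1, hA2] at k2
  rw [hA1, hB2] at k3
  rw [hB1, hA2] at k4
  rw [hB1, hB2] at k5
  rw [hA2, hB2] at k6
  rw [hA1, hB1, hA2, hB2, hC] at hsum
  rw [hA1, hB1, hC] at hS1
  rw [hA2, hB2, hC] at hS2
  rw [hA1, hB1, hA2, hB2] at hne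
  have hcancel : ∀ u v : ℤ, (g : ℤ) * u = g * v → u = v := fun u v h =>
    mul_left_cancel₀ hg'.ne' h
  have hcancel' : ∀ u v : ℤ, (g : ℤ) * u ≤ g * v → u ≤ v := fun u v h =>
    le_of_mul_le_mul_left h hg'
  rcases hcases with h | ⟨e1, e2, hgR⟩ | ⟨e1, e2, hgR⟩
  · apply hne
    rw [hS1, hS2, h]
  · rw [e1] at hS1
    rw [e2] at hS2
    have s1 : A1 + B1 = 2 * C - 25 := hcancel _ _ (by linarith)
    have s2 : A2 + B2 = 2 * C - 20 := hcancel _ _ (by linarith)
    have s3 : C ≤ 15 := by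
      have := hcancel' (2 * (C + ((A1 + B1) + (A2 + B2)))) (5 * C - 15) (by linarith)
      rw [s1, s2] at this
      omega
    exact five_a C A1 B1 A2 B2 s3 s1 s2 a1 b1 a2 b2 r1 r2 r3 r4
      (hdist 1 _ _ (by linarith) k1) (hdist 1 _ _ (by linarith) k2)
      (hdist 1 _ _ (by linarith) k3) (hdist 1 _ _ (by linarith) k4)
      (hdist 1 _ _ (by linarith) k5)
  · rw [e1] at hS1
    rw [e2] at hS2
    have s1 : A1 + B1 = 2 * C - 25 := hcancel _ _ (by linarith)
    have s2 : A2 + B2 = 2 * C - 30 := hcancel _ _ (by linarith)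
    have s3 : C ≤ 19 := by
      have := hcancel' (2 * (C + ((A1 + B1) + (A2 + B2)))) (5 * C - 15) (by linarith)
      rw [s1, s2] at this
      omega
    exact five_b C A1 B1 A2 B2 s3 s1 s2 a1 b1 a2 b2 r1 r2 r3 r4
      (hdist 3 _ _ (by linarith) k1) (hdist 3 _ _ (by linarith) k2)
      (hdist 3 _ _ (by linarith) k3) (hdist 3 _ _ (by linarith) k4)
      (hdist 3 _ _ (by linarith) k5) (hdist 3 _ _ (by linarith) k6)

/-- The join of a complete graph on an odd prime number of vertices and an infinite edgeless graph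
has no `k`-graceful numbering. -/
theorem split_prime {p : ℕ} (hp : p.Prime) (h3 : 3 ≤ p) (hk : 1 ≤ k) (hW : W.card = p) :
    ¬ KGraceful (splitGraph W) k := by
  by_cases h7 : 7 ≤ p
  · exact robust (splitGraph W) W ∅ p 0 k hp (by omega) hk hW (by simp) (fun e _ => Iff.rfl)
  · have : p = 3 ∨ p = 4 ∨ p = 5 ∨ p = 6 := by omega
    rcases this with rfl | rfl | rfl | rfl
    · exact split_three hk hW
    · exact absurd hp (by norm_num)
    · exact split_five hk hW
    · exact absurd hp (by norm_num)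

end

end Pool.Agent.Graceful.Split
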